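import Pool.Agent.Lib.MP_f690a7_gt.Defs2

/-!
Basic algebra of classes, the intersection form, the index and real functionals.
-/

namespace Pool.Agent.Stair

open Finset

variable {ι : Type}

theorem sum_eq_of_subset {M : Type} [AddCommMonoid M] (f : ι →₀ ℤ) (h : ι → ℤ → M)
    (h0 : ∀ i, h i 0 = 0) (S : Finset ι) (hS : f.support ⊆ S) : f.sum h = ∑ i ∈ S, h i (f i) := by
  rw [Finsupp.sum]
  apply Finset.sum_subset hS
  intro i _ hi
  rw [Finsupp.notMem_support_iff.mp hi, h0]

/-- expansions over any finite set containing the support -/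
theorem form_eq_sum (A B : Lat ι) (S : Finset ι) (h : A.2.support ⊆ S) :
    form A B = A.1 * B.1 - ∑ i ∈ S, A.2 i * B.2 i := by
  rw [form, sum_eq_of_subset A.2 (fun i k => k * B.2 i) (by intro i; simp) S h]

theorem kap_eq_sum (A : Lat ι) (S : Finset ι) (h : A.2.support ⊆ S) :
    kap A = 3 * A.1 - ∑ i ∈ S, A.2 i := by
  rw [kap, sum_eq_of_subset A.2 (fun _ k => k) (by intro i; rfl) S h]

theorem vec_eq_sum (v0 : ℝ) (v : ι → ℝ) (A : Lat ι) (S : Finset ι) (h : A.2.support ⊆ S) :
    vec v0 v A = v0 * A.1 - ∑ i ∈ S, v i * A.2 i := by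
  have : vec v0 v A = v0 * A.1 - A.2.sum (fun i k => v i * k) := rfl
  rw [this, sum_eq_of_subset A.2 (fun i k => v i * (k : ℝ)) (by intro i; simp) S h]

theorem idx_eq_sum (A : Lat ι) (S : Finset ι) (h : A.2.support ⊆ S) :
    idx A = A.1 ^ 2 + 3 * A.1 - ∑ i ∈ S, (A.2 i ^ 2 + A.2 i) := by
  rw [idx, form_eq_sum A A S h, kap_eq_sum A S h, Finset.sum_add_distrib]
  have : ∑ i ∈ S, A.2 i * A.2 i = ∑ i ∈ S, A.2 i ^ 2 := by
    apply Finset.sum_congr rfl; intro i _; ring
  rw [this]; ring

theorem form_comm (A B : Lat ι) : form A B = form B A := by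
  classical
  rw [form_eq_sum A B (A.2.support ∪ B.2.support) Finset.subset_union_left,
    form_eq_sum B A (A.2.support ∪ B.2.support) Finset.subset_union_right]
  rw [mul_comm A.1]
  congr 1
  apply Finset.sum_congr rfl; intro i _; ring

theorem form_add_left (A B C : Lat ι) : form (A + B) C = form A C + form B C := by
  classical
  have h1 : (A + B).2.support ⊆ A.2.support ∪ B.2.support := Finsupp.support_add
  rw [form_eq_sum (A + B) C _ h1, form_eq_sum A C _ (Finset.subset_union_left (s₂ := B.2.support)),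
    form_eq_sum B C _ (Finset.subset_union_right (s₁ := A.2.support))]
  have : ∑ i ∈ A.2.support ∪ B.2.support, (A + B).2 i * C.2 i =
      ∑ i ∈ A.2.support ∪ B.2.support, A.2 i * C.2 i +
        ∑ i ∈ A.2.support ∪ B.2.support, B.2 i * C.2 i := by
    rw [← Finset.sum_add_distrib]
    apply Finset.sum_congr rfl
    intro i _
    simp only [Prod.snd_add, Finsupp.add_apply]
    ring
  rw [this]
  simp only [Prod.fst_add]
  ring

theorem form_zero_left (C : Lat ι) : form 0 C = 0 := by simp [form]

theorem form_neg_left (A C : Lat ι) : form (-A) C = -form A C := by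
  have h := form_add_left A (-A) C
  rw [add_neg_cancel, form_zero_left] at h
  linarith

theorem form_sub_left (A B C : Lat ι) : form (A - B) C = form A C - form B C := by
  rw [sub_eq_add_neg, form_add_left, form_neg_left]; ring

/-- the form as an additive map in the first argument -/
noncomputable def formHom (C : Lat ι) : Lat ι →+ ℤ where
  toFun A := form A C
  map_zero' := form_zero_left C
  map_add' A B := form_add_left A B C

theorem form_smul_left (k : ℤ) (A C : Lat ι) : form (k • A) C = k * form A C := by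
  have h := map_zsmul (formHom C) k A
  rw [zsmul_eq_mul] at h
  exact_mod_cast h

theorem form_add_right (A B C : Lat ι) : form A (B + C) = form A B + form A C := by
  rw [form_comm A, form_add_left, form_comm B, form_comm C]

theorem form_sub_right (A B C : Lat ι) : form A (B - C) = form A B - form A C := by
  rw [form_comm A, form_sub_left, form_comm B, form_comm C]

theorem form_neg_right (A C : Lat ι) : form A (-C) = -form A C := by
  rw [form_comm A, form_neg_left, form_comm C]

theorem form_smul_right (k : ℤ) (A C : Lat ι) : form A (k • C) = k * form A C := by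
  rw [form_comm A, form_smul_left, form_comm C]

theorem form_zero_right (A : Lat ι) : form A 0 = 0 := by rw [form_comm, form_zero_left]

theorem form_sum_left {κ : Type} (S : Finset κ) (f : κ → Lat ι) (C : Lat ι) :
    form (∑ i ∈ S, f i) C = ∑ i ∈ S, form (f i) C := by
  exact map_sum (formHom C) f S

theorem form_sum_right {κ : Type} (S : Finset κ) (f : κ → Lat ι) (C : Lat ι) :
    form C (∑ i ∈ S, f i) = ∑ i ∈ S, form C (f i) := by
  rw [form_comm, form_sum_left]
  apply Finset.sum_congr rfl; intro i _; rw [form_comm]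

@[simp] theorem LL_fst : (LL : Lat ι).1 = 1 := rfl
@[simp] theorem LL_snd : (LL : Lat ι).2 = 0 := rfl
@[simp] theorem EE_fst (i : ι) : (EE i).1 = 0 := rfl
@[simp] theorem EE_snd (i : ι) : (EE i).2 = Finsupp.single i (-1) := rfl

theorem form_LL (A : Lat ι) : form A LL = A.1 := by
  simp [form]

theorem form_EE (A : Lat ι) (i : ι) : form A (EE i) = A.2 i := by
  classical
  rw [form_comm, form_eq_sum (EE i) A {i} (by rw [EE_snd]; exact Finsupp.support_single_subset)]
  simp

/-- the anticanonical pairing as an additive map -/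
noncomputable def kapHom : Lat ι →+ ℤ where
  toFun A := kap A
  map_zero' := by simp [kap]
  map_add' A B := by
    classical
    have h1 : (A + B).2.support ⊆ A.2.support ∪ B.2.support := Finsupp.support_add
    rw [kap_eq_sum (A + B) _ h1, kap_eq_sum A _ (Finset.subset_union_left (s₂ := B.2.support)),
      kap_eq_sum B _ (Finset.subset_union_right (s₁ := A.2.support))]
    have : ∑ i ∈ A.2.support ∪ B.2.support, (A + B).2 i =
        ∑ i ∈ A.2.support ∪ B.2.support, A.2 i + ∑ i ∈ A.2.support ∪ B.2.support, B.2 i := by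
      rw [← Finset.sum_add_distrib]
      apply Finset.sum_congr rfl
      intro i _
      simp only [Prod.snd_add, Finsupp.add_apply]
    rw [this]
    simp only [Prod.fst_add]
    ring

theorem kap_add (A B : Lat ι) : kap (A + B) = kap A + kap B := kapHom.map_add A B
theorem kap_sub (A B : Lat ι) : kap (A - B) = kap A - kap B := kapHom.map_sub A B
theorem kap_neg (A : Lat ι) : kap (-A) = -kap A := kapHom.map_neg A
theorem kap_smul (k : ℤ) (A : Lat ι) : kap (k • A) = k * kap A := by
  have h := map_zsmul (kapHom (ι := ι)) k A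
  rw [zsmul_eq_mul] at h
  exact_mod_cast h
theorem kap_LL : kap (LL : Lat ι) = 3 := by simp [kap]
theorem kap_EE (i : ι) : kap (EE i) = 1 := by
  classical
  rw [kap_eq_sum (EE i) {i} (by rw [EE_snd]; exact Finsupp.support_single_subset)]
  simp

theorem vec_LL (v0 : ℝ) (v : ι → ℝ) : vec v0 v LL = v0 := by
  rw [vec_eq_sum v0 v LL ∅ (by simp)]; simp

theorem vec_EE (v0 : ℝ) (v : ι → ℝ) (i : ι) : vec v0 v (EE i) = v i := by
  classical
  rw [vec_eq_sum v0 v (EE i) {i} (by rw [EE_snd]; exact Finsupp.support_single_subset)]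
  simp

/-- every class is a combination of the basic ones -/
theorem lat_eq (A : Lat ι) : A = A.1 • LL - ∑ i ∈ A.2.support, A.2 i • (EE i) := by
  classical
  apply Prod.ext
  · simp [Prod.fst_sum]
  · rw [Prod.snd_sub, Prod.snd_sum]
    simp only [Prod.smul_snd, LL_snd, smul_zero, EE_snd, zero_sub]
    ext j
    simp only [Finsupp.neg_apply, Finsupp.finsetSum_apply, Finsupp.smul_apply, smul_eq_mul,
      Finsupp.single_apply]
    by_cases hj : j ∈ A.2.support
    · rw [Finset.sum_eq_single_of_mem j hj]
      · simp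
      · intro b _ hb; simp [hb]
    · rw [Finset.sum_eq_zero]
      · rw [Finsupp.notMem_support_iff.mp hj]; simp
      · intro b hb
        have : b ≠ j := by rintro rfl; exact hj hb
        simp [this]

/-- a functional in coordinates -/
theorem hom_eq_sum (φ : Lat ι →+ ℝ) (A : Lat ι) (S : Finset ι) (h : A.2.support ⊆ S) :
    φ A = φ LL * A.1 - ∑ i ∈ S, φ (EE i) * A.2 i := by
  conv_lhs => rw [lat_eq A]
  rw [map_sub, map_zsmul, map_sum]
  have : ∑ i ∈ S, φ (EE i) * A.2 i = ∑ i ∈ A.2.support, φ (EE i) * A.2 i := by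
    symm
    apply Finset.sum_subset h
    intro i _ hi
    rw [Finsupp.notMem_support_iff.mp hi]; simp
  rw [this]
  simp only [map_zsmul, zsmul_eq_mul]
  congr 1
  · ring
  · apply Finset.sum_congr rfl; intro i _; ring

/-- every functional is a vector -/
theorem eq_vec (φ : Lat ι →+ ℝ) : φ = vec (φ LL) (fun i => φ (EE i)) := by
  ext A
  rw [hom_eq_sum φ A _ (le_refl _), vec_eq_sum _ _ A _ (le_refl _)]

theorem vec_congr {v0 w0 : ℝ} {v w : ι → ℝ} (h0 : v0 = w0) (h : ∀ i, v i = w i) :
    vec v0 v = vec w0 w := by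
  rw [h0, funext h]

theorem form_eq_vec (F A : Lat ι) :
    (form F A : ℝ) = vec (F.1 : ℝ) (fun i => (F.2 i : ℝ)) A := by
  rw [form_comm, form_eq_sum A F _ (le_refl _), vec_eq_sum _ _ A _ (le_refl _)]
  push_cast
  rw [mul_comm]
  congr 1
  apply Finset.sum_congr rfl; intro i _; ring

theorem idx_LL : idx (LL : Lat ι) = 4 := by rw [idx, form_LL, kap_LL]; rfl

theorem form_EE_self (i : ι) : form (EE i) (EE i) = -1 := by
  classical
  rw [form_EE]; simp

theorem form_EE_ne {i j : ι} (h : i ≠ j) : form (EE i) (EE j) = 0 := by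
  classical
  rw [form_EE]; simp [h]

theorem form_LL_EE (i : ι) : form LL (EE i) = 0 := by
  rw [form_EE]; simp

theorem form_EE_LL (i : ι) : form (EE i) LL = 0 := by
  rw [form_LL]; simp

theorem form_LL_LL : form (LL : Lat ι) LL = 1 := by
  rw [form_LL]; simp

theorem eff_EE (i : ι) : Eff (EE i) := by
  refine ⟨by simp, ?_⟩
  rw [idx, form_EE_self, kap_EE]; norm_num

theorem eff_LL : Eff (LL : Lat ι) := by
  refine ⟨by simp, ?_⟩
  rw [idx_LL]; norm_num

theorem eff_LLE (i : ι) : Eff (LL - EE i : Lat ι) := by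
  refine ⟨by simp, ?_⟩
  rw [idx, form_sub_left, form_sub_right, form_sub_right, form_LL_LL, form_LL_EE, form_EE_LL,
    form_EE_self, kap_sub, kap_LL, kap_EE]
  norm_num

theorem eff_LLEE {i j : ι} (h : i ≠ j) : Eff (LL - EE i - EE j : Lat ι) := by
  refine ⟨by simp, ?_⟩
  have h' : j ≠ i := fun e => h e.symm
  simp only [idx, form_sub_left, form_sub_right, form_LL_LL, form_LL_EE, form_EE_LL,
    form_EE_self, kap_sub, kap_LL, kap_EE, form_EE_ne h, form_EE_ne h']
  norm_num

/-- identity -/
noncomputable def Adm.refl (ι : Type) : Adm ι where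
  e := AddEquiv.refl _
  form_e := fun _ _ => rfl
  kap_e := fun _ => rfl
  eff_e := fun _ => Iff.rfl

/-- inverse -/
noncomputable def Adm.symm (g : Adm ι) : Adm ι where
  e := g.e.symm
  form_e := by
    intro A B
    rw [← g.form_e, g.e.apply_symm_apply, g.e.apply_symm_apply]
  kap_e := by
    intro A
    rw [← g.kap_e, g.e.apply_symm_apply]
  eff_e := by
    intro A
    rw [← g.eff_e, g.e.apply_symm_apply]

/-- first `g`, then `h` -/
noncomputable def Adm.trans (g h : Adm ι) : Adm ι where
  e := g.e.trans h.e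
  form_e := by
    intro A B
    simp only [AddEquiv.trans_apply]
    rw [h.form_e, g.form_e]
  kap_e := by
    intro A
    simp only [AddEquiv.trans_apply]
    rw [h.kap_e, g.kap_e]
  eff_e := by
    intro A
    simp only [AddEquiv.trans_apply]
    rw [h.eff_e, g.eff_e]

theorem Adm.idx_e (g : Adm ι) (A : Lat ι) : idx (g.e A) = idx A := by
  rw [idx, idx, g.form_e, g.kap_e]

theorem Adm.good (g : Adm ι) (φ : Lat ι →+ ℝ) :
    Good (φ.comp g.e.toAddMonoidHom) ↔ Good φ := by
  constructor
  · intro h A hA
    have := h (g.e.symm A) ((g.symm.eff_e A).mpr hA)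
    simpa using this
  · intro h A hA
    exact h (g.e A) ((g.eff_e A).mpr hA)

end Pool.Agent.Stair
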