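import Pool.Agent.Lib.MP_f690a7_gt.Alg

/-!
The fibration lemmas: criteria for a real class to be nonnegative on the test cone, in terms of its
coordinates with respect to the fibration `LL - EE s`.
-/

namespace Pool.Agent.Stair

open Finset

variable {ι : Type}

namespace Fib

/-- the local term -/
def hh (n m : ℤ) (t : ℝ) : ℝ := (m : ℝ) ^ 2 + m - 2 * ((n : ℝ) + 1) * t * m + n * (n + 1) * t ^ 2

theorem hh_ge (n m : ℤ) (t μ : ℝ) (hn : 0 ≤ n) (hμ : 0 ≤ μ) (h0 : μ ≤ t) (h1 : t ≤ 1 - μ) :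
    n * μ ^ 2 ≤ hh n m t := by
  have hnR : (0 : ℝ) ≤ n := by exact_mod_cast hn
  have ht0 : 0 ≤ t := le_trans hμ h0
  have ht1 : 0 ≤ 1 - t := by linarith
  rcases le_total t (1 / 2) with ht | ht
  · have e1 : hh n m t = n * t ^ 2 + ((n * t - m) ^ 2 + m * (1 - 2 * t)) := by
      rw [hh]; ring
    have h2 : μ ^ 2 ≤ t ^ 2 := by
      apply pow_le_pow_left₀ hμ h0
    have h3 : (n : ℝ) * μ ^ 2 ≤ n * t ^ 2 := mul_le_mul_of_nonneg_left h2 hnR
    have h4 : 0 ≤ (n * t - m) ^ 2 + m * (1 - 2 * t) := by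
      rcases le_or_gt 0 m with hm | hm
      · have hmR : (0 : ℝ) ≤ m := by exact_mod_cast hm
        have : 0 ≤ (m : ℝ) * (1 - 2 * t) := mul_nonneg hmR (by linarith)
        have := sq_nonneg ((n : ℝ) * t - m)
        linarith
      · have hm' : m ≤ -1 := by omega
        have hmR : (m : ℝ) ≤ -1 := by exact_mod_cast hm'
        have hnt : 0 ≤ (n : ℝ) * t := mul_nonneg hnR ht0
        have h5 : (m : ℝ) ^ 2 ≤ (n * t - m) ^ 2 := by nlinarith
        have h6 : (m : ℝ) ≤ m * (1 - 2 * t) := by nlinarith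
        have h7 : 0 ≤ (m : ℝ) ^ 2 + m := by nlinarith
        linarith
    rw [e1]; linarith
  · have e1 : hh n m t = n * (1 - t) ^ 2 + ((m - n * t) ^ 2 + (n - m) * (2 * t - 1)) := by
      rw [hh]; ring
    have h2 : μ ^ 2 ≤ (1 - t) ^ 2 := by
      apply pow_le_pow_left₀ hμ; linarith
    have h3 : (n : ℝ) * μ ^ 2 ≤ n * (1 - t) ^ 2 := mul_le_mul_of_nonneg_left h2 hnR
    have h4 : 0 ≤ (m - n * t) ^ 2 + ((n : ℝ) - m) * (2 * t - 1) := by
      rcases le_or_gt m n with hm | hm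
      · have hmR : (0 : ℝ) ≤ (n : ℝ) - m := by
          have : (m : ℝ) ≤ n := by exact_mod_cast hm
          linarith
        have : 0 ≤ ((n : ℝ) - m) * (2 * t - 1) := mul_nonneg hmR (by linarith)
        have := sq_nonneg ((m : ℝ) - n * t)
        linarith
      · have hm' : n + 1 ≤ m := by omega
        have hmR : (n : ℝ) + 1 ≤ m := by exact_mod_cast hm'
        have hnt : (n : ℝ) * t ≤ n := by nlinarith
        have h5 : ((m : ℝ) - n) ^ 2 ≤ (m - n * t) ^ 2 := by nlinarith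
        have h6 : -((m : ℝ) - n) ≤ (n - m) * (2 * t - 1) := by nlinarith
        have h7 : 0 ≤ ((m : ℝ) - n) ^ 2 - (m - n) := by nlinarith
        linarith
    rw [e1]; linarith

theorem hh_nonneg (n m : ℤ) (t : ℝ) (hn : 0 ≤ n) (h0 : 0 ≤ t) (h1 : t ≤ 1) : 0 ≤ hh n m t := by
  have := hh_ge n m t 0 hn (le_refl _) h0 (by linarith)
  simpa using this

/-- the basic inequality -/
theorem core (φ : Lat ι →+ ℝ) (s : ι) (hf : 0 < φ (LL - EE s)) (A : Lat ι) (hA : Eff A)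
    (T : Finset ι) (hs : s ∉ T) (hT : ∀ i, A.2 i ≠ 0 → i ≠ s → i ∈ T) :
    0 ≤ A.1 - A.2 s ∧
    φ (LL - EE s) * (((A.1 - A.2 s : ℤ) : ℝ) ^ 2 - ((A.1 - A.2 s : ℤ) : ℝ) +
      ((A.1 - A.2 s : ℤ) : ℝ) * (((A.1 - A.2 s : ℤ) : ℝ) + 1) *
        (2 * (φ (EE s) / φ (LL - EE s)) - ∑ j ∈ T, (φ (EE j) / φ (LL - EE s)) ^ 2) +
      ∑ j ∈ T, hh (A.1 - A.2 s) (A.2 j) (φ (EE j) / φ (LL - EE s))) ≤
    2 * (((A.1 - A.2 s : ℤ) : ℝ) + 1) * φ A := by
  classical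
  have hsup : A.2.support ⊆ insert s T := by
    intro i hi
    rw [Finsupp.mem_support_iff] at hi
    by_cases his : i = s
    · rw [his]; exact Finset.mem_insert_self _ _
    · exact Finset.mem_insert_of_mem (hT i hi his)
  obtain ⟨hd, hidx⟩ := hA
  have h1 := idx_eq_sum A _ hsup
  rw [Finset.sum_insert hs] at h1
  have h2 := hom_eq_sum φ A _ hsup
  rw [Finset.sum_insert hs] at h2
  have hLL : φ LL = φ (LL - EE s) + φ (EE s) := by rw [map_sub]; ring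
  set f := φ (LL - EE s) with hfdef
  set n := A.1 - A.2 s with hn
  have hms : A.2 s = A.1 - n := by rw [hn]; ring
  rw [hms] at h1 h2
  have hpos : 0 ≤ ∑ i ∈ T, (A.2 i ^ 2 + A.2 i) := by
    apply Finset.sum_nonneg
    intro i _
    rcases le_or_gt 0 (A.2 i) with h | h
    · positivity
    · nlinarith
  have hidx' : 0 ≤ 2 * A.1 * (n + 1) - n ^ 2 + n - ∑ i ∈ T, (A.2 i ^ 2 + A.2 i) := by
    have : idx A = 2 * A.1 * (n + 1) - n ^ 2 + n - ∑ i ∈ T, (A.2 i ^ 2 + A.2 i) := by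
      rw [h1]; ring
    rw [← this]; exact hidx
  have hn0 : 0 ≤ n := by
    by_contra hcon
    have hcon' : n + 1 ≤ 0 := by omega
    have : A.1 * (n + 1) ≤ 0 := mul_nonpos_of_nonneg_of_nonpos hd hcon'
    nlinarith
  refine ⟨hn0, ?_⟩
  have hidxR : (0 : ℝ) ≤ 2 * A.1 * (n + 1) - n ^ 2 + n - ∑ i ∈ T, ((A.2 i : ℝ) ^ 2 + A.2 i) := by
    exact_mod_cast hidx'
  have hnR : (0 : ℝ) ≤ n := by exact_mod_cast hn0
  have h3 : φ A = f * (A.1 + φ (EE s) / f * n - ∑ j ∈ T, φ (EE j) / f * A.2 j) := by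
    rw [h2, hLL]
    have : ∑ j ∈ T, φ (EE j) / f * (A.2 j : ℝ) = (∑ j ∈ T, φ (EE j) * (A.2 j : ℝ)) / f := by
      rw [Finset.sum_div]
      apply Finset.sum_congr rfl; intro j _; ring
    rw [this]
    push_cast
    field_simp
    ring
  have h4 : ∑ j ∈ T, hh n (A.2 j) (φ (EE j) / f) = ∑ i ∈ T, ((A.2 i : ℝ) ^ 2 + A.2 i) -
      2 * ((n : ℝ) + 1) * ∑ j ∈ T, φ (EE j) / f * A.2 j +
      n * (n + 1) * ∑ j ∈ T, (φ (EE j) / f) ^ 2 := by
    rw [Finset.mul_sum, Finset.mul_sum, ← Finset.sum_sub_distrib, ← Finset.sum_add_distrib]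
    apply Finset.sum_congr rfl
    intro j _
    rw [hh]; ring
  rw [h3, h4]
  have h5 : 2 * ((n : ℝ) + 1) * (f * (A.1 + φ (EE s) / f * n - ∑ j ∈ T, φ (EE j) / f * A.2 j)) =
      f * (2 * ((n : ℝ) + 1) * (A.1 + φ (EE s) / f * n - ∑ j ∈ T, φ (EE j) / f * A.2 j)) := by ring
  rw [h5]
  apply mul_le_mul_of_nonneg_left _ hf.le
  linarith

end Fib

theorem fib (φ : Lat ι →+ ℝ) (s : ι) (hf : 0 < φ (LL - EE s)) (h0 : ∀ j, j ≠ s → 0 ≤ φ (EE j))
    (h1 : ∀ j, j ≠ s → φ (EE j) ≤ φ (LL - EE s))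
    (h2 : ∀ T : Finset ι, s ∉ T → ∑ j ∈ T, φ (EE j) ^ 2 ≤ 2 * φ (EE s) * φ (LL - EE s)) :
    Good φ := by
  classical
  intro A hA
  have hs : s ∉ A.2.support.erase s := Finset.notMem_erase _ _
  obtain ⟨hn, hc⟩ := Fib.core φ s hf A hA (A.2.support.erase s) hs (by
    intro i hi his
    rw [Finset.mem_erase]
    exact ⟨his, Finsupp.mem_support_iff.mpr hi⟩)
  set f := φ (LL - EE s) with hfdef
  set n := A.1 - A.2 s with hndef
  set T := A.2.support.erase s with hT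
  have hnR : (0 : ℝ) ≤ n := by exact_mod_cast hn
  have hR : ∑ j ∈ T, (φ (EE j) / f) ^ 2 ≤ 2 * (φ (EE s) / f) := by
    have h3 := h2 T hs
    have : ∑ j ∈ T, (φ (EE j) / f) ^ 2 = (∑ j ∈ T, φ (EE j) ^ 2) / f ^ 2 := by
      rw [Finset.sum_div]
      apply Finset.sum_congr rfl; intro j _; rw [div_pow]
    rw [this, div_le_iff₀ (by positivity)]
    have : 2 * (φ (EE s) / f) * f ^ 2 = 2 * φ (EE s) * f := by field_simp
    rw [this]; exact h3
  have hS : 0 ≤ ∑ j ∈ T, Fib.hh n (A.2 j) (φ (EE j) / f) := by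
    apply Finset.sum_nonneg
    intro j hj
    have hjs : j ≠ s := by rintro rfl; exact hs hj
    apply Fib.hh_nonneg n _ _ hn
    · exact div_nonneg (h0 j hjs) hf.le
    · rw [div_le_one hf]; exact h1 j hjs
  have hnn : (0 : ℝ) ≤ (n : ℝ) ^ 2 - n := by
    have : 0 ≤ n ^ 2 - n := by
      rcases eq_or_lt_of_le hn with h | h
      · rw [← h]; norm_num
      · nlinarith
    exact_mod_cast this
  have hpos : 0 ≤ f * ((n : ℝ) ^ 2 - n + n * (n + 1) *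
      (2 * (φ (EE s) / f) - ∑ j ∈ T, (φ (EE j) / f) ^ 2) +
      ∑ j ∈ T, Fib.hh n (A.2 j) (φ (EE j) / f)) := by
    apply mul_nonneg hf.le
    have : 0 ≤ (n : ℝ) * (n + 1) * (2 * (φ (EE s) / f) - ∑ j ∈ T, (φ (EE j) / f) ^ 2) := by
      apply mul_nonneg (by positivity)
      linarith
    linarith
  have h6 : 0 ≤ 2 * ((n : ℝ) + 1) * φ A := le_trans hpos hc
  have h7 : (0 : ℝ) < 2 * ((n : ℝ) + 1) := by positivity
  exact nonneg_of_mul_nonneg_right h6 h7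

theorem fib' (φ : Lat ι →+ ℝ) (s : ι) (hf : 0 < φ (LL - EE s)) (h0 : ∀ j, j ≠ s → 0 ≤ φ (EE j))
    (h1 : ∀ j, j ≠ s → φ (EE j) ≤ φ (LL - EE s))
    (h2 : ∀ T : Finset ι, s ∉ T →
      ∑ j ∈ T, φ (EE j) ^ 2 ≤ 2 * φ (EE s) * φ (LL - EE s) + φ (LL - EE s) ^ 2)
    (μ : ℝ) (hμ : 0 < μ) (K : Finset ι) (hsK : s ∉ K) (hK : 8 ≤ μ ^ 2 * K.card)
    (hK0 : ∀ j ∈ K, μ * φ (LL - EE s) ≤ φ (EE j))
    (hK1 : ∀ j ∈ K, φ (EE j) ≤ (1 - μ) * φ (LL - EE s)) : Good φ := by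
  classical
  intro A hA
  have hs : s ∉ A.2.support.erase s ∪ K := by
    rw [Finset.mem_union]
    rintro (h | h)
    · exact Finset.notMem_erase _ _ h
    · exact hsK h
  obtain ⟨hn, hc⟩ := Fib.core φ s hf A hA (A.2.support.erase s ∪ K) hs (by
    intro i hi his
    rw [Finset.mem_union, Finset.mem_erase]
    exact Or.inl ⟨his, Finsupp.mem_support_iff.mpr hi⟩)
  set f := φ (LL - EE s) with hfdef
  set n := A.1 - A.2 s with hndef
  set T := A.2.support.erase s ∪ K with hT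
  have hnR : (0 : ℝ) ≤ n := by exact_mod_cast hn
  have hR : ∑ j ∈ T, (φ (EE j) / f) ^ 2 ≤ 2 * (φ (EE s) / f) + 1 := by
    have h3 := h2 T hs
    have : ∑ j ∈ T, (φ (EE j) / f) ^ 2 = (∑ j ∈ T, φ (EE j) ^ 2) / f ^ 2 := by
      rw [Finset.sum_div]
      apply Finset.sum_congr rfl; intro j _; rw [div_pow]
    rw [this, div_le_iff₀ (by positivity)]
    have : (2 * (φ (EE s) / f) + 1) * f ^ 2 = 2 * φ (EE s) * f + f ^ 2 := by field_simp
    rw [this]; exact h3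
  have hS0 : ∀ j ∈ T, 0 ≤ Fib.hh n (A.2 j) (φ (EE j) / f) := by
    intro j hj
    have hjs : j ≠ s := by rintro rfl; exact hs hj
    apply Fib.hh_nonneg n _ _ hn
    · exact div_nonneg (h0 j hjs) hf.le
    · rw [div_le_one hf]; exact h1 j hjs
  have hSK : ∑ j ∈ K, Fib.hh n (A.2 j) (φ (EE j) / f) ≤
      ∑ j ∈ T, Fib.hh n (A.2 j) (φ (EE j) / f) := by
    apply Finset.sum_le_sum_of_subset_of_nonneg
    · rw [hT]; exact Finset.subset_union_right
    · intro j hj _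
      exact hS0 j hj
  have hSK2 : (K.card : ℝ) * (n * μ ^ 2) ≤ ∑ j ∈ K, Fib.hh n (A.2 j) (φ (EE j) / f) := by
    have h3 := Finset.card_nsmul_le_sum K (fun j => Fib.hh n (A.2 j) (φ (EE j) / f)) (n * μ ^ 2)
      (by
        intro j hj
        apply Fib.hh_ge n _ _ μ hn hμ.le
        · rw [le_div_iff₀ hf]; exact hK0 j hj
        · rw [div_le_iff₀ hf]; exact hK1 j hj)
    rwa [nsmul_eq_mul] at h3
  have hpos : 0 ≤ f * ((n : ℝ) ^ 2 - n + n * (n + 1) *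
      (2 * (φ (EE s) / f) - ∑ j ∈ T, (φ (EE j) / f) ^ 2) +
      ∑ j ∈ T, Fib.hh n (A.2 j) (φ (EE j) / f)) := by
    apply mul_nonneg hf.le
    have h8 : (n : ℝ) * (n + 1) * (-1) ≤ (n : ℝ) * (n + 1) *
        (2 * (φ (EE s) / f) - ∑ j ∈ T, (φ (EE j) / f) ^ 2) := by
      apply mul_le_mul_of_nonneg_left _ (by positivity)
      linarith
    have h9 : (n : ℝ) * 8 ≤ (K.card : ℝ) * (n * μ ^ 2) := by
      have := mul_le_mul_of_nonneg_left hK hnR
      linarith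
    nlinarith
  have h6 : 0 ≤ 2 * ((n : ℝ) + 1) * φ A := le_trans hpos hc
  have h7 : (0 : ℝ) < 2 * ((n : ℝ) + 1) := by positivity
  exact nonneg_of_mul_nonneg_right h6 h7

end Pool.Agent.Stair
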