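import Pool.Agent.Lib.MP_f690a7_gt.Crem

/-!
Exceptional classes of the orbit meet nonnegatively (module POSIT of the blueprint).
-/

namespace Pool.Agent.Stair

open Finset

variable {ι : Type}

/-- the affine reflection `m_j ↦ -1 - m_j` -/
noncomputable def tauE (j : ι) (A : Lat ι) : Lat ι := A + (2 * form A (EE j) + 1) • (EE j)

theorem eff_tauE (j : ι) {A : Lat ι} (h : Eff A) : Eff (tauE j A) := by
  refine ⟨?_, ?_⟩
  · have : (tauE j A).1 = A.1 := by simp [tauE]
    rw [this]; exact h.1
  · have h1 : form (tauE j A) (tauE j A) + kap (tauE j A) = form A A + kap A := by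
      rw [tauE, form_add_left, form_add_right, form_add_right, form_smul_left, form_smul_left,
        form_smul_right, form_smul_right, form_EE_self, kap_add, kap_smul, kap_EE,
        form_comm (EE j) A]
      ring
    rw [idx, h1]
    exact h.2

theorem posit (g : Adm ι) (i j : ι) : g.e (EE i) = EE j ∨ 0 ≤ form (g.e (EE i)) (EE j) := by
  classical
  by_cases hk : 0 ≤ form (g.e (EE i)) (EE j)
  · exact Or.inr hk
  left
  push Not at hk
  have hEff : Eff (g.e (EE i)) := (g.eff_e _).mpr (eff_EE i)
  -- apply the affine reflection in `E` to `EE j`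
  have h1 : Eff (g.e (tauE i (g.e.symm (EE j)))) :=
    (g.eff_e _).mpr (eff_tauE i ((g.symm.eff_e _).mpr (eff_EE j)))
  have h2 : g.e (tauE i (g.e.symm (EE j))) =
      EE j + (2 * form (g.e (EE i)) (EE j) + 1) • g.e (EE i) := by
    have h3 : form (g.e.symm (EE j)) (EE i) = form (g.e (EE i)) (EE j) := by
      rw [← g.form_e, g.e.apply_symm_apply, form_comm]
    rw [tauE, map_add, map_zsmul, g.e.apply_symm_apply, h3]
  rw [h2] at h1
  have h4 := h1.1
  have h5 := hEff.1
  have h6 : (EE j + (2 * form (g.e (EE i)) (EE j) + 1) • g.e (EE i) : Lat ι).1 =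
      (2 * form (g.e (EE i)) (EE j) + 1) * (g.e (EE i)).1 := by simp
  rw [h6] at h4
  have h7 : (g.e (EE i)).1 = 0 := by
    by_contra hne
    have hpos : 0 < (g.e (EE i)).1 := lt_of_le_of_ne h5 (Ne.symm hne)
    nlinarith
  have h8 : form (g.e (EE i)) (g.e (EE i)) = -1 := by rw [g.form_e, form_EE_self]
  rw [form_EE] at hk
  set E := g.e (EE i) with hE
  have hj : j ∈ E.2.support := by
    rw [Finsupp.mem_support_iff]; exact hk.ne
  rw [form_eq_sum E E E.2.support (le_refl _), h7] at h8
  have h9 : ∑ l ∈ E.2.support, E.2 l * E.2 l = 1 := by linarith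
  rw [← Finset.add_sum_erase _ _ hj] at h9
  have h10 : 0 ≤ ∑ l ∈ E.2.support.erase j, E.2 l * E.2 l :=
    Finset.sum_nonneg (fun l _ => mul_self_nonneg _)
  have h11 : E.2 j = -1 := by nlinarith
  rw [h11] at h9
  have h12 : ∑ l ∈ E.2.support.erase j, E.2 l * E.2 l = 0 := by linarith
  have h13 := (Finset.sum_eq_zero_iff_of_nonneg (fun l _ => mul_self_nonneg (E.2 l))).mp h12
  apply Prod.ext
  · rw [h7]; rfl
  · ext l
    rw [EE_snd, Finsupp.single_apply]
    by_cases hl : j = l
    · subst hl; rw [if_pos rfl, h11]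
    · rw [if_neg hl]
      by_contra hne
      have hmem : l ∈ E.2.support.erase j := by
        rw [Finset.mem_erase, Finsupp.mem_support_iff]
        exact ⟨fun h => hl h.symm, hne⟩
      exact hne (mul_self_eq_zero.mp (h13 l hmem))

/-- second type of fibre components; `k` is an auxiliary index -/
theorem posit2 (g : Adm ι) (s i j k : ι) (hsi : s ≠ i) (hsk : s ≠ k) (hik : i ≠ k) :
    g.e (LL - EE s - EE i) = EE j ∨ 0 ≤ form (g.e (LL - EE s - EE i)) (EE j) := by
  have h := posit ((cremAdm s i k hsi hsk hik).trans g) k j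
  have h1 : ((cremAdm s i k hsi hsk hik).trans g).e (EE k) = g.e (LL - EE s - EE i) := by
    show g.e (refl3 s i k (EE k)) = _
    rw [refl3_EE_trd hsk hik]
  rwa [h1] at h

end Pool.Agent.Stair
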