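import Pool.Agent.Lib.MP_f690a7_gt.BadCom
import Pool.Agent.Lib.MP_f690a7_gt.Posit

/-!
STAIR module LEMN: on a side with a vector of component type, some component class gives a
strictly better bound than the line through the centre.
-/

namespace Pool.Agent.Stair

open Finset

namespace LemN

open Bad

variable {F : Lat II} {g : Adm II} {s : II} {p q k : ℕ}

/-- the class with entries `ζ` -/
noncomputable def ZZ (ζ : ℕ → ℤ) (N : ℕ) : Lat II := -∑ n ∈ range N, ζ n • (EE (Sum.inr n) : Lat II)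

theorem form_ZZ (ζ : ℕ → ℤ) (N : ℕ) (C : Lat II) :
    form (ZZ ζ N) C = -∑ n ∈ range N, ζ n * C.2 (Sum.inr n) := by
  rw [ZZ, form_neg_left, form_sum_left]
  congr 1
  apply Finset.sum_congr rfl
  intro n _
  rw [form_smul_left, form_comm, form_EE]

theorem ZZ_fst (ζ : ℕ → ℤ) (N : ℕ) : (ZZ ζ N).1 = 0 := by
  have h := form_ZZ ζ N LL
  rw [form_LL] at h
  rw [h]; simp

theorem ZZ_inl (ζ : ℕ → ℤ) (N : ℕ) (i : ℕ) : (ZZ ζ N).2 (Sum.inl i) = 0 := by
  have h := form_ZZ ζ N (EE (Sum.inl i))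
  rw [form_EE] at h
  rw [h, neg_eq_zero]
  apply Finset.sum_eq_zero
  intro n _
  rw [EE_snd, Finsupp.single_apply]
  simp

theorem ZZ_inr (ζ : ℕ → ℤ) (N : ℕ) (m : ℕ) :
    (ZZ ζ N).2 (Sum.inr m) = if m < N then ζ m else 0 := by
  have h := form_ZZ ζ N (EE (Sum.inr m))
  rw [form_EE] at h
  rw [h]
  have h1 : ∀ n, ζ n * (EE (Sum.inr m) : Lat II).2 (Sum.inr n) = if n = m then -ζ m else 0 := by
    intro n
    rw [EE_snd, Finsupp.single_apply]
    by_cases hnm : n = m
    · subst hnm; simp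
    · have : ¬ (Sum.inr m : II) = Sum.inr n := by
        intro h'; exact hnm (Sum.inr.inj h').symm
      rw [if_neg this, if_neg hnm, mul_zero]
  simp only [h1]
  rw [Finset.sum_ite_eq' (range N) m (fun _ => -ζ m)]
  simp only [mem_range]
  split_ifs <;> simp

theorem kap_ZZ (ζ : ℕ → ℤ) (N : ℕ) : kap (ZZ ζ N) = -∑ n ∈ range N, ζ n := by
  have : kap (ZZ ζ N) = kapHom (ZZ ζ N) := rfl
  rw [this, ZZ, map_neg, map_sum]
  congr 1
  apply Finset.sum_congr rfl
  intro n _
  rw [map_zsmul]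
  have : kapHom (EE (Sum.inr n) : Lat II) = 1 := kap_EE _
  rw [this]; simp

theorem idx_ZZ (ζ : ℕ → ℤ) (N : ℕ) : idx (ZZ ζ N) = -∑ n ∈ range N, (ζ n ^ 2 + ζ n) := by
  rw [idx, form_ZZ, kap_ZZ, Finset.sum_add_distrib]
  have : ∑ n ∈ range N, ζ n * (ZZ ζ N).2 (Sum.inr n) = ∑ n ∈ range N, ζ n ^ 2 := by
    apply Finset.sum_congr rfl
    intro n hn
    rw [ZZ_inr, if_pos (mem_range.mp hn)]; ring
  rw [this]; ring

theorem phi_ZZ (F : Lat II) (c z : ℝ) (ζ : ℕ → ℤ) (N : ℕ) :
    phi F c z (ZZ ζ N) = -∑ n ∈ range N, (ζ n : ℝ) * wt 1 z n := by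
  rw [ZZ, map_neg, map_sum]
  congr 1
  apply Finset.sum_congr rfl
  intro n _
  rw [map_zsmul, phi_inr, zsmul_eq_mul]

/-- entries of component classes at ellipsoid indices are nonnegative -/
theorem entry_nonneg (H : Fdat F g s p q 2) {N : ℕ} (hW : ∀ n < N, 0 < wN q p n) {B : Lat II}
    {j : II} (hj : j ≠ s) (hB : B = EE j ∨ B = LL - EE s - EE j) {n : ℕ} (hn : n < N) :
    0 ≤ (g.e.symm B).2 (Sum.inr n) := by
  classical
  have hne : g.e.symm B ≠ EE (Sum.inr n) := by
    intro h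
    have h1 := form_symm H B
    rw [form_ze hj hB, h, form_EE, H.hw n] at h1
    have := hW n hn
    push_cast at h1
    omega
  rw [← form_EE (g.e.symm B)]
  rcases hB with rfl | rfl
  · rcases posit g.symm j (Sum.inr n) with h | h
    · exact absurd h hne
    · exact h
  · obtain ⟨l, hl⟩ := Infinite.exists_notMem_finset ({s, j} : Finset II)
    rw [Finset.mem_insert, Finset.mem_singleton, not_or] at hl
    rcases posit2 g.symm s j (Sum.inr n) l (fun h => hj h.symm) (fun h => hl.1 h.symm)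
      (fun h => hl.2 h.symm) with h | h
    · exact absurd h hne
    · exact h

/-- a component class without domain pairing has no entries at ellipsoid indices -/
theorem entry_eq_zero (H : Fdat F g s p q 2) {N : ℕ} (hW : ∀ n < N, 0 < wN q p n) {B : Lat II}
    {j : II} (hj : j ≠ s) (hB : B = EE j ∨ B = LL - EE s - EE j)
    (h0 : ∑ n ∈ range N, (wN q p n : ℤ) * (g.e.symm B).2 (Sum.inr n) = 0) :
    ∀ n < N, (g.e.symm B).2 (Sum.inr n) = 0 := by
  intro n hn
  have h1 := (Finset.sum_eq_zero_iff_of_nonneg (fun m hm => mul_nonneg (Int.natCast_nonneg _)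
    (entry_nonneg H hW hj hB (mem_range.mp hm)))).mp h0 n (mem_range.mpr hn)
  rcases mul_eq_zero.mp h1 with h | h
  · have := hW n hn
    omega
  · exact h

theorem F1_pos (H : Fdat F g s p q k) : 0 < F.1 := by
  have hE : Eff F := by
    rw [← g.eff_e, H.hF]; exact eff_LLE s
  rcases eq_or_lt_of_le hE.1 with h | h
  · exfalso
    have h1 := form_FF H
    rw [form_eq_sum F F _ (le_refl _), ← h] at h1
    have h2 : ∑ i ∈ F.2.support, F.2 i * F.2 i = 0 := by linarith
    have h3 := (Finset.sum_eq_zero_iff_of_nonneg (fun i _ => mul_self_nonneg (F.2 i))).mp h2 s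
      (Finsupp.mem_support_iff.mpr (Fs_ne H))
    exact Fs_ne H (mul_self_eq_zero.mp h3)
  · exact h

/-- sign analysis of one term -/
theorem term_nonneg {m : ℤ} {f v : ℝ} (hf : 0 < f) (h0 : 0 ≤ v) (h1 : v ≤ f) :
    0 ≤ (m : ℝ) * ((m + 1) * f - 2 * v) := by
  rcases lt_trichotomy m 0 with h | h | h
  · have h2 : (m : ℝ) ≤ -1 := by exact_mod_cast (by omega : m ≤ -1)
    have h3 : ((m : ℝ) + 1) * f ≤ 0 := mul_nonpos_of_nonpos_of_nonneg (by linarith) hf.le
    exact mul_nonneg_of_nonpos_of_nonpos (by linarith) (by linarith)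
  · rw [h]; simp
  · have h2 : (1 : ℝ) ≤ m := by exact_mod_cast (by omega : 1 ≤ m)
    have h3 : 2 * f ≤ ((m : ℝ) + 1) * f := mul_le_mul_of_nonneg_right (by linarith) hf.le
    exact mul_nonneg (by linarith) (by linarith)

theorem term_zero {m : ℤ} (hm : m ≠ 0) {f v : ℝ} (hf : 0 < f) (h0 : 0 ≤ v) (h1 : v ≤ f)
    (h : (m : ℝ) * ((m + 1) * f - 2 * v) = 0) : (m = -1 ∧ v = 0) ∨ (m = 1 ∧ v = f) := by
  have hmr : (m : ℝ) ≠ 0 := by exact_mod_cast hm
  have h2 : ((m : ℝ) + 1) * f = 2 * v := by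
    rcases mul_eq_zero.mp h with h' | h'
    · exact absurd h' hmr
    · linarith
  have h3 : 0 ≤ (m : ℝ) + 1 := by
    by_contra h'
    have := mul_neg_of_neg_of_pos (not_le.mp h') hf
    linarith
  have h4 : (m : ℝ) + 1 ≤ 2 := by
    by_contra h'
    have := mul_lt_mul_of_pos_right (not_le.mp h') hf
    linarith
  have h5 : -1 ≤ m := by exact_mod_cast (by linarith : (-1 : ℝ) ≤ m)
  have h6 : m ≤ 1 := by exact_mod_cast (by linarith : (m : ℝ) ≤ 1)
  have h7 : m = -1 ∨ m = 1 := by omega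
  rcases h7 with rfl | rfl
  · left; refine ⟨rfl, ?_⟩
    push_cast at h2; linarith
  · right; refine ⟨rfl, ?_⟩
    push_cast at h2; linarith

theorem z_ge (H : Fdat F g s p q 2) {σ : ℝ} (hσ : σ = 1 ∨ (σ = -1 ∧ q < p)) {N : ℕ} {x y : ℕ → ℤ}
    {ε : ℝ} (S : Side p q σ N x y ε) {z : ℝ}
    (hz0 : 0 < σ * (z - p / q)) (hz1 : σ * (z - p / q) ≤ ε) : 1 ≤ z := by
  have hq0 : (0 : ℝ) < q := by exact_mod_cast H.hq
  have hpq1 : (1 : ℝ) ≤ (p : ℝ) / q := by
    rw [le_div_iff₀ hq0, one_mul]; exact_mod_cast H.hpq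
  rcases hσ with rfl | ⟨rfl, hlt⟩
  · linarith
  · have hgt : (1 : ℝ) < (p : ℝ) / q := by
      rw [lt_div_iff₀ hq0, one_mul]; exact_mod_cast hlt
    set δ : ℝ := min ((p : ℝ) / q - z) ((p : ℝ) / q - 1) with hδ
    have hδ0 : 0 < δ := lt_min (by linarith) (by linarith)
    have hδ1 : δ ≤ (p : ℝ) / q - z := min_le_left _ _
    have hδ2 : δ ≤ (p : ℝ) / q - 1 := min_le_right _ _
    have e1 := S.lin ((p : ℝ) / q - δ) (by linarith) (by linarith) 0 S.hN
    have e2 := S.lin ((p : ℝ) / q) (by linarith) (by linarith [S.hε]) 0 S.hN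
    have e3 := S.lin z hz0.le hz1 0 S.hN
    rw [wt_zero, min_eq_left (by linarith)] at e1
    rw [wt_zero, min_eq_left (by linarith)] at e2
    rw [wt_zero] at e3
    have e4 : (y 0 : ℝ) * δ = 0 := by linarith
    have e5 : (y 0 : ℝ) = 0 := by
      rcases mul_eq_zero.mp e4 with h | h
      · exact h
      · exact absurd h hδ0.ne'
    rw [e5] at e2 e3
    have e6 : min 1 z = 1 := by linarith
    exact min_eq_left_iff.mp e6

/-- the arithmetic of a component class with vanishing value -/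
theorem no_zero (H : Fdat F g s p q 2) {σ : ℝ} (hσ2 : σ * σ = 1) {N : ℕ} {x y : ℕ → ℤ}
    {ε : ℝ} (S : Side p q σ N x y ε) (ζ : ℕ → ℤ) (h0 : ∑ n ∈ range N, ζ n * (wN q p n : ℤ) = 0)
    {t c1 : ℝ} (ht : 0 < t) (htε : t ≤ ε) (hc1 : c1 - 1 / (2 * q) = σ * t / (4 * p)) {j : II}
    (hj : j ≠ s) {B : Lat II} (hB : B = EE j ∨ B = LL - EE s - EE j)
    (hphi : phi F c1 ((p : ℝ) / q + σ * t) (g.e.symm B) = 0)
    (hZ : form (ZZ ζ N) (g.e.symm B) = -1) : False := by
  classical
  have hq0' : 0 < (q : ℤ) := by exact_mod_cast H.hq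
  have hp0' : 0 < (p : ℤ) := by exact_mod_cast lt_of_lt_of_le H.hq H.hpq
  have hq0 : (0 : ℝ) < q := by exact_mod_cast H.hq
  have hp0 : (0 : ℝ) < p := by exact_mod_cast lt_of_lt_of_le H.hq H.hpq
  have hNF : ∀ n, F.2 (Sum.inr n) = 0 → N ≤ n := by
    intro n hn
    by_contra h
    have h1 := S.hW0 n (not_le.mp h)
    rw [H.hw n] at hn
    push_cast at hn
    omega
  have hNs : ∀ n, N ≤ n → s ≠ Sum.inr n := by
    rintro n hn rfl
    exact Fs_ne H (F_zero H S n hn)
  have hZF : form (ZZ ζ N) F = 0 := by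
    rw [form_ZZ, neg_eq_zero]
    have : ∑ n ∈ range N, ζ n * F.2 (Sum.inr n) = 2 * ∑ n ∈ range N, ζ n * (wN q p n : ℤ) := by
      rw [Finset.mul_sum]
      apply Finset.sum_congr rfl
      intro n _
      rw [H.hw n]; push_cast; ring
    rw [this, h0]; ring
  -- the index belongs to the support
  have hFj : F.2 j ≠ 0 := by
    intro hFj
    have hZj : form (ZZ ζ N) (EE j) = 0 := by
      rw [form_EE]
      rcases j with i | n
      · exact ZZ_inl ζ N i
      · rw [ZZ_inr, if_neg (not_lt.mpr (hNF n hFj))]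
    rcases hB with rfl | rfl
    · rw [symm_fix H hFj, hZj] at hZ
      norm_num at hZ
    · rw [map_sub, symm_F H, symm_fix H hFj, form_sub_right, hZF, hZj] at hZ
      norm_num at hZ
  have hjN : ∀ n, N ≤ n → j ≠ Sum.inr n := by
    rintro n hn rfl
    exact hFj (F_zero H S n hn)
  -- the complementary class
  obtain ⟨B', hB', hsum⟩ : ∃ B' : Lat II, (B' = EE j ∨ B' = LL - EE s - EE j) ∧
      g.e.symm B + g.e.symm B' = F := by
    rcases hB with rfl | rfl
    · refine ⟨_, Or.inr rfl, ?_⟩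
      rw [← map_add, ← symm_F H]
      congr 1
      abel
    · refine ⟨_, Or.inl rfl, ?_⟩
      rw [← map_add, ← symm_F H]
      congr 1
      abel
  have hCz : ∀ B'' : Lat II, (B'' = EE j ∨ B'' = LL - EE s - EE j) →
      ∀ n, N ≤ n → (g.e.symm B'').2 (Sum.inr n) = 0 := by
    intro B'' hB''
    apply entry_zero H S
    intro n hn
    exact orth_ze (hjN n hn) (hNs n hn) hB''
  have hres : ∀ B'' : Lat II, (B'' = EE j ∨ B'' = LL - EE s - EE j) →
      form F (res (g.e.symm B'')) =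
        2 * ∑ n ∈ range N, (wN q p n : ℤ) * (g.e.symm B'').2 (Sum.inr n) := by
    intro B'' hB''
    rw [form_res F _ (hCz B'' hB''), form_symm H, form_ze hj hB'', zero_add, Finset.mul_sum]
    apply Finset.sum_congr rfl
    intro n _
    rw [H.hw n]; push_cast; ring
  have hnn : ∀ B'' : Lat II, (B'' = EE j ∨ B'' = LL - EE s - EE j) →
      0 ≤ ∑ n ∈ range N, (wN q p n : ℤ) * (g.e.symm B'').2 (Sum.inr n) := by
    intro B'' hB''
    have h1 := H.hres _ (eff_ze g hj hB'')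
    rw [hres B'' hB''] at h1
    linarith
  set X : ℤ := ∑ n ∈ range N, x n * (g.e.symm B).2 (Sum.inr n) with hX
  set Y : ℤ := YY y N (g.e.symm B) with hY
  have hWs : ∑ n ∈ range N, (wN q p n : ℤ) * (g.e.symm B).2 (Sum.inr n) = q * X + p * Y := by
    rw [hX, hY, YY, Finset.mul_sum, Finset.mul_sum, ← Finset.sum_add_distrib]
    apply Finset.sum_congr rfl
    intro n hn
    rw [S.hW n (mem_range.mp hn)]; ring
  have hR := hres B hB
  rw [hWs] at hR
  rw [phi_val H hσ2 S _ (hCz B hB) ht.le htε, form_symm H, form_ze hj hB, hc1, ← hY, hR] at hphi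
  push_cast at hphi
  have h1 : σ * t * ((q : ℝ) * X - p * Y) = 0 := by
    have h2 : σ * t / (4 * p) * (2 * (q * X + p * Y)) + 1 / (2 * q) * 0 - σ * t * Y =
        σ * t * ((q : ℝ) * X - p * Y) / (2 * p) := by
      field_simp
      ring
    rw [h2, div_eq_zero_iff] at hphi
    rcases hphi with h | h
    · exact h
    · exact absurd h (by positivity)
  have hσ0 : σ ≠ 0 := by rintro rfl; norm_num at hσ2
  have h2 : (q : ℤ) * X = p * Y := by
    have h3 : (q : ℝ) * X - p * Y = 0 := by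
      rcases mul_eq_zero.mp h1 with h | h
      · exact absurd h (mul_ne_zero hσ0 ht.ne')
      · exact h
    exact_mod_cast (sub_eq_zero.mp h3)
  have hcop : IsCoprime (q : ℤ) (p : ℤ) := by
    rw [Int.isCoprime_iff_gcd_eq_one]
    have := H.cop
    rw [Nat.Coprime, Nat.gcd_comm] at this
    exact_mod_cast this
  obtain ⟨u, hu⟩ : (q : ℤ) ∣ Y := by
    have : (q : ℤ) ∣ p * Y := ⟨X, h2.symm⟩
    exact hcop.dvd_of_dvd_mul_left this
  have hpq0 : 0 < (p : ℤ) * q := mul_pos hp0' hq0'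
  have hs1 : ∑ n ∈ range N, (wN q p n : ℤ) * (g.e.symm B).2 (Sum.inr n) = 2 * (p * q * u) := by
    rw [hWs, h2, hu]; ring
  have hs2 : ∑ n ∈ range N, (wN q p n : ℤ) * (g.e.symm B').2 (Sum.inr n) =
      2 * (p * q * (1 - u)) := by
    have h3 : ∑ n ∈ range N, (wN q p n : ℤ) * F.2 (Sum.inr n) = 2 * (p * q) := by
      have h4 : ∑ n ∈ range N, ((wN q p n : ℤ)) ^ 2 = p * q := by exact_mod_cast S.sumW2
      rw [← h4, Finset.mul_sum]
      apply Finset.sum_congr rfl
      intro n _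
      rw [H.hw n]; push_cast; ring
    have h5 : ∑ n ∈ range N, (wN q p n : ℤ) * F.2 (Sum.inr n) =
        ∑ n ∈ range N, (wN q p n : ℤ) * (g.e.symm B).2 (Sum.inr n) +
        ∑ n ∈ range N, (wN q p n : ℤ) * (g.e.symm B').2 (Sum.inr n) := by
      rw [← Finset.sum_add_distrib]
      apply Finset.sum_congr rfl
      intro n _
      rw [← hsum]
      simp only [Prod.snd_add, Finsupp.add_apply]
      ring
    rw [h3, hs1] at h5
    linarith
  have hu0 : 0 ≤ u := by
    have h3 := hnn B hB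
    rw [hs1] at h3
    by_contra h
    have : (p : ℤ) * q * u < 0 := mul_neg_of_pos_of_neg hpq0 (not_le.mp h)
    linarith
  have hu1 : u ≤ 1 := by
    have h3 := hnn B' hB'
    rw [hs2] at h3
    by_contra h
    have : (p : ℤ) * q * (1 - u) < 0 := mul_neg_of_pos_of_neg hpq0 (by linarith [not_le.mp h])
    linarith
  rw [form_ZZ] at hZ
  rcases (by omega : u = 0 ∨ u = 1) with rfl | rfl
  · have h3 := entry_eq_zero H S.hW0 hj hB (by rw [hs1]; ring)
    have h4 : ∑ n ∈ range N, ζ n * (g.e.symm B).2 (Sum.inr n) = 0 := by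
      apply Finset.sum_eq_zero
      intro n hn
      rw [h3 n (mem_range.mp hn), mul_zero]
    rw [h4] at hZ
    norm_num at hZ
  · have h3 := entry_eq_zero H S.hW0 hj hB' (by rw [hs2]; ring)
    have h4 : ∑ n ∈ range N, ζ n * (g.e.symm B).2 (Sum.inr n) =
        2 * ∑ n ∈ range N, ζ n * (wN q p n : ℤ) := by
      rw [Finset.mul_sum]
      apply Finset.sum_congr rfl
      intro n hn
      have h5 : (g.e.symm B).2 (Sum.inr n) = F.2 (Sum.inr n) := by
        rw [← hsum]
        simp only [Prod.snd_add, Finsupp.add_apply]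
        rw [h3 n (mem_range.mp hn), add_zero]
      rw [h5, H.hw n]; push_cast; ring
    rw [h4, h0] at hZ
    norm_num at hZ

end LemN

section
variable {F : Lat II} {g : Adm II} {s : II} {p q k : ℕ}

open Bad LemN in
/-- on a side with a vector `ζ`, some component class gives a strictly better bound than the line
`c1 z = (p + q z)/(4 p q)` -/
theorem lemN (H : Fdat F g s p q 2) {σ : ℝ} (hσ : σ = 1 ∨ (σ = -1 ∧ q < p)) {N : ℕ} {x y : ℕ → ℤ}
    {ε : ℝ} (S : Side p q σ N x y ε) (ζ : ℕ → ℤ) (h0 : ∑ n ∈ range N, ζ n * (wN q p n : ℤ) = 0)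
    (h2 : ∑ n ∈ range N, (ζ n ^ 2 + ζ n) = 2)
    (hl : ∀ z : ℝ, ∑ n ∈ range N, (ζ n : ℝ) * (x n + y n * z) = σ * (q * z - p)) {z : ℝ}
    (hz0 : 0 < σ * (z - p / q)) (hz1 : σ * (z - p / q) ≤ ε) :
    ∃ j, j ≠ s ∧ F.2 j ≠ 0 ∧ (phi F ((p + q * z) / (4 * p * q)) z (g.e.symm (EE j)) < 0 ∨
      phi F ((p + q * z) / (4 * p * q)) z (g.e.symm (LL - EE s - EE j)) < 0) := by
  classical
  have hσ2 : σ * σ = 1 := by rcases hσ with h | ⟨h, _⟩ <;> rw [h] <;> norm_num
  have hq1 : (1 : ℝ) ≤ q := by exact_mod_cast H.hq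
  have hp1 : (1 : ℝ) ≤ p := by exact_mod_cast (lt_of_lt_of_le H.hq H.hpq)
  have hq0 : (0 : ℝ) < q := by linarith
  have hp0 : (0 : ℝ) < p := by linarith
  obtain ⟨t, ht⟩ : ∃ t, t = σ * (z - p / q) := ⟨_, rfl⟩
  have hzt : z = (p : ℝ) / q + σ * t := by
    rw [ht]
    have : (p : ℝ) / q + σ * (σ * (z - p / q)) = p / q + (σ * σ) * (z - p / q) := by ring
    rw [this, hσ2]; ring
  have ht0 : 0 < t := by rw [ht]; exact hz0
  have htε : t ≤ ε := by rw [ht]; exact hz1
  have hz1' : 1 ≤ z := z_ge H hσ S hz0 hz1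
  set c1 : ℝ := (p + q * z) / (4 * p * q) with hc1
  have hc1v : c1 - 1 / (2 * q) = σ * t / (4 * p) := by
    have : q * z = p + q * (σ * t) := by rw [hzt]; field_simp
    rw [hc1, this]
    field_simp
    ring
  have hfF : phi F c1 z F = q * t := by
    have h := phi_F H hσ2 S ht0.le htε c1
    rw [← hzt] at h
    rw [h]
    have : c1 - (1 / (2 * q) + σ * t / (4 * p)) = 0 := by linarith
    rw [this]; ring
  by_contra hcon
  push Not at hcon
  obtain ⟨f, hf⟩ : ∃ f : ℝ, f = q * t := ⟨_, rfl⟩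
  have hf0 : 0 < f := by rw [hf]; positivity
  rw [← hf] at hfF
  have hNF : ∀ n, F.2 (Sum.inr n) = 0 → N ≤ n := by
    intro n hn
    by_contra h
    have h1 := S.hW0 n (not_le.mp h)
    rw [H.hw n] at hn
    push_cast at hn
    omega
  have hr : σ * (q * z - p) = f := by
    rw [hf, hzt]
    have : σ * ((q : ℝ) * ((p : ℝ) / q + σ * t) - p) = (σ * σ) * (q * t) := by
      field_simp
      ring
    rw [this, hσ2, one_mul]
  have hv : ∀ j, j ≠ s → 0 ≤ phi F c1 z (g.e.symm (EE j)) ∧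
      phi F c1 z (g.e.symm (EE j)) ≤ f := by
    intro j hj
    by_cases h : F.2 j = 0
    · rw [symm_fix H h]
      rcases j with i | n
      · rw [phi_inl, h]
        simp only [Int.cast_zero, mul_zero, le_refl, true_and]
        exact hf0.le
      · rw [phi_inr]
        refine ⟨wt_nonneg zero_le_one (by linarith) n, ?_⟩
        have h3 := wt_anti zero_le_one (by linarith : (0 : ℝ) ≤ z) (hNF n h)
        have h4 := S.tail z hz0.le hz1 0
        rw [add_zero, wt_zero, hr] at h4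
        have h5 : wt 1 z N ≤ f := by rw [h4]; exact min_le_left _ _
        exact h3.trans h5
    · obtain ⟨h3, h4⟩ := hcon j hj h
      refine ⟨h3, ?_⟩
      rw [map_sub, symm_F H, map_sub, hfF] at h4
      linarith
  -- the class Z and its image
  obtain ⟨Z', hZ'⟩ : ∃ Z' : Lat II, Z' = g.e (ZZ ζ N) := ⟨_, rfl⟩
  have hFZ : form F (ZZ ζ N) = 0 := by
    rw [form_comm, form_ZZ, neg_eq_zero]
    have : ∑ n ∈ range N, ζ n * F.2 (Sum.inr n) = 2 * ∑ n ∈ range N, ζ n * (wN q p n : ℤ) := by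
      rw [Finset.mul_sum]
      apply Finset.sum_congr rfl
      intro n _
      rw [H.hw n]; push_cast; ring
    rw [this, h0]; ring
  have hpZ : phi F c1 z (ZZ ζ N) = -f := by
    rw [phi_ZZ]
    congr 1
    rw [← hr, ← hl z]
    apply Finset.sum_congr rfl
    intro n hn
    rw [S.lin z hz0.le hz1 n (mem_range.mp hn)]
  have ha : Z'.1 = Z'.2 s := by
    have h := g.form_e F (ZZ ζ N)
    rw [H.hF, ← hZ', hFZ, form_comm, form_sub_right, form_LL, form_EE] at h
    linarith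
  have hidx : idx Z' = -2 := by
    rw [hZ', g.idx_e, idx_ZZ, h2]
  set T : Finset II := insert s Z'.2.support with hT
  have hTsup : Z'.2.support ⊆ T := Finset.subset_insert _ _
  have hsT : s ∈ T := Finset.mem_insert_self _ _
  have e1 : 2 * Z'.1 - ∑ j ∈ T.erase s, (Z'.2 j ^ 2 + Z'.2 j) = -2 := by
    have h := idx_eq_sum Z' T hTsup
    rw [← Finset.add_sum_erase T _ hsT, hidx, ← ha] at h
    linarith
  have e2 : f * Z'.1 - ∑ j ∈ T.erase s, phi F c1 z (g.e.symm (EE j)) * (Z'.2 j : ℝ) = -f := by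
    have h := hom_eq_sum ((phi F c1 z).comp g.symm.e.toAddMonoidHom) Z' T hTsup
    have hval : ∀ B, ((phi F c1 z).comp g.symm.e.toAddMonoidHom) B = phi F c1 z (g.e.symm B) :=
      fun B => rfl
    simp only [hval] at h
    rw [← Finset.add_sum_erase T _ hsT, ← ha, hZ', g.e.symm_apply_apply, hpZ, ← hZ'] at h
    have h3 : phi F c1 z (g.e.symm LL) - phi F c1 z (g.e.symm (EE s)) = f := by
      rw [← map_sub, ← map_sub, symm_F H, hfF]
    have h4 : phi F c1 z (g.e.symm LL) = f + phi F c1 z (g.e.symm (EE s)) := by linarith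
    rw [h4] at h
    linarith
  have e3 : ∑ j ∈ T.erase s, (Z'.2 j : ℝ) * ((Z'.2 j + 1) * f -
      2 * phi F c1 z (g.e.symm (EE j))) = 0 := by
    have h3 : ∑ j ∈ T.erase s, (Z'.2 j : ℝ) * ((Z'.2 j + 1) * f -
        2 * phi F c1 z (g.e.symm (EE j))) =
        f * ((∑ j ∈ T.erase s, (Z'.2 j ^ 2 + Z'.2 j) : ℤ) : ℝ) -
        2 * ∑ j ∈ T.erase s, phi F c1 z (g.e.symm (EE j)) * (Z'.2 j : ℝ) := by
      push_cast
      rw [Finset.mul_sum, Finset.mul_sum, ← Finset.sum_sub_distrib]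
      apply Finset.sum_congr rfl
      intro j _
      ring
    have h4 : (∑ j ∈ T.erase s, (Z'.2 j ^ 2 + Z'.2 j) : ℤ) = 2 * Z'.1 + 2 := by linarith
    rw [h3, h4]
    push_cast
    linarith
  have e4 := (Finset.sum_eq_zero_iff_of_nonneg (fun j hj =>
    term_nonneg hf0 (hv j (Finset.ne_of_mem_erase hj)).1
      (hv j (Finset.ne_of_mem_erase hj)).2)).mp e3
  -- some entry does not vanish
  obtain ⟨j, hjs, hjne⟩ : ∃ j, j ≠ s ∧ Z'.2 j ≠ 0 := by
    by_contra hno
    push Not at hno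
    have h3 : ∑ j ∈ T.erase s, (Z'.2 j ^ 2 + Z'.2 j) = 0 := by
      apply Finset.sum_eq_zero
      intro j hj
      rw [hno j (Finset.ne_of_mem_erase hj)]; norm_num
    rw [h3] at e1
    have h4 : Z'.1 = -1 := by linarith
    have h5 : Z' = -(LL - EE s) := by
      apply Prod.ext
      · rw [h4]; simp
      · ext i
        by_cases hi : i = s
        · subst hi
          rw [← ha, h4]
          simp
        · rw [hno i hi]
          have : (s : II) ≠ i := fun h => hi h.symm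
          simp [Finsupp.single_apply, this]
    have h6 : ZZ ζ N = -F := by
      apply g.e.injective
      rw [← hZ', h5, map_neg, H.hF]
    have h7 := ZZ_fst ζ N
    rw [h6] at h7
    have h8 := F1_pos H
    simp only [Prod.fst_neg] at h7
    omega
  have hjT : j ∈ T.erase s := by
    rw [Finset.mem_erase]
    exact ⟨hjs, hTsup (Finsupp.mem_support_iff.mpr hjne)⟩
  have hZsymm : ∀ B, form (ZZ ζ N) (g.e.symm B) = form Z' B := by
    intro B
    rw [hZ', ← g.form_e, g.e.apply_symm_apply]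
  rcases term_zero hjne hf0 (hv j hjs).1 (hv j hjs).2 (e4 j hjT) with ⟨hm, hvj⟩ | ⟨hm, hvj⟩
  · refine no_zero H hσ2 S ζ h0 ht0 htε hc1v hjs (Or.inl rfl) ?_ ?_
    · rw [← hzt]; exact hvj
    · rw [hZsymm, form_EE, hm]
  · refine no_zero H hσ2 S ζ h0 ht0 htε hc1v hjs (Or.inr rfl) ?_ ?_
    · rw [← hzt, map_sub, symm_F H, map_sub, hfF, hvj, sub_self]
    · rw [hZsymm, form_sub_right, form_sub_right, form_LL, form_EE, form_EE, hm, ha]
      ring

end

end Pool.Agent.Stair
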