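import Pool.Agent.Lib.MP_f690a7_gt.Eu

/-!
One-sided structure of the Euclidean weights at a rational number.
-/

namespace Pool.Agent.Stair

open Finset

section Weights

namespace SideE

/-- the one-sided structure for a pair of integral affine functions `A = a0 + a1 z`,
`B = b0 + b1 z` with `q A = P` and `q B = Q` at `p / q` -/
structure GS (p q : ℕ) (σ : ℝ) (a0 a1 b0 b1 : ℤ) (P Q : ℕ) (N : ℕ) (x y : ℕ → ℤ) (ε : ℝ) :
    Prop where
  hN : 0 < N
  hε : 0 < ε
  lin : ∀ z : ℝ, 0 ≤ σ * (z - p / q) → σ * (z - p / q) ≤ ε → ∀ n < N,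
    wt (a0 + a1 * z) (b0 + b1 * z) n = x n + y n * z
  tail : ∀ z : ℝ, 0 ≤ σ * (z - p / q) → σ * (z - p / q) ≤ ε → ∀ n,
    wt (a0 + a1 * z) (b0 + b1 * z) (N + n) =
      wt (σ * (q * z - p)) (wt (a0 + a1 * z) (b0 + b1 * z) (N - 1)) n
  hW : ∀ n < N, (wN P Q n : ℤ) = q * x n + p * y n
  hW0 : ∀ n < N, 0 < wN P Q n
  hWN : ∀ n, N ≤ n → wN P Q n = 0
  hW1 : wN P Q (N - 1) = 1
  sumW : ∑ n ∈ Finset.range N, wN P Q n + 1 = P + Q
  sumW2 : ∑ n ∈ Finset.range N, wN P Q n ^ 2 = P * Q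
  pol : ∀ z : ℝ, ∑ n ∈ Finset.range N, (wN P Q n : ℝ) * (x n + y n * z) =
    (P * (b0 + b1 * z) + Q * (a0 + a1 * z) - σ * (q * z - p)) / 2
  sum1 : ∀ z : ℝ, ∑ n ∈ Finset.range N, ((x n : ℝ) + y n * z) =
    (a0 + a1 * z) + (b0 + b1 * z) - σ * (q * z - p) - (x (N - 1) + y (N - 1) * z)
  sum2 : ∀ z : ℝ, ∑ n ∈ Finset.range N, ((x n : ℝ) + y n * z) ^ 2 =
    (a0 + a1 * z) * (b0 + b1 * z) - σ * (q * z - p) * (x (N - 1) + y (N - 1) * z)

/-- the complete relation -/
def CR (p q : ℕ) (σ : ℝ) (N : ℕ) (x y : ℕ → ℤ) : Prop :=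
  ∃ ζ : ℕ → ℤ, ∑ n ∈ range N, (ζ n ^ 2 + ζ n) = 2 ∧
    ∀ z : ℝ, ∑ n ∈ range N, (ζ n : ℝ) * (x n + y n * z) = σ * (q * z - p)

/-- the relation with one component -/
def HR (p q : ℕ) (σ : ℝ) (a0 a1 : ℤ) (N : ℕ) (x y : ℕ → ℤ) : Prop :=
  ∃ ξ : ℕ → ℤ, ∑ n ∈ range N, (ξ n ^ 2 + ξ n) = 0 ∧
    ∀ z : ℝ, (a0 + a1 * z) + ∑ n ∈ range N, (ξ n : ℝ) * (x n + y n * z) = σ * (q * z - p)

/-- one of the two relations with one component, and when there is no complete relation -/
def RR (p q : ℕ) (σ : ℝ) (a0 a1 b0 b1 : ℤ) (P Q : ℕ) (N : ℕ) (x y : ℕ → ℤ) : Prop :=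
  (HR p q σ a0 a1 N x y ∧ (CR p q σ N x y ∨
    (Q = 1 ∧ ∀ z : ℝ, σ * (q * z - p) = (a0 + a1 * z) - P * (b0 + b1 * z)))) ∨
  (HR p q σ b0 b1 N x y ∧ (CR p q σ N x y ∨
    (P = 1 ∧ ∀ z : ℝ, σ * (q * z - p) = (b0 + b1 * z) - Q * (a0 + a1 * z))))

/-- shift a sequence -/
def sh (c : ℤ) (x : ℕ → ℤ) : ℕ → ℤ
  | 0 => c
  | n + 1 => x n

theorem sh_zero (c : ℤ) (x : ℕ → ℤ) : sh c x 0 = c := rfl
theorem sh_succ (c : ℤ) (x : ℕ → ℤ) (n : ℕ) : sh c x (n + 1) = x n := rfl

theorem wN_zero (P Q : ℕ) : wN P Q 0 = min P Q := rfl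

theorem wN_succ_lt {P Q : ℕ} (h : P ≤ Q) (n : ℕ) : wN P Q (n + 1) = wN P (Q - P) n := by
  rw [wN, wN, Nat.add_comm n 1, Eu.euN_add, Eu.euN_one_le h]

theorem wN_succ_gt {P Q : ℕ} (h : Q < P) (n : ℕ) : wN P Q (n + 1) = wN (P - Q) Q n := by
  rw [wN, wN, Nat.add_comm n 1, Eu.euN_add, Eu.euN_one_gt h]

theorem wN_of_zero (P : ℕ) (n : ℕ) : wN P 0 n = 0 := by
  have h : ∀ P n, (euN P 0 n).2 = 0 ∨ (euN P 0 n).1 = 0 := by
    intro P n
    induction n with
    | zero => exact Or.inl rfl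
    | succ n ih =>
      rw [Eu.euN_succ]
      rcases ih with h | h
      · split_ifs with h1
        · right
          show (euN P 0 n).1 = 0
          omega
        · left
          exact h
      · rw [if_pos (by omega)]
        right
        exact h
  rw [wN]
  rcases h P n with h | h
  · rw [h]
    exact Nat.min_eq_right (Nat.zero_le _)
  · rw [h]
    exact Nat.min_eq_left (Nat.zero_le _)

/-- an affine function which is positive at `p / q` is positive nearby -/
theorem near_pos {c0 c1 r σ : ℝ} (hσ : σ = 1 ∨ σ = -1) (h : 0 < c0 + c1 * r) :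
    ∃ ε > 0, ∀ z : ℝ, 0 ≤ σ * (z - r) → σ * (z - r) ≤ ε → 0 ≤ c0 + c1 * z := by
  have h1 : 0 < |c1| + 1 := by positivity
  refine ⟨(c0 + c1 * r) / (|c1| + 1), div_pos h h1, fun z h0 hz => ?_⟩
  rw [le_div_iff₀ h1] at hz
  have h2 : |z - r| = σ * (z - r) := by
    rcases hσ with hs | hs
    · rw [hs, one_mul] at h0 ⊢
      exact abs_of_nonneg h0
    · rw [hs] at h0 ⊢
      rw [neg_one_mul]
      exact abs_of_nonpos (by linarith)
  have h3 : -(|c1| * |z - r|) ≤ c1 * (z - r) := by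
    rw [← abs_mul]
    exact neg_abs_le _
  rw [h2] at h3
  nlinarith

variable {p q : ℕ} {σ : ℝ}

/-- base case: `A - B = q z - p` up to the sign -/
theorem base (hq : 0 < q) (hσ : σ = 1 ∨ σ = -1) {a0 a1 b0 b1 : ℤ} (cop : Nat.Coprime p q)
    (hA : (q : ℤ) * a0 + p * a1 = 1) (hB : (q : ℤ) * b0 + p * b1 = 1)
    (hdet : a0 * b1 - a1 * b0 = 1 ∨ a0 * b1 - a1 * b0 = -1) :
    ∃ (N : ℕ) (x y : ℕ → ℤ) (ε : ℝ), GS p q σ a0 a1 b0 b1 1 1 N x y ε ∧
      RR p q σ a0 a1 b0 b1 1 1 N x y := by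
  -- the difference
  have hk : ∃ k : ℤ, a0 - b0 = -(p * k) ∧ a1 - b1 = q * k := by
    have h1 : (q : ℤ) * (a0 - b0) = -(p * (a1 - b1)) := by linarith
    have h2 : (q : ℤ) ∣ p * (a1 - b1) := by
      rw [← dvd_neg, ← h1]
      exact dvd_mul_right _ _
    have h3 : IsCoprime (q : ℤ) (p : ℤ) := by
      rw [Nat.isCoprime_iff_coprime]
      exact cop.symm
    obtain ⟨k, hk⟩ := h3.dvd_of_dvd_mul_left h2
    refine ⟨k, ?_, hk⟩
    have h4 : (q : ℤ) * (a0 - b0) = q * (-(p * k)) := by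
      rw [h1, hk]
      ring
    have h5 : (q : ℤ) ≠ 0 := by exact_mod_cast hq.ne'
    exact mul_left_cancel₀ h5 h4
  obtain ⟨k, hk0, hk1⟩ := hk
  have hk2 : k = 1 ∨ k = -1 := by
    have h1 : a0 * b1 - a1 * b0 = -k := by
      have e0 : a0 = b0 - p * k := by linarith
      have e1 : a1 = b1 + q * k := by linarith
      rw [e0, e1]
      linear_combination (-k) * hB
    rcases hdet with h | h
    · right
      linarith
    · left
      linarith
  have hq' : (0 : ℝ) < q := by exact_mod_cast hq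
  -- the real form
  have hD : ∀ z : ℝ, ((a0 : ℝ) + a1 * z) - (b0 + b1 * z) = k * (q * z - p) := by
    intro z
    have e0 : (a0 : ℝ) - b0 = -(p * k) := by exact_mod_cast hk0
    have e1 : (a1 : ℝ) - b1 = q * k := by exact_mod_cast hk1
    linear_combination e0 + z * e1
  have hs : ∀ z : ℝ, 0 ≤ σ * (z - p / q) → 0 ≤ σ * (q * z - p) := by
    intro z hz
    have : σ * (q * z - p) = q * (σ * (z - p / q)) := by
      field_simp
    rw [this]
    exact mul_nonneg hq'.le hz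
  have hsign : ((k : ℝ) = σ) ∨ ((k : ℝ) = -σ) := by
    rcases hk2 with h | h <;> rcases hσ with h' | h' <;> rw [h, h'] <;> norm_num
  have hW0' : wN 1 1 0 = 1 := rfl
  have hWs : ∀ n, wN 1 1 (n + 1) = 0 := by
    intro n
    rw [wN_succ_lt (le_refl 1)]
    exact wN_of_zero 1 n
  rcases hsign with hks | hks
  · -- `A` is the larger one
    have hAB : ∀ z : ℝ, ((a0 : ℝ) + a1 * z) - (b0 + b1 * z) = σ * (q * z - p) := by
      intro z
      rw [hD, hks]
    refine ⟨1, fun _ => b0, fun _ => b1, 1, ⟨one_pos, one_pos, ?_, ?_, ?_, ?_, ?_, ?_, ?_, ?_, ?_,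
      ?_, ?_⟩, ?_⟩
    · intro z hz _ n hn
      have hn0 : n = 0 := by omega
      subst hn0
      have := hAB z
      have := hs z hz
      rw [wt_zero, min_eq_right (by linarith)]
    · intro z hz _ n
      have h1 := hAB z
      have h2 := hs z hz
      rw [show 1 - 1 = 0 from rfl, wt_zero, min_eq_right (by linarith), Nat.add_comm 1 n,
        wt_succ_ge (by linarith), h1]
    · intro n hn
      have hn0 : n = 0 := by omega
      subst hn0
      rw [hW0']
      exact_mod_cast hB.symm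
    · intro n hn
      have hn0 : n = 0 := by omega
      subst hn0
      rw [hW0']
      exact one_pos
    · intro n hn
      obtain ⟨m, rfl⟩ := Nat.exists_eq_add_of_le' hn
      exact hWs m
    · exact hW0'
    · rw [Finset.sum_range_one, hW0']
    · rw [Finset.sum_range_one, hW0', one_pow, one_mul]
    · intro z
      rw [Finset.sum_range_one, hW0']
      have := hAB z
      push_cast
      linarith
    · intro z
      rw [Finset.sum_range_one]
      have := hAB z
      linarith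
    · intro z
      rw [Finset.sum_range_one]
      rw [← hAB z]
      ring
    · left
      refine ⟨⟨fun _ => -1, ?_, ?_⟩, Or.inr ⟨rfl, ?_⟩⟩
      · rw [Finset.sum_range_one]
        norm_num
      · intro z
        rw [Finset.sum_range_one]
        have := hAB z
        push_cast
        linarith
      · intro z
        rw [← hAB z]
        push_cast
        ring
  · -- `B` is the larger one
    have hAB : ∀ z : ℝ, ((b0 : ℝ) + b1 * z) - (a0 + a1 * z) = σ * (q * z - p) := by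
      intro z
      have := hD z
      rw [hks] at this
      linarith
    refine ⟨1, fun _ => a0, fun _ => a1, 1, ⟨one_pos, one_pos, ?_, ?_, ?_, ?_, ?_, ?_, ?_, ?_, ?_,
      ?_, ?_⟩, ?_⟩
    · intro z hz _ n hn
      have hn0 : n = 0 := by omega
      subst hn0
      have := hAB z
      have := hs z hz
      rw [wt_zero, min_eq_left (by linarith)]
    · intro z hz _ n
      have h1 := hAB z
      have h2 := hs z hz
      rw [show 1 - 1 = 0 from rfl, wt_zero, min_eq_left (by linarith), Nat.add_comm 1 n,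
        wt_succ_le (by linarith), h1, wt_comm]
    · intro n hn
      have hn0 : n = 0 := by omega
      subst hn0
      rw [hW0']
      exact_mod_cast hA.symm
    · intro n hn
      have hn0 : n = 0 := by omega
      subst hn0
      rw [hW0']
      exact one_pos
    · intro n hn
      obtain ⟨m, rfl⟩ := Nat.exists_eq_add_of_le' hn
      exact hWs m
    · exact hW0'
    · rw [Finset.sum_range_one, hW0']
    · rw [Finset.sum_range_one, hW0', one_pow, one_mul]
    · intro z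
      rw [Finset.sum_range_one, hW0']
      have := hAB z
      push_cast
      linarith
    · intro z
      rw [Finset.sum_range_one]
      have := hAB z
      linarith
    · intro z
      rw [Finset.sum_range_one]
      rw [← hAB z]
      ring
    · right
      refine ⟨⟨fun _ => -1, ?_, ?_⟩, Or.inr ⟨rfl, ?_⟩⟩
      · rw [Finset.sum_range_one]
        norm_num
      · intro z
        rw [Finset.sum_range_one]
        have := hAB z
        push_cast
        linarith
      · intro z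
        rw [← hAB z]
        push_cast
        ring

/-- one step down: the structure for `(A, B - A)` gives that for `(A, B)` -/
theorem step_lt (hq : 0 < q) (hσ : σ = 1 ∨ σ = -1) {a0 a1 b0 b1 : ℤ} {P Q : ℕ} (hPQ : P < Q)
    (hP : 0 < P) (hA : (q : ℤ) * a0 + p * a1 = P) (hB : (q : ℤ) * b0 + p * b1 = Q)
    {N : ℕ} {x y : ℕ → ℤ} {ε : ℝ} (S : GS p q σ a0 a1 (b0 - a0) (b1 - a1) P (Q - P) N x y ε)
    (R : RR p q σ a0 a1 (b0 - a0) (b1 - a1) P (Q - P) N x y) :
    ∃ (N' : ℕ) (x' y' : ℕ → ℤ) (ε' : ℝ), GS p q σ a0 a1 b0 b1 P Q N' x' y' ε' ∧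
      RR p q σ a0 a1 b0 b1 P Q N' x' y' := by
  have hq' : (0 : ℝ) < q := by exact_mod_cast hq
  have hpos : 0 < ((b0 : ℝ) - a0) + ((b1 : ℝ) - a1) * (p / q) := by
    have h1 : (q : ℝ) * (((b0 : ℝ) - a0) + ((b1 : ℝ) - a1) * (p / q)) = Q - P := by
      have h2 : (q : ℝ) * b0 + p * b1 = Q := by exact_mod_cast hB
      have h3 : (q : ℝ) * a0 + p * a1 = P := by exact_mod_cast hA
      rw [← h2, ← h3]
      field_simp
      ring
    have h2 : (0 : ℝ) < Q - P := by
      have : (P : ℝ) < Q := by exact_mod_cast hPQ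
      linarith
    rw [← h1] at h2
    exact (pos_iff_pos_of_mul_pos h2).1 hq'
  obtain ⟨ε1, hε1, hnear⟩ := near_pos hσ hpos
  obtain ⟨M, rfl⟩ : ∃ M, N = M + 1 := ⟨N - 1, by have := S.hN; omega⟩
  have hWz : wN P Q 0 = P := by rw [wN_zero, Nat.min_eq_left hPQ.le]
  have hWs : ∀ n, wN P Q (n + 1) = wN P (Q - P) n := wN_succ_lt hPQ.le
  have hcast : ((Q - P : ℕ) : ℝ) = Q - P := Nat.cast_sub hPQ.le
  refine ⟨M + 1 + 1, sh a0 x, sh a1 y, min ε ε1, ⟨Nat.succ_pos _, lt_min S.hε hε1, ?_, ?_, ?_, ?_,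
    ?_, ?_, ?_, ?_, ?_, ?_, ?_⟩, ?_⟩
  · intro z hz hze n hn
    have h1 := hnear z hz (le_trans hze (min_le_right _ _))
    cases n with
    | zero =>
      rw [wt_zero, sh_zero, sh_zero, min_eq_left (by nlinarith)]
    | succ n =>
      rw [sh_succ, sh_succ, wt_succ_le (by nlinarith),
        ← S.lin z hz (le_trans hze (min_le_left _ _)) n (by omega)]
      congr 1
      push_cast
      ring
  · intro z hz hze n
    have h1 := hnear z hz (le_trans hze (min_le_right _ _))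
    have h2 : ∀ m, wt ((a0 : ℝ) + a1 * z) (b0 + b1 * z) (m + 1) =
        wt (a0 + a1 * z) ((b0 - a0 : ℤ) + (b1 - a1 : ℤ) * z) m := by
      intro m
      rw [wt_succ_le (by nlinarith)]
      congr 1
      push_cast
      ring
    have h3 := S.tail z hz (le_trans hze (min_le_left _ _)) n
    rw [show M + 1 + 1 + n = (M + 1 + n) + 1 by ring, h2, h3, show M + 1 + 1 - 1 = M + 1 from rfl,
      h2, show M + 1 - 1 = M from rfl]
  · intro n hn
    cases n with
    | zero => rw [hWz, sh_zero, sh_zero, hA]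
    | succ n => rw [hWs, sh_succ, sh_succ, S.hW n (by omega)]
  · intro n hn
    cases n with
    | zero => rw [hWz]; exact hP
    | succ n => rw [hWs]; exact S.hW0 n (by omega)
  · intro n hn
    cases n with
    | zero => omega
    | succ n => rw [hWs]; exact S.hWN n (by omega)
  · rw [show M + 1 + 1 - 1 = M + 1 from rfl, hWs]
    exact S.hW1
  · rw [Finset.sum_range_succ', hWz]
    simp only [hWs]
    have := S.sumW
    omega
  · rw [Finset.sum_range_succ', hWz]
    simp only [hWs]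
    rw [S.sumW2]
    have : Q = (Q - P) + P := by omega
    nth_rw 2 [this]
    ring
  · intro z
    rw [Finset.sum_range_succ', hWz, sh_zero, sh_zero]
    simp only [hWs, sh_succ]
    rw [S.pol z, hcast]
    push_cast
    ring
  · intro z
    rw [Finset.sum_range_succ', sh_zero, sh_zero, show M + 1 + 1 - 1 = M + 1 from rfl, sh_succ,
      sh_succ]
    simp only [sh_succ]
    rw [S.sum1 z, show M + 1 - 1 = M from rfl]
    push_cast
    ring
  · intro z
    rw [Finset.sum_range_succ', sh_zero, sh_zero, show M + 1 + 1 - 1 = M + 1 from rfl, sh_succ,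
      sh_succ]
    simp only [sh_succ]
    rw [S.sum2 z, show M + 1 - 1 = M from rfl]
    push_cast
    ring
  · -- relations
    have hsum : ∀ (c : ℤ) (ξ : ℕ → ℤ), ∑ n ∈ range (M + 1 + 1), (sh c ξ n ^ 2 + sh c ξ n) =
        ∑ n ∈ range (M + 1), (ξ n ^ 2 + ξ n) + (c ^ 2 + c) := by
      intro c ξ
      rw [Finset.sum_range_succ', sh_zero]
      simp only [sh_succ]
    have hsum' : ∀ (c : ℤ) (ξ : ℕ → ℤ) (z : ℝ), ∑ n ∈ range (M + 1 + 1),
        (sh c ξ n : ℝ) * (sh a0 x n + sh a1 y n * z) =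
        ∑ n ∈ range (M + 1), (ξ n : ℝ) * (x n + y n * z) + c * (a0 + a1 * z) := by
      intro c ξ z
      rw [Finset.sum_range_succ', sh_zero, sh_zero, sh_zero]
      simp only [sh_succ]
    have hC : CR p q σ (M + 1) x y → CR p q σ (M + 1 + 1) (sh a0 x) (sh a1 y) := by
      rintro ⟨ζ, h1, h2⟩
      refine ⟨sh 0 ζ, ?_, fun z => ?_⟩
      · rw [hsum, h1]
        norm_num
      · rw [hsum', h2 z]
        push_cast
        ring
    rcases R with ⟨⟨ξ, h1, h2⟩, -⟩ | ⟨⟨ξ, h1, h2⟩, h3⟩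
    · left
      refine ⟨⟨sh 0 ξ, ?_, fun z => ?_⟩, Or.inl ⟨sh 1 ξ, ?_, fun z => ?_⟩⟩
      · rw [hsum, h1]
        norm_num
      · rw [hsum', ← h2 z]
        push_cast
        ring
      · rw [hsum, h1]
        norm_num
      · rw [hsum', ← h2 z]
        push_cast
        ring
    · right
      refine ⟨⟨sh (-1) ξ, ?_, fun z => ?_⟩, ?_⟩
      · rw [hsum, h1]
        norm_num
      · rw [hsum', ← h2 z]
        push_cast
        ring
      · rcases h3 with h3 | ⟨h3, h4⟩
        · exact Or.inl (hC h3)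
        · refine Or.inr ⟨h3, fun z => ?_⟩
          rw [h4 z, hcast, h3]
          push_cast
          ring

/-- the structure is symmetric -/
theorem GS.symm {a0 a1 b0 b1 : ℤ} {P Q : ℕ} {N : ℕ} {x y : ℕ → ℤ} {ε : ℝ}
    (hwN : ∀ n, wN Q P n = wN P Q n) (S : GS p q σ a0 a1 b0 b1 P Q N x y ε) :
    GS p q σ b0 b1 a0 a1 Q P N x y ε := by
  refine ⟨S.hN, S.hε, ?_, ?_, ?_, ?_, ?_, ?_, ?_, ?_, ?_, ?_, ?_⟩
  · intro z hz hze n hn
    rw [wt_comm]
    exact S.lin z hz hze n hn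
  · intro z hz hze n
    rw [wt_comm, wt_comm ((b0 : ℝ) + b1 * z)]
    exact S.tail z hz hze n
  · intro n hn
    rw [hwN]
    exact S.hW n hn
  · intro n hn
    rw [hwN]
    exact S.hW0 n hn
  · intro n hn
    rw [hwN]
    exact S.hWN n hn
  · rw [hwN]
    exact S.hW1
  · simp only [hwN]
    rw [S.sumW, Nat.add_comm]
  · simp only [hwN]
    rw [S.sumW2, Nat.mul_comm]
  · intro z
    simp only [hwN]
    rw [S.pol z]
    ring
  · intro z
    rw [S.sum1 z]
    ring
  · intro z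
    rw [S.sum2 z]
    ring

theorem RR.symm {a0 a1 b0 b1 : ℤ} {P Q : ℕ} {N : ℕ} {x y : ℕ → ℤ}
    (R : RR p q σ a0 a1 b0 b1 P Q N x y) : RR p q σ b0 b1 a0 a1 Q P N x y :=
  Or.symm R

theorem wN_comm (P Q n : ℕ) : wN P Q n = wN Q P n := by
  have h := wt_comm (P : ℝ) (Q : ℝ) n
  rw [Eu.wt_cast, Eu.wt_cast] at h
  exact_mod_cast h

/-- the general structure -/
theorem main (hq : 0 < q) (hσ : σ = 1 ∨ σ = -1) (cop : Nat.Coprime p q) (K : ℕ) :
    ∀ (P Q : ℕ) (a0 a1 b0 b1 : ℤ), P + Q ≤ K → 0 < P → 0 < Q → Nat.Coprime P Q →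
      (q : ℤ) * a0 + p * a1 = P → (q : ℤ) * b0 + p * b1 = Q →
      (a0 * b1 - a1 * b0 = 1 ∨ a0 * b1 - a1 * b0 = -1) →
      ∃ (N : ℕ) (x y : ℕ → ℤ) (ε : ℝ), GS p q σ a0 a1 b0 b1 P Q N x y ε ∧
        RR p q σ a0 a1 b0 b1 P Q N x y := by
  induction K with
  | zero =>
    intro P Q a0 a1 b0 b1 h h1 h2
    omega
  | succ K ih =>
    intro P Q a0 a1 b0 b1 hK hP hQ hPQ hA hB hdet
    rcases lt_trichotomy P Q with h | h | h
    · obtain ⟨N, x, y, ε, S, R⟩ := ih P (Q - P) a0 a1 (b0 - a0) (b1 - a1) (by omega) hP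
        (by omega) ((Nat.coprime_sub_self_right h.le).2 hPQ) hA (by
          rw [Nat.cast_sub h.le]
          linarith) (by
          have : a0 * (b1 - a1) - a1 * (b0 - a0) = a0 * b1 - a1 * b0 := by ring
          rwa [this])
      exact step_lt hq hσ h hP hA hB S R
    · subst h
      have hP1 : P = 1 := (Nat.coprime_self P).1 hPQ
      subst hP1
      exact base hq hσ cop (by exact_mod_cast hA) (by exact_mod_cast hB) hdet
    · obtain ⟨N, x, y, ε, S, R⟩ := ih (P - Q) Q (a0 - b0) (a1 - b1) b0 b1 (by omega)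
        (by omega) hQ ((Nat.coprime_sub_self_left h.le).2 hPQ) (by
          rw [Nat.cast_sub h.le]
          linarith) hB (by
          have : (a0 - b0) * b1 - (a1 - b1) * b0 = a0 * b1 - a1 * b0 := by ring
          rwa [this])
      obtain ⟨N', x', y', ε', S', R'⟩ := step_lt hq hσ h hQ hB hA (S.symm (wN_comm _ _))
        R.symm
      exact ⟨N', x', y', ε', S'.symm (wN_comm _ _), R'.symm⟩

end SideE

theorem side_exists (p q : ℕ) (hq : 0 < q) (hpq : q ≤ p) (cop : Nat.Coprime p q) (σ : ℝ)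
    (hσ : σ = 1 ∨ (σ = -1 ∧ q < p)) :
    ∃ (N : ℕ) (x y : ℕ → ℤ) (ε : ℝ), Side p q σ N x y ε ∧
      (¬ (q = 1 ∧ σ = 1) → ∃ ζ : ℕ → ℤ, ∑ n ∈ range N, ζ n * (wN q p n : ℤ) = 0 ∧
        ∑ n ∈ range N, (ζ n ^ 2 + ζ n) = 2 ∧
        ∀ z : ℝ, ∑ n ∈ range N, (ζ n : ℝ) * (x n + y n * z) = σ * (q * z - p)) := by
  have hσ' : σ = 1 ∨ σ = -1 := hσ.imp id And.left
  have hq' : (0 : ℝ) < q := by exact_mod_cast hq
  obtain ⟨N, x, y, ε, S, R⟩ := SideE.main hq hσ' cop (q + p) q p 1 0 0 1 (le_refl _) hq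
    (by omega) cop.symm (by ring) (by ring) (Or.inl (by ring))
  refine ⟨N, x, y, ε, ⟨S.hN, S.hε, ?_, ?_, S.hW, S.hW0, S.hWN, S.hW1, ?_, ?_, ?_, ?_, ?_⟩, ?_⟩
  · intro z hz hze n hn
    have := S.lin z hz hze n hn
    rw [← this]
    congr 1 <;> push_cast <;> ring
  · intro z hz hze n
    have e1 : wt 1 z = wt (((1 : ℤ) : ℝ) + ((0 : ℤ) : ℝ) * z) (((0 : ℤ) : ℝ) + ((1 : ℤ) : ℝ) * z) := by
      congr 1 <;> push_cast <;> ring
    rw [e1]
    exact S.tail z hz hze n
  · have := S.sumW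
    omega
  · rw [S.sumW2, Nat.mul_comm]
  · intro z
    rw [S.pol z]
    push_cast
    ring
  · intro z
    rw [S.sum1 z]
    push_cast
    ring
  · intro z
    rw [S.sum2 z]
    push_cast
    ring
  · intro hex
    have hC : SideE.CR p q σ N x y := by
      rcases R with ⟨-, h | ⟨h1, -⟩⟩ | ⟨-, h | ⟨h1, h2⟩⟩
      · exact h
      · exfalso
        have hq1 : q = 1 := by omega
        rcases hσ with h | ⟨-, h⟩
        · exact hex ⟨hq1, h⟩
        · omega
      · exact h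
      · exfalso
        refine hex ⟨h1, ?_⟩
        have h3 := h2 (p + 1)
        rw [h1] at h3
        push_cast at h3
        linarith
    obtain ⟨ζ, h1, h2⟩ := hC
    refine ⟨ζ, ?_, h1, h2⟩
    have h3 := h2 ((p : ℝ) / q)
    have h4 : ((∑ n ∈ range N, ζ n * (wN q p n : ℤ) : ℤ) : ℝ) = 0 := by
      have h5 : ((∑ n ∈ range N, ζ n * (wN q p n : ℤ) : ℤ) : ℝ) =
          q * ∑ n ∈ range N, (ζ n : ℝ) * (x n + y n * ((p : ℝ) / q)) := by
        rw [Finset.mul_sum]
        push_cast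
        refine Finset.sum_congr rfl fun n hn => ?_
        have h6 : ((wN q p n : ℤ) : ℝ) = q * x n + p * y n := by
          rw [S.hW n (Finset.mem_range.1 hn)]
          push_cast
          ring
        have h7 : ((wN q p n : ℕ) : ℝ) = q * x n + p * y n := by exact_mod_cast h6
        rw [h7]
        field_simp
      rw [h5, h3]
      field_simp
      ring
    exact_mod_cast h4

end Weights

end Pool.Agent.Stair
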