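import Pool.Agent.Lib.MP_f690a7_gt.BadCom
import Pool.Agent.Lib.MP_f690a7_gt.SideE
import Pool.Agent.Lib.MP_f690a7_gt.Fib
import Pool.Agent.Lib.MP_f690a7_gt.LemN

/-!
STAIR module BAD: on a side with a component vector, finitely many classes decide (k = 2).
-/

namespace Pool.Agent.Stair

open Finset

namespace Bad

variable {F : Lat II} {g : Adm II} {s : II} {p q k : ℕ}

/-- the fibration lemma in the situation at hand; everything is reduced to one inequality -/
theorem good_aux (H : Fdat F g s p q 2) {N : ℕ} (hN : ∀ n, F.2 (Sum.inr n) = 0 → N ≤ n)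
    {c z f r ω : ℝ} (hz : 0 ≤ z) (hr : 0 ≤ r) (hω : 0 ≤ ω) (hrω : r ≤ ω) (hrf : r ≤ f) (hf : 0 < f)
    (hfF : phi F c z F = f) (htail : ∀ n, wt 1 z (N + n) = wt r ω n)
    (hJ0 : ∀ j, j ≠ s → F.2 j ≠ 0 → 0 ≤ phi F c z (g.e.symm (EE j)))
    (hJ1 : ∀ j, j ≠ s → F.2 j ≠ 0 → phi F c z (g.e.symm (EE j)) ≤ f)
    (hs : (F.2.support.card : ℝ) * f ^ 2 + r * ω ≤ 2 * phi F c z (g.e.symm (EE s)) * f) :
    Good (phi F c z) := by
  classical
  rw [← Adm.good g.symm]
  have hval : ∀ B, ((phi F c z).comp g.symm.e.toAddMonoidHom) B = phi F c z (g.e.symm B) :=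
    fun B => rfl
  have hfs : ((phi F c z).comp g.symm.e.toAddMonoidHom) (LL - EE s) = f := by
    rw [hval, symm_F H, hfF]
  have hw0 : ∀ n, 0 ≤ wt 1 z n := fun n => wt_nonneg zero_le_one hz n
  have hwr : ∀ n, N ≤ n → wt 1 z n ≤ r := by
    intro n hn
    have h1 := wt_anti zero_le_one hz hn
    have h2 := htail 0
    rw [add_zero, wt_zero, min_eq_left hrω] at h2
    linarith
  have hinl : ∀ i, F.2 (Sum.inl i) = 0 → phi F c z (g.e.symm (EE (Sum.inl i))) = 0 := by
    intro i hi
    rw [symm_fix H hi, phi_inl, hi]; simp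
  have hinr : ∀ n, F.2 (Sum.inr n) = 0 → phi F c z (g.e.symm (EE (Sum.inr n))) = wt 1 z n := by
    intro n hn
    rw [symm_fix H hn, phi_inr]
  apply fib _ s
  · rw [hfs]; exact hf
  · intro j hj
    rw [hval]
    by_cases h : F.2 j = 0
    · rcases j with i | n
      · rw [hinl i h]
      · rw [hinr n h]; exact hw0 n
    · exact hJ0 j hj h
  · intro j hj
    rw [hfs, hval]
    by_cases h : F.2 j = 0
    · rcases j with i | n
      · rw [hinl i h]; exact hf.le
      · rw [hinr n h]; exact (hwr n (hN n h)).trans hrf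
    · exact hJ1 j hj h
  · intro T hT
    rw [hfs]
    simp only [hval]
    refine le_trans ?_ hs
    rw [← Finset.sum_filter_add_sum_filter_not T (fun j => F.2 j ≠ 0)]
    apply add_le_add
    · calc ∑ j ∈ T with F.2 j ≠ 0, phi F c z (g.e.symm (EE j)) ^ 2
          ≤ ∑ j ∈ T with F.2 j ≠ 0, f ^ 2 := by
            apply Finset.sum_le_sum
            intro j hj
            rw [Finset.mem_filter] at hj
            have hjs : j ≠ s := by rintro rfl; exact hT hj.1
            exact pow_le_pow_left₀ (hJ0 j hjs hj.2) (hJ1 j hjs hj.2) 2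
        _ = ((T.filter (fun j => F.2 j ≠ 0)).card : ℝ) * f ^ 2 := by
            rw [Finset.sum_const, nsmul_eq_mul]
        _ ≤ (F.2.support.card : ℝ) * f ^ 2 := by
            apply mul_le_mul_of_nonneg_right _ (sq_nonneg f)
            have : (T.filter (fun j => F.2 j ≠ 0)) ⊆ F.2.support := by
              intro j hj
              rw [Finset.mem_filter] at hj
              exact Finsupp.mem_support_iff.mpr hj.2
            exact_mod_cast Finset.card_le_card this
    · simp only [not_not]
      set U := T.filter (fun j => F.2 j = 0) with hU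
      have hsum : ∑ j ∈ U, phi F c z (g.e.symm (EE j)) ^ 2 = ∑ n ∈ U.toRight, wt 1 z n ^ 2 := by
        conv_lhs => rw [← Finset.toLeft_disjSum_toRight (u := U)]
        rw [Finset.sum_disjSum]
        have h1 : ∑ i ∈ U.toLeft, phi F c z (g.e.symm (EE (Sum.inl i))) ^ 2 = 0 := by
          apply Finset.sum_eq_zero
          intro i hi
          rw [Finset.mem_toLeft, hU, Finset.mem_filter] at hi
          rw [hinl i hi.2]; ring
        rw [h1, zero_add]
        apply Finset.sum_congr rfl
        intro n hn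
        rw [Finset.mem_toRight, hU, Finset.mem_filter] at hn
        rw [hinr n hn.2]
      rw [hsum]
      have hsub : U.toRight ⊆ Finset.Ico N (N + (U.toRight.sup id + 1)) := by
        intro n hn
        rw [Finset.mem_Ico]
        constructor
        · have hn' := hn
          rw [Finset.mem_toRight, hU, Finset.mem_filter] at hn'
          exact hN n hn'.2
        · have : n ≤ U.toRight.sup id := Finset.le_sup (f := id) hn
          omega
      calc ∑ n ∈ U.toRight, wt 1 z n ^ 2
          ≤ ∑ n ∈ Finset.Ico N (N + (U.toRight.sup id + 1)), wt 1 z n ^ 2 :=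
            Finset.sum_le_sum_of_subset_of_nonneg hsub (fun _ _ _ => sq_nonneg _)
        _ = ∑ m ∈ range (U.toRight.sup id + 1), wt r ω m ^ 2 := by
            rw [Finset.sum_Ico_eq_sum_range]
            have : N + (U.toRight.sup id + 1) - N = U.toRight.sup id + 1 := by omega
            rw [this]
            apply Finset.sum_congr rfl
            intro m _
            rw [htail m]
        _ ≤ r * ω := sum_sq_le hr hω _

/-- the final real inequality -/
theorem final_ineq {p q K R η Rs Ys Yn ε t f r a ω v : ℝ} (hp : 1 ≤ p) (hq : 1 ≤ q) (hK : 0 ≤ K)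
    (hR : 0 ≤ R) (hRs : 0 ≤ Rs) (hYs : 0 ≤ Ys) (hYn : 0 ≤ Yn)
    (ht : 0 ≤ t) (hf : 0 < f) (hr : r = q * t) (hfa : f = 4 * p * q * a + r) (hrf : r ≤ f)
    (haη : η * t ≤ a * (R + 1)) (hω : ω ≤ 1 / q + Yn * t)
    (hv : 1 / (2 * q) - Rs * (a + t / (4 * p)) - Ys * t ≤ v)
    (hfε : f ≤ 6 * p * q * ε)
    (hε1 : 12 * p * q ^ 2 * (K + Yn + 2 * Rs + 2 * Ys + 1) * ε ≤ 1)
    (hε2 : 12 * p * q ^ 3 * (K + Yn + 2 * Rs + 2 * Ys + 1) * ε ≤ 4 * p * q * η / (R + 1)) :
    K * f ^ 2 + r * ω ≤ 2 * v * f := by
  have hq0 : 0 < q := by linarith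
  have hp0 : 0 < p := by linarith
  have hr0 : 0 ≤ r := by rw [hr]; positivity
  have ha0 : 0 ≤ a := by
    have : 0 ≤ 4 * p * q * a := by linarith
    by_contra h
    have : 4 * p * q * a < 0 := mul_neg_of_pos_of_neg (by positivity) (not_le.mp h)
    linarith
  have hpq : 1 ≤ p * q := one_le_mul_of_one_le_of_one_le hp hq
  have htf : t ≤ f := by
    have : t ≤ q * t := le_mul_of_one_le_left ht hq
    linarith
  have haf : 4 * a ≤ f := by
    have h0 := mul_le_mul_of_nonneg_right hpq ha0
    linarith [show 4 * p * q * a = 4 * (p * q * a) by ring]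
  have htp : t / (4 * p) ≤ t / 4 := by
    apply div_le_div_of_nonneg_left ht (by norm_num); linarith
  have hct : a + t / (4 * p) ≤ f := by linarith
  set D := K + Yn + 2 * Rs + 2 * Ys + 1 with hD
  have hD0 : 0 < D := by positivity
  -- it is enough to compare with f - r
  have key : D * f ^ 2 ≤ (f - r) / q := by
    rw [le_div_iff₀ hq0]
    have hDf : D * f ≤ D * (6 * p * q * ε) := mul_le_mul_of_nonneg_left hfε hD0.le
    by_cases hcase : 2 * r ≤ f
    · have h1 : q * (D * f) ≤ 1 / 2 := by
        have : q * (D * f) ≤ q * (D * (6 * p * q * ε)) := mul_le_mul_of_nonneg_left hDf hq0.le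
        have h2 : q * (D * (6 * p * q * ε)) = 12 * p * q ^ 2 * D * ε / 2 := by ring
        rw [h2] at this
        linarith
      have h3 : D * f ^ 2 * q = (q * (D * f)) * f := by ring
      rw [h3]
      have h4 := mul_le_mul_of_nonneg_right h1 hf.le
      linarith
    · have hcase' : f < 2 * r := not_le.mp hcase
      have h1 : f - r = 4 * p * q * a := by linarith
      have h2 : 4 * p * q * η / (R + 1) * t ≤ f - r := by
        rw [h1, div_mul_eq_mul_div, div_le_iff₀ (by linarith)]
        have h0 : 0 ≤ 4 * p * q := by positivity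
        have h00 := mul_le_mul_of_nonneg_left haη h0
        linarith [show 4 * p * q * (η * t) = 4 * p * q * η * t by ring,
          show 4 * p * q * (a * (R + 1)) = 4 * p * q * a * (R + 1) by ring]
      have h3 : q * (2 * q * (D * f)) ≤ 4 * p * q * η / (R + 1) := by
        refine le_trans ?_ hε2
        have h4 : q * (2 * q * (D * f)) ≤ q * (2 * q * (D * (6 * p * q * ε))) := by
          apply mul_le_mul_of_nonneg_left _ hq0.le
          apply mul_le_mul_of_nonneg_left hDf (by positivity)
        refine h4.trans (le_of_eq ?_)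
        ring
      have h5 : f ≤ 2 * q * t := by rw [hr] at hcase'; linarith
      have h6 : D * f ^ 2 * q ≤ q * (2 * q * (D * f)) * t := by
        have : D * f ^ 2 * q = (q * (D * f)) * f := by ring
        rw [this]
        have h7 : q * (2 * q * (D * f)) * t = (q * (D * f)) * (2 * q * t) := by ring
        rw [h7]
        apply mul_le_mul_of_nonneg_left h5 (by positivity)
      refine h6.trans (le_trans ?_ h2)
      exact mul_le_mul_of_nonneg_right h3 ht
  have h1 : r * ω ≤ r / q + Yn * f ^ 2 := by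
    have : r * ω ≤ r * (1 / q + Yn * t) := mul_le_mul_of_nonneg_left hω hr0
    have h2 : r * (Yn * t) ≤ Yn * f ^ 2 := by
      have h0 : r * t ≤ f * f := mul_le_mul hrf htf ht hf.le
      have h00 := mul_le_mul_of_nonneg_left h0 hYn
      linarith [show r * (Yn * t) = Yn * (r * t) by ring, show Yn * f ^ 2 = Yn * (f * f) by ring]
    have h3 : r * (1 / q + Yn * t) = r / q + r * (Yn * t) := by ring
    linarith
  have h2 : f / q - 2 * (Rs + Ys) * f ^ 2 ≤ 2 * v * f := by
    have h3 : 1 / (2 * q) - Rs * f - Ys * f ≤ v := by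
      refine le_trans ?_ hv
      have := mul_le_mul_of_nonneg_left hct hRs
      have := mul_le_mul_of_nonneg_left htf hYs
      linarith
    have h4 : 2 * (1 / (2 * q) - Rs * f - Ys * f) * f ≤ 2 * v * f := by
      apply mul_le_mul_of_nonneg_right _ hf.le
      linarith
    refine le_trans (le_of_eq ?_) h4
    field_simp
    ring
  have h3 : (f - r) / q = f / q - r / q := by ring
  rw [h3] at key
  have h4 : D * f ^ 2 = K * f ^ 2 + Yn * f ^ 2 + 2 * (Rs + Ys) * f ^ 2 + f ^ 2 := by rw [hD]; ring
  have h5 : 0 ≤ f ^ 2 := sq_nonneg f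
  linarith

end Bad

section
variable {F : Lat II} {g : Adm II} {s : II} {p q k : ℕ}

open Bad in
theorem core_bad (H : Fdat F g s p q 2) (σ : ℝ) (hσ : σ = 1 ∨ (σ = -1 ∧ q < p))
    (hex : ¬ (q = 1 ∧ σ = 1)) : CoreF F p q 2 σ := by
  classical
  have hσ2 : σ * σ = 1 := by rcases hσ with h | ⟨h, _⟩ <;> rw [h] <;> norm_num
  have hσa : |σ| = 1 := by rcases hσ with h | ⟨h, _⟩ <;> rw [h] <;> norm_num
  obtain ⟨N, x, y, ε0, S, hζ⟩ := side_exists p q H.hq H.hpq H.cop σ hσ
  obtain ⟨ζ, hζ0, hζ2, hζl⟩ := hζ hex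
  have hq1 : (1 : ℝ) ≤ q := by exact_mod_cast H.hq
  have hp1 : (1 : ℝ) ≤ p := by exact_mod_cast (lt_of_lt_of_le H.hq H.hpq)
  have hq0 : (0 : ℝ) < q := by linarith
  have hp0 : (0 : ℝ) < p := by linarith
  have hs := Fs_ne H
  have hNs : ∀ n, N ≤ n → s ≠ Sum.inr n := by
    rintro n hn rfl
    exact hs (F_zero H S n hn)
  have hNF : ∀ n, F.2 (Sum.inr n) = 0 → N ≤ n := by
    intro n hn
    by_contra h
    have h1 := S.hW0 n (not_le.mp h)
    rw [H.hw n] at hn
    push_cast at hn
    omega
  -- facts on the component classes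
  have hcomp : ∀ B j, j ≠ s → F.2 j ≠ 0 → (B = EE j ∨ B = LL - EE s - EE j) →
      ∀ n, N ≤ n → (g.e.symm B).2 (Sum.inr n) = 0 := by
    intro B j hj hFj hB
    apply entry_zero H S
    intro n hn
    apply orth_ze _ (hNs n hn) hB
    rintro rfl
    exact hFj (F_zero H S n hn)
  have hz0 : ∀ t : ℝ, σ * (((p : ℝ) / q + σ * t) - p / q) = t := by
    intro t
    have : σ * (((p : ℝ) / q + σ * t) - p / q) = (σ * σ) * t := by ring
    rw [this, hσ2, one_mul]
  obtain ⟨j0, hj0s, hj0F, hj0⟩ := lemN H hσ S ζ hζ0 hζ2 hζl (z := (p : ℝ) / q + σ * ε0)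
    (by rw [hz0]; exact S.hε) (by rw [hz0])
  obtain ⟨B0, hB0, hneg⟩ : ∃ B0 : Lat II, (B0 = EE j0 ∨ B0 = LL - EE s - EE j0) ∧
      phi F ((p + q * ((p : ℝ) / q + σ * ε0)) / (4 * p * q)) ((p : ℝ) / q + σ * ε0)
        (g.e.symm B0) < 0 := by
    rcases hj0 with h | h
    · exact ⟨_, Or.inl rfl, h⟩
    · exact ⟨_, Or.inr rfl, h⟩
  set C0 := g.e.symm B0 with hC0
  have hC0N := hcomp B0 j0 hj0s hj0F hB0
  have hFC0 : form F C0 = 0 := by rw [hC0, form_symm H, form_ze hj0s hB0]
  have hRz : 0 ≤ form F (res C0) := H.hres _ (eff_ze g hj0s hB0)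
  set R : ℝ := (form F (res C0) : ℝ) with hR
  have hR0 : 0 ≤ R := by rw [hR]; exact_mod_cast hRz
  set Y : ℝ := (YY y N C0 : ℝ) with hY
  set η : ℝ := σ * (Y - R / (4 * p)) with hη
  have hη0 : 0 < η := by
    rw [phi_val H hσ2 S C0 hC0N S.hε.le (le_refl _), hFC0] at hneg
    have h1 : ((p + q * ((p : ℝ) / q + σ * ε0)) / (4 * p * q) - 1 / (2 * q)) = σ * ε0 / (4 * p) := by
      field_simp
      ring
    rw [h1] at hneg
    have h2 : σ * ε0 / (4 * p) * R + 1 / (2 * q) * ((0 : ℤ) : ℝ) - σ * ε0 * Y = -(ε0 * η) := by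
      rw [hη]
      push_cast
      field_simp
      ring
    rw [h2] at hneg
    by_contra h
    have := mul_nonneg S.hε.le (neg_nonneg.mpr (not_lt.mp h))
    linarith
  set Rs : ℝ := |(form F (res (g.e.symm (EE s))) : ℝ)| with hRs
  set Ys : ℝ := |(YY y N (g.e.symm (EE s)) : ℝ)| with hYs
  set Yn : ℝ := |(y (N - 1) : ℝ)| with hYn
  set K : ℝ := (F.2.support.card : ℝ) with hK
  have hRs0 : 0 ≤ Rs := abs_nonneg _
  have hYs0 : 0 ≤ Ys := abs_nonneg _
  have hYn0 : 0 ≤ Yn := abs_nonneg _
  have hK0 : 0 ≤ K := Nat.cast_nonneg _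
  set D : ℝ := K + Yn + 2 * Rs + 2 * Ys + 1 with hD
  have hD0 : 0 < D := by positivity
  set E1 : ℝ := 12 * p * q ^ 2 * D with hE1
  set E2 : ℝ := 12 * p * q ^ 3 * D with hE2
  have hE1p : 0 < E1 := by positivity
  have hE2p : 0 < E2 := by positivity
  have hηp : 0 < 4 * p * q * η / (R + 1) := by positivity
  set ε : ℝ := min ε0 (min (1 / (q * (q + Yn))) (min (1 / E1) (4 * p * q * η / (R + 1) / E2)))
    with hεd
  have hε : 0 < ε := by
    rw [hεd]
    refine lt_min S.hε (lt_min (by positivity) (lt_min (by positivity) (by positivity)))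
  have hεa : ε ≤ ε0 := min_le_left _ _
  have hεb : ε ≤ 1 / (q * (q + Yn)) := (min_le_right _ _).trans (min_le_left _ _)
  have hεc : ε ≤ 1 / E1 := (min_le_right _ _).trans ((min_le_right _ _).trans (min_le_left _ _))
  have hεe : ε ≤ 4 * p * q * η / (R + 1) / E2 :=
    (min_le_right _ _).trans ((min_le_right _ _).trans (min_le_right _ _))
  have hε1 : E1 * ε ≤ 1 := by
    have := mul_le_mul_of_nonneg_left hεc hE1p.le
    rwa [mul_one_div_cancel hE1p.ne'] at this
  have hε2 : E2 * ε ≤ 4 * p * q * η / (R + 1) := by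
    have := mul_le_mul_of_nonneg_left hεe hE2p.le
    rwa [mul_div_cancel₀ _ hE2p.ne'] at this
  set J := F.2.support.erase s with hJ
  refine ⟨(J.image (fun j => g.e.symm (EE j)) ∪ J.image (fun j => g.e.symm (LL - EE s - EE j))) ∪
    {F - EE (Sum.inr N)}, ε, hε, ?_, ?_⟩
  · intro A hA
    rw [Finset.mem_union, Finset.mem_union, Finset.mem_image, Finset.mem_image,
      Finset.mem_singleton] at hA
    rcases hA with (⟨j, hj, rfl⟩ | ⟨j, hj, rfl⟩) | rfl
    · rw [hJ, Finset.mem_erase] at hj
      exact eff_ze g hj.1 (Or.inl rfl)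
    · rw [hJ, Finset.mem_erase] at hj
      exact eff_ze g hj.1 (Or.inr rfl)
    · rw [← g.eff_e, map_sub, H.hF, H.hfix _ (F_zero H S N (le_refl _))]
      exact eff_LLEE (hNs N (le_refl _))
  · intro t c ht htε hz1 hcε hc0 hvol hA
    have hA1 : ∀ j, j ≠ s → F.2 j ≠ 0 → 0 ≤ phi F c ((p : ℝ) / q + σ * t) (g.e.symm (EE j)) := by
      intro j hj hFj
      apply hA
      rw [Finset.mem_union, Finset.mem_union, Finset.mem_image]
      refine Or.inl (Or.inl ⟨j, ?_, rfl⟩)
      rw [hJ, Finset.mem_erase]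
      exact ⟨hj, Finsupp.mem_support_iff.mpr hFj⟩
    have hA2 : ∀ j, j ≠ s → F.2 j ≠ 0 →
        0 ≤ phi F c ((p : ℝ) / q + σ * t) (g.e.symm (LL - EE s - EE j)) := by
      intro j hj hFj
      apply hA
      rw [Finset.mem_union, Finset.mem_union, Finset.mem_image, Finset.mem_image]
      refine Or.inl (Or.inr ⟨j, ?_, rfl⟩)
      rw [hJ, Finset.mem_erase]
      exact ⟨hj, Finsupp.mem_support_iff.mpr hFj⟩
    have hA3 : 0 ≤ phi F c ((p : ℝ) / q + σ * t) (F - EE (Sum.inr N)) := by
      apply hA
      rw [Finset.mem_union, Finset.mem_singleton]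
      exact Or.inr rfl
    have htε0 : t ≤ ε0 := htε.trans hεa
    set z : ℝ := (p : ℝ) / q + σ * t with hz
    set a : ℝ := c - (1 / (2 * q) + σ * t / (4 * p)) with ha
    have hfF := phi_F H hσ2 S ht htε0 c
    rw [← hz, ← ha] at hfF
    set r : ℝ := q * t with hr
    have hr0 : 0 ≤ r := by positivity
    have hrσ : σ * (q * z - p) = r := by
      rw [hz, hr]
      have : σ * ((q : ℝ) * ((p : ℝ) / q + σ * t) - p) = (σ * σ) * (q * t) := by
        field_simp
        ring
      rw [this, hσ2, one_mul]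
    set ω : ℝ := wt 1 z (N - 1) with hω
    have hω0 : 0 ≤ ω := wt_nonneg zero_le_one (by linarith) _
    have htail : ∀ n, wt 1 z (N + n) = wt r ω n := by
      intro n
      rw [S.tail z (by rw [hz0]; exact ht) (by rw [hz0]; exact htε0) n, hrσ]
    have hωv : ω = 1 / q + y (N - 1) * (σ * t) := by
      have hN1 : N - 1 < N := Nat.sub_lt S.hN one_pos
      rw [hω, S.lin z (by rw [hz0]; exact ht) (by rw [hz0]; exact htε0) (N - 1) hN1, hz]
      have hW : (wN q p (N - 1) : ℝ) = q * x (N - 1) + p * y (N - 1) := by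
        exact_mod_cast S.hW (N - 1) hN1
      rw [S.hW1] at hW
      push_cast at hW
      field_simp
      linarith
    have habs : |(y (N - 1) : ℝ) * (σ * t)| = Yn * t := by
      rw [abs_mul, abs_mul, hσa, one_mul, abs_of_nonneg ht]
    have hωle : ω ≤ 1 / q + Yn * t := by
      rw [hωv, ← habs]
      have := le_abs_self ((y (N - 1) : ℝ) * (σ * t))
      linarith
    have hωge : 1 / q - Yn * t ≤ ω := by
      rw [hωv, ← habs]
      have := neg_abs_le ((y (N - 1) : ℝ) * (σ * t))
      linarith
    have hrω : r ≤ ω := by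
      refine le_trans ?_ hωge
      have h1 : t ≤ 1 / (q * (q + Yn)) := htε.trans hεb
      rw [le_div_iff₀ (by positivity)] at h1
      rw [hr, le_sub_iff_add_le, le_div_iff₀ hq0]
      linarith [show t * (q * (q + Yn)) = (q * t + Yn * t) * q by ring]
    have hrf : r ≤ phi F c z F := by
      rw [map_sub, phi_inr] at hA3
      have h1 := htail 0
      rw [add_zero, wt_zero, min_eq_left hrω] at h1
      linarith
    have hfε : phi F c z F ≤ 6 * p * q * ε := by
      rw [hfF, ha]
      have h1 : c - 1 / (2 * q) ≤ ε := by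
        have := (abs_le.mp hcε).2
        have h2 : (1 : ℝ) / (q * ((2 : ℕ) : ℝ)) = 1 / (2 * q) := by push_cast; ring
        rw [h2] at this
        exact this
      have h2 : 4 * (p : ℝ) * q * (c - (1 / (2 * q) + σ * t / (4 * p))) + q * t =
          4 * p * q * (c - 1 / (2 * q)) - q * (σ * t) + q * t := by
        field_simp
        ring
      rw [h2]
      have h3 : -(σ * t) ≤ t := by
        have h4 : |σ * t| = t := by rw [abs_mul, hσa, one_mul, abs_of_nonneg ht]
        have := neg_abs_le (σ * t)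
        linarith
      have h5 : 4 * (p : ℝ) * q * (c - 1 / (2 * q)) ≤ 4 * p * q * ε :=
        mul_le_mul_of_nonneg_left h1 (by positivity)
      have h6 : (q : ℝ) * (-(σ * t)) ≤ q * ε := mul_le_mul_of_nonneg_left (h3.trans htε) hq0.le
      have h7 : (q : ℝ) * t ≤ q * ε := mul_le_mul_of_nonneg_left htε hq0.le
      have h8 : (q : ℝ) * ε ≤ p * (q * ε) :=
        le_mul_of_one_le_left (mul_nonneg hq0.le hε.le) hp1
      linarith [show 4 * (p : ℝ) * q * ε = 4 * (p * (q * ε)) by ring,
        show 6 * (p : ℝ) * q * ε = 6 * (p * (q * ε)) by ring,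
        show (q : ℝ) * (-(σ * t)) = -(q * (σ * t)) by ring]
    rcases eq_or_lt_of_le (hr0.trans hrf) with hf0 | hf0
    · -- the centre
      have hr' : r = 0 := le_antisymm (by rw [hf0]; exact hrf) hr0
      have ht0 : t = 0 := by
        rcases mul_eq_zero.mp hr' with h | h
        · exact absurd h hq0.ne'
        · exact h
      have ha0 : a = 0 := by
        rw [hr', add_zero] at hfF
        rw [hfF] at hf0
        rcases mul_eq_zero.mp hf0.symm with h | h
        · exact absurd h (by positivity)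
        · exact h
      have hc : c = 1 / (2 * q) := by
        rw [ha, ht0] at ha0
        simp only [mul_zero, zero_div, add_zero] at ha0
        linarith
      have hzz : z = (p : ℝ) / q := by rw [hz, ht0]; ring
      rw [hzz, hc]
      exact good_centre H S
    · have haη : η * t ≤ a * (R + 1) := by
        have hcon : 0 ≤ phi F c z C0 := by
          rcases hB0 with h | h
          · rw [hC0, h]; exact hA1 j0 hj0s hj0F
          · rw [hC0, h]; exact hA2 j0 hj0s hj0F
        rw [hz, phi_val H hσ2 S C0 hC0N ht htε0 c, hFC0] at hcon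
        have h1 : (c - 1 / (2 * q)) * R + 1 / (2 * q) * ((0 : ℤ) : ℝ) - σ * t * Y =
            a * R - η * t := by
          rw [ha, hη]
          push_cast
          field_simp
          ring
        rw [h1] at hcon
        have ha0 : 0 ≤ a := by
          by_contra h
          have : 4 * (p : ℝ) * q * a < 0 := mul_neg_of_pos_of_neg (by positivity) (not_le.mp h)
          rw [hfF] at hrf
          linarith
        linarith
      have ha0 : 0 ≤ a := by
        by_contra h
        have : 4 * (p : ℝ) * q * a < 0 := mul_neg_of_pos_of_neg (by positivity) (not_le.mp h)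
        rw [hfF] at hrf
        linarith
      refine good_aux H hNF (f := phi F c z F) (r := r) (ω := ω) (by linarith) hr0 hω0 hrω hrf hf0
        rfl htail hA1 ?_ ?_
      · intro j hj hFj
        have h1 := hA2 j hj hFj
        rw [map_sub, symm_F H, map_sub] at h1
        linarith
      · have hEs : ∀ n, N ≤ n → (g.e.symm (EE s)).2 (Sum.inr n) = 0 := by
          apply entry_zero H S
          intro n hn
          exact form_EE_ne (hNs n hn)
        have hFs : form F (g.e.symm (EE s)) = 1 := by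
          rw [form_symm H, form_sub_left, form_LL_EE, form_EE_self]; norm_num
        have hv : 1 / (2 * q) - Rs * (a + t / (4 * p)) - Ys * t ≤ phi F c z (g.e.symm (EE s)) := by
          rw [hz, phi_val H hσ2 S _ hEs ht htε0 c, hFs]
          have h1 : |c - 1 / (2 * q)| ≤ a + t / (4 * p) := by
            have : c - 1 / (2 * q) = a + σ * (t / (4 * p)) := by rw [ha]; ring
            rw [this]
            refine (abs_add_le _ _).trans ?_
            rw [abs_mul, hσa, one_mul, abs_of_nonneg ha0, abs_of_nonneg (by positivity)]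
          have h2 : -((a + t / (4 * p)) * Rs) ≤
              (c - 1 / (2 * q)) * (form F (res (g.e.symm (EE s))) : ℝ) := by
            have h3 := neg_abs_le ((c - 1 / (2 * q)) * (form F (res (g.e.symm (EE s))) : ℝ))
            rw [abs_mul] at h3
            have h4 := mul_le_mul_of_nonneg_right h1 hRs0
            rw [hRs] at h4 ⊢
            linarith
          have h5 : σ * t * (YY y N (g.e.symm (EE s)) : ℝ) ≤ Ys * t := by
            have h6 := le_abs_self (σ * t * (YY y N (g.e.symm (EE s)) : ℝ))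
            rw [abs_mul, abs_mul, hσa, one_mul, abs_of_nonneg ht, ← hYs] at h6
            linarith
          push_cast
          linarith
        exact final_ineq hp1 hq1 hK0 hR0 hRs0 hYs0 hYn0 ht hf0 hr hfF hrf haη hωle hv
          hfε hε1 hε2

end

end Pool.Agent.Stair
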