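import Pool.Agent.Lib.MP_f690a7_gt.Alg
import Pool.Agent.Stair97.Euc

/-!
Euclidean weights: elementary properties.
-/

namespace Pool.Agent.Stair

open Finset Filter Topology

section Weights

namespace Eu

theorem eu_succ (a b : ℝ) (n : ℕ) : eu a b (n + 1) =
    if (eu a b n).1 ≤ (eu a b n).2 then ((eu a b n).1, (eu a b n).2 - (eu a b n).1)
    else ((eu a b n).1 - (eu a b n).2, (eu a b n).2) := rfl

theorem euN_succ (a b : ℕ) (n : ℕ) : euN a b (n + 1) =
    if (euN a b n).1 ≤ (euN a b n).2 then ((euN a b n).1, (euN a b n).2 - (euN a b n).1)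
    else ((euN a b n).1 - (euN a b n).2, (euN a b n).2) := rfl

theorem eu_add (a b : ℝ) (k n : ℕ) : eu a b (k + n) = eu (eu a b k).1 (eu a b k).2 n := by
  induction n with
  | zero => rfl
  | succ n ih => rw [← Nat.add_assoc, eu_succ, ih, ← eu_succ]

theorem euN_add (a b : ℕ) (k n : ℕ) : euN a b (k + n) = euN (euN a b k).1 (euN a b k).2 n := by
  induction n with
  | zero => rfl
  | succ n ih => rw [← Nat.add_assoc, euN_succ, ih, ← euN_succ]

theorem eu_one_le {a b : ℝ} (h : a ≤ b) : eu a b 1 = (a, b - a) := by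
  rw [show (1 : ℕ) = 0 + 1 from rfl, eu_succ]
  exact if_pos h

theorem eu_one_gt {a b : ℝ} (h : b < a) : eu a b 1 = (a - b, b) := by
  rw [show (1 : ℕ) = 0 + 1 from rfl, eu_succ]
  exact if_neg (not_le.2 h)

theorem euN_one_le {a b : ℕ} (h : a ≤ b) : euN a b 1 = (a, b - a) := by
  rw [show (1 : ℕ) = 0 + 1 from rfl, euN_succ]
  exact if_pos h

theorem euN_one_gt {a b : ℕ} (h : b < a) : euN a b 1 = (a - b, b) := by
  rw [show (1 : ℕ) = 0 + 1 from rfl, euN_succ]
  exact if_neg (not_le.2 h)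

/-- the states of `(a, b)` and `(b, a)` agree up to the order -/
theorem eu_swap (a b : ℝ) (n : ℕ) : eu a b n = eu b a n ∨
    ((eu a b n).1 = (eu b a n).2 ∧ (eu a b n).2 = (eu b a n).1) := by
  induction n with
  | zero => exact Or.inr ⟨rfl, rfl⟩
  | succ n ih =>
    rcases ih with h | ⟨h1, h2⟩
    · left
      rw [eu_succ, eu_succ, h]
    · rw [eu_succ, eu_succ, h1, h2]
      rcases lt_trichotomy (eu b a n).1 (eu b a n).2 with h | h | h
      · right
        rw [if_neg (not_le.2 h), if_pos h.le]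
        exact ⟨rfl, rfl⟩
      · left
        rw [h]
      · right
        rw [if_pos h.le, if_neg (not_le.2 h)]
        exact ⟨rfl, rfl⟩

theorem eu_scale {r : ℝ} (hr : 0 < r) (a b : ℝ) (n : ℕ) :
    eu (r * a) (r * b) n = (r * (eu a b n).1, r * (eu a b n).2) := by
  induction n with
  | zero => rfl
  | succ n ih =>
    rw [eu_succ, eu_succ, ih]
    simp only [mul_le_mul_iff_right₀ hr]
    split_ifs
    · simp only [mul_sub]
    · simp only [mul_sub]

theorem eu_cast (a b : ℕ) (n : ℕ) : eu (a : ℝ) (b : ℝ) n =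
    (((euN a b n).1 : ℝ), ((euN a b n).2 : ℝ)) := by
  induction n with
  | zero => rfl
  | succ n ih =>
    rw [eu_succ, euN_succ, ih]
    simp only [Nat.cast_le]
    split_ifs with h
    · simp only [Nat.cast_sub h]
    · simp only [Nat.cast_sub (not_le.1 h).le]

theorem wt_cast (a b : ℕ) (n : ℕ) : wt (a : ℝ) (b : ℝ) n = (wN a b n : ℝ) := by
  rw [wt, wN, eu_cast]
  simp only [Nat.cast_min]

/-- bridge to the ordered states -/
theorem eus_eq {z : ℝ} (hz : 1 ≤ z) (n : ℕ) : Stair97.eus z n =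
    (max (eu 1 z n).1 (eu 1 z n).2, min (eu 1 z n).1 (eu 1 z n).2) := by
  induction n with
  | zero =>
    show (z, (1 : ℝ)) = (max 1 z, min 1 z)
    rw [max_eq_right hz, min_eq_left hz]
  | succ n ih =>
    rw [Stair97.eus_succ, ih, eu_succ, Stair97.est]
    split_ifs with h
    · simp only [max_eq_right h, min_eq_left h]
      rw [max_comm, min_comm]
    · have h' := (not_le.1 h).le
      simp only [max_eq_left h', min_eq_right h']

theorem ew_eq {z : ℝ} (hz : 1 ≤ z) (n : ℕ) : Stair97.ew z n = wt 1 z n := by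
  rw [Stair97.ew, eus_eq hz, wt]

end Eu

open Eu

theorem eu_nonneg {a b : ℝ} (ha : 0 ≤ a) (hb : 0 ≤ b) (n : ℕ) :
    0 ≤ (eu a b n).1 ∧ 0 ≤ (eu a b n).2 := by
  induction n with
  | zero => exact ⟨ha, hb⟩
  | succ n ih =>
    rw [eu_succ]
    split_ifs with h
    · exact ⟨ih.1, sub_nonneg.2 h⟩
    · exact ⟨sub_nonneg.2 (not_le.1 h).le, ih.2⟩

theorem wt_nonneg {a b : ℝ} (ha : 0 ≤ a) (hb : 0 ≤ b) (n : ℕ) : 0 ≤ wt a b n :=
  le_min (eu_nonneg ha hb n).1 (eu_nonneg ha hb n).2

theorem Eu.wt_succ_le' (a b : ℝ) (n : ℕ) : wt a b (n + 1) ≤ wt a b n := by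
  rw [wt, wt, eu_succ]
  split_ifs with h
  · rw [min_eq_left h]
    exact min_le_left _ _
  · rw [min_eq_right (not_le.1 h).le]
    exact min_le_right _ _

theorem wt_anti {a b : ℝ} (ha : 0 ≤ a) (hb : 0 ≤ b) : Antitone (wt a b) :=
  antitone_nat_of_succ_le (wt_succ_le' a b)

theorem wt_zero (a b : ℝ) : wt a b 0 = min a b := rfl

theorem wt_succ_le {a b : ℝ} (h : a ≤ b) (n : ℕ) : wt a b (n + 1) = wt a (b - a) n := by
  rw [wt, wt, Nat.add_comm n 1, eu_add, eu_one_le h]

theorem wt_comm (a b : ℝ) (n : ℕ) : wt a b n = wt b a n := by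
  rw [wt, wt]
  rcases eu_swap a b n with h | ⟨h1, h2⟩
  · rw [h]
  · rw [h1, h2, min_comm]

theorem wt_succ_ge {a b : ℝ} (h : b ≤ a) (n : ℕ) : wt a b (n + 1) = wt (a - b) b n := by
  rw [wt_comm a b, wt_succ_le h, wt_comm]

theorem wt_scale {r : ℝ} (hr : 0 < r) (a b : ℝ) (n : ℕ) : wt (r * a) (r * b) n = r * wt a b n := by
  rw [wt, wt, eu_scale hr, mul_min_of_nonneg _ _ hr.le]

theorem wt_shift (a b : ℝ) (k n : ℕ) :
    wt a b (k + n) = wt (eu a b k).1 (eu a b k).2 n := by
  rw [wt, wt, eu_add]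

theorem sum_wt (a b : ℝ) (k : ℕ) :
    ∑ n ∈ range k, wt a b n + ((eu a b k).1 + (eu a b k).2) = a + b := by
  induction k with
  | zero =>
    rw [Finset.sum_range_zero, zero_add]
    rfl
  | succ k ih =>
    rw [Finset.sum_range_succ, eu_succ, ← ih, wt]
    split_ifs with h
    · rw [min_eq_left h]
      ring
    · rw [min_eq_right (not_le.1 h).le]
      ring

theorem sum_wt_sq (a b : ℝ) (k : ℕ) :
    ∑ n ∈ range k, wt a b n ^ 2 + (eu a b k).1 * (eu a b k).2 = a * b := by
  induction k with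
  | zero =>
    rw [Finset.sum_range_zero, zero_add]
    rfl
  | succ k ih =>
    rw [Finset.sum_range_succ, eu_succ, ← ih, wt]
    split_ifs with h
    · rw [min_eq_left h]
      ring
    · rw [min_eq_right (not_le.1 h).le]
      ring

theorem summable_wt {a b : ℝ} (ha : 0 ≤ a) (hb : 0 ≤ b) : Summable (wt a b) := by
  refine summable_of_sum_range_le (c := a + b) (wt_nonneg ha hb) fun k => ?_
  have h1 := sum_wt a b k
  have h2 := eu_nonneg ha hb k
  linarith

theorem tsum_wt_sq {a b : ℝ} (ha : 0 ≤ a) (hb : 0 ≤ b) : ∑' n, wt a b n ^ 2 = a * b := by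
  have h0 : Tendsto (fun n => wt a b n * (a + b)) atTop (𝓝 0) := by
    have := (summable_wt ha hb).tendsto_atTop_zero.mul_const (a + b)
    rwa [zero_mul] at this
  have h1 : Tendsto (fun k => (eu a b k).1 * (eu a b k).2) atTop (𝓝 0) := by
    refine squeeze_zero (fun k => mul_nonneg (eu_nonneg ha hb k).1 (eu_nonneg ha hb k).2)
      (fun k => ?_) h0
    have h2 := eu_nonneg ha hb k
    have h3 := sum_wt a b k
    have h4 : 0 ≤ ∑ n ∈ range k, wt a b n := Finset.sum_nonneg fun n _ => wt_nonneg ha hb n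
    rw [wt]
    rcases le_total (eu a b k).1 (eu a b k).2 with h | h
    · rw [min_eq_left h]
      exact mul_le_mul_of_nonneg_left (by linarith) h2.1
    · rw [min_eq_right h, mul_comm (eu a b k).1]
      exact mul_le_mul_of_nonneg_left (by linarith) h2.2
  refine HasSum.tsum_eq ((hasSum_iff_tendsto_nat_of_nonneg (fun n => sq_nonneg _) _).2 ?_)
  have h5 : Tendsto (fun k => a * b - (eu a b k).1 * (eu a b k).2) atTop (𝓝 (a * b - 0)) :=
    tendsto_const_nhds.sub h1
  rw [sub_zero] at h5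
  refine h5.congr fun k => ?_
  have := sum_wt_sq a b k
  linarith

theorem summable_wt_sq {a b : ℝ} (ha : 0 ≤ a) (hb : 0 ≤ b) : Summable (fun n => wt a b n ^ 2) := by
  refine summable_of_sum_range_le (c := a * b) (fun n => sq_nonneg _) fun k => ?_
  have h1 := sum_wt_sq a b k
  have h2 := eu_nonneg ha hb k
  have h3 := mul_nonneg h2.1 h2.2
  linarith

theorem tsum_wt_irr {z : ℝ} (hz : Irrational z) (h1 : 1 ≤ z) :
    (∑' n, wt 1 z n = 1 + z) ∧ ∀ n, 0 < wt 1 z n := by
  constructor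
  · rw [add_comm, ← Stair97.tsum_ew_irrational h1 hz]
    exact tsum_congr fun n => (ew_eq h1 n).symm
  · intro n
    rw [← ew_eq h1]
    exact Stair97.ew_pos_of_irrational h1 hz n

theorem Eu.tsum_ge {p q : ℕ} (hq : 0 < q) (hpq : q ≤ p) (h : Nat.Coprime p q) :
    ∑' n, wt 1 ((p : ℝ) / q) n = 1 + p / q - 1 / q := by
  have h1 := Stair97.one_le_div hq hpq
  have h2 := Stair97.tsum_ew_rat hq hpq h
  have h3 : ∑' n, wt 1 ((p : ℝ) / q) n = ∑' n, Stair97.ew ((p : ℝ) / q) n :=
    tsum_congr fun n => (ew_eq h1 n).symm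
  rw [h3, h2]
  ring

theorem tsum_wt_rat {p q : ℕ} (hq : 0 < q) (hp : 0 < p) (h : Nat.Coprime p q) :
    (∑' n, wt 1 ((p : ℝ) / q) n = 1 + p / q - 1 / q) ∧ ∀ n, wt 1 ((p : ℝ) / q) n = wN q p n / q := by
  have hq' : (0 : ℝ) < q := by exact_mod_cast hq
  have hp' : (0 : ℝ) < p := by exact_mod_cast hp
  constructor
  · rcases le_total q p with hpq | hpq
    · exact tsum_ge hq hpq h
    · have h1 := tsum_ge hp hpq h.symm
      have h2 : ∀ n, wt 1 ((p : ℝ) / q) n = (p : ℝ) / q * wt 1 ((q : ℝ) / p) n := by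
        intro n
        rw [← wt_scale (div_pos hp' hq'), wt_comm]
        congr 1
        · ring
        · field_simp
      rw [tsum_congr h2, tsum_mul_left, h1]
      field_simp
      ring
  · intro n
    have h3 : wt 1 ((p : ℝ) / q) n = (1 / q : ℝ) * wt (q : ℝ) (p : ℝ) n := by
      rw [← wt_scale (by positivity)]
      congr 1
      · field_simp
      · ring
    rw [h3, wt_cast]
    ring

end Weights

end Pool.Agent.Stair
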