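import Pool.Agent.Lib.MP_f690a7_gt.Crem
import Pool.Agent.Lib.MP_f690a7_gt.Eu

/-!
STAIR: common facts on fibration data and one-sided weight expansions (used by LEMN and BAD).
-/

namespace Pool.Agent.Stair

open Finset

namespace Bad

/-- expansion of a class of `Lat II` over both kinds of indices -/
theorem supp_sub (A : Lat II) {M : ℕ} (hM : ∀ n, M ≤ n → A.2 (Sum.inr n) = 0) :
    A.2.support ⊆ (A.2.support.toLeft).disjSum (range M) := by
  intro i hi
  rcases i with i | n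
  · rw [Finset.inl_mem_disjSum, Finset.mem_toLeft]; exact hi
  · rw [Finset.inr_mem_disjSum, mem_range]
    by_contra h
    exact (Finsupp.mem_support_iff.mp hi) (hM n (not_lt.mp h))

theorem phi_eq (F A : Lat II) (c z : ℝ) {M : ℕ} (hM : ∀ n, M ≤ n → A.2 (Sum.inr n) = 0) :
    phi F c z A = c * (form F (res A) : ℝ) - ∑ n ∈ range M, wt 1 z n * (A.2 (Sum.inr n) : ℝ) := by
  have h1 := vec_eq_sum (c * F.1) (Sum.elim (fun i => c * F.2 (Sum.inl i)) (fun n => wt 1 z n))
    A _ (supp_sub A hM)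
  have h2 : (res A).2.support ⊆ (A.2.support.toLeft).disjSum (range M) := by
    refine subset_trans ?_ (supp_sub A hM)
    exact Finsupp.support_filter _ _ |>.subset.trans (Finset.filter_subset _ _)
  have h3 := form_eq_sum (res A) F _ h2
  rw [phi, h1, form_comm F, h3]
  rw [Finset.sum_disjSum, Finset.sum_disjSum]
  simp only [Sum.elim_inl, Sum.elim_inr, res, Finsupp.filter_apply, Sum.isLeft_inl, Sum.isLeft_inr,
    if_true, Bool.false_eq_true, if_false, zero_mul, Finset.sum_const_zero, add_zero]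
  push_cast
  rw [mul_sub, Finset.mul_sum]
  have : ∑ x ∈ A.2.support.toLeft, c * (F.2 (Sum.inl x) : ℝ) * (A.2 (Sum.inl x) : ℝ) =
      ∑ i ∈ A.2.support.toLeft, c * ((A.2 (Sum.inl i) : ℝ) * (F.2 (Sum.inl i) : ℝ)) := by
    apply Finset.sum_congr rfl; intro i _; ring
  rw [this]; ring

theorem form_res (F A : Lat II) {M : ℕ} (hM : ∀ n, M ≤ n → A.2 (Sum.inr n) = 0) :
    form F (res A) = form F A + ∑ n ∈ range M, F.2 (Sum.inr n) * A.2 (Sum.inr n) := by
  have h2 : (res A).2.support ⊆ (A.2.support.toLeft).disjSum (range M) := by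
    refine subset_trans ?_ (supp_sub A hM)
    exact Finsupp.support_filter _ _ |>.subset.trans (Finset.filter_subset _ _)
  have h3 := form_eq_sum (res A) F _ h2
  have h4 := form_eq_sum A F _ (supp_sub A hM)
  rw [form_comm F, form_comm F, h3, h4]
  rw [Finset.sum_disjSum, Finset.sum_disjSum]
  simp only [res, Finsupp.filter_apply, Sum.isLeft_inl, Sum.isLeft_inr,
    if_true, Bool.false_eq_true, if_false, zero_mul, Finset.sum_const_zero, add_zero]
  have : ∑ n ∈ range M, F.2 (Sum.inr n) * A.2 (Sum.inr n) =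
      ∑ n ∈ range M, A.2 (Sum.inr n) * F.2 (Sum.inr n) := by
    apply Finset.sum_congr rfl; intro i _; ring
  rw [this]; ring

variable {F : Lat II} {g : Adm II} {s : II} {p q k : ℕ}

theorem Fs_ne (H : Fdat F g s p q k) : F.2 s ≠ 0 := by
  intro h
  have h1 := H.hfix s h
  have h2 := g.form_e F (EE s)
  rw [H.hF, h1, form_sub_left, form_LL_EE, form_EE_self, form_EE F, h] at h2
  norm_num at h2

theorem form_symm (H : Fdat F g s p q k) (B : Lat II) :
    form F (g.e.symm B) = form (LL - EE s) B := by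
  have h := g.form_e F (g.e.symm B)
  rw [H.hF, g.e.apply_symm_apply] at h
  exact h.symm

theorem symm_F (H : Fdat F g s p q k) : g.e.symm (LL - EE s) = F := by
  rw [← H.hF, g.e.symm_apply_apply]

theorem symm_fix (H : Fdat F g s p q k) {j : II} (h : F.2 j = 0) : g.e.symm (EE j) = EE j := by
  conv_lhs => rw [← H.hfix j h]
  exact g.e.symm_apply_apply _

theorem form_FF (H : Fdat F g s p q k) : form F F = 0 := by
  have h := form_symm H (LL - EE s)
  rw [symm_F H] at h
  rw [h]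
  simp only [form_sub_left, form_sub_right, form_LL_LL, form_LL_EE, form_EE_LL, form_EE_self]
  norm_num

/-- the entries at the ellipsoid indices of classes in the span of the exceptional directions -/
theorem entry_zero (H : Fdat F g s p q k) {σ : ℝ} {N : ℕ} {x y : ℕ → ℤ} {ε : ℝ}
    (S : Side p q σ N x y ε) (B : Lat II) (hB : ∀ n, N ≤ n → form B (EE (Sum.inr n)) = 0) :
    ∀ n, N ≤ n → (g.e.symm B).2 (Sum.inr n) = 0 := by
  intro n hn
  have hF : F.2 (Sum.inr n) = 0 := by rw [H.hw, S.hWN n hn]; simp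
  have h := g.form_e (g.e.symm B) (EE (Sum.inr n))
  rw [g.e.apply_symm_apply, H.hfix _ hF, form_EE (g.e.symm B)] at h
  rw [← h]; exact hB n hn

/-- the slope sum -/
def YY (y : ℕ → ℤ) (N : ℕ) (C : Lat II) : ℤ := ∑ n ∈ range N, y n * C.2 (Sum.inr n)

/-- values near the centre -/
theorem phi_val (H : Fdat F g s p q 2) {σ : ℝ} {N : ℕ} {x y : ℕ → ℤ} {ε : ℝ} (hσ : σ * σ = 1)
    (S : Side p q σ N x y ε) (C : Lat II) (hC : ∀ n, N ≤ n → C.2 (Sum.inr n) = 0) {t : ℝ}
    (ht : 0 ≤ t) (htε : t ≤ ε) (c : ℝ) :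
    phi F c ((p : ℝ) / q + σ * t) C = (c - 1 / (2 * q)) * (form F (res C) : ℝ)
      + 1 / (2 * q) * (form F C : ℝ) - σ * t * (YY y N C : ℝ) := by
  have hq : (0 : ℝ) < q := by exact_mod_cast H.hq
  have hz : σ * (((p : ℝ) / q + σ * t) - p / q) = t := by
    have : σ * (((p : ℝ) / q + σ * t) - p / q) = (σ * σ) * t := by ring
    rw [this, hσ, one_mul]
  rw [phi_eq F C c _ hC]
  have h1 : ∑ n ∈ range N, wt 1 ((p : ℝ) / q + σ * t) n * (C.2 (Sum.inr n) : ℝ) =
      (1 / q) * ∑ n ∈ range N, (wN q p n : ℝ) * (C.2 (Sum.inr n) : ℝ) + σ * t * (YY y N C : ℝ) := by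
    rw [YY, Finset.mul_sum]
    push_cast
    rw [Finset.mul_sum, ← Finset.sum_add_distrib]
    apply Finset.sum_congr rfl
    intro n hn
    rw [S.lin _ (by rw [hz]; exact ht) (by rw [hz]; exact htε) n (mem_range.mp hn)]
    have hW : (wN q p n : ℝ) = q * x n + p * y n := by exact_mod_cast S.hW n (mem_range.mp hn)
    rw [hW]
    field_simp
    ring
  have h2 : (form F (res C) : ℝ) = form F C +
      2 * ∑ n ∈ range N, (wN q p n : ℝ) * (C.2 (Sum.inr n) : ℝ) := by
    rw [form_res F C hC]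
    push_cast
    rw [Finset.mul_sum]
    congr 1
    apply Finset.sum_congr rfl
    intro n _
    have : (F.2 (Sum.inr n) : ℝ) = 2 * (wN q p n : ℝ) := by rw [H.hw n]; push_cast; ring
    rw [this]; ring
  rw [h1]
  have h3 : ∑ n ∈ range N, (wN q p n : ℝ) * (C.2 (Sum.inr n) : ℝ) =
      ((form F (res C) : ℝ) - form F C) / 2 := by rw [h2]; ring
  rw [h3]
  field_simp
  ring

theorem F_zero (H : Fdat F g s p q k) {σ : ℝ} {N : ℕ} {x y : ℕ → ℤ} {ε : ℝ}
    (S : Side p q σ N x y ε) : ∀ n, N ≤ n → F.2 (Sum.inr n) = 0 := by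
  intro n hn; rw [H.hw, S.hWN n hn]; simp

theorem form_F_res (H : Fdat F g s p q 2) {σ : ℝ} {N : ℕ} {x y : ℕ → ℤ} {ε : ℝ}
    (S : Side p q σ N x y ε) : form F (res F) = 4 * p * q := by
  rw [form_res F F (F_zero H S), form_FF H]
  have h : ∑ n ∈ range N, F.2 (Sum.inr n) * F.2 (Sum.inr n) =
      4 * ∑ n ∈ range N, ((wN q p n : ℤ)) ^ 2 := by
    rw [Finset.mul_sum]
    apply Finset.sum_congr rfl; intro n _; rw [H.hw n]; push_cast; ring
  have h2 : ∑ n ∈ range N, ((wN q p n : ℤ)) ^ 2 = p * q := by exact_mod_cast S.sumW2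
  rw [h, h2]; ring

theorem YY_F (H : Fdat F g s p q 2) {σ : ℝ} {N : ℕ} {x y : ℕ → ℤ} {ε : ℝ}
    (S : Side p q σ N x y ε) : (YY y N F : ℝ) = q * (1 - σ) := by
  have h1 := S.pol 1
  have h0 := S.pol 0
  have h2 : ∑ n ∈ range N, (wN q p n : ℝ) * (x n + y n * 1) -
      ∑ n ∈ range N, (wN q p n : ℝ) * (x n + y n * 0) = ∑ n ∈ range N, (wN q p n : ℝ) * y n := by
    rw [← Finset.sum_sub_distrib]
    apply Finset.sum_congr rfl; intro n _; ring
  rw [h1, h0] at h2
  have h3 : (YY y N F : ℝ) = 2 * ∑ n ∈ range N, (wN q p n : ℝ) * y n := by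
    rw [YY, Finset.mul_sum]
    push_cast
    apply Finset.sum_congr rfl
    intro n _
    have : (F.2 (Sum.inr n) : ℝ) = 2 * (wN q p n : ℝ) := by rw [H.hw n]; push_cast; ring
    rw [this]; ring
  rw [h3, ← h2]; ring

theorem phi_F (H : Fdat F g s p q 2) {σ : ℝ} {N : ℕ} {x y : ℕ → ℤ} {ε : ℝ} (hσ : σ * σ = 1)
    (S : Side p q σ N x y ε) {t : ℝ} (ht : 0 ≤ t) (htε : t ≤ ε) (c : ℝ) :
    phi F c ((p : ℝ) / q + σ * t) F =
      4 * p * q * (c - (1 / (2 * q) + σ * t / (4 * p))) + q * t := by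
  have hq : (0 : ℝ) < q := by exact_mod_cast H.hq
  have hp : (0 : ℝ) < p := by exact_mod_cast lt_of_lt_of_le H.hq H.hpq
  rw [phi_val H hσ S F (F_zero H S) ht htε c, form_F_res H S, form_FF H, YY_F H S]
  push_cast
  have : σ * t * (q * (1 - σ)) = q * σ * t - q * t * (σ * σ) := by ring
  rw [this, hσ]
  field_simp
  ring

theorem wt_zero_left {w : ℝ} (hw : 0 ≤ w) (n : ℕ) : wt 0 w n = 0 := by
  have h1 := wt_nonneg (le_refl (0 : ℝ)) hw n
  have h2 := wt_anti (le_refl (0 : ℝ)) hw (Nat.zero_le n)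
  rw [wt_zero] at h2
  have h3 : min 0 w = 0 := min_eq_left hw
  linarith

theorem sum_sq_le {a b : ℝ} (ha : 0 ≤ a) (hb : 0 ≤ b) (k : ℕ) :
    ∑ n ∈ range k, wt a b n ^ 2 ≤ a * b := by
  have h := sum_wt_sq a b k
  have h2 := eu_nonneg ha hb k
  have := mul_nonneg h2.1 h2.2
  linarith

theorem phi_inl (F : Lat II) (c z : ℝ) (i : ℕ) :
    phi F c z (EE (Sum.inl i)) = c * F.2 (Sum.inl i) := by
  rw [phi, vec_EE]; rfl

theorem phi_inr (F : Lat II) (c z : ℝ) (n : ℕ) : phi F c z (EE (Sum.inr n)) = wt 1 z n := by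
  rw [phi, vec_EE]; rfl

/-- at the centre the functional is a multiple of the form with `F` -/
theorem good_centre (H : Fdat F g s p q 2) {σ : ℝ} {N : ℕ} {x y : ℕ → ℤ} {ε : ℝ}
    (S : Side p q σ N x y ε) : Good (phi F (1 / (2 * q)) ((p : ℝ) / q)) := by
  have hq : (0 : ℝ) < q := by exact_mod_cast H.hq
  have hz : σ * ((p : ℝ) / q - p / q) = 0 := by ring
  have hw : ∀ n, wt 1 ((p : ℝ) / q) n = 1 / (2 * q) * (F.2 (Sum.inr n) : ℝ) := by
    intro n
    by_cases hn : n < N
    · rw [S.lin _ (by rw [hz]) (by rw [hz]; exact S.hε.le) n hn, H.hw n]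
      have hW : (wN q p n : ℝ) = q * x n + p * y n := by exact_mod_cast S.hW n hn
      push_cast
      rw [hW]
      field_simp
    · rw [F_zero H S n (not_lt.mp hn)]
      obtain ⟨m, rfl⟩ := Nat.exists_eq_add_of_le (not_lt.mp hn)
      rw [S.tail _ (by rw [hz]) (by rw [hz]; exact S.hε.le) m]
      have h0 : σ * ((q : ℝ) * (p / q) - p) = 0 := by
        rw [mul_div_cancel₀ _ hq.ne', sub_self, mul_zero]
      rw [h0, wt_zero_left]
      · simp
      · exact wt_nonneg zero_le_one (by positivity) _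
  have heq : phi F (1 / (2 * q)) ((p : ℝ) / q) =
      vec (1 / (2 * q) * (F.1 : ℝ)) (fun i => 1 / (2 * q) * (F.2 i : ℝ)) := by
    rw [phi]
    apply vec_congr rfl
    intro i
    rcases i with i | n
    · rfl
    · exact hw n
  intro A hA
  rw [heq]
  have h1 : vec (1 / (2 * q) * (F.1 : ℝ)) (fun i => 1 / (2 * q) * (F.2 i : ℝ)) A =
      1 / (2 * q) * (form F A : ℝ) := by
    rw [form_eq_vec, vec_eq_sum _ _ A _ (le_refl _), vec_eq_sum _ _ A _ (le_refl _), mul_sub,
      Finset.mul_sum]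
    congr 1
    · ring
    · apply Finset.sum_congr rfl; intro i _; ring
  rw [h1]
  apply mul_nonneg (by positivity)
  have h2 : form F A = form (LL - EE s) (g.e A) := by rw [← H.hF, g.form_e]
  have h3 : form (LL - EE s) (g.e A) = (g.e A).1 - (g.e A).2 s := by
    rw [form_comm, form_sub_right, form_LL, form_EE]
  have h4 : 0 ≤ form F A := by
    rw [h2, h3]
    have := ((g.eff_e A).mpr hA).entry_le s
    linarith
  exact_mod_cast h4

theorem form_ze {B : Lat II} {s j : II} (hsj : j ≠ s) (hB : B = EE j ∨ B = LL - EE s - EE j) :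
    form (LL - EE s) B = 0 := by
  have hsj' : s ≠ j := fun h => hsj h.symm
  rcases hB with rfl | rfl
  · rw [form_sub_left, form_LL_EE, form_EE_ne hsj']; norm_num
  · simp only [form_sub_left, form_sub_right, form_LL_LL, form_LL_EE, form_EE_LL, form_EE_self,
      form_EE_ne hsj']
    norm_num

theorem eff_ze (g : Adm II) {B : Lat II} {s j : II} (hsj : j ≠ s)
    (hB : B = EE j ∨ B = LL - EE s - EE j) : Eff (g.e.symm B) := by
  have hsj' : s ≠ j := fun h => hsj h.symm
  rw [show g.e.symm B = g.symm.e B from rfl, g.symm.eff_e]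
  rcases hB with rfl | rfl
  · exact eff_EE j
  · exact eff_LLEE hsj'

theorem orth_ze {B : Lat II} {s j l : II} (hl1 : j ≠ l) (hl2 : s ≠ l)
    (hB : B = EE j ∨ B = LL - EE s - EE j) : form B (EE l) = 0 := by
  rcases hB with rfl | rfl
  · exact form_EE_ne hl1
  · rw [form_sub_left, form_sub_left, form_LL_EE, form_EE_ne hl2, form_EE_ne hl1]; norm_num

end Bad

end Pool.Agent.Stair
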