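import Pool.Agent.Lib.MP_f690a7_gt.Bdi
import Pool.Agent.Lib.MP_f690a7_gt.SideE

/-!
Bounded degree of violated classes at a rational point with zero capacity.
-/

namespace Pool.Agent.Stair

open Finset

namespace Bd0

/-- the index inequality with remainder terms -/
theorem idx_ineq (M1 Mb N Nb : ℕ) (hM : M1 ≤ Mb) (hN : N ≤ Nb) (β w : ℕ → ℝ) (m k : ℕ → ℤ)
    (hm : ∀ i, 0 ≤ m i) (hk : ∀ i, 0 ≤ k i) (b c d lam B2 : ℝ) (hlam : 0 ≤ lam)
    (hd : d = lam * (c * b))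
    (hidx : 0 ≤ d ^ 2 + 3 * d - ∑ i ∈ range Mb, ((m i : ℝ) ^ 2 + m i) -
      ∑ n ∈ range Nb, ((k n : ℝ) ^ 2 + k n))
    (hphi : c * b * d - ∑ i ∈ range Mb, c * β i * m i - ∑ n ∈ range Nb, w n * k n ≤ 0)
    (hB : ∑ i ∈ range Mb, β i ^ 2 ≤ B2) (htail : ∀ n, N ≤ n → lam * w n ≤ 1 / 2) :
    (∑ i ∈ range Mb, (m i : ℝ) ^ 2 - 2 * lam * c * ∑ i ∈ range Mb, β i * m i +
        lam ^ 2 * c ^ 2 * B2) / 2 + (∑ n ∈ range N, ((k n : ℝ) - lam * w n) ^ 2) / 2 +
      ∑ n ∈ Ico N Nb, (k n : ℝ) +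
      lam ^ 2 * (c ^ 2 * b ^ 2 - c ^ 2 * B2 - ∑ n ∈ range N, w n ^ 2) ≤
    lam * (3 * c * b - c * ∑ i ∈ range M1, β i - ∑ n ∈ range N, w n) + (M1 + N) / 2 := by
  -- inl part
  have h1 : ∑ i ∈ range Mb, ((m i : ℝ) ^ 2 + m i - 2 * lam * (c * β i * m i)) ≥
      ∑ i ∈ range Mb, (((m i : ℝ) - lam * c * β i) ^ 2 / 2 - (lam * c * β i) ^ 2) +
        ∑ i ∈ range M1, (lam * c * β i - 1 / 2) := by
    have e : ∑ i ∈ range M1, (lam * c * β i - 1 / 2) =
        ∑ i ∈ range Mb, (if i < M1 then lam * c * β i - 1 / 2 else 0) := by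
      rw [← Finset.sum_filter]
      apply Finset.sum_congr _ (fun _ _ => rfl)
      ext i
      simp only [mem_range, mem_filter]
      omega
    rw [e, ← Finset.sum_add_distrib]
    refine Finset.sum_le_sum fun i _ => ?_
    have hmi : (0 : ℝ) ≤ m i := by exact_mod_cast hm i
    split_ifs
    · nlinarith [sq_nonneg ((m i : ℝ) - lam * c * β i + 1)]
    · nlinarith [sq_nonneg ((m i : ℝ) - lam * c * β i)]
  -- inr part, n < N
  have h2 : ∑ n ∈ range N, ((k n : ℝ) ^ 2 + k n - 2 * lam * (w n * k n)) ≥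
      ∑ n ∈ range N, (((k n : ℝ) - lam * w n) ^ 2 / 2 - (lam * w n) ^ 2 + (lam * w n - 1 / 2)) := by
    refine Finset.sum_le_sum fun n _ => ?_
    nlinarith [sq_nonneg ((k n : ℝ) - lam * w n + 1)]
  -- tail
  have h3 : ∑ n ∈ Ico N Nb, ((k n : ℝ) ^ 2 + k n - 2 * lam * (w n * k n)) ≥
      ∑ n ∈ Ico N Nb, (k n : ℝ) := by
    refine Finset.sum_le_sum fun n hn => ?_
    have hkn : (0 : ℝ) ≤ k n := by exact_mod_cast hk n
    have hx := htail n (mem_Ico.mp hn).1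
    have hk2 : (k n : ℝ) ≤ (k n : ℝ) ^ 2 := by
      have : k n ≤ k n ^ 2 := by nlinarith [hk n, sq_nonneg (k n), Int.le_self_sq (k n)]
      exact_mod_cast this
    have : lam * w n * k n ≤ 1 / 2 * k n := mul_le_mul_of_nonneg_right hx hkn
    nlinarith
  have s1 : ∑ n ∈ range Nb, ((k n : ℝ) ^ 2 + k n) = ∑ n ∈ range N, ((k n : ℝ) ^ 2 + k n) +
      ∑ n ∈ Ico N Nb, ((k n : ℝ) ^ 2 + k n) := (Finset.sum_range_add_sum_Ico _ hN).symm
  have s2 : ∑ n ∈ range Nb, w n * k n = ∑ n ∈ range N, w n * k n +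
      ∑ n ∈ Ico N Nb, w n * k n := (Finset.sum_range_add_sum_Ico _ hN).symm
  rw [Finset.sum_sub_distrib, ← Finset.mul_sum] at h1
  rw [Finset.sum_sub_distrib, ← Finset.mul_sum] at h2
  rw [Finset.sum_sub_distrib, ← Finset.mul_sum] at h3
  have e1 : ∑ i ∈ range Mb, (((m i : ℝ) - lam * c * β i) ^ 2 / 2 - (lam * c * β i) ^ 2) =
      (∑ i ∈ range Mb, (m i : ℝ) ^ 2) / 2 - lam * c * ∑ i ∈ range Mb, β i * m i -
        lam ^ 2 * c ^ 2 * (∑ i ∈ range Mb, β i ^ 2) / 2 := by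
    rw [Finset.sum_div, Finset.mul_sum, Finset.mul_sum, Finset.sum_div, ← Finset.sum_sub_distrib,
      ← Finset.sum_sub_distrib]
    refine Finset.sum_congr rfl fun i _ => ?_
    ring
  have e2 : ∑ i ∈ range M1, (lam * c * β i - 1 / 2) =
      lam * c * ∑ i ∈ range M1, β i - M1 / 2 := by
    rw [Finset.sum_sub_distrib, ← Finset.mul_sum]
    simp
    ring
  have e3 : ∑ n ∈ range N, (((k n : ℝ) - lam * w n) ^ 2 / 2 - (lam * w n) ^ 2 +
      (lam * w n - 1 / 2)) = (∑ n ∈ range N, ((k n : ℝ) - lam * w n) ^ 2) / 2 -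
        lam ^ 2 * ∑ n ∈ range N, w n ^ 2 + lam * ∑ n ∈ range N, w n - N / 2 := by
    rw [Finset.sum_add_distrib, Finset.sum_sub_distrib, Finset.sum_sub_distrib, ← Finset.sum_div,
      ← Finset.mul_sum]
    have : ∑ x ∈ range N, (lam * w x) ^ 2 = lam ^ 2 * ∑ n ∈ range N, w n ^ 2 := by
      rw [Finset.mul_sum]
      exact Finset.sum_congr rfl fun i _ => by ring
    rw [this]
    simp
    ring
  have e4 : ∑ i ∈ range Mb, c * β i * m i = c * ∑ i ∈ range Mb, β i * m i := by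
    rw [Finset.mul_sum]
    exact Finset.sum_congr rfl fun i _ => by ring
  rw [e1, e2] at h1
  rw [e3] at h2
  rw [s2, e4] at hphi
  rw [e4] at h1
  rw [s1] at hidx
  have hBm : lam ^ 2 * c ^ 2 * ∑ i ∈ range Mb, β i ^ 2 ≤ lam ^ 2 * c ^ 2 * B2 :=
    mul_le_mul_of_nonneg_left hB (by positivity)
  have hφ2 := mul_nonneg (mul_nonneg (by norm_num : (0 : ℝ) ≤ 2) hlam) (neg_nonneg.mpr hphi)
  subst hd
  nlinarith [hφ2, h1, h2, h3, hidx, hBm]



/-- the final estimate -/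
theorem fin1 (lam t Q dc V so rho D Kt s K4 a0 phi : ℝ) (h0 : 0 < lam) (ht : 0 ≤ t) (hQ : 0 ≤ Q)
    (hV : 0 ≤ V) (hso : t / 2 ≤ so) (hrho : 16 * a0 * |rho| ≤ lam)
    (hdc : |dc| ≤ a0 * (Q + t)) (hD : 16 * |D| ≤ lam * t) (hKt : 16 * (s * Kt) ≤ lam * t)
    (hK4 : 8 * (K4 * t) ≤ 1)
    (hphi : lam * (Q + so + dc ^ 2 * V - K4 * t ^ 2) / 2 - dc * rho - D - s * Kt ≤ phi) :
    0 ≤ phi := by
  have h1 : dc * rho ≤ (Q + t) * lam / 16 := by
    calc dc * rho ≤ |dc * rho| := le_abs_self _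
      _ = |dc| * |rho| := abs_mul _ _
      _ ≤ a0 * (Q + t) * |rho| := mul_le_mul_of_nonneg_right hdc (abs_nonneg _)
      _ = (Q + t) * (16 * a0 * |rho|) / 16 := by ring
      _ ≤ (Q + t) * lam / 16 := by
        have : 0 ≤ Q + t := by linarith
        have := mul_le_mul_of_nonneg_left hrho this
        linarith
  have h2 : 16 * D ≤ lam * t := by
    have := le_abs_self D
    linarith
  have h3 : lam * (K4 * t ^ 2) ≤ lam * t / 8 := by
    have : K4 * t ^ 2 ≤ t / 8 := by nlinarith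
    nlinarith
  have h4 : 0 ≤ lam * (dc ^ 2 * V) := by positivity
  have h5 : lam * (t / 2) ≤ lam * so := mul_le_mul_of_nonneg_left hso h0.le
  have h6 : 0 ≤ lam * Q := by positivity
  nlinarith

/-- case 1 : the tail weights are small -/
theorem case1 (M1 Mb N Nb : ℕ) (hM : M1 ≤ Mb) (hN : N ≤ Nb) (β w w0 δ : ℕ → ℝ) (m k : ℕ → ℤ)
    (hm : ∀ i, 0 ≤ m i) (hk : ∀ i, 0 ≤ k i)
    (b c c0 d lam B2 Vol z z0 t s so Q a0 K4 q kT E : ℝ) (hlam : 0 < lam)
    (hd : d = lam * (c * b)) (hc : 0 < c)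
    (hidx : 0 ≤ d ^ 2 + 3 * d - ∑ i ∈ range Mb, ((m i : ℝ) ^ 2 + m i) -
      ∑ n ∈ range Nb, ((k n : ℝ) ^ 2 + k n))
    (hphi : c * b * d - ∑ i ∈ range Mb, c * β i * m i - ∑ n ∈ range Nb, w n * k n ≤ 0)
    (hG : 0 ≤ c0 * b * d - ∑ i ∈ range Mb, c0 * β i * m i - ∑ n ∈ range Nb, w0 n * k n)
    (hB : ∑ i ∈ range Mb, β i ^ 2 ≤ B2) (hB2 : B2 = b ^ 2 - Vol)
    (hw : ∀ n < N, w n = w0 n + δ n) (hδ : ∑ n ∈ range N, δ n ^ 2 = K4 * t ^ 2)
    (hw2 : ∑ n ∈ range N, w n ^ 2 = z - so) (hw02 : ∑ n ∈ range N, w0 n ^ 2 = z0)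
    (htl : ∀ n, N ≤ n → w n ≤ s) (htl0 : ∀ n, N ≤ n → w0 n = 0)
    (hcV : c ^ 2 * Vol = z + Q) (hc0V : c0 ^ 2 * Vol = z0) (hV : 0 < Vol)
    (ht : 0 ≤ t) (hQ : 0 ≤ Q) (hso : t / 2 ≤ so) (hK4 : 0 ≤ K4)
    (hdc : |c - c0| ≤ a0 * (Q + t)) (hls : lam * s ≤ 1 / 2) (hs : s = q * t) (hq : 0 < q)
    (hkT : 3 * c * b - c * ∑ i ∈ range M1, β i - ∑ n ∈ range N, w n = kT)
    (hkE : lam * kT + (M1 + N) / 2 ≤ lam ^ 2 * (Q + so) / 2 + E) (hE : 16 * q * E ≤ lam)
    (hE1 : E ≤ lam)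
    (h1 : 512 * a0 ^ 2 * B2 ≤ lam) (h2 : 512 * K4 ≤ lam) (h3 : 8 * (K4 * t) ≤ 1) :
    0 ≤ c * b * d - ∑ i ∈ range Mb, c * β i * m i - ∑ n ∈ range Nb, w n * k n := by
  have hI := idx_ineq M1 Mb N Nb hM hN β w m k hm hk b c d lam B2 hlam.le hd hidx hphi hB
    (fun n hn => le_trans (mul_le_mul_of_nonneg_left (htl n hn) hlam.le) hls)
  rw [hkT, hw2] at hI
  have hcb : c ^ 2 * b ^ 2 - c ^ 2 * B2 = z + Q := by rw [hB2, ← hcV]; ring
  rw [hcb, show z + Q - (z - so) = Q + so by ring] at hI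
  set P := ∑ i ∈ range Mb, β i * m i with hP
  set R1 := ∑ i ∈ range Mb, (m i : ℝ) ^ 2 - 2 * lam * c * P + lam ^ 2 * c ^ 2 * B2 with hR1
  set RN := ∑ n ∈ range N, ((k n : ℝ) - lam * w n) ^ 2 with hRN
  set Kt := ∑ n ∈ Ico N Nb, (k n : ℝ) with hKt
  have hB20 : 0 ≤ B2 := le_trans (Finset.sum_nonneg fun i _ => sq_nonneg _) hB
  have hKt0 : 0 ≤ Kt := Finset.sum_nonneg fun n _ => by exact_mod_cast hk n
  have hRN0 : 0 ≤ RN := Finset.sum_nonneg fun n _ => sq_nonneg _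
  have hR10 : 0 ≤ R1 := by
    have e : ∑ i ∈ range Mb, ((m i : ℝ) - lam * c * β i) ^ 2 =
        ∑ i ∈ range Mb, (m i : ℝ) ^ 2 - 2 * lam * c * P +
          lam ^ 2 * c ^ 2 * ∑ i ∈ range Mb, β i ^ 2 := by
      rw [hP, Finset.mul_sum, Finset.mul_sum, ← Finset.sum_sub_distrib, ← Finset.sum_add_distrib]
      exact Finset.sum_congr rfl fun i _ => by ring
    have e2 : 0 ≤ ∑ i ∈ range Mb, ((m i : ℝ) - lam * c * β i) ^ 2 :=
      Finset.sum_nonneg fun i _ => sq_nonneg _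
    have e3 : lam ^ 2 * c ^ 2 * ∑ i ∈ range Mb, β i ^ 2 ≤ lam ^ 2 * c ^ 2 * B2 :=
      mul_le_mul_of_nonneg_left hB (by positivity)
    rw [hR1]
    linarith
  have hQso : 0 ≤ lam ^ 2 * (Q + so) := by
    have : 0 ≤ Q + so := by linarith
    positivity
  have hKE : R1 / 2 + RN / 2 + Kt + lam ^ 2 * (Q + so) / 2 ≤ E := by linarith
  -- rho
  have hrho2 : (P - lam * c * B2) ^ 2 ≤ B2 * R1 := by
    have cs : P ^ 2 ≤ (∑ i ∈ range Mb, β i ^ 2) * ∑ i ∈ range Mb, (m i : ℝ) ^ 2 := by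
      rw [hP]
      exact Finset.sum_mul_sq_le_sq_mul_sq _ _ _
    have cs2 : (∑ i ∈ range Mb, β i ^ 2) * ∑ i ∈ range Mb, (m i : ℝ) ^ 2 ≤
        B2 * ∑ i ∈ range Mb, (m i : ℝ) ^ 2 :=
      mul_le_mul_of_nonneg_right hB (Finset.sum_nonneg fun i _ => sq_nonneg _)
    have e : B2 * R1 - (P - lam * c * B2) ^ 2 = B2 * (∑ i ∈ range Mb, (m i : ℝ) ^ 2) - P ^ 2 := by
      rw [hR1]
      ring
    linarith
  have hrho : 16 * a0 * |P - lam * c * B2| ≤ lam := by
    have hr : R1 ≤ 2 * lam := by linarith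
    have : (16 * a0 * |P - lam * c * B2|) ^ 2 ≤ lam ^ 2 := by
      rw [mul_pow, sq_abs]
      calc (16 * a0) ^ 2 * (P - lam * c * B2) ^ 2 ≤ (16 * a0) ^ 2 * (B2 * (2 * lam)) := by
            apply mul_le_mul_of_nonneg_left _ (by positivity)
            exact le_trans hrho2 (mul_le_mul_of_nonneg_left hr hB20)
        _ = (512 * a0 ^ 2 * B2) * lam := by ring
        _ ≤ lam * lam := mul_le_mul_of_nonneg_right h1 hlam.le
        _ = lam ^ 2 := by ring
    exact abs_le_of_sq_le_sq' this hlam.le |>.2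
  -- D
  set D := ∑ n ∈ range N, δ n * ((k n : ℝ) - lam * w n) with hD
  have hDb : 16 * |D| ≤ lam * t := by
    have cs : D ^ 2 ≤ (∑ n ∈ range N, δ n ^ 2) * RN := Finset.sum_mul_sq_le_sq_mul_sq _ _ _
    have hr : RN ≤ 2 * lam := by linarith
    have : (16 * |D|) ^ 2 ≤ (lam * t) ^ 2 := by
      rw [mul_pow, sq_abs]
      calc (16 : ℝ) ^ 2 * D ^ 2 ≤ 16 ^ 2 * ((K4 * t ^ 2) * (2 * lam)) := by
            apply mul_le_mul_of_nonneg_left _ (by positivity)
            rw [hδ] at cs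
            exact le_trans cs (mul_le_mul_of_nonneg_left hr (by positivity))
        _ = (512 * K4) * (lam * t ^ 2) := by ring
        _ ≤ lam * (lam * t ^ 2) := mul_le_mul_of_nonneg_right h2 (by positivity)
        _ = (lam * t) ^ 2 := by ring
    exact abs_le_of_sq_le_sq' this (by positivity) |>.2
  have hKtb : 16 * (s * Kt) ≤ lam * t := by
    have hkte : Kt ≤ E := by linarith
    have h4 : s * Kt ≤ q * t * E := by
      rw [hs]
      exact mul_le_mul_of_nonneg_left hkte (by positivity)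
    have h5 : (16 * q * E) * t ≤ lam * t := mul_le_mul_of_nonneg_right hE ht
    linarith
  refine fin1 lam t Q (c - c0) Vol so (P - lam * c * B2) D Kt s K4 a0 _ hlam ht hQ hV.le hso
    hrho hdc hDb hKtb h3 ?_
  -- the identity
  have s2 : ∑ n ∈ range Nb, w n * k n = ∑ n ∈ range N, w n * k n +
      ∑ n ∈ Ico N Nb, w n * k n := (Finset.sum_range_add_sum_Ico _ hN).symm
  have s3 : ∑ n ∈ range Nb, w0 n * k n = ∑ n ∈ range N, w0 n * k n := by
    rw [← Finset.sum_range_add_sum_Ico _ hN]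
    have : ∑ n ∈ Ico N Nb, w0 n * (k n : ℝ) = 0 := by
      apply Finset.sum_eq_zero
      intro n hn
      rw [htl0 n (mem_Ico.mp hn).1, zero_mul]
    rw [this, add_zero]
  have s4 : ∑ n ∈ Ico N Nb, w n * k n ≤ s * Kt := by
    rw [hKt, Finset.mul_sum]
    refine Finset.sum_le_sum fun n hn => ?_
    exact mul_le_mul_of_nonneg_right (htl n (mem_Ico.mp hn).1) (by exact_mod_cast hk n)
  have s5 : ∑ i ∈ range Mb, c * β i * m i = c * P := by
    rw [hP, Finset.mul_sum]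
    exact Finset.sum_congr rfl fun i _ => by ring
  have s6 : ∑ i ∈ range Mb, c0 * β i * m i = c0 * P := by
    rw [hP, Finset.mul_sum]
    exact Finset.sum_congr rfl fun i _ => by ring
  have s7 : ∑ n ∈ range N, w n * k n - ∑ n ∈ range N, w0 n * k n = ∑ n ∈ range N, δ n * k n := by
    rw [← Finset.sum_sub_distrib]
    refine Finset.sum_congr rfl fun n hn => ?_
    rw [hw n (mem_range.mp hn)]
    ring
  have s8 : ∑ n ∈ range N, δ n * k n = D + lam * ∑ n ∈ range N, δ n * w n := by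
    rw [hD, Finset.mul_sum, ← Finset.sum_add_distrib]
    exact Finset.sum_congr rfl fun i _ => by ring
  have s9 : ∑ n ∈ range N, δ n * w n = (z - so - z0 + K4 * t ^ 2) / 2 := by
    rw [← hw2, ← hw02, ← hδ, ← Finset.sum_sub_distrib, ← Finset.sum_add_distrib, Finset.sum_div]
    refine Finset.sum_congr rfl fun n hn => ?_
    have := hw n (mem_range.mp hn)
    have hδn : δ n = w n - w0 n := by linarith
    rw [hδn]
    ring
  rw [s5, s2]
  rw [s6, s3] at hG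
  rw [s9] at s8
  have hX : b * d - P = lam * c * Vol - (P - lam * c * B2) := by
    rw [hd, hB2]; ring
  have hcc : c * (c - c0) * Vol = (z + Q - z0 + (c - c0) ^ 2 * Vol) / 2 := by
    rw [← hcV, ← hc0V]; ring
  have hG2 : 0 ≤ c0 * (b * d - P) - ∑ n ∈ range N, w0 n * k n := by
    have : c0 * (b * d - P) = c0 * b * d - c0 * P := by ring
    rw [this]; exact hG
  have key : (c - c0) * (b * d - P) = lam * (c * (c - c0) * Vol) -
      (c - c0) * (P - lam * c * B2) := by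
    rw [hX]; ring
  rw [hcc] at key
  have e0 : c * b * d - c * P = c0 * (b * d - P) + (c - c0) * (b * d - P) := by ring
  have e1 : c * b * d - c * P - (∑ n ∈ range N, w n * k n + ∑ n ∈ Ico N Nb, w n * k n) =
      (c0 * (b * d - P) - ∑ n ∈ range N, w0 n * k n) + (c - c0) * (b * d - P) -
        (∑ n ∈ range N, w n * k n - ∑ n ∈ range N, w0 n * k n) -
          ∑ n ∈ Ico N Nb, w n * k n := by
    rw [e0]; ring
  rw [e1, s7, s8, key]
  have e2 : lam * ((z + Q - z0 + (c - c0) ^ 2 * Vol) / 2) -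
      lam * ((z - so - z0 + K4 * t ^ 2) / 2) =
      lam * (Q + so + (c - c0) ^ 2 * Vol - K4 * t ^ 2) / 2 := by ring
  linarith



/-- the first tail weights are equal to `s` -/
theorem wt_first (s : ℝ) (hs : 0 ≤ s) (n : ℕ) : ∀ om : ℝ, ((n : ℝ) + 1) * s ≤ om → wt s om n = s := by
  induction n with
  | zero =>
    intro om h
    rw [wt_zero]
    apply min_eq_left
    simpa using h
  | succ n ih =>
    intro om h
    push_cast at h
    have h1 : s ≤ om := by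
      have : 0 ≤ ((n : ℝ) + 1) * s := by positivity
      nlinarith
    rw [wt_succ_le h1]
    apply ih
    linarith

/-- case 2 : arithmetic -/
theorem case2 (lam Q kT K s om PA e K3 t u G : ℝ) (h0 : 0 < lam) (hu : 0 < u)
    (hb : lam ^ 2 * Q - lam * (kT - K * s) ≤ (G + K) / 4) (hkT : kT ≤ PA * Q + e + K3 * t)
    (hPA : 2 * PA ≤ lam) (hQ : 0 ≤ Q) (hls : 1 / 2 < lam * s) (hK : om - s ≤ K * s) (hK0 : 0 ≤ K)
    (hom : u / 2 ≤ om) (hsu : s ≤ u / 4) (he : e ≤ u / 32) (hK3 : K3 * t ≤ u / 32)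
    (hG : 16 * G ≤ lam * u) : False := by
  have h1 : lam * kT ≤ lam * (PA * Q) + lam * u / 16 := by
    have : kT ≤ PA * Q + u / 16 := by linarith
    have := mul_le_mul_of_nonneg_left this h0.le
    linarith
  have h2 : lam * (PA * Q) ≤ lam ^ 2 * Q := by
    have h3 : PA ≤ lam := by
      rcases le_or_gt 0 PA with h | h <;> linarith
    have := mul_le_mul_of_nonneg_right h3 (mul_nonneg h0.le hQ)
    nlinarith
  have h4 : lam * (K * s) - K / 4 ≤ G / 4 + lam * u / 16 := by nlinarith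
  have h5 : K / 4 ≤ lam * (K * s) / 2 := by
    have := mul_le_mul_of_nonneg_left hls.le hK0
    linarith
  have h6 : lam * (u / 4) ≤ lam * (K * s) := by
    apply mul_le_mul_of_nonneg_left _ h0.le
    linarith
  have h7 : 0 < lam * u := by positivity
  linarith

/-- a finite set of indices lies in a box -/
theorem exists_box (S : Finset II) (M1 N : ℕ) :
    ∃ Mb Nb : ℕ, M1 ≤ Mb ∧ N ≤ Nb ∧ S ⊆ (range Mb).disjSum (range Nb) := by
  refine ⟨max M1 (S.sup (Sum.elim id (fun _ => 0)) + 1), max N (S.sup (Sum.elim (fun _ => 0) id) + 1),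
    le_max_left _ _, le_max_left _ _, fun i hi => ?_⟩
  rcases i with j | j
  · rw [Finset.inl_mem_disjSum, mem_range]
    have h1 : Sum.elim id (fun _ => 0) (Sum.inl j : II) ≤ S.sup (Sum.elim id (fun _ => 0)) :=
      Finset.le_sup (f := Sum.elim id (fun _ => 0)) hi
    simp only [Sum.elim_inl, id] at h1
    exact lt_of_lt_of_le (Nat.lt_succ_of_le h1) (le_max_right _ _)
  · rw [Finset.inr_mem_disjSum, mem_range]
    have h1 : Sum.elim (fun _ => 0) id (Sum.inr j : II) ≤ S.sup (Sum.elim (fun _ => 0) id) :=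
      Finset.le_sup (f := Sum.elim (fun _ => 0) id) hi
    simp only [Sum.elim_inr, id] at h1
    exact lt_of_lt_of_le (Nat.lt_succ_of_le h1) (le_max_right _ _)

/-- no violated class of large degree -/
theorem point {b : ℝ} {β : ℕ → ℝ} (D : Dat b β) {p q : ℕ} (hq : 0 < q) {σ : ℝ}
    (hσ : σ * σ = 1) (hσa : |σ| = 1) {N : ℕ} {x y : ℕ → ℤ} {ε1 : ℝ} (S : Side p q σ N x y ε1) (c0 : ℝ)
    (hc0 : 0 < c0) (hc0V : c0 ^ 2 * Vol b β = p / q) (hG : Good (uu b β c0 (p / q)))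
    (hκ : c0 * Per b β = 1 + p / q - 1 / q) (hPer : 0 ≤ Per b β)
    (hw0 : ∀ n, wt 1 ((p : ℝ) / q) n = wN q p n / q) (M1 : ℕ) (a0 B2 K3 K4 e1 : ℝ)
    (ha0 : a0 * (c0 * Vol b β) = 1) (hB2 : B2 = ∑' i, β i ^ 2) (hsB2 : Summable (fun i => β i ^ 2))
    (he1 : ∑' i, β i - ∑ i ∈ range M1, β i = e1) (he0 : 0 ≤ e1) (he1' : 64 * c0 * q * e1 ≤ 1)
    (hK3 : K3 = 1 + q + |(y (N - 1) : ℝ)| + Per b β * a0)
    (hK4 : K4 = ∑ n ∈ range N, (y n : ℝ) ^ 2) (t c : ℝ) (ht : 0 ≤ t) (htε : t ≤ ε1)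
    (hz1 : 1 ≤ (p : ℝ) / q + σ * t) (hc2 : c ≤ 2 * c0) (hcpos : 0 < c)
    (hVc : (p : ℝ) / q + σ * t ≤ c ^ 2 * Vol b β)
    (hy : 2 * q * (|(y (N - 1) : ℝ)| * t) ≤ 1) (hK4t : 8 * (K4 * t) ≤ 1)
    (hqt : 4 * q * (q * t) ≤ 1) (hK3t : 32 * q * (K3 * t) ≤ 1)
    (A : Lat II) (hA : Eff A) (hm : ∀ i, 0 ≤ A.2 i) (hneg : uu b β c (p / q + σ * t) A < 0)
    (lam : ℝ) (hlam : 0 < lam) (hd : (A.1 : ℝ) = lam * (c * b)) (h1 : 2 * (Per b β * a0) ≤ lam)
    (h2 : 4 * K3 ≤ lam) (h3 : 16 * q * ((M1 : ℝ) + N) ≤ lam) (h4 : 512 * a0 ^ 2 * B2 ≤ lam)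
    (h5 : 512 * K4 ≤ lam) : False := by
  have hq' : (0 : ℝ) < q := by exact_mod_cast hq
  have hq1 : (1 : ℝ) ≤ q := by exact_mod_cast hq
  have hV := D.hV
  have hb := D.hb
  have hN := S.hN
  obtain ⟨z, hz⟩ : ∃ z : ℝ, z = (p : ℝ) / q + σ * t := ⟨_, rfl⟩
  obtain ⟨u, hu⟩ : ∃ u : ℝ, u = 1 / (q : ℝ) := ⟨_, rfl⟩
  have hu0 : 0 < u := by rw [hu]; positivity
  have hqu : (q : ℝ) * u = 1 := by rw [hu]; field_simp
  rw [← hz] at hz1 hVc hneg
  obtain ⟨Q, hQ⟩ : ∃ Q : ℝ, Q = c ^ 2 * Vol b β - z := ⟨_, rfl⟩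
  have hQ0 : 0 ≤ Q := by linarith
  obtain ⟨s, hs⟩ : ∃ s : ℝ, s = (q : ℝ) * t := ⟨_, rfl⟩
  have hs0 : 0 ≤ s := by rw [hs]; positivity
  have hside0 : σ * (z - p / q) = t := by rw [hz]; linear_combination t * hσ
  have hqp : (q : ℝ) * (p / q) = p := by field_simp
  have hsz : σ * (q * z - p) = s := by
    rw [hz, hs]
    linear_combination σ * hqp + (q * t) * hσ
  obtain ⟨om, hom⟩ : ∃ om : ℝ, om = wt 1 z (N - 1) := ⟨_, rfl⟩
  have hz0n : 0 ≤ σ * (z - p / q) := by rw [hside0]; exact ht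
  have hz1n : σ * (z - p / q) ≤ ε1 := by rw [hside0]; exact htε
  have hzpos : 0 ≤ z := by linarith
  have hlin := S.lin z hz0n hz1n
  have htail := S.tail z hz0n hz1n
  have hzz : σ * ((p : ℝ) / q - p / q) = 0 := by ring
  have hε1 : 0 ≤ ε1 := le_trans ht htε
  have hlin0 := S.lin ((p : ℝ) / q) (by rw [hzz]) (by rw [hzz]; exact hε1)
  have hN1 : N - 1 < N := Nat.sub_lt hN one_pos
  have homx : om = x (N - 1) + y (N - 1) * z := by rw [hom]; exact hlin _ hN1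
  have hu1 : u = x (N - 1) + y (N - 1) * ((p : ℝ) / q) := by
    rw [← hlin0 _ hN1, hw0, S.hW1, hu]
    simp
  have homu : om = u + y (N - 1) * (σ * t) := by
    rw [homx, hu1, hz]; ring
  have hsum1 := S.sum1 z
  have hsum2 := S.sum2 z
  rw [hsz, ← homx] at hsum1 hsum2
  have e1w : ∑ n ∈ range N, wt 1 z n = 1 + z - s - om := by
    rw [← hsum1]
    exact Finset.sum_congr rfl fun n hn => hlin n (mem_range.mp hn)
  have e2w : ∑ n ∈ range N, wt 1 z n ^ 2 = z - s * om := by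
    rw [← hsum2]
    exact Finset.sum_congr rfl fun n hn => by rw [hlin n (mem_range.mp hn)]
  have e2w0 : ∑ n ∈ range N, wt 1 ((p : ℝ) / q) n ^ 2 = p / q := by
    have hs20 := S.sum2 ((p : ℝ) / q)
    have e : σ * (q * ((p : ℝ) / q) - p) = 0 := by rw [hqp]; ring
    rw [e, zero_mul, sub_zero] at hs20
    refine Eq.trans (Finset.sum_congr rfl fun n hn => ?_) hs20
    rw [hlin0 n (mem_range.mp hn)]
  have hyt : |(y (N - 1) : ℝ) * (σ * t)| = |(y (N - 1) : ℝ)| * t := by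
    rw [abs_mul, abs_mul, hσa, one_mul, abs_of_nonneg ht]
  have hyb := abs_le.mp (le_of_eq hyt)
  have hytu : |(y (N - 1) : ℝ)| * t ≤ u / 2 := by
    have := mul_le_mul_of_nonneg_right hy hu0.le
    have e : 2 * q * (|(y (N - 1) : ℝ)| * t) * u = 2 * (|(y (N - 1) : ℝ)| * t) * (q * u) := by ring
    rw [e, hqu] at this
    linarith
  have homl : u / 2 ≤ om := by rw [homu]; linarith
  have hom0 : 0 ≤ om := by linarith
  have hsu : s ≤ u / 4 := by
    have := mul_le_mul_of_nonneg_right hqt hu0.le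
    have e : 4 * q * (q * t) * u = 4 * (q * t) * (q * u) := by ring
    rw [e, hqu, ← hs] at this
    linarith
  have hK3u : K3 * t ≤ u / 32 := by
    have := mul_le_mul_of_nonneg_right hK3t hu0.le
    have e : 32 * q * (K3 * t) * u = 32 * (K3 * t) * (q * u) := by ring
    rw [e, hqu] at this
    linarith
  have hce : c * e1 ≤ u / 32 := by
    have h6 : c * e1 ≤ 2 * c0 * e1 := mul_le_mul_of_nonneg_right hc2 he0
    have := mul_le_mul_of_nonneg_right he1' hu0.le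
    have e : 64 * c0 * q * e1 * u = 64 * (c0 * e1) * (q * u) := by ring
    rw [e, hqu] at this
    linarith
  have hc0Vp : 0 < c0 * Vol b β := by positivity
  have ha0p : 0 ≤ a0 := by
    by_contra hcon
    push Not at hcon
    have := mul_neg_of_neg_of_pos hcon hc0Vp
    linarith
  -- c - c0
  have hdc : |c - c0| ≤ a0 * (Q + t) := by
    have k1 : |c - c0| * (c0 * Vol b β) ≤ Q + t := by
      have k2 : (c - c0) * ((c + c0) * Vol b β) = Q + σ * t := by
        have : (c - c0) * ((c + c0) * Vol b β) = c ^ 2 * Vol b β - c0 ^ 2 * Vol b β := by ring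
        rw [this, hc0V, hQ, hz]; ring
      have k3 : |c - c0| * ((c + c0) * Vol b β) = |Q + σ * t| := by
        rw [← k2, abs_mul, abs_of_nonneg (by positivity : 0 ≤ (c + c0) * Vol b β)]
      have k4 : |Q + σ * t| ≤ Q + t := by
        calc |Q + σ * t| ≤ |Q| + |σ * t| := abs_add_le _ _
          _ = Q + t := by rw [abs_mul, hσa, one_mul, abs_of_nonneg ht, abs_of_nonneg hQ0]
      have k5 : |c - c0| * (c0 * Vol b β) ≤ |c - c0| * ((c + c0) * Vol b β) := by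
        apply mul_le_mul_of_nonneg_left _ (abs_nonneg _)
        exact mul_le_mul_of_nonneg_right (by linarith) hV.le
      linarith
    calc |c - c0| = a0 * (|c - c0| * (c0 * Vol b β)) := by
          have : a0 * (|c - c0| * (c0 * Vol b β)) = |c - c0| * (a0 * (c0 * Vol b β)) := by ring
          rw [this, ha0, mul_one]
      _ ≤ a0 * (Q + t) := mul_le_mul_of_nonneg_left k1 ha0p
  -- kT
  obtain ⟨kT, hkT⟩ : ∃ kT : ℝ, kT = 3 * c * b - c * ∑ i ∈ range M1, β i -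
      ∑ n ∈ range N, wt 1 z n := ⟨_, rfl⟩
  have hkTle : kT ≤ Per b β * a0 * Q + c * e1 + K3 * t := by
    have k1 : kT = (c - c0) * Per b β + c * e1 + (-(σ * t) + q * t + y (N - 1) * (σ * t)) := by
      have k2 : 3 * c * b - c * ∑ i ∈ range M1, β i = c * Per b β + c * e1 := by
        rw [← he1, Per]; ring
      rw [hkT, k2, e1w, homu, hz, hs, hu]
      linear_combination hκ
    have k3 : (c - c0) * Per b β ≤ a0 * (Q + t) * Per b β :=
      mul_le_mul_of_nonneg_right (le_trans (le_abs_self _) hdc) hPer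
    have k4 : -(σ * t) ≤ t := by
      have : |σ * t| = t := by rw [abs_mul, hσa, one_mul, abs_of_nonneg ht]
      have := neg_abs_le (σ * t)
      linarith
    have k5 := hyb.2
    have k6 : (1 + (q : ℝ) + |(y (N - 1) : ℝ)| + Per b β * a0) * t =
        t + q * t + |(y (N - 1) : ℝ)| * t + Per b β * a0 * t := by ring
    have k7 : a0 * (Q + t) * Per b β = Per b β * a0 * Q + Per b β * a0 * t := by ring
    rw [k1, hK3, k6]
    linarith
  have hB2nn : 0 ≤ B2 := by rw [hB2]; exact tsum_nonneg fun i => sq_nonneg _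
  have hB2V : B2 = b ^ 2 - Vol b β := by rw [hB2, Vol]; ring
  have hK4nn : 0 ≤ K4 := by rw [hK4]; exact Finset.sum_nonneg fun n _ => sq_nonneg _
  by_cases hls : lam * s ≤ 1 / 2
  · -- case 1
    obtain ⟨Mb, Nb, hMb, hNb, hsup⟩ := exists_box A.2.support M1 N
    have hidx : (0 : ℝ) ≤ (A.1 : ℝ) ^ 2 + 3 * A.1 -
        ∑ i ∈ range Mb, (((A.2 (Sum.inl i) : ℤ) : ℝ) ^ 2 + (A.2 (Sum.inl i) : ℤ)) -
          ∑ n ∈ range Nb, (((A.2 (Sum.inr n) : ℤ) : ℝ) ^ 2 + (A.2 (Sum.inr n) : ℤ)) := by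
      have := hA.2
      rw [idx_eq_sum A _ hsup, Finset.sum_disjSum] at this
      have h6 : (0 : ℝ) ≤ ((A.1 ^ 2 + 3 * A.1 - (∑ i ∈ range Mb, (A.2 (Sum.inl i) ^ 2 +
        A.2 (Sum.inl i)) + ∑ n ∈ range Nb, (A.2 (Sum.inr n) ^ 2 + A.2 (Sum.inr n))) : ℤ) : ℝ) := by
        exact_mod_cast this
      push_cast at h6
      linarith
    have huu : ∀ c' z' : ℝ, uu b β c' z' A = c' * b * A.1 -
        ∑ i ∈ range Mb, c' * β i * (A.2 (Sum.inl i) : ℤ) -
          ∑ n ∈ range Nb, wt 1 z' n * (A.2 (Sum.inr n) : ℤ) := by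
      intro c' z'
      rw [uu, vec_eq_sum _ _ _ _ hsup, Finset.sum_disjSum]
      simp only [Sum.elim_inl, Sum.elim_inr]
      ring
    have hG' := hG A hA
    rw [huu] at hG' hneg
    obtain ⟨E, hE⟩ : ∃ E : ℝ, E = lam * (c * e1) + ((M1 : ℝ) + N) / 2 := ⟨_, rfl⟩
    have hE0 : 0 ≤ E := by rw [hE]; positivity
    have hEq : 16 * q * E ≤ lam := by
      have k1 : 16 * q * (lam * (c * e1)) ≤ lam / 2 := by
        have := mul_le_mul_of_nonneg_left hce (by positivity : 0 ≤ 16 * q * lam)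
        have e : 16 * q * lam * (u / 32) = lam / 2 * (q * u) := by ring
        rw [e, hqu] at this
        linarith
      rw [hE]
      linarith
    have hEl : E ≤ lam := by
      have k1 : 1 * E ≤ q * E := mul_le_mul_of_nonneg_right hq1 hE0
      have k2 : 16 * q * E = 16 * (q * E) := by ring
      linarith
    have hso : t / 2 ≤ s * om := by
      have k1 : q * t * (u / 2) ≤ q * t * om := mul_le_mul_of_nonneg_left homl (by positivity)
      have e : q * t * (u / 2) = t / 2 * (q * u) := by ring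
      rw [e, hqu, mul_one] at k1
      rw [hs]
      exact k1
    have htl : ∀ n, N ≤ n → wt 1 z n ≤ s := by
      intro n hn
      obtain ⟨j, rfl⟩ := Nat.exists_eq_add_of_le hn
      rw [htail j, hsz, ← hom]
      calc wt s om j ≤ wt s om 0 := wt_anti hs0 hom0 (Nat.zero_le j)
        _ = min s om := wt_zero _ _
        _ ≤ s := min_le_left _ _
    have htl0 : ∀ n, N ≤ n → wt 1 ((p : ℝ) / q) n = 0 := by
      intro n hn
      rw [hw0, S.hWN n hn]
      simp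
    have hkE : lam * kT + ((M1 : ℝ) + N) / 2 ≤ lam ^ 2 * (Q + s * om) / 2 + E := by
      have k1 := mul_le_mul_of_nonneg_left hkTle hlam.le
      have k2 : lam * (Per b β * a0 * Q) ≤ lam ^ 2 * Q / 2 := by
        have k8 := mul_le_mul_of_nonneg_right h1 (mul_nonneg hlam.le hQ0)
        have k9 : 2 * (Per b β * a0) * (lam * Q) = 2 * (lam * (Per b β * a0 * Q)) := by ring
        have k10 : lam * (lam * Q) = lam ^ 2 * Q := by ring
        linarith
      have k3 : lam * (K3 * t) ≤ lam ^ 2 * (s * om) / 2 := by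
        have k4 := mul_le_mul_of_nonneg_right h2 (mul_nonneg hlam.le ht)
        have k5 := mul_le_mul_of_nonneg_left hso (sq_nonneg lam)
        have k9 : 4 * K3 * (lam * t) = 4 * (lam * (K3 * t)) := by ring
        have k10 : lam * (lam * t) = 2 * (lam ^ 2 * (t / 2)) := by ring
        linarith
      rw [hE]
      linarith
    have := case1 M1 Mb N Nb hMb hNb β (wt 1 z) (wt 1 ((p : ℝ) / q)) (fun n => y n * (σ * t))
      (fun i => A.2 (Sum.inl i)) (fun n => A.2 (Sum.inr n)) (fun i => hm _) (fun n => hm _)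
      b c c0 A.1 lam B2 (Vol b β) z (p / q) t s (s * om) Q a0 K4 q kT E hlam hd hcpos hidx hneg.le
      hG' (by rw [hB2]; exact hsB2.sum_le_tsum _ (fun i _ => sq_nonneg _)) hB2V
      (fun n hn => by rw [hlin n hn, hlin0 n hn, hz]; ring)
      (by
        have e : ∀ n, ((y n : ℝ) * (σ * t)) ^ 2 = (y n : ℝ) ^ 2 * t ^ 2 := by
          intro n
          linear_combination (y n : ℝ) ^ 2 * t ^ 2 * hσ
        simp only [e]
        rw [← Finset.sum_mul, ← hK4])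
      e2w e2w0 htl htl0 (by rw [hQ]; ring) hc0V hV ht hQ0 hso hK4nn hdc hls hs hq' hkT.symm
      hkE hEq hEl h4 h5 hK4t
    linarith
  · -- case 2
    push Not at hls
    have hs1 : 0 < s := by
      rcases hs0.lt_or_eq with h | h
      · exact h
      · rw [← h, mul_zero] at hls
        linarith
    obtain ⟨K, hK⟩ : ∃ K : ℕ, K = ⌊om / s⌋₊ := ⟨_, rfl⟩
    have hK1 : (K : ℝ) * s ≤ om := by
      have : (K : ℝ) ≤ om / s := by rw [hK]; exact Nat.floor_le (by positivity)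
      exact (le_div_iff₀ hs1).mp this
    have hK2 : om - s ≤ K * s := by
      have : om / s < K + 1 := by rw [hK]; exact Nat.lt_floor_add_one _
      have := (div_lt_iff₀ hs1).mp this
      linarith
    have hsq : ∀ S' : Finset II, ∑ i ∈ S', (Sum.elim (fun i => c * β i) (fun n => wt 1 z n) i) ^ 2 ≤
        (c * b) ^ 2 - Q := by
      intro S'
      obtain ⟨Mb, Nb, -, -, hsup⟩ := exists_box S' 0 0
      refine le_trans (Finset.sum_le_sum_of_subset_of_nonneg hsup fun i _ _ => sq_nonneg _) ?_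
      rw [Finset.sum_disjSum]
      simp only [Sum.elim_inl, Sum.elim_inr]
      have k1 : ∑ i ∈ range Mb, (c * β i) ^ 2 ≤ c ^ 2 * B2 := by
        have : ∑ i ∈ range Mb, (c * β i) ^ 2 = c ^ 2 * ∑ i ∈ range Mb, β i ^ 2 := by
          rw [Finset.mul_sum]
          exact Finset.sum_congr rfl fun i _ => by ring
        rw [this, hB2]
        exact mul_le_mul_of_nonneg_left (hsB2.sum_le_tsum _ (fun i _ => sq_nonneg _)) (sq_nonneg _)
      have k2 : ∑ n ∈ range Nb, wt 1 z n ^ 2 ≤ z := by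
        have k3 := (summable_wt_sq (zero_le_one' ℝ) hzpos).sum_le_tsum (range Nb)
          (fun i _ => sq_nonneg _)
        rw [tsum_wt_sq (zero_le_one' ℝ) hzpos, one_mul] at k3
        exact k3
      have k4 : (c * b) ^ 2 - Q = c ^ 2 * B2 + z := by rw [hQ, hB2V]; ring
      rw [k4]
      exact add_le_add k1 k2
    have hv : ∀ i : II, 0 ≤ (Sum.elim (fun i => c * β i) (fun n => wt 1 z n) i) := by
      rintro (i | n)
      · exact mul_nonneg hcpos.le (D.hβ i)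
      · exact wt_nonneg zero_le_one hzpos n
    have hbd := bdi (c * b) _ (by positivity) hv Q hsq ((range M1).disjSum (range (N + K))) A hA hm
      hneg
    have hlamd : (A.1 : ℝ) / (c * b) = lam := by
      rw [hd]
      field_simp
    rw [hlamd, Finset.sum_disjSum, Finset.card_disjSum, Finset.card_range, Finset.card_range] at hbd
    simp only [Sum.elim_inl, Sum.elim_inr] at hbd
    have hsumT : ∑ n ∈ range (N + K), wt 1 z n = ∑ n ∈ range N, wt 1 z n + K * s := by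
      rw [Finset.sum_range_add]
      congr 1
      rw [Finset.sum_congr rfl (g := fun _ => s)]
      · simp
      · intro j hj
        rw [htail j, hsz, ← hom]
        apply wt_first s hs0 j om
        have : (j : ℝ) + 1 ≤ K := by exact_mod_cast mem_range.mp hj
        exact le_trans (mul_le_mul_of_nonneg_right this hs0) hK1
    have hcM : ∑ i ∈ range M1, c * β i = c * ∑ i ∈ range M1, β i := by rw [Finset.mul_sum]
    rw [hsumT, hcM] at hbd
    push_cast at hbd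
    refine case2 lam Q kT K s om (Per b β * a0) (c * e1) K3 t u ((M1 : ℝ) + N) hlam hu0 ?_ hkTle h1
      hQ0 hls hK2 (Nat.cast_nonneg _) homl hsu hce hK3u ?_
    · have e : kT - K * s = 3 * (c * b) - (c * ∑ i ∈ range M1, β i +
          (∑ n ∈ range N, wt 1 z n + K * s)) := by rw [hkT]; ring
      rw [e]
      linarith
    · have k1 := mul_le_mul_of_nonneg_right h3 hu0.le
      have e : 16 * (q : ℝ) * ((M1 : ℝ) + N) * u = 16 * ((M1 : ℝ) + N) * (q * u) := by ring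
      rw [e, hqu, mul_one] at k1
      exact k1

end Bd0

open Bd0 in
theorem bd_zero {b : ℝ} {β : ℕ → ℝ} (D : Dat b β) {p q : ℕ} (hq : 0 < q) (hpq : q ≤ p)
    (cop : Nat.Coprime p q)
    {σ : ℝ} (hσ : σ = 1 ∨ (σ = -1 ∧ q < p)) (h : VV b β (p / q) = cfun b β (p / q))
    (hG : Good (uu b β (VV b β (p / q)) (p / q)))
    (hκ : VV b β (p / q) * Per b β = ∑' n, wt 1 ((p : ℝ) / q) n) : BD b β (p / q) σ := by
  obtain ⟨N, x, y, ε1, S, -⟩ := side_exists p q hq hpq cop σ hσ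
  have hp : 0 < p := lt_of_lt_of_le hq hpq
  have hq' : (0 : ℝ) < q := by exact_mod_cast hq
  have hp' : (0 : ℝ) < p := by exact_mod_cast hp
  have hq1 : (1 : ℝ) ≤ q := by exact_mod_cast hq
  have hσ2 : σ * σ = 1 := by
    rcases hσ with h | h
    · rw [h]; norm_num
    · rw [h.1]; norm_num
  have hσa : |σ| = 1 := by
    rcases hσ with h | h
    · rw [h]; norm_num
    · rw [h.1]; norm_num
  have hz01 : (1 : ℝ) ≤ (p : ℝ) / q := by
    rw [le_div_iff₀ hq', one_mul]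
    exact_mod_cast hpq
  have hV := D.hV
  have hb := D.hb
  obtain ⟨hw1, hw0⟩ := tsum_wt_rat hq hp cop
  rw [hw1] at hκ
  obtain ⟨c0, hc0def⟩ : ∃ c0 : ℝ, c0 = VV b β (p / q) := ⟨_, rfl⟩
  have hc0 : 0 < c0 := by
    rw [hc0def, VV]
    positivity
  have hc0V : c0 ^ 2 * Vol b β = p / q := by
    rw [hc0def, VV, Real.sq_sqrt (by positivity)]
    field_simp
  rw [← hc0def] at hG hκ h
  have hPer : 0 ≤ Per b β := by
    have h1 : 1 / (q : ℝ) ≤ 1 := by
      rw [div_le_one hq']; exact hq1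
    have h2 : 0 ≤ c0 * Per b β := by rw [hκ]; linarith
    by_contra hcon
    push Not at hcon
    have := mul_neg_of_pos_of_neg hc0 hcon
    linarith
  have hβs := D.hs
  have hB1 : ∀ i, β i ≤ ∑' j, β j := fun i => hβs.le_tsum i fun j _ => D.hβ j
  have hB10 : 0 ≤ ∑' j, β j := tsum_nonneg D.hβ
  have hsB2 : Summable (fun i => β i ^ 2) := by
    refine Summable.of_nonneg_of_le (fun i => sq_nonneg _) (fun i => ?_)
      (hβs.mul_left (∑' j, β j))
    rw [sq]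
    exact mul_le_mul_of_nonneg_right (hB1 i) (D.hβ i)
  obtain ⟨M1, hM1⟩ : ∃ M1 : ℕ, 64 * c0 * q * (∑' i, β i - ∑ i ∈ range M1, β i) ≤ 1 := by
    have hlim := hβs.hasSum.tendsto_sum_nat
    have hpos : 0 < 1 / (64 * c0 * q) := by positivity
    obtain ⟨M1, hM1⟩ := (Metric.tendsto_atTop.mp hlim (1 / (64 * c0 * q)) hpos)
    refine ⟨M1, ?_⟩
    have h1 := hM1 M1 le_rfl
    rw [Real.dist_eq] at h1
    have h2 : ∑' i, β i - ∑ i ∈ range M1, β i ≤ 1 / (64 * c0 * q) := by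
      have := neg_abs_le (∑ i ∈ range M1, β i - ∑' i, β i)
      linarith
    calc 64 * c0 * q * (∑' i, β i - ∑ i ∈ range M1, β i) ≤ 64 * c0 * q * (1 / (64 * c0 * q)) :=
          mul_le_mul_of_nonneg_left h2 (by positivity)
      _ = 1 := by field_simp
  have he0 : 0 ≤ ∑' i, β i - ∑ i ∈ range M1, β i := by
    have := hβs.sum_le_tsum (range M1) (fun i _ => D.hβ i)
    linarith
  obtain ⟨a0, ha0d⟩ : ∃ a0 : ℝ, a0 = 1 / (c0 * Vol b β) := ⟨_, rfl⟩
  have ha0p : 0 ≤ a0 := by rw [ha0d]; positivity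
  have ha0 : a0 * (c0 * Vol b β) = 1 := by rw [ha0d]; field_simp
  obtain ⟨B2, hB2⟩ : ∃ B2 : ℝ, B2 = ∑' i, β i ^ 2 := ⟨_, rfl⟩
  have hB20 : 0 ≤ B2 := by rw [hB2]; exact tsum_nonneg fun i => sq_nonneg _
  obtain ⟨K3, hK3⟩ : ∃ K3 : ℝ, K3 = 1 + q + |(y (N - 1) : ℝ)| + Per b β * a0 := ⟨_, rfl⟩
  have hK30 : 0 ≤ K3 := by rw [hK3]; positivity
  obtain ⟨K4, hK4⟩ : ∃ K4 : ℝ, K4 = ∑ n ∈ range N, (y n : ℝ) ^ 2 := ⟨_, rfl⟩
  have hK40 : 0 ≤ K4 := by rw [hK4]; exact Finset.sum_nonneg fun n _ => sq_nonneg _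
  obtain ⟨Y, hY⟩ : ∃ Y : ℝ, Y = |(y (N - 1) : ℝ)| := ⟨_, rfl⟩
  have hY0 : 0 ≤ Y := by rw [hY]; exact abs_nonneg _
  have hG0 : (0 : ℝ) ≤ (M1 : ℝ) + N := by positivity
  obtain ⟨Λ, hΛ⟩ : ∃ Λ : ℝ, Λ = 2 * (Per b β * a0) + 4 * K3 + 16 * q * ((M1 : ℝ) + N) +
    512 * a0 ^ 2 * B2 + 512 * K4 + 1 := ⟨_, rfl⟩
  have hΛa : 0 ≤ 2 * (Per b β * a0) := by positivity
  have hΛb : 0 ≤ 16 * q * ((M1 : ℝ) + N) := by positivity
  have hΛc : 0 ≤ 512 * a0 ^ 2 * B2 := by positivity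
  have hΛ0 : 0 < Λ := by linarith
  obtain ⟨R, hR⟩ : ∃ R : ℝ, R = 2 * q * Y + 8 * K4 + 4 * q * q + 32 * q * K3 + 1 := ⟨_, rfl⟩
  have r1 : 0 ≤ 2 * q * Y := by positivity
  have r2 : 0 ≤ 4 * (q : ℝ) * q := by positivity
  have r3 : 0 ≤ 32 * q * K3 := by positivity
  have hR0 : 0 < R := by linarith
  refine ⟨⌈Λ * (2 * c0) * b⌉₊, min ε1 (min c0 (1 / R)),
    lt_min S.hε (lt_min hc0 (by positivity)), ?_⟩
  intro t c ht htε hz1 hcε hVc A hA hm hneg
  have t1 : t ≤ ε1 := le_trans htε (min_le_left _ _)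
  have t2 : t ≤ 1 / R := le_trans htε (le_trans (min_le_right _ _) (min_le_right _ _))
  have t3 : R * t ≤ 1 := by
    have := (le_div_iff₀ hR0).mp t2
    linarith
  have t4 : |c - c0| ≤ c0 := by
    rw [h]
    refine le_trans hcε ?_
    rw [← h]
    exact le_trans (min_le_right _ _) (min_le_left _ _)
  have hc2 : c ≤ 2 * c0 := by
    have := (abs_le.mp t4).2
    linarith
  have hVVpos : 0 < VV b β ((p : ℝ) / q + σ * t) := by
    rw [VV]
    have : 0 < (p : ℝ) / q + σ * t := by linarith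
    positivity
  have hcpos : 0 < c := lt_of_lt_of_le hVVpos hVc
  have hVc2 : (p : ℝ) / q + σ * t ≤ c ^ 2 * Vol b β := by
    have h1 : VV b β ((p : ℝ) / q + σ * t) ^ 2 ≤ c ^ 2 := pow_le_pow_left₀ hVVpos.le hVc 2
    rw [VV, Real.sq_sqrt (by
      have : 0 < (p : ℝ) / q + σ * t := by linarith
      positivity)] at h1
    exact (div_le_iff₀ hV).mp h1
  have s1 : 2 * q * (|(y (N - 1) : ℝ)| * t) ≤ 1 := by
    rw [← hY]
    have e : R * t = 2 * q * (Y * t) + (8 * K4 + 4 * q * q + 32 * q * K3 + 1) * t := by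
      rw [hR]; ring
    have : 0 ≤ (8 * K4 + 4 * q * q + 32 * q * K3 + 1) * t := by positivity
    linarith
  have s2 : 8 * (K4 * t) ≤ 1 := by
    have e : R * t = 8 * (K4 * t) + (2 * q * Y + 4 * q * q + 32 * q * K3 + 1) * t := by
      rw [hR]; ring
    have : 0 ≤ (2 * q * Y + 4 * q * q + 32 * q * K3 + 1) * t := by positivity
    linarith
  have s3 : 4 * q * (q * t) ≤ 1 := by
    have e : R * t = 4 * q * (q * t) + (2 * q * Y + 8 * K4 + 32 * q * K3 + 1) * t := by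
      rw [hR]; ring
    have : 0 ≤ (2 * q * Y + 8 * K4 + 32 * q * K3 + 1) * t := by positivity
    linarith
  have s4 : 32 * q * (K3 * t) ≤ 1 := by
    have e : R * t = 32 * q * (K3 * t) + (2 * q * Y + 8 * K4 + 4 * q * q + 1) * t := by
      rw [hR]; ring
    have : 0 ≤ (2 * q * Y + 8 * K4 + 4 * q * q + 1) * t := by positivity
    linarith
  by_contra hcon
  push Not at hcon
  have hd1 : Λ * (2 * c0) * b < A.1 := by
    have h1 := Nat.le_ceil (Λ * (2 * c0) * b)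
    have h2 : ((⌈Λ * (2 * c0) * b⌉₊ : ℤ) : ℝ) < A.1 := by exact_mod_cast hcon
    push_cast at h2
    linarith
  have hcb : 0 < c * b := by positivity
  obtain ⟨lam, hlamd⟩ : ∃ lam : ℝ, lam = (A.1 : ℝ) / (c * b) := ⟨_, rfl⟩
  have hd : (A.1 : ℝ) = lam * (c * b) := by rw [hlamd]; field_simp
  have hlam : Λ < lam := by
    rw [hlamd, lt_div_iff₀ hcb]
    have h1 : Λ * (c * b) ≤ Λ * (2 * c0 * b) :=
      mul_le_mul_of_nonneg_left (mul_le_mul_of_nonneg_right hc2 hb.le) hΛ0.le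
    linarith
  exact point D hq hσ2 hσa S c0 hc0 hc0V hG hκ hPer hw0 M1 a0 B2 K3 K4 _ ha0 hB2 hsB2 rfl he0 hM1
    hK3 hK4 t c ht t1 hz1 hc2 hcpos hVc2 s1 s2 s3 s4 A hA hm hneg lam (by linarith) hd
    (by linarith) (by linarith) (by linarith) (by linarith) (by linarith)

end Pool.Agent.Stair
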