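import Pool.Agent.Lib.MP_f690a7_gt.Eu

/-!
The Euclidean weights are affine on one-sided neighbourhoods.
-/

namespace Pool.Agent.Stair

open Finset

section Weights

namespace Germ

/-- an affine function has a constant sign on a right neighbourhood of `0` -/
theorem sign (d0 d1 : ℝ) : ∃ ε > 0, (∀ t : ℝ, 0 ≤ t → t ≤ ε → 0 ≤ d0 + d1 * t) ∨
    (∀ t : ℝ, 0 ≤ t → t ≤ ε → d0 + d1 * t ≤ 0) := by
  rcases lt_trichotomy d0 0 with h | h | h
  · refine ⟨-d0 / (|d1| + 1), by
      have : 0 < |d1| + 1 := by positivity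
      exact div_pos (by linarith) this, Or.inr fun t ht hte => ?_⟩
    have h1 : 0 < |d1| + 1 := by positivity
    rw [le_div_iff₀ h1] at hte
    have h2 : d1 * t ≤ |d1| * t := mul_le_mul_of_nonneg_right (le_abs_self d1) ht
    nlinarith
  · rcases le_total 0 d1 with h1 | h1
    · refine ⟨1, one_pos, Or.inl fun t ht _ => ?_⟩
      rw [h, zero_add]
      exact mul_nonneg h1 ht
    · refine ⟨1, one_pos, Or.inr fun t ht _ => ?_⟩
      rw [h, zero_add]
      exact mul_nonpos_of_nonpos_of_nonneg h1 ht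
  · refine ⟨d0 / (|d1| + 1), by
      have : 0 < |d1| + 1 := by positivity
      exact div_pos h this, Or.inl fun t ht hte => ?_⟩
    have h1 : 0 < |d1| + 1 := by positivity
    rw [le_div_iff₀ h1] at hte
    have h2 : -|d1| * t ≤ d1 * t := mul_le_mul_of_nonneg_right (neg_abs_le d1) ht
    nlinarith

/-- the weights of a pair of affine functions are affine near `0` on the right -/
theorem affine (n : ℕ) : ∀ a0 a1 b0 b1 : ℝ, ∃ ε > 0, ∃ x y : ℝ, ∀ t : ℝ, 0 ≤ t → t ≤ ε →
    wt (a0 + a1 * t) (b0 + b1 * t) n = x + y * t := by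
  induction n with
  | zero =>
    intro a0 a1 b0 b1
    obtain ⟨ε, hε, h | h⟩ := sign (b0 - a0) (b1 - a1)
    · refine ⟨ε, hε, a0, a1, fun t ht hte => ?_⟩
      have h1 := h t ht hte
      rw [wt_zero, min_eq_left (by linarith)]
    · refine ⟨ε, hε, b0, b1, fun t ht hte => ?_⟩
      have h1 := h t ht hte
      rw [wt_zero, min_eq_right (by linarith)]
  | succ n ih =>
    intro a0 a1 b0 b1
    obtain ⟨ε, hε, h | h⟩ := sign (b0 - a0) (b1 - a1)
    · obtain ⟨ε', hε', x, y, hxy⟩ := ih a0 a1 (b0 - a0) (b1 - a1)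
      refine ⟨min ε ε', lt_min hε hε', x, y, fun t ht hte => ?_⟩
      have h1 := h t ht (le_trans hte (min_le_left _ _))
      rw [wt_succ_le (by linarith), ← hxy t ht (le_trans hte (min_le_right _ _))]
      congr 1
      ring
    · obtain ⟨ε', hε', x, y, hxy⟩ := ih (a0 - b0) (a1 - b1) b0 b1
      refine ⟨min ε ε', lt_min hε hε', x, y, fun t ht hte => ?_⟩
      have h1 := h t ht (le_trans hte (min_le_left _ _))
      rw [wt_succ_ge (by linarith), ← hxy t ht (le_trans hte (min_le_right _ _))]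
      congr 1
      ring

end Germ

theorem wt_germ (z0 σ : ℝ) (hz0 : 0 < z0) (hσ : σ = 1 ∨ σ = -1) (n : ℕ) :
    ∃ ε > 0, ∃ x y : ℝ, ∀ t : ℝ, 0 ≤ t → t ≤ ε → wt 1 (z0 + σ * t) n = x + y * (z0 + σ * t) := by
  obtain ⟨ε, hε, x, y, h⟩ := Germ.affine n 1 0 z0 σ
  have hσ2 : σ * σ = 1 := by
    rcases hσ with h | h <;> rw [h] <;> norm_num
  refine ⟨ε, hε, x - y * σ * z0, y * σ, fun t ht hte => ?_⟩
  have h1 := h t ht hte
  rw [zero_mul, add_zero] at h1
  rw [h1]
  linear_combination (-(y * t)) * hσ2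

end Weights

end Pool.Agent.Stair
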