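import Pool.Agent.Lib.MP_f690a7_gt.Bdi
import Pool.Agent.Lib.MP_f690a7_gt.Eu
import Pool.Agent.Lib.MP_f690a7_gt.Germ

/-!
Bounded degree of violated classes above the volume curve and for negative anticanonical degree
(module BD1).
-/

namespace Pool.Agent.Stair

open Finset

namespace Bd1

variable {b : ℝ} {β : ℕ → ℝ}

theorem sq_summable (D : Dat b β) : Summable (fun j => (β j) ^ 2) := by
  have h1 : Summable (fun j => (∑' j, β j) * β j) := D.hs.mul_left _
  refine Summable.of_nonneg_of_le (fun j => sq_nonneg _) (fun j => ?_) h1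
  have h2 : β j ≤ ∑' j, β j := D.hs.le_tsum j (fun i _ => D.hβ i)
  have h3 := D.hβ j
  nlinarith

theorem VV_pos (D : Dat b β) {z : ℝ} (hz : 0 < z) : 0 < VV b β z :=
  Real.sqrt_pos.2 (div_pos hz D.hV)

theorem VV_sq (D : Dat b β) {z : ℝ} (hz : 0 < z) : VV b β z ^ 2 * Vol b β = z := by
  unfold VV
  rw [Real.sq_sqrt (div_pos hz D.hV).le]
  have := D.hV.ne'
  field_simp

/-- squares of the entries -/
theorem sq_le (D : Dat b β) {c z : ℝ} (hz : 0 ≤ z) (S : Finset II) :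
    ∑ i ∈ S, (Sum.elim (fun i => c * β i) (fun n => wt 1 z n) i) ^ 2 ≤
      (c * b) ^ 2 - (c ^ 2 * Vol b β - z) := by
  rw [← Finset.toLeft_disjSum_toRight (u := S), Finset.sum_disjSum]
  simp only [Sum.elim_inl, Sum.elim_inr]
  have h1 : ∑ x ∈ S.toLeft, (c * β x) ^ 2 ≤ c ^ 2 * ∑' i, (β i) ^ 2 := by
    have e : ∀ x ∈ S.toLeft, (c * β x) ^ 2 = c ^ 2 * (β x) ^ 2 := fun x _ => by ring
    rw [Finset.sum_congr rfl e, ← Finset.mul_sum]
    exact mul_le_mul_of_nonneg_left ((sq_summable D).sum_le_tsum _ (fun j _ => sq_nonneg _))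
      (sq_nonneg c)
  have h2 : ∑ x ∈ S.toRight, wt 1 z x ^ 2 ≤ z := by
    have h := (summable_wt_sq zero_le_one hz).sum_le_tsum S.toRight (fun j _ => sq_nonneg _)
    rw [tsum_wt_sq zero_le_one hz, one_mul] at h
    exact h
  have h3 : (c * b) ^ 2 - (c ^ 2 * Vol b β - z) = c ^ 2 * ∑' i, (β i) ^ 2 + z := by
    unfold Vol; ring
  rw [h3]
  exact add_le_add h1 h2

theorem entry_nonneg (D : Dat b β) {c z : ℝ} (hc : 0 ≤ c) (hz : 0 ≤ z) (i : II) :
    0 ≤ Sum.elim (fun i => c * β i) (fun n => wt 1 z n) i := by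
  rcases i with i | i
  · exact mul_nonneg hc (D.hβ i)
  · exact wt_nonneg zero_le_one hz i

end Bd1

variable {b : ℝ} {β : ℕ → ℝ}

theorem bd_gt (D : Dat b β) {z0 σ : ℝ} (hz0 : 1 ≤ z0) (hσ : σ = 1 ∨ σ = -1)
    (h : VV b β z0 < cfun b β z0) : BD b β z0 σ := by
  set c0 := cfun b β z0 with hc0
  set V := Vol b β with hV
  have hVp : 0 < V := D.hV
  have hVV0 := Bd1.VV_pos D (show 0 < z0 by linarith)
  have hc0p : 0 < c0 := lt_trans hVV0 h
  -- gap
  have hgap : 0 < c0 ^ 2 * V - z0 := by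
    have h1 := Bd1.VV_sq D (show 0 < z0 by linarith)
    have h2 : VV b β z0 ^ 2 < c0 ^ 2 := pow_lt_pow_left₀ h hVV0.le two_ne_zero
    nlinarith
  set η := (c0 ^ 2 * V - z0) / 2 with hη
  have hηp : 0 < η := by rw [hη]; linarith
  -- epsilon
  set K := 2 * c0 * V + 1 with hK
  have hKp : 0 < K := by positivity
  set ε := min (η / K) c0 with hε
  have hεp : 0 < ε := lt_min (by positivity) hc0p
  obtain ⟨M, hM⟩ := exists_nat_ge (3 * (2 * c0 * b) ^ 2 / η)
  refine ⟨M, ε, hεp, ?_⟩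
  intro t c ht0 ht1 hz hc hVc A hA hm hneg
  have hb := D.hb
  rw [abs_le] at hc
  have hε1 : ε ≤ η / K := min_le_left _ _
  have hε2 : ε ≤ c0 := min_le_right _ _
  have hcp : 0 < c := lt_of_lt_of_le (Bd1.VV_pos D (by linarith)) hVc
  have hc2 : c ≤ 2 * c0 := by linarith
  -- Q ≥ η
  have hεK : ε * K ≤ η := by rwa [le_div_iff₀ hKp] at hε1
  have hzle : z0 + σ * t ≤ z0 + ε := by
    rcases hσ with rfl | rfl <;> linarith
  have hQ : η ≤ c ^ 2 * V - (z0 + σ * t) := by
    have h1 : (c0 - ε) ^ 2 ≤ c ^ 2 := pow_le_pow_left₀ (by linarith) (by linarith) 2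
    have h2 : (c0 - ε) ^ 2 * V ≤ c ^ 2 * V := mul_le_mul_of_nonneg_right h1 hVp.le
    have h3 : (c0 - ε) ^ 2 * V = c0 ^ 2 * V - ε * (2 * c0 * V) + ε ^ 2 * V := by ring
    have h4 : 0 ≤ ε ^ 2 * V := by positivity
    have h5 : ε * K = ε * (2 * c0 * V) + ε := by rw [hK]; ring
    have h6 : 2 * η = c0 ^ 2 * V - z0 := by rw [hη]; ring
    linarith
  have hv0 : 0 < c * b := by positivity
  have hbdi := bdi (c * b) (Sum.elim (fun i => c * β i) (fun n => wt 1 (z0 + σ * t) n)) hv0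
    (Bd1.entry_nonneg D hcp.le (by linarith)) (c ^ 2 * V - (z0 + σ * t))
    (fun S => Bd1.sq_le D (by linarith) S) ∅ A hA hm hneg
  simp only [Finset.sum_empty, Finset.card_empty, Nat.cast_zero, zero_div, sub_zero] at hbdi
  set lam := (A.1 : ℝ) / (c * b) with hlam
  have hd0 : (0:ℝ) ≤ (A.1 : ℝ) := by exact_mod_cast hA.1
  have hlam0 : 0 ≤ lam := div_nonneg hd0 hv0.le
  have hd : (A.1 : ℝ) = lam * (c * b) := by rw [hlam]; field_simp
  have h7 : lam * η ≤ 3 * (c * b) := by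
    rcases eq_or_lt_of_le hlam0 with h0 | hpos
    · rw [← h0]; simp; positivity
    · have h8 : lam ^ 2 * η ≤ lam ^ 2 * (c ^ 2 * V - (z0 + σ * t)) :=
        mul_le_mul_of_nonneg_left hQ (sq_nonneg _)
      have h9 : lam * (lam * η) ≤ lam * (3 * (c * b)) := by
        have e : lam * (lam * η) = lam ^ 2 * η := by ring
        rw [e]
        linarith
      exact le_of_mul_le_mul_left h9 hpos
  have h10 : (A.1 : ℝ) * η ≤ 3 * (2 * c0 * b) ^ 2 := by
    have h11 : c * b ≤ 2 * c0 * b := mul_le_mul_of_nonneg_right hc2 hb.le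
    have h12 : (c * b) ^ 2 ≤ (2 * c0 * b) ^ 2 := pow_le_pow_left₀ hv0.le h11 2
    have h13 : (A.1 : ℝ) * η = (lam * η) * (c * b) := by rw [hd]; ring
    rw [h13]
    have h14 := mul_le_mul_of_nonneg_right h7 hv0.le
    have h15 : 3 * (c * b) * (c * b) = 3 * (c * b) ^ 2 := by ring
    linarith
  have h16 : (A.1 : ℝ) ≤ M := by
    refine le_trans ?_ hM
    rwa [le_div_iff₀ hηp]
  exact_mod_cast h16

theorem bd_neg (D : Dat b β) {z0 σ : ℝ} (hz0 : 1 ≤ z0) (hσ : σ = 1 ∨ σ = -1)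
    (h : VV b β z0 = cfun b β z0) (hκ : VV b β z0 * Per b β < ∑' n, wt 1 z0 n) : BD b β z0 σ := by
  set c0 := cfun b β z0 with hc0
  have hVV0 := Bd1.VV_pos D (show 0 < z0 by linarith)
  have hc0p : 0 < c0 := by rw [← h]; exact hVV0
  rw [h] at hκ
  have hb := D.hb
  -- truncation
  have hlim : Filter.Tendsto (fun N => c0 * (3 * b - ∑ j ∈ range N, β j) -
      ∑ i ∈ range N, wt 1 z0 i) Filter.atTop (nhds (c0 * Per b β - ∑' n, wt 1 z0 n)) := by
    unfold Per
    exact ((D.hs.hasSum.tendsto_sum_nat.const_sub _).const_mul _).sub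
      ((summable_wt zero_le_one (by linarith)).hasSum.tendsto_sum_nat)
  obtain ⟨N, hN⟩ := (hlim.eventually_lt_const (show c0 * Per b β - ∑' n, wt 1 z0 n < 0 by
    linarith)).exists
  -- affine form of the weights
  choose ε1 hε1 x y hxy using fun n => wt_germ z0 σ (by linarith) hσ n
  obtain ⟨ε2, hε2, hε2'⟩ : ∃ ε2 : ℝ, 0 < ε2 ∧ ∀ n ∈ range N, ε2 ≤ ε1 n := by
    clear hN
    induction N with
    | zero => exact ⟨1, one_pos, by simp⟩
    | succ N ih =>
      obtain ⟨e, he, he'⟩ := ih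
      refine ⟨min e (ε1 N), lt_min he (hε1 N), ?_⟩
      intro n hn
      rw [Finset.mem_range] at hn
      by_cases hnN : n = N
      · subst hnN; exact min_le_right _ _
      · exact (min_le_left _ _).trans (he' n (Finset.mem_range.2 (by omega)))
  set X := ∑ n ∈ range N, x n with hX
  set Y := ∑ n ∈ range N, y n with hY
  set PB := 3 * b - ∑ j ∈ range N, β j with hPB
  have hsum : ∀ t, 0 ≤ t → t ≤ ε2 → ∑ n ∈ range N, wt 1 (z0 + σ * t) n = X + Y * (z0 + σ * t) := by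
    intro t ht0 ht1
    rw [hX, hY, Finset.sum_mul, ← Finset.sum_add_distrib]
    apply Finset.sum_congr rfl
    intro n hn
    exact hxy n t ht0 (ht1.trans (hε2' n hn))
  have hsum0 : ∑ n ∈ range N, wt 1 z0 n = X + Y * z0 := by
    have := hsum 0 le_rfl hε2.le
    simpa using this
  rw [hsum0] at hN
  set η := -(c0 * PB - (X + Y * z0)) / 2 with hη
  have hηp : 0 < η := by rw [hη]; linarith
  set K := |PB| + |Y| + 1 with hK
  have hKp : 0 < K := by positivity
  set ε := min (min (η / K) ε2) c0 with hε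
  have hεp : 0 < ε := lt_min (lt_min (by positivity) hε2) hc0p
  set T : Finset II := (range N).disjSum (range N) with hT
  obtain ⟨M, hM⟩ := exists_nat_ge ((T.card : ℝ) / 4 / η * (2 * c0 * b))
  refine ⟨M, ε, hεp, ?_⟩
  intro t c ht0 ht1 hz hc hVc A hA hm hneg
  rw [abs_le] at hc
  have h1 : ε ≤ η / K := (min_le_left _ _).trans (min_le_left _ _)
  have h2 : ε ≤ ε2 := (min_le_left _ _).trans (min_le_right _ _)
  have h3 : ε ≤ c0 := min_le_right _ _
  have hεK : ε * K ≤ η := by rwa [le_div_iff₀ hKp] at h1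
  have hcp : 0 < c := lt_of_lt_of_le (Bd1.VV_pos D (by linarith)) hVc
  have hc2 : c ≤ 2 * c0 := by linarith
  have hv0 : 0 < c * b := by positivity
  have hQ : 0 ≤ c ^ 2 * Vol b β - (z0 + σ * t) := by
    have e1 := Bd1.VV_sq D (show 0 < z0 + σ * t by linarith)
    have e2 : VV b β (z0 + σ * t) ^ 2 ≤ c ^ 2 :=
      pow_le_pow_left₀ (Bd1.VV_pos D (by linarith)).le hVc 2
    have e3 := mul_le_mul_of_nonneg_right e2 D.hV.le
    linarith
  have hbdi := bdi (c * b) (Sum.elim (fun i => c * β i) (fun n => wt 1 (z0 + σ * t) n)) hv0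
    (Bd1.entry_nonneg D hcp.le (by linarith)) (c ^ 2 * Vol b β - (z0 + σ * t))
    (fun S => Bd1.sq_le D (by linarith) S) T A hA hm hneg
  have hTsum : ∑ i ∈ T, Sum.elim (fun i => c * β i) (fun n => wt 1 (z0 + σ * t) n) i =
      c * ∑ j ∈ range N, β j + (X + Y * (z0 + σ * t)) := by
    rw [hT, Finset.sum_disjSum]
    simp only [Sum.elim_inl, Sum.elim_inr]
    rw [← Finset.mul_sum, hsum t ht0 (ht1.trans h2)]
  rw [hTsum] at hbdi
  have hkap : 3 * (c * b) - (c * ∑ j ∈ range N, β j + (X + Y * (z0 + σ * t))) ≤ -η := by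
    have e1 : 3 * (c * b) - (c * ∑ j ∈ range N, β j + (X + Y * (z0 + σ * t))) =
        (c0 * PB - (X + Y * z0)) + (c - c0) * PB - Y * (σ * t) := by
      rw [hPB]; ring
    have e2 : (c - c0) * PB ≤ ε * |PB| := by
      calc (c - c0) * PB ≤ |(c - c0) * PB| := le_abs_self _
        _ = |c - c0| * |PB| := abs_mul _ _
        _ ≤ ε * |PB| := mul_le_mul_of_nonneg_right (abs_le.2 hc) (abs_nonneg _)
    have e3 : -(Y * (σ * t)) ≤ ε * |Y| := by
      calc -(Y * (σ * t)) ≤ |Y * (σ * t)| := neg_le_abs _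
        _ = |Y| * |σ * t| := abs_mul _ _
        _ ≤ |Y| * ε := by
            apply mul_le_mul_of_nonneg_left _ (abs_nonneg _)
            have hσ1 : |σ| = 1 := by
              rcases hσ with h0 | h0
              · rw [h0, abs_one]
              · rw [h0, abs_neg, abs_one]
            rw [abs_mul, abs_of_nonneg ht0, hσ1, one_mul]
            exact ht1
        _ = ε * |Y| := mul_comm _ _
    have e4 : ε * K = ε * |PB| + ε * |Y| + ε := by rw [hK]; ring
    have e5 : 2 * η = -(c0 * PB - (X + Y * z0)) := by rw [hη]; ring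
    rw [e1]
    linarith
  set lam := (A.1 : ℝ) / (c * b) with hlam
  have hd0 : (0:ℝ) ≤ (A.1 : ℝ) := by exact_mod_cast hA.1
  have hlam0 : 0 ≤ lam := div_nonneg hd0 hv0.le
  have hd : (A.1 : ℝ) = lam * (c * b) := by rw [hlam]; field_simp
  have h7 : lam * η ≤ (T.card : ℝ) / 4 := by
    have e1 : 0 ≤ lam ^ 2 * (c ^ 2 * Vol b β - (z0 + σ * t)) := by positivity
    have e2 := mul_le_mul_of_nonneg_left hkap hlam0
    linarith [show lam * -η = -(lam * η) from by ring]
  have h8 : lam ≤ (T.card : ℝ) / 4 / η := by rwa [le_div_iff₀ hηp]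
  have h9 : (A.1 : ℝ) ≤ M := by
    refine le_trans ?_ hM
    rw [hd]
    have h11 : c * b ≤ 2 * c0 * b := mul_le_mul_of_nonneg_right hc2 hb.le
    exact mul_le_mul h8 h11 hv0.le
      (div_nonneg (div_nonneg (Nat.cast_nonneg _) (by norm_num)) hηp.le)
  exact_mod_cast h9

end Pool.Agent.Stair
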