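import Pool.Agent.Lib.MP_f690a7_gt.Alg

/-!
An inequality for violated classes, and the volume bound.
-/

namespace Pool.Agent.Stair

open Finset

variable {ι : Type}

theorem bdi (v0 : ℝ) (v : ι → ℝ) (hv0 : 0 < v0) (hv : ∀ i, 0 ≤ v i) (Q : ℝ)
    (hQ : ∀ S : Finset ι, ∑ i ∈ S, v i ^ 2 ≤ v0 ^ 2 - Q) (T : Finset ι) (A : Lat ι) (hA : Eff A)
    (hm : ∀ i, 0 ≤ A.2 i) (hneg : vec v0 v A < 0) :
    ((A.1 : ℝ) / v0) ^ 2 * Q - ((A.1 : ℝ) / v0) * (3 * v0 - ∑ i ∈ T, v i) ≤ (T.card : ℝ) / 4 := by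
  classical
  obtain ⟨l, hl⟩ : ∃ l : ℝ, l = (A.1 : ℝ) / v0 := ⟨_, rfl⟩
  have hd : (0 : ℝ) ≤ A.1 := by exact_mod_cast hA.1
  have hl0 : 0 ≤ l := by rw [hl]; exact div_nonneg hd hv0.le
  have hld : (A.1 : ℝ) = l * v0 := by rw [hl, div_mul_cancel₀ _ hv0.ne']
  rw [← hl]
  obtain ⟨U, hU⟩ : ∃ U : Finset ι, U = A.2.support ∪ T := ⟨_, rfl⟩
  have hUS : A.2.support ⊆ U := by rw [hU]; exact Finset.subset_union_left
  have hUT : T ⊆ U := by rw [hU]; exact Finset.subset_union_right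
  have h1 := hA.2
  rw [idx_eq_sum A U hUS] at h1
  have h1' : ∑ i ∈ U, ((A.2 i : ℝ) ^ 2 + (A.2 i : ℝ)) ≤ (A.1 : ℝ) ^ 2 + 3 * (A.1 : ℝ) := by
    have : ∑ i ∈ U, (A.2 i ^ 2 + A.2 i) ≤ A.1 ^ 2 + 3 * A.1 := by linarith
    exact_mod_cast this
  rw [vec_eq_sum v0 v A U hUS] at hneg
  have h2 : v0 * (A.1 : ℝ) ≤ ∑ i ∈ U, v i * (A.2 i : ℝ) := by linarith
  have h3 : ∀ i ∈ U, -(l ^ 2 * v i ^ 2) + (if i ∈ T then l * v i - 1 / 4 else 0) ≤
      (A.2 i : ℝ) ^ 2 + (A.2 i : ℝ) - 2 * l * (v i * (A.2 i : ℝ)) := by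
    intro i _
    have a1 : (0 : ℝ) ≤ A.2 i := by exact_mod_cast hm i
    split_ifs
    · nlinarith [sq_nonneg ((A.2 i : ℝ) - (l * v i - 1 / 2))]
    · nlinarith [sq_nonneg ((A.2 i : ℝ) - l * v i)]
  have h4 := Finset.sum_le_sum h3
  rw [Finset.sum_add_distrib, Finset.sum_neg_distrib, ← Finset.mul_sum, Finset.sum_sub_distrib,
    ← Finset.mul_sum, ← Finset.sum_filter] at h4
  have h5 : U.filter (fun i => i ∈ T) = T := by
    ext i
    rw [Finset.mem_filter]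
    exact ⟨fun h => h.2, fun h => ⟨hUT h, h⟩⟩
  rw [h5, Finset.sum_sub_distrib, ← Finset.mul_sum, Finset.sum_const, nsmul_eq_mul] at h4
  have h6 := mul_le_mul_of_nonneg_left (hQ U) (sq_nonneg l)
  have h7 := mul_le_mul_of_nonneg_left h2 (show 0 ≤ 2 * l by linarith)
  rw [hld] at h1' h7
  nlinarith

/-- the volume bound -/
theorem vol_of_good (v0 : ℝ) (v : ι → ℝ) (hG : Good (vec v0 v)) (T : Finset ι) :
    ∑ i ∈ T, v i ^ 2 ≤ v0 ^ 2 := by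
  classical
  by_contra hcon
  rw [not_le] at hcon
  have hv0 : 0 ≤ v0 := by
    have := hG _ (eff_LL (ι := ι))
    rwa [vec_LL] at this
  have hv : ∀ i, 0 ≤ v i := by
    intro i
    have := hG _ (eff_EE i)
    rwa [vec_EE] at this
  obtain ⟨s, hs⟩ : ∃ s : ℝ, s = ∑ i ∈ T, v i ^ 2 := ⟨_, rfl⟩
  obtain ⟨w, hw⟩ : ∃ w : ℝ, w = ∑ i ∈ T, v i := ⟨_, rfl⟩
  rw [← hs] at hcon
  have hs0 : 0 < s := lt_of_le_of_lt (sq_nonneg _) hcon
  have hw0 : 0 ≤ w := by rw [hw]; exact Finset.sum_nonneg fun i _ => hv i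
  have hr : v0 < √s := by
    rw [← Real.sqrt_sq hv0]
    exact Real.sqrt_lt_sqrt (sq_nonneg _) hcon
  have hrs : √s * √s = s := Real.mul_self_sqrt hs0.le
  have hr0 : 0 < √s := lt_of_le_of_lt hv0 hr
  obtain ⟨t, ht1, ht2⟩ : ∃ t : ℝ, v0 / s < t ∧ t < 1 / √s := by
    refine exists_between ?_
    rw [div_lt_div_iff₀ hs0 hr0, one_mul]
    calc v0 * √s < √s * √s := mul_lt_mul_of_pos_right hr hr0
      _ = s := hrs
  have ht0 : 0 < t := lt_of_le_of_lt (div_nonneg hv0 hs0.le) ht1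
  have ht3 : v0 < t * s := by rwa [div_lt_iff₀ hs0] at ht1
  have ht4 : t ^ 2 * s < 1 := by
    rw [lt_div_iff₀ hr0] at ht2
    have : (t * √s) ^ 2 < 1 := by
      have h0 : 0 ≤ t * √s := by positivity
      nlinarith
    calc t ^ 2 * s = (t * √s) ^ 2 := by rw [mul_pow, Real.sq_sqrt hs0.le]
      _ < 1 := this
  obtain ⟨N, hN⟩ := exists_nat_gt (max (t * w / (1 - t ^ 2 * s)) (w / (t * s - v0)))
  have hN1 : t * w / (1 - t ^ 2 * s) < N := lt_of_le_of_lt (le_max_left _ _) hN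
  have hN2 : w / (t * s - v0) < N := lt_of_le_of_lt (le_max_right _ _) hN
  rw [div_lt_iff₀ (by linarith)] at hN1 hN2
  have hN0 : (0 : ℝ) ≤ N := Nat.cast_nonneg N
  -- the class
  obtain ⟨f, hf⟩ : ∃ f : ι → ℤ, f = fun i => if i ∈ T then ⌊t * N * v i⌋ else 0 := ⟨_, rfl⟩
  have hfT : ∀ i ∈ T, f i = ⌊t * N * v i⌋ := by
    intro i hi
    rw [hf]
    exact if_pos hi
  obtain ⟨m, hm⟩ : ∃ m : ι →₀ ℤ, m = Finsupp.onFinset T f (fun i hi => by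
      by_contra hcon
      rw [hf] at hi
      exact hi (if_neg hcon)) := ⟨_, rfl⟩
  have hmT : ∀ i, m i = f i := by
    intro i
    rw [hm, Finsupp.onFinset_apply]
  have hms : m.support ⊆ T := by
    rw [hm]
    exact Finsupp.support_onFinset_subset
  have hlow : ∀ i ∈ T, t * N * v i - 1 ≤ (m i : ℝ) := by
    intro i hi
    rw [hmT, hfT i hi]
    exact (Int.sub_one_lt_floor _).le
  have hup : ∀ i ∈ T, (m i : ℝ) ≤ t * N * v i := by
    intro i hi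
    rw [hmT, hfT i hi]
    exact Int.floor_le _
  have hmn : ∀ i ∈ T, (0 : ℝ) ≤ m i := by
    intro i hi
    rw [hmT, hfT i hi]
    have : 0 ≤ ⌊t * N * v i⌋ := Int.floor_nonneg.2 (by have := hv i; positivity)
    exact_mod_cast this
  have hE : Eff (((N : ℤ), m) : Lat ι) := by
    refine ⟨Int.natCast_nonneg N, ?_⟩
    rw [idx_eq_sum _ T hms]
    have h1 : ∑ i ∈ T, ((m i : ℝ) ^ 2 + (m i : ℝ)) ≤ (N : ℝ) ^ 2 + 3 * N := by
      have h2 : ∀ i ∈ T, (m i : ℝ) ^ 2 + (m i : ℝ) ≤ (t * N) ^ 2 * v i ^ 2 + t * N * v i := by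
        intro i hi
        have a1 := hup i hi
        have a2 := hmn i hi
        have a3 : (m i : ℝ) ^ 2 ≤ (t * N * v i) ^ 2 := pow_le_pow_left₀ a2 a1 2
        nlinarith
      have h3 := Finset.sum_le_sum h2
      rw [Finset.sum_add_distrib (f := fun i => (t * N) ^ 2 * v i ^ 2), ← Finset.mul_sum,
        ← Finset.mul_sum, ← hs, ← hw] at h3
      nlinarith
    have h4 : ∑ i ∈ T, (m i ^ 2 + m i) ≤ (N : ℤ) ^ 2 + 3 * N := by exact_mod_cast h1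
    show 0 ≤ (N : ℤ) ^ 2 + 3 * (N : ℤ) - ∑ i ∈ T, (m i ^ 2 + m i)
    linarith
  have hG' := hG _ hE
  rw [vec_eq_sum v0 v _ T hms] at hG'
  have h5 : t * N * s - w ≤ ∑ i ∈ T, v i * (m i : ℝ) := by
    rw [hs, hw, Finset.mul_sum, ← Finset.sum_sub_distrib]
    refine Finset.sum_le_sum fun i hi => ?_
    nlinarith [mul_le_mul_of_nonneg_left (hlow i hi) (hv i)]
  have h6 : (0 : ℝ) ≤ v0 * N - ∑ i ∈ T, v i * (m i : ℝ) := by
    have : ((((N : ℤ), m) : Lat ι).1 : ℝ) = N := by simp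
    rw [this] at hG'
    exact hG'
  nlinarith

end Pool.Agent.Stair
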