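import Pool.Agent.Lib.MP_f690a7_gt.Crem
import Pool.Agent.Lib.MP_f690a7_gt.Eu

/-!
Bounded degree of violated classes implies that finitely many classes decide (module CBD).
-/

namespace Pool.Agent.Stair

open Finset

namespace Cbd

/-- the largest entry over an infinite set of indices -/
theorem exists_max {β : ℕ → ℝ} (hβ : ∀ i, 0 ≤ β i) (hs : Summable β) (T : Finset ℕ) :
    ∃ i, i ∉ T ∧ ∀ j, j ∉ T → β j ≤ β i := by
  by_cases h : ∃ j, j ∉ T ∧ 0 < β j
  · obtain ⟨j0, hj0, hpos⟩ := h
    have hfin : {i | β j0 ≤ β i}.Finite := by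
      have h1 := hs.tendsto_cofinite_zero
      have h2 := h1.eventually_lt_const hpos
      rw [Filter.eventually_cofinite] at h2
      refine h2.subset ?_
      intro i hi
      simpa using hi
    classical
    set B : Finset ℕ := hfin.toFinset \ T with hB
    have hne : B.Nonempty := ⟨j0, by simp [hB, hj0]⟩
    obtain ⟨i, hi, hmax⟩ := B.exists_max_image β hne
    have hi' := Finset.mem_sdiff.1 hi
    refine ⟨i, hi'.2, fun j hj => ?_⟩
    by_cases hjj : β j0 ≤ β j
    · exact hmax j (by simp [hB, hj, hjj])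
    · have : β j0 ≤ β i := by simpa using hi'.1
      push Not at hjj
      linarith
  · push Not at h
    obtain ⟨i, hi⟩ := Infinite.exists_notMem_finset T
    exact ⟨i, hi, fun j hj => (h j hj).trans (hβ i)⟩

/-- a finite set of largest entries of given size -/
theorem exists_top {β : ℕ → ℝ} (hβ : ∀ i, 0 ≤ β i) (hs : Summable β) (L : ℕ) :
    ∃ T : Finset ℕ, T.card = L ∧ ∀ i ∈ T, ∀ j, j ∉ T → β j ≤ β i := by
  induction L with
  | zero => exact ⟨∅, rfl, by simp⟩
  | succ L ih =>
    obtain ⟨T, hT, hmax⟩ := ih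
    obtain ⟨i, hi, him⟩ := exists_max hβ hs T
    classical
    refine ⟨insert i T, by rw [Finset.card_insert_of_notMem hi, hT], ?_⟩
    intro k hk j hj
    rw [Finset.mem_insert, not_or] at hj
    rw [Finset.mem_insert] at hk
    rcases hk with rfl | hk
    · exact him j hj.2
    · exact hmax k hk j hj.2

/-- the number of entries is bounded by the degree -/
theorem card_le {ι : Type} {A : Lat ι} (h : Eff A) (hm : ∀ i, 0 ≤ A.2 i) {M : ℕ} (hM : A.1 ≤ M) :
    A.2.support.card ≤ M ^ 2 + 3 * M := by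
  have h1 := h.part_le A.2.support
  have h2 : ∑ i ∈ A.2.support, (1 : ℤ) ≤ ∑ i ∈ A.2.support, (A.2 i ^ 2 + A.2 i) := by
    apply Finset.sum_le_sum
    intro i hi
    have h3 : A.2 i ≠ 0 := Finsupp.mem_support_iff.1 hi
    have h4 := hm i
    have h5 : 1 ≤ A.2 i := by omega
    nlinarith
  have h0 := h.1
  have h6 : A.1 ^ 2 + 3 * A.1 ≤ (M : ℤ) ^ 2 + 3 * M := by nlinarith
  have h7 : ((A.2.support.card : ℕ) : ℤ) ≤ (M : ℤ) ^ 2 + 3 * M := by
    rw [Finset.sum_const, nsmul_eq_mul, mul_one] at h2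
    linarith
  exact_mod_cast h7

/-- exchange of two entries -/
noncomputable def sw {ι : Type} [DecidableEq ι] (i j : ι) (A : Lat ι) : Lat ι :=
  (A.1, A.2.equivMapDomain (Equiv.swap i j))

theorem sw_apply {ι : Type} [DecidableEq ι] (i j : ι) (A : Lat ι) (k : ι) :
    (sw i j A).2 k = A.2 (Equiv.swap i j k) := by
  unfold sw
  simp [Finsupp.equivMapDomain_apply]

theorem sw_eff {ι : Type} [DecidableEq ι] (i j : ι) {A : Lat ι} (h : Eff A) : Eff (sw i j A) := by
  refine ⟨h.1, ?_⟩
  have h2 := h.2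
  rw [idx_eq'] at h2 ⊢
  have : (sw i j A).2.sum (fun _ k => k ^ 2 + k) = A.2.sum (fun _ k => k ^ 2 + k) := by
    unfold sw
    exact Finsupp.sum_equivMapDomain _ _ _
  rw [this]
  exact h2

theorem sw_vec {ι : Type} [DecidableEq ι] {i j : ι} {A : Lat ι} (hj : A.2 j = 0) (hi : 0 ≤ A.2 i)
    (v0 : ℝ) {v : ι → ℝ} (hv : v i ≤ v j) : vec v0 v (sw i j A) ≤ vec v0 v A := by
  have e1 : vec v0 v (sw i j A) = v0 * A.1 - A.2.sum (fun a m => v (Equiv.swap i j a) * (m : ℝ)) := by
    show v0 * ((sw i j A).1 : ℝ) - (sw i j A).2.sum (fun i k => v i * (k : ℝ)) = _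
    unfold sw
    simp only
    rw [Finsupp.sum_equivMapDomain]
  have e2 : vec v0 v A = v0 * A.1 - A.2.sum (fun a m => v a * (m : ℝ)) := rfl
  rw [e1, e2]
  have : A.2.sum (fun a m => v a * (m : ℝ)) ≤ A.2.sum (fun a m => v (Equiv.swap i j a) * (m : ℝ)) := by
    simp only [Finsupp.sum]
    apply Finset.sum_le_sum
    intro a ha
    by_cases hai : a = i
    · subst hai
      rw [Equiv.swap_apply_left]
      exact mul_le_mul_of_nonneg_right hv (by exact_mod_cast hi)
    · have haj : a ≠ j := by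
        rintro rfl
        exact (Finsupp.mem_support_iff.1 ha) hj
      rw [Equiv.swap_apply_of_ne_of_ne hai haj]
  linarith

/-- moving all entries into a box -/
theorem move {B : Finset II} {M L : ℕ} (hL : M ^ 2 + 3 * M < L) {T : Finset ℕ} (hT : T.card = L)
    (hB : B = T.disjSum (Finset.range L)) (v0 : ℝ) {v : II → ℝ}
    (hl : ∀ i ∈ T, ∀ j, j ∉ T → v (Sum.inl j) ≤ v (Sum.inl i))
    (hr : ∀ i j : ℕ, i ≤ j → v (Sum.inr j) ≤ v (Sum.inr i)) (k : ℕ) :
    ∀ A : Lat II, Eff A → (∀ i, 0 ≤ A.2 i) → A.1 ≤ M → (A.2.support \ B).card ≤ k →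
      ∃ A' : Lat II, Eff A' ∧ (∀ i, 0 ≤ A'.2 i) ∧ A'.1 = A.1 ∧ A'.2.support ⊆ B ∧
        vec v0 v A' ≤ vec v0 v A := by
  classical
  induction k with
  | zero =>
    intro A hA hm hM hc
    refine ⟨A, hA, hm, rfl, ?_, le_rfl⟩
    rw [← Finset.sdiff_eq_empty_iff_subset, ← Finset.card_eq_zero]
    omega
  | succ k ih =>
    intro A hA hm hM hc
    by_cases hne : (A.2.support \ B) = ∅
    · exact ⟨A, hA, hm, rfl, Finset.sdiff_eq_empty_iff_subset.1 hne, le_rfl⟩
    obtain ⟨i, hi⟩ := Finset.nonempty_iff_ne_empty.2 hne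
    obtain ⟨hi1, hi2⟩ := Finset.mem_sdiff.1 hi
    have hcard := card_le hA hm hM
    -- a free position in the box with a larger entry
    obtain ⟨j, hjB, hj0, hij⟩ : ∃ j ∈ B, A.2 j = 0 ∧ v i ≤ v j := by
      rcases i with i | i
      · have hiT : i ∉ T := by
          intro h
          exact hi2 (by rw [hB]; simp [h])
        have : ∃ j ∈ T, A.2 (Sum.inl j) = 0 := by
          by_contra hcon
          push Not at hcon
          have hsub : T.map ⟨Sum.inl, Sum.inl_injective⟩ ⊆ A.2.support := by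
            intro x hx
            obtain ⟨y, hy, rfl⟩ := Finset.mem_map.1 hx
            exact Finsupp.mem_support_iff.2 (hcon y hy)
          have := Finset.card_le_card hsub
          rw [Finset.card_map, hT] at this
          omega
        obtain ⟨j, hj, hj0⟩ := this
        exact ⟨Sum.inl j, by rw [hB]; simp [hj], hj0, hl j hj i hiT⟩
      · have hiL : L ≤ i := by
          by_contra h
          push Not at h
          exact hi2 (by rw [hB]; simp [h])
        have : ∃ j ∈ range L, A.2 (Sum.inr j) = 0 := by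
          by_contra hcon
          push Not at hcon
          have hsub : (range L).map ⟨Sum.inr, Sum.inr_injective⟩ ⊆ A.2.support := by
            intro x hx
            obtain ⟨y, hy, rfl⟩ := Finset.mem_map.1 hx
            exact Finsupp.mem_support_iff.2 (hcon y hy)
          have := Finset.card_le_card hsub
          rw [Finset.card_map, Finset.card_range] at this
          omega
        obtain ⟨j, hj, hj0⟩ := this
        exact ⟨Sum.inr j, by rw [hB]; simpa using hj, hj0,
          hr j i (by have := Finset.mem_range.1 hj; omega)⟩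
    have hsup : (sw i j A).2.support \ B ⊆ (A.2.support \ B).erase i := by
      intro x hx
      obtain ⟨hx1, hx2⟩ := Finset.mem_sdiff.1 hx
      have hx3 := Finsupp.mem_support_iff.1 hx1
      rw [sw_apply] at hx3
      have hxj : x ≠ j := by rintro rfl; exact hx2 hjB
      by_cases hxi : x = i
      · subst hxi
        rw [Equiv.swap_apply_left] at hx3
        exact absurd hj0 hx3
      · rw [Equiv.swap_apply_of_ne_of_ne hxi hxj] at hx3
        exact Finset.mem_erase.2 ⟨hxi, Finset.mem_sdiff.2 ⟨Finsupp.mem_support_iff.2 hx3, hx2⟩⟩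
    have hc' : ((sw i j A).2.support \ B).card ≤ k := by
      have h1 := Finset.card_le_card hsup
      rw [Finset.card_erase_of_mem hi] at h1
      omega
    obtain ⟨A', h1, h2, h3, h4, h5⟩ := ih (sw i j A) (sw_eff i j hA)
      (fun l => by rw [sw_apply]; exact hm _) hM hc'
    exact ⟨A', h1, h2, h3, h4, h5.trans (sw_vec hj0 (hm i) v0 hij)⟩

end Cbd

variable {b : ℝ} {β : ℕ → ℝ}

theorem core_of_bd (D : Dat b β) {z0 σ : ℝ} (hz0 : 1 ≤ z0) (hσ : σ = 1 ∨ σ = -1)
    (h : BD b β z0 σ) : Core b β z0 σ := by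
  classical
  obtain ⟨M, ε, hε, hBD⟩ := h
  set L := M ^ 2 + 3 * M + 1 with hL
  obtain ⟨T, hT, hTmax⟩ := Cbd.exists_top D.hβ D.hs L
  set B : Finset II := T.disjSum (Finset.range L) with hB
  set S : Finset (Lat II) := ((Finset.Icc (0 : ℤ) M) ×ˢ
    (B.finsupp (fun _ => Finset.Icc (0 : ℤ) M))).filter Eff with hS
  refine ⟨S, ε, hε, fun A hA => (Finset.mem_filter.1 hA).2, ?_⟩
  intro t c ht0 ht1 hz hc hV hsat
  have hVV : 0 < VV b β (z0 + σ * t) := Real.sqrt_pos.2 (div_pos (by linarith) D.hV)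
  have hc0 : 0 < c := lt_of_lt_of_le hVV hV
  have hv : ∀ i : II, 0 ≤ Sum.elim (fun i => c * β i) (fun n => wt 1 (z0 + σ * t) n) i := by
    rintro (i | i)
    · exact mul_nonneg hc0.le (D.hβ i)
    · exact wt_nonneg zero_le_one (by linarith) i
  unfold uu
  apply good_of_nonneg _ _ hv
  intro A hA hm
  by_contra hneg
  push Not at hneg
  have hd := hBD t c ht0 ht1 hz hc hV A hA hm hneg
  obtain ⟨A', h1, h2, h3, h4, h5⟩ := Cbd.move (M := M) (L := L) (by omega) hT hB (c * b)
    (v := Sum.elim (fun i => c * β i) (fun n => wt 1 (z0 + σ * t) n))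
    (fun i hi j hj => mul_le_mul_of_nonneg_left (hTmax i hi j hj) hc0.le)
    (fun i j hij => wt_anti zero_le_one (by linarith) hij) _ A hA hm hd le_rfl
  have hmem : A' ∈ S := by
    rw [hS, Finset.mem_filter]
    refine ⟨?_, h1⟩
    rw [Finset.mem_product]
    refine ⟨Finset.mem_Icc.2 ⟨h1.1, by rw [h3]; exact hd⟩, ?_⟩
    rw [Finset.mem_finsupp_iff]
    refine ⟨h4, fun i _ => Finset.mem_Icc.2 ⟨h2 i, ?_⟩⟩
    have := h1.entry_le i
    rw [h3] at this
    linarith
  have := hsat A' hmem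
  unfold uu at this
  linarith

end Pool.Agent.Stair
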