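import Pool.Agent.Lib.MP_f690a7_gt.Red
import Pool.Agent.Lib.MP_f690a7_gt.Eu
import Pool.Agent.Lib.MP_f690a7_gt.SideE

/-!
Fibration data from equality of the embedding function with the volume curve and positive kappa,
and transfer of the core property from the fibration data.
-/

namespace Pool.Agent.Stair

open Finset

namespace Cof

theorem int_term (k : ℤ) : 0 ≤ k ^ 2 + k := by
  rcases lt_or_ge k 0 with h | h
  · have h1 : k ≤ -1 := by omega
    nlinarith
  · nlinarith

theorem eff_res {A : Lat II} (hA : Eff A) : Eff (res A) := by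
  refine ⟨hA.1, ?_⟩
  have h1 : (res A).2.support ⊆ A.2.support := by
    intro i hi
    rw [Finsupp.mem_support_iff] at hi ⊢
    intro h
    apply hi
    simp only [res, Finsupp.filter_apply]
    split_ifs <;> simp_all
  have h2 := hA.2
  rw [idx_eq_sum A _ (le_refl _)] at h2
  rw [idx_eq_sum (res A) _ h1]
  have h3 : ∑ i ∈ A.2.support, ((res A).2 i ^ 2 + (res A).2 i) ≤
      ∑ i ∈ A.2.support, (A.2 i ^ 2 + A.2 i) := by
    apply Finset.sum_le_sum
    intro i _
    simp only [res, Finsupp.filter_apply]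
    split_ifs
    · exact le_refl _
    · have := int_term (A.2 i)
      simpa using this
  have h4 : (res A).1 = A.1 := rfl
  rw [h4]
  linarith

theorem VV_sq {b : ℝ} {β : ℕ → ℝ} (D : Dat b β) {z : ℝ} (hz : 0 ≤ z) :
    VV b β z ^ 2 * Vol b β = z := by
  have hV := D.hV
  rw [VV, Real.sq_sqrt (div_nonneg hz hV.le)]
  field_simp

theorem VV_pos {b : ℝ} {β : ℕ → ℝ} (D : Dat b β) {z : ℝ} (hz : 0 < z) : 0 < VV b β z :=
  Real.sqrt_pos.mpr (div_pos hz D.hV)

theorem summable_sq {β : ℕ → ℝ} (h0 : ∀ i, 0 ≤ β i) (hs : Summable β) :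
    Summable (fun i => β i ^ 2) := by
  have h1 := hs.tendsto_atTop_zero
  have h2 : ∀ᶠ i in Filter.atTop, β i < 1 := h1.eventually_lt_const (by norm_num)
  apply Summable.of_norm_bounded_eventually_nat hs
  filter_upwards [h2] with i hi
  rw [Real.norm_eq_abs, abs_of_nonneg (sq_nonneg _)]
  nlinarith [h0 i]

end Cof

section Cases
variable {b : ℝ} {β : ℕ → ℝ}

/-- fibration data from `c(z0) = V(z0)`, `kappa > 0` -/
theorem exists_Fdat (D : Dat b β) {z0 : ℝ} (hz0 : 1 ≤ z0) (hG : Good (uu b β (VV b β z0) z0))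
    (hκ : ∑' n, wt 1 z0 n < VV b β z0 * Per b β) :
    ∃ (F : Lat II) (g : Adm II) (s : II) (p q k : ℕ), Fdat F g s p q k ∧ z0 = p / q ∧
      b = F.1 / (q * k * VV b β z0) ∧ ∀ i, β i = F.2 (Sum.inl i) / (q * k * VV b β z0) := by
  have hc : 0 < VV b β z0 := Cof.VV_pos D (by linarith)
  set c := VV b β z0 with hcdef
  set v : II → ℝ := Sum.elim (fun i => c * β i) (fun n => wt 1 z0 n) with hv
  have hsw : Summable (wt 1 z0) := summable_wt zero_le_one (by linarith)
  have hs1 : Summable (v ∘ Sum.inl) := by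
    have : v ∘ Sum.inl = fun i => c * β i := rfl
    rw [this]; exact D.hs.mul_left c
  have hs2 : Summable (v ∘ Sum.inr) := by
    have : v ∘ Sum.inr = wt 1 z0 := rfl
    rw [this]; exact hsw
  have hsv : Summable v := (hs1.hasSum.sum hs2.hasSum).summable
  have htv : ∑' i, v i = c * ∑' i, β i + ∑' n, wt 1 z0 n := by
    rw [(hs1.hasSum.sum hs2.hasSum).tsum_eq]
    congr 1
    have : (fun i => (v ∘ Sum.inl) i) = fun i => c * β i := rfl
    rw [this, tsum_mul_left]
  have hq1 : Summable ((fun i => v i ^ 2) ∘ Sum.inl) := by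
    have : (fun i => v i ^ 2) ∘ Sum.inl = fun i => c ^ 2 * β i ^ 2 := by
      funext i; simp [hv, mul_pow]
    rw [this]; exact (Cof.summable_sq D.hβ D.hs).mul_left _
  have hq2 : Summable ((fun i => v i ^ 2) ∘ Sum.inr) := by
    have : (fun i => v i ^ 2) ∘ Sum.inr = fun n => wt 1 z0 n ^ 2 := rfl
    rw [this]; exact summable_wt_sq zero_le_one (by linarith)
  have htq : ∑' i, v i ^ 2 = c ^ 2 * ∑' i, β i ^ 2 + z0 := by
    rw [(hq1.hasSum.sum hq2.hasSum).tsum_eq]
    congr 1
    · have : (fun i => ((fun i => v i ^ 2) ∘ Sum.inl) i) = fun i => c ^ 2 * β i ^ 2 := by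
        funext i; simp [hv, mul_pow]
      rw [this, tsum_mul_left]
    · have : (fun i => ((fun i => v i ^ 2) ∘ Sum.inr) i) = fun n => wt 1 z0 n ^ 2 := rfl
      rw [this, tsum_wt_sq zero_le_one (by linarith), one_mul]
  have hiso : (c * b) ^ 2 = ∑' i, v i ^ 2 := by
    rw [htq]
    have := Cof.VV_sq D (show (0 : ℝ) ≤ z0 by linarith)
    rw [Vol, ← hcdef] at this
    linarith [this]
  have hκ' : 0 < 3 * (c * b) - ∑' i, v i := by
    rw [htv]
    rw [Per] at hκ
    linarith
  obtain ⟨g, s, hfix, hform⟩ := red (c * b) v hG hsv hiso hκ' inferInstance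
  set K := (3 * (c * b) - ∑' i, v i) / 2 with hK
  have hK0 : 0 < K := by rw [hK]; linarith
  set F : Lat II := g.e.symm (LL - EE s) with hF
  have hgF : g.e F = LL - EE s := by rw [hF, g.e.apply_symm_apply]
  have hformF : ∀ A, vec (c * b) v A = K * (form F A : ℝ) := by
    intro A
    rw [hform A, ← hgF, g.form_e]
  have hF1 : c * b = K * F.1 := by
    have := hformF LL
    rwa [vec_LL, form_LL] at this
  have hF2 : ∀ j, v j = K * F.2 j := by
    intro j
    have := hformF (EE j)
    rwa [vec_EE, form_EE] at this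
  -- finitely many weights
  have hrat : ¬ Irrational z0 := by
    intro hirr
    have hpos := (tsum_wt_irr hirr hz0).2
    have hinj : Function.Injective (Sum.inr : ℕ → II) := Sum.inr_injective
    have hfin : (Set.range (Sum.inr : ℕ → II)).Finite := by
      apply (F.2.support.finite_toSet).subset
      rintro _ ⟨n, rfl⟩
      rw [Finset.mem_coe, Finsupp.mem_support_iff]
      intro h0
      have h1 := hF2 (Sum.inr n)
      rw [h0] at h1
      have h2 : v (Sum.inr n) = wt 1 z0 n := rfl
      have h3 := hpos n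
      rw [← h2, h1] at h3
      simp at h3
    exact Set.infinite_range_of_injective hinj hfin
  rw [Irrational, not_not] at hrat
  obtain ⟨r, hr⟩ := hrat
  have hrnum : (0 : ℤ) < r.num := by
    have h1 : (0 : ℝ) < (r : ℝ) := by rw [hr]; linarith
    have h2 : (0 : ℚ) < r := by exact_mod_cast h1
    exact Rat.num_pos.mpr h2
  set p := r.num.toNat with hp
  set q := r.den with hq
  have hpZ : (p : ℤ) = r.num := by rw [hp]; exact Int.toNat_of_nonneg hrnum.le
  have hq0 : 0 < q := r.den_pos
  have hqR : (0 : ℝ) < q := by exact_mod_cast hq0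
  have hz : z0 = p / q := by
    rw [← hr]
    have h1 : (r : ℝ) = (r.num : ℝ) / (r.den : ℝ) := by exact_mod_cast (Rat.num_div_den r).symm
    rw [h1]
    have h2 : (p : ℝ) = (r.num : ℝ) := by exact_mod_cast hpZ
    rw [h2]
  have hpq : q ≤ p := by
    have h1 : (1 : ℝ) ≤ p / q := by rw [← hz]; exact hz0
    rw [le_div_iff₀ hqR, one_mul] at h1
    exact_mod_cast h1
  have hp0 : 0 < p := lt_of_lt_of_le hq0 hpq
  have hcop : Nat.Coprime p q := by
    have h1 := r.reduced
    have h2 : r.num.natAbs = p := by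
      rw [hp]; omega
    rwa [h2] at h1
  have hwt := (tsum_wt_rat hq0 hp0 hcop).2
  rw [← hz] at hwt
  obtain ⟨N, x, y, ε, S, -⟩ := side_exists p q hq0 hpq hcop 1 (Or.inl rfl)
  have hW1 := S.hW1
  -- the multiplicity
  have hkR : 1 / (q : ℝ) = K * F.2 (Sum.inr (N - 1)) := by
    rw [← hF2]
    have h2 : v (Sum.inr (N - 1)) = wt 1 z0 (N - 1) := rfl
    rw [h2, hwt, hW1]; simp
  have hkpos : 0 < F.2 (Sum.inr (N - 1)) := by
    have h1 : (0 : ℝ) < K * F.2 (Sum.inr (N - 1)) := by rw [← hkR]; positivity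
    have h2 : (0 : ℝ) < (F.2 (Sum.inr (N - 1)) : ℝ) := by
      by_contra h
      push Not at h
      nlinarith
    exact_mod_cast h2
  set k := (F.2 (Sum.inr (N - 1))).toNat with hk
  have hkZ : (k : ℤ) = F.2 (Sum.inr (N - 1)) := by rw [hk]; exact Int.toNat_of_nonneg hkpos.le
  have hkR' : (k : ℝ) = F.2 (Sum.inr (N - 1)) := by exact_mod_cast hkZ
  have hk0 : 0 < k := by
    have : (0 : ℤ) < k := by rw [hkZ]; exact hkpos
    exact_mod_cast this
  have hk0R : (0 : ℝ) < k := by exact_mod_cast hk0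
  have hKk : K = 1 / (q * k) := by
    rw [← hkR'] at hkR
    field_simp
    field_simp at hkR
    linarith
  refine ⟨F, g, s, p, q, k, ?_, hz, ?_, ?_⟩
  · refine ⟨hgF, hq0, hpq, hcop, hk0, ?_, ?_, ?_⟩
    · intro n
      have h1 := hF2 (Sum.inr n)
      have h2 : v (Sum.inr n) = wt 1 z0 n := rfl
      rw [h2, hwt, hKk] at h1
      have h3 : (F.2 (Sum.inr n) : ℝ) = k * wN q p n := by
        field_simp at h1
        linarith
      exact_mod_cast h3
    · intro j hj
      apply hfix
      rw [hF2 j, hj]; simp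
    · intro A hA
      have h1 := hG (res A) (Cof.eff_res hA)
      have h2 : uu b β c z0 = vec (c * b) v := rfl
      rw [h2, hformF] at h1
      have h3 : (0 : ℝ) ≤ (form F (res A) : ℝ) := by
        by_contra h
        push Not at h
        nlinarith
      exact_mod_cast h3
  · rw [hKk] at hF1
    field_simp
    field_simp at hF1
    linarith
  · intro i
    have h1 := hF2 (Sum.inl i)
    have h2 : v (Sum.inl i) = c * β i := rfl
    rw [h2, hKk] at h1
    field_simp
    field_simp at h1
    linarith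

theorem core_of_coreF (D : Dat b β) {F : Lat II} {g : Adm II} {s : II} {p q k : ℕ}
    (H : Fdat F g s p q k) (hV : VV b β (p / q) = cfun b β (p / q))
    (hb : b = F.1 / (q * k * VV b β (p / q)))
    (hβ : ∀ i, β i = F.2 (Sum.inl i) / (q * k * VV b β (p / q))) {σ : ℝ} (hσ : σ = 1 ∨ σ = -1)
    (h : CoreF F p q k σ) : Core b β (p / q) σ := by
  obtain ⟨S, ε, hε, hS, hmain⟩ := h
  have hqR : (0 : ℝ) < q := by exact_mod_cast H.hq
  have hkR : (0 : ℝ) < k := by exact_mod_cast H.hk
  have hpR : (0 : ℝ) < p := by exact_mod_cast (lt_of_lt_of_le H.hq H.hpq)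
  have hz0 : (0 : ℝ) < p / q := by positivity
  have hc0 : 0 < VV b β (p / q) := Cof.VV_pos D hz0
  have hVsq := Cof.VV_sq D hz0.le
  set c0 := VV b β (p / q) with hc0def
  have hVol := D.hV
  refine ⟨S, min ε (ε * (q * k * c0)), lt_min hε (by positivity), hS, ?_⟩
  intro t c ht0 ht1 hz1 hcc hVc hA
  set z := (p : ℝ) / q + σ * t with hz
  have hzpos : 0 < z := by linarith
  have hVz : 0 < VV b β z := Cof.VV_pos D hzpos
  have hcpos : 0 < c := lt_of_lt_of_le hVz hVc
  have hueq : uu b β c z = phi F (c / (q * k * c0)) z := by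
    rw [uu, phi]
    apply vec_congr
    · rw [hb]; field_simp
    · intro j
      rcases j with i | n
      · simp only [Sum.elim_inl]
        rw [hβ i]; field_simp
      · rfl
  rw [hueq]
  apply hmain t (c / (q * k * c0)) ht0 (le_trans ht1 (min_le_left _ _)) hz1
  · have h1 : c / (q * k * c0) - 1 / (q * k) = (c - c0) / (q * k * c0) := by
      field_simp
    rw [h1, abs_div, abs_of_pos (show (0 : ℝ) < q * k * c0 by positivity),
      div_le_iff₀ (by positivity)]
    rw [← hV] at hcc
    exact le_trans hcc (min_le_right _ _)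
  · positivity
  · have h1 : z ≤ c ^ 2 * Vol b β := by
      have h2 := Cof.VV_sq D hzpos.le
      have h3 : VV b β z ^ 2 ≤ c ^ 2 := pow_le_pow_left₀ hVz.le hVc 2
      nlinarith
    have h4 : (c / (q * k * c0)) ^ 2 * (k ^ 2 * p * q) = c ^ 2 * Vol b β := by
      have h5 : Vol b β = (p / q) / c0 ^ 2 := by
        rw [← hVsq]; field_simp
      rw [h5]; field_simp
    rw [h4]; exact h1
  · intro A hAS
    rw [← hueq]; exact hA A hAS

end Cases

end Pool.Agent.Stair
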