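import Pool.Agent.Lib.MP_f690a7_gt.Alg

/-!
The coordinate sums `tt` (used by Cls.lean, Val.lean and Goods.lean).
-/

namespace Pool.Agent.Stair

open Finset

/-- sums of the coordinates of the exceptional classes of the weights -/
noncomputable def tt (g : Adm II) (p : ℕ) (j : II) : ℤ := ∑ i ∈ range p, (g.e (EE (Sum.inr i))).2 j

end Pool.Agent.Stair
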