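import Pool.Agent.Lib.MP_f690a7_gt.Crem
import Pool.Agent.Lib.MP_f690a7_gt.Posit
import Pool.Agent.Lib.MP_f690a7_gt.Tt

/-!
Classification of the exceptional classes of the unit weights on the good side: type I and type II.
-/

namespace Pool.Agent.Stair.Cls

open Finset

variable {ι : Type} [DecidableEq ι]

/-- indices with entry `1` -/
def Z (U : Finset ι) (m : ℕ → ι → ℤ) (i : ℕ) : Finset ι := U.filter (fun j => m i j = 1)

omit [DecidableEq ι] in
theorem mem_Z {U : Finset ι} {m : ℕ → ι → ℤ} {i : ℕ} {j : ι} :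
    j ∈ Z U m i ↔ j ∈ U ∧ m i j = 1 := by
  simp [Z]

omit [DecidableEq ι] in
theorem Z_card (U : Finset ι) (m : ℕ → ι → ℤ) (i : ℕ)
    (hm : ∀ j ∈ U, m i j = 0 ∨ m i j = 1 ∨ m i j = 2)
    (h1 : ∑ j ∈ U, m i j * (2 - m i j) = 5) : (Z U m i).card = 5 := by
  have h : ∑ j ∈ U, m i j * (2 - m i j) = ∑ j ∈ U, (if m i j = 1 then (1 : ℤ) else 0) := by
    apply Finset.sum_congr rfl
    intro j hj
    rcases hm j hj with h | h | h <;> rw [h] <;> norm_num
  rw [h, Finset.sum_boole] at h1
  have : ((Z U m i).card : ℤ) = 5 := h1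
  exact_mod_cast this

theorem pair (U : Finset ι) (m : ℕ → ι → ℤ) (i l : ℕ)
    (hmi : ∀ j ∈ U, m i j = 0 ∨ m i j = 1 ∨ m i j = 2)
    (hml : ∀ j ∈ U, m l j = 0 ∨ m l j = 1 ∨ m l j = 2)
    (h1i : ∑ j ∈ U, m i j * (2 - m i j) = 5) (h1l : ∑ j ∈ U, m l j * (2 - m l j) = 5)
    (h2 : ∑ j ∈ U, (m i j + m l j - m i j * m l j) = 6) :
    (Z U m i ∩ Z U m l).card = 4 ∧ (Z U m i ∪ Z U m l).card = 6 ∧
      ∀ j ∈ U, j ∉ Z U m i → j ∉ Z U m l → m i j = m l j := by
  have hci := Z_card U m i hmi h1i
  have hcl := Z_card U m l hml h1l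
  have h : ∑ j ∈ U, (m i j + m l j - m i j * m l j) =
      ∑ j ∈ U, (if (m i j = 1 ∨ m l j = 1) then (1 : ℤ) else 0) +
      2 * ∑ j ∈ U, (if (¬ (m i j = 1 ∨ m l j = 1) ∧ m i j ≠ m l j) then (1 : ℤ) else 0) := by
    rw [Finset.mul_sum, ← Finset.sum_add_distrib]
    apply Finset.sum_congr rfl
    intro j hj
    rcases hmi j hj with h | h | h <;> rcases hml j hj with h' | h' | h' <;> rw [h, h'] <;> norm_num
  rw [h, Finset.sum_boole, Finset.sum_boole] at h2
  have hU : U.filter (fun j => m i j = 1 ∨ m l j = 1) = Z U m i ∪ Z U m l := by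
    rw [Finset.filter_or]; rfl
  rw [hU] at h2
  have hge : 5 ≤ (Z U m i ∪ Z U m l).card := by
    rw [← hci]; exact Finset.card_le_card Finset.subset_union_left
  set D := U.filter (fun j => ¬ (m i j = 1 ∨ m l j = 1) ∧ m i j ≠ m l j) with hD
  have h2' : (Z U m i ∪ Z U m l).card + 2 * D.card = 6 := by exact_mod_cast h2
  have h6 : (Z U m i ∪ Z U m l).card = 6 := by omega
  have hD0 : D.card = 0 := by omega
  have hui := Finset.card_union_add_card_inter (Z U m i) (Z U m l)
  refine ⟨by omega, h6, ?_⟩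
  intro j hj hji hjl
  by_contra hne
  have : j ∈ D := by
    rw [hD, Finset.mem_filter]
    refine ⟨hj, ?_, hne⟩
    rintro (h | h)
    · exact hji (mem_Z.mpr ⟨hj, h⟩)
    · exact hjl (mem_Z.mpr ⟨hj, h⟩)
  rw [Finset.card_eq_zero] at hD0
  rw [hD0] at this
  simp at this

omit [DecidableEq ι] in
/-- entries outside all the sets `Z i` -/
theorem tt_out (U : Finset ι) (p : ℕ) (m : ℕ → ι → ℤ)
    (hm : ∀ i < p, ∀ j ∈ U, m i j = 0 ∨ m i j = 1 ∨ m i j = 2)
    (heq : ∀ i < p, ∀ l < p, i ≠ l → ∀ j ∈ U, j ∉ Z U m i → j ∉ Z U m l → m i j = m l j)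
    (j : ι) (hj : j ∈ U) (hout : ∀ i < p, j ∉ Z U m i) :
    ∑ i ∈ range p, m i j = 0 ∨ ∑ i ∈ range p, m i j = 2 * p := by
  by_cases h : ∃ l < p, m l j = 2
  · obtain ⟨l, hl, hl2⟩ := h
    right
    have : ∀ i ∈ range p, m i j = 2 := by
      intro i hi
      rw [Finset.mem_range] at hi
      by_cases hil : i = l
      · rw [hil, hl2]
      · rw [heq i hi l hl hil j hj (hout i hi) (hout l hl), hl2]
    rw [Finset.sum_congr rfl this]
    simp [mul_comm]
  · left
    push Not at h
    apply Finset.sum_eq_zero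
    intro i hi
    rw [Finset.mem_range] at hi
    rcases hm i hi j hj with h0 | h0 | h0
    · exact h0
    · exact absurd (mem_Z.mpr ⟨hj, h0⟩) (hout i hi)
    · exact absurd h0 (h i hi)

theorem comb (U : Finset ι) (p : ℕ) (hp : 0 < p) (m : ℕ → ι → ℤ)
    (hm : ∀ i < p, ∀ j ∈ U, m i j = 0 ∨ m i j = 1 ∨ m i j = 2)
    (h1 : ∀ i < p, ∑ j ∈ U, m i j * (2 - m i j) = 5)
    (h2 : ∀ i < p, ∀ l < p, i ≠ l → ∑ j ∈ U, (m i j + m l j - m i j * m l j) = 6) :
    (∃ A J : Finset ι, A.card = 4 ∧ J.card = p ∧ Disjoint A J ∧ A ⊆ U ∧ J ⊆ U ∧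
      (∀ j ∈ A, ∑ i ∈ range p, m i j = p) ∧
      (∀ j ∈ J, ∑ i ∈ range p, m i j = 1 ∨ ∑ i ∈ range p, m i j = 2 * p - 1) ∧
      ∀ j ∈ U, j ∉ A → j ∉ J → ∑ i ∈ range p, m i j = 0 ∨ ∑ i ∈ range p, m i j = 2 * p) ∨
    (3 ≤ p ∧ p ≤ 6 ∧ ∃ P R : Finset ι, P.card = p ∧ R.card = 6 - p ∧ Disjoint P R ∧ P ⊆ U ∧
      R ⊆ U ∧
      (∀ j ∈ P, ∑ i ∈ range p, m i j = p - 1 ∨ ∑ i ∈ range p, m i j = p + 1) ∧
      (∀ j ∈ R, ∑ i ∈ range p, m i j = p) ∧
      ∀ j ∈ U, j ∉ P → j ∉ R → ∑ i ∈ range p, m i j = 0 ∨ ∑ i ∈ range p, m i j = 2 * p) := by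
  have hZU : ∀ i, Z U m i ⊆ U := fun i => Finset.filter_subset _ _
  have hc : ∀ i < p, (Z U m i).card = 5 := fun i hi => Z_card U m i (hm i hi) (h1 i hi)
  have hpair : ∀ i < p, ∀ l < p, i ≠ l → (Z U m i ∩ Z U m l).card = 4 ∧
      (Z U m i ∪ Z U m l).card = 6 ∧
      ∀ j ∈ U, j ∉ Z U m i → j ∉ Z U m l → m i j = m l j := fun i hi l hl hil =>
    pair U m i l (hm i hi) (hm l hl) (h1 i hi) (h1 l hl) (h2 i hi l hl hil)
  have heq : ∀ i < p, ∀ l < p, i ≠ l → ∀ j ∈ U, j ∉ Z U m i → j ∉ Z U m l → m i j = m l j :=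
    fun i hi l hl hil => (hpair i hi l hl hil).2.2
  have hne : Nonempty ι := by
    have h5 := hc 0 hp
    obtain ⟨x, _⟩ := Finset.card_pos.mp (by omega : 0 < (Z U m 0).card)
    exact ⟨x⟩
  -- type I from a common 4-set
  have typeI : ∀ A : Finset ι, A.card = 4 → (∀ i < p, A ⊆ Z U m i) →
      (∃ A J : Finset ι, A.card = 4 ∧ J.card = p ∧ Disjoint A J ∧ A ⊆ U ∧ J ⊆ U ∧
      (∀ j ∈ A, ∑ i ∈ range p, m i j = p) ∧
      (∀ j ∈ J, ∑ i ∈ range p, m i j = 1 ∨ ∑ i ∈ range p, m i j = 2 * p - 1) ∧
      ∀ j ∈ U, j ∉ A → j ∉ J → ∑ i ∈ range p, m i j = 0 ∨ ∑ i ∈ range p, m i j = 2 * p) := by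
    intro A hA hAZ
    have hex : ∀ i < p, ∃ x, Z U m i \ A = {x} := by
      intro i hi
      apply Finset.card_eq_one.mp
      rw [Finset.card_sdiff_of_subset (hAZ i hi), hc i hi, hA]
    choose! e he using hex
    have heZ : ∀ i < p, e i ∈ Z U m i ∧ e i ∉ A := by
      intro i hi
      have : e i ∈ Z U m i \ A := by rw [he i hi]; exact Finset.mem_singleton_self _
      exact Finset.mem_sdiff.mp this
    have hZe : ∀ i < p, ∀ x ∈ Z U m i, x ∉ A → x = e i := by
      intro i hi x hx hxA
      have : x ∈ Z U m i \ A := Finset.mem_sdiff.mpr ⟨hx, hxA⟩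
      rw [he i hi] at this
      exact Finset.mem_singleton.mp this
    have hinj : ∀ i < p, ∀ l < p, i ≠ l → e i ≠ e l := by
      intro i hi l hl hil hel
      have hsub : Z U m i ⊆ Z U m i ∩ Z U m l := by
        intro x hx
        rw [Finset.mem_inter]
        refine ⟨hx, ?_⟩
        by_cases hxA : x ∈ A
        · exact hAZ l hl hxA
        · rw [hZe i hi x hx hxA, hel]
          exact (heZ l hl).1
      have := Finset.card_le_card hsub
      rw [(hpair i hi l hl hil).1, hc i hi] at this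
      omega
    refine ⟨A, (range p).image e, hA, ?_, ?_, ?_, ?_, ?_, ?_, ?_⟩
    · rw [Finset.card_image_of_injOn, Finset.card_range]
      intro i hi l hl hel
      by_contra hil
      rw [Finset.mem_coe, Finset.mem_range] at hi hl
      exact hinj i hi l hl hil hel
    · rw [Finset.disjoint_left]
      intro x hxA hxJ
      obtain ⟨i, hi, rfl⟩ := Finset.mem_image.mp hxJ
      exact (heZ i (Finset.mem_range.mp hi)).2 hxA
    · exact (hAZ 0 hp).trans (hZU 0)
    · intro x hxJ
      obtain ⟨i, hi, rfl⟩ := Finset.mem_image.mp hxJ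
      exact hZU i (heZ i (Finset.mem_range.mp hi)).1
    · intro j hj
      have : ∀ i ∈ range p, m i j = 1 := fun i hi =>
        (mem_Z.mp (hAZ i (Finset.mem_range.mp hi) hj)).2
      rw [Finset.sum_congr rfl this]
      simp
    · intro j hj
      obtain ⟨i, hi, rfl⟩ := Finset.mem_image.mp hj
      have hi' := Finset.mem_range.mp hi
      have hjU : e i ∈ U := hZU i (heZ i hi').1
      have hnot : ∀ l < p, l ≠ i → e i ∉ Z U m l := by
        intro l hl hli hmem
        exact hinj i hi' l hl (Ne.symm hli) (hZe l hl _ hmem (heZ i hi').2)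
      have hone : m i (e i) = 1 := (mem_Z.mp (heZ i hi').1).2
      rw [← Finset.add_sum_erase _ _ hi, hone]
      by_cases h : ∃ l < p, l ≠ i ∧ m l (e i) = 2
      · obtain ⟨l, hl, hli, hl2⟩ := h
        right
        have : ∀ l' ∈ (range p).erase i, m l' (e i) = 2 := by
          intro l' hl'
          rw [Finset.mem_erase, Finset.mem_range] at hl'
          by_cases hll : l' = l
          · rw [hll, hl2]
          · rw [heq l' hl'.2 l hl hll _ hjU (hnot l' hl'.2 hl'.1) (hnot l hl hli), hl2]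
        rw [Finset.sum_congr rfl this, Finset.sum_const, Finset.card_erase_of_mem hi,
          Finset.card_range, nsmul_eq_mul, Nat.cast_sub hp]
        push_cast
        ring
      · left
        push Not at h
        rw [Finset.sum_eq_zero, add_zero]
        intro l hl
        rw [Finset.mem_erase, Finset.mem_range] at hl
        rcases hm l hl.2 _ hjU with h0 | h0 | h0
        · exact h0
        · exact absurd (mem_Z.mpr ⟨hjU, h0⟩) (hnot l hl.2 hl.1)
        · exact absurd h0 (h l hl.2 hl.1)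
    · intro j hjU hjA hjJ
      apply tt_out U p m hm heq j hjU
      intro i hi hmem
      apply hjJ
      rw [Finset.mem_image]
      exact ⟨i, Finset.mem_range.mpr hi, (hZe i hi j hmem hjA).symm⟩
  by_cases hp1 : p = 1
  · left
    subst hp1
    obtain ⟨A, hAs, hAc⟩ := Finset.exists_subset_card_eq (s := Z U m 0) (n := 4)
      (by rw [hc 0 hp]; norm_num)
    apply typeI A hAc
    intro i hi
    have : i = 0 := by omega
    rw [this]; exact hAs
  · have hp2 : 1 < p := by omega
    have h01 := hpair 0 hp 1 hp2 (by norm_num)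
    by_cases hall : ∀ i < p, Z U m 0 ∩ Z U m 1 ⊆ Z U m i
    · left
      exact typeI _ h01.1 hall
    · right
      push Not at hall
      obtain ⟨c, hcp, hcA⟩ := hall
      set A := Z U m 0 ∩ Z U m 1 with hAdef
      set S := Z U m 0 ∪ Z U m 1 with hSdef
      have hc0 : c ≠ 0 := by
        rintro rfl; exact hcA Finset.inter_subset_left
      have hc1 : c ≠ 1 := by
        rintro rfl; exact hcA Finset.inter_subset_right
      -- a set not inside S is A plus a point
      have key : ∀ i < p, i ≠ 0 → i ≠ 1 → ∀ x ∈ Z U m i, x ∉ S →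
          A ⊆ (Z U m i).erase x ∧ ∀ l < p, l ≠ i → x ∉ Z U m l → (Z U m i).erase x ⊆ Z U m l := by
        intro i hi hi0 hi1 x hx hxS
        have hsub : ∀ l < p, l ≠ i → x ∉ Z U m l → (Z U m i).erase x ⊆ Z U m l := by
          intro l hl hli hxl
          have hss : Z U m i ∩ Z U m l ⊆ (Z U m i).erase x := by
            intro y hy
            rw [Finset.mem_inter] at hy
            rw [Finset.mem_erase]
            refine ⟨?_, hy.1⟩
            rintro rfl
            exact hxl hy.2
          have hcard : ((Z U m i).erase x).card ≤ (Z U m i ∩ Z U m l).card := by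
            rw [Finset.card_erase_of_mem hx, hc i hi, (hpair i hi l hl (Ne.symm hli)).1]
          have := Finset.eq_of_subset_of_card_le hss hcard
          rw [← this]
          exact Finset.inter_subset_right
        refine ⟨?_, hsub⟩
        have hx0 : x ∉ Z U m 0 := fun h => hxS (Finset.mem_union_left _ h)
        have hx1 : x ∉ Z U m 1 := fun h => hxS (Finset.mem_union_right _ h)
        have hss : (Z U m i).erase x ⊆ A :=
          Finset.subset_inter (hsub 0 hp (Ne.symm hi0) hx0) (hsub 1 hp2 (Ne.symm hi1) hx1)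
        have hcard : A.card ≤ ((Z U m i).erase x).card := by
          rw [Finset.card_erase_of_mem hx, hc i hi, h01.1]
        rw [Finset.eq_of_subset_of_card_le hss hcard]
      have hcS : Z U m c ⊆ S := by
        intro x hx
        by_contra hxS
        exact hcA ((key c hcp hc0 hc1 x hx hxS).1.trans (Finset.erase_subset _ _))
      have hS : ∀ i < p, Z U m i ⊆ S := by
        intro i hi
        by_cases hi0 : i = 0
        · rw [hi0]; exact Finset.subset_union_left
        by_cases hi1 : i = 1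
        · rw [hi1]; exact Finset.subset_union_right
        intro x hx
        by_contra hxS
        by_cases hic : i = c
        · rw [hic] at hx; exact hxS (hcS hx)
        have hk := key i hi hi0 hi1 x hx hxS
        exact hcA (hk.1.trans (hk.2 c hcp (Ne.symm hic) (fun h => hxS (hcS h))))
      have hS6 : S.card = 6 := h01.2.1
      have hex : ∀ i < p, ∃ x, S \ Z U m i = {x} := by
        intro i hi
        apply Finset.card_eq_one.mp
        rw [Finset.card_sdiff_of_subset (hS i hi), hc i hi, hS6]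
      choose! e he using hex
      have heS : ∀ i < p, e i ∈ S ∧ e i ∉ Z U m i := by
        intro i hi
        have : e i ∈ S \ Z U m i := by rw [he i hi]; exact Finset.mem_singleton_self _
        exact Finset.mem_sdiff.mp this
      have hSe : ∀ i < p, ∀ x ∈ S, x ∉ Z U m i → x = e i := by
        intro i hi x hx hxZ
        have : x ∈ S \ Z U m i := Finset.mem_sdiff.mpr ⟨hx, hxZ⟩
        rw [he i hi] at this
        exact Finset.mem_singleton.mp this
      have hinj : ∀ i < p, ∀ l < p, i ≠ l → e i ≠ e l := by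
        intro i hi l hl hil hel
        have hsub : Z U m i ⊆ Z U m i ∩ Z U m l := by
          intro x hx
          rw [Finset.mem_inter]
          refine ⟨hx, ?_⟩
          by_contra hxl
          have := hSe l hl x (hS i hi hx) hxl
          rw [← hel] at this
          rw [this] at hx
          exact (heS i hi).2 hx
        have := Finset.card_le_card hsub
        rw [(hpair i hi l hl hil).1, hc i hi] at this
        omega
      have hSU : S ⊆ U := Finset.union_subset (hZU 0) (hZU 1)
      have hPS : (range p).image e ⊆ S := by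
        intro x hx
        obtain ⟨i, hi, rfl⟩ := Finset.mem_image.mp hx
        exact (heS i (Finset.mem_range.mp hi)).1
      have hPc : ((range p).image e).card = p := by
        rw [Finset.card_image_of_injOn, Finset.card_range]
        intro i hi l hl hel
        by_contra hil
        rw [Finset.mem_coe, Finset.mem_range] at hi hl
        exact hinj i hi l hl hil hel
      refine ⟨by omega, ?_, (range p).image e, S \ (range p).image e, hPc, ?_, ?_, ?_, ?_, ?_, ?_,
        ?_⟩
      · have := Finset.card_le_card hPS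
        rw [hPc, hS6] at this
        exact this
      · rw [Finset.card_sdiff_of_subset hPS, hPc, hS6]
      · exact Finset.disjoint_sdiff
      · exact hPS.trans hSU
      · exact Finset.sdiff_subset.trans hSU
      · intro j hj
        obtain ⟨i, hi, rfl⟩ := Finset.mem_image.mp hj
        have hi' := Finset.mem_range.mp hi
        have hjU : e i ∈ U := hSU (heS i hi').1
        have hothers : ∀ l ∈ (range p).erase i, m l (e i) = 1 := by
          intro l hl
          rw [Finset.mem_erase, Finset.mem_range] at hl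
          by_contra hne1
          have : e i ∉ Z U m l := fun h => hne1 (mem_Z.mp h).2
          exact hinj i hi' l hl.2 (Ne.symm hl.1) (hSe l hl.2 _ (heS i hi').1 this)
        rw [← Finset.add_sum_erase _ _ hi, Finset.sum_congr rfl hothers, Finset.sum_const,
          Finset.card_erase_of_mem hi, Finset.card_range, nsmul_eq_mul, Nat.cast_sub hp]
        rcases hm i hi' _ hjU with h0 | h0 | h0
        · left; rw [h0]; push_cast; ring
        · exact absurd (mem_Z.mpr ⟨hjU, h0⟩) (heS i hi').2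
        · right; rw [h0]; push_cast; ring
      · intro j hj
        rw [Finset.mem_sdiff] at hj
        have : ∀ i ∈ range p, m i j = 1 := by
          intro i hi
          by_contra hne1
          have hnZ : j ∉ Z U m i := fun h => hne1 (mem_Z.mp h).2
          apply hj.2
          rw [Finset.mem_image]
          exact ⟨i, hi, (hSe i (Finset.mem_range.mp hi) j hj.1 hnZ).symm⟩
        rw [Finset.sum_congr rfl this]
        simp
      · intro j hjU hjP hjR
        apply tt_out U p m hm heq j hjU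
        intro i hi hmem
        apply hjR
        rw [Finset.mem_sdiff]
        exact ⟨hS i hi hmem, hjP⟩

end Pool.Agent.Stair.Cls

namespace Pool.Agent.Stair

open Finset

namespace Cls

theorem euN_one (p n : ℕ) : euN 1 p n = (1, p - n) := by
  induction n with
  | zero => simp [euN]
  | succ n ih =>
    rw [euN, ih]
    by_cases h : 1 ≤ p - n
    · simp only [h, if_true]
      ext <;> simp; omega
    · have h0 : p - n = 0 := by omega
      rw [h0]
      ext <;> simp; omega

theorem wN_one (p n : ℕ) : wN 1 p n = if n < p then 1 else 0 := by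
  rw [wN, euN_one]
  split_ifs with h
  · have : 1 ≤ p - n := by omega
    simpa using this
  · have : p - n = 0 := by omega
    simp [this]

section
variable {F : Lat II} {g : Adm II} {s : II} {p q k : ℕ}

/-- intersection numbers with the fibre class -/
theorem form_fib (H : Fdat F g s p q k) (a : II) : form (LL - EE s) (g.e (EE a)) = F.2 a := by
  rw [← H.hF, g.form_e, form_EE]

theorem F_inr (H : Fdat F g s p 1 2) (i : ℕ) (hi : i < p) : F.2 (Sum.inr i) = 2 := by
  rw [H.hw i, wN_one, if_pos hi]; norm_num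

theorem form_LE_left (A : Lat II) (s : II) : form (LL - EE s) A = A.1 - A.2 s := by
  rw [form_comm, form_sub_right, form_LL, form_EE]

/-- the section coordinate -/
theorem coord_s (H : Fdat F g s p 1 2) (i : ℕ) (hi : i < p) :
    (g.e (EE (Sum.inr i))).2 s = (g.e (EE (Sum.inr i))).1 - 2 := by
  have h := form_fib H (Sum.inr i)
  rw [form_LE_left, F_inr H i hi] at h
  omega

/-- the other coordinates are nonnegative -/
theorem coord_nonneg (H : Fdat F g s p 1 2) (i : ℕ) (hi : i < p) (j : II) (hj : j ≠ s) :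
    0 ≤ (g.e (EE (Sum.inr i))).2 j := by
  rcases posit g (Sum.inr i) j with h | h
  · exfalso
    have h' := form_fib H (Sum.inr i)
    rw [h, F_inr H i hi, form_LE_left] at h'
    simp [hj] at h'
  · rwa [form_EE] at h

/-- the other coordinates are at most 2 -/
theorem coord_le (H : Fdat F g s p 1 2) (i : ℕ) (hi : i < p) (j : II) (hj : j ≠ s) :
    (g.e (EE (Sum.inr i))).2 j ≤ 2 := by
  obtain ⟨k, hk⟩ : ∃ k : II, k ∉ ({s, j} : Finset II) := Infinite.exists_notMem_finset _
  have hks : k ≠ s := by rintro rfl; simp at hk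
  have hkj : k ≠ j := by rintro rfl; simp at hk
  obtain ⟨h, _, _, _, hk1, _, _⟩ := cremona k s j hks hkj (Ne.symm hj)
  have hf := form_fib H (Sum.inr i)
  rw [F_inr H i hi] at hf
  rcases posit (g.trans h.symm) (Sum.inr i) k with hp | hp
  · exfalso
    have h1 : g.e (EE (Sum.inr i)) = LL - EE s - EE j := by
      rw [← hk1, ← hp]
      show _ = h.e (h.e.symm _)
      rw [h.e.apply_symm_apply]
      rfl
    rw [h1, form_LE_left] at hf
    simp [hj] at hf
  · have h2 : form ((g.trans h.symm).e (EE (Sum.inr i))) (EE k) =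
        form (g.e (EE (Sum.inr i))) (LL - EE s - EE j) := by
      rw [← h.form_e, hk1]
      show form (h.e (h.e.symm _)) _ = _
      rw [h.e.apply_symm_apply]
      rfl
    rw [h2, form_sub_right, form_comm, hf, form_EE] at hp
    omega

/-- the three kinds of sums of coordinates -/
theorem sums (H : Fdat F g s p 1 2) : ∃ U : Finset II, s ∉ U ∧
    (∀ i < p, ∀ j, j ≠ s → j ∉ U → (g.e (EE (Sum.inr i))).2 j = 0) ∧
    (∀ i < p, ∑ j ∈ U, (g.e (EE (Sum.inr i))).2 j * (2 - (g.e (EE (Sum.inr i))).2 j) = 5) ∧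
    (∀ i < p, ∀ l < p, i ≠ l → ∑ j ∈ U, ((g.e (EE (Sum.inr i))).2 j + (g.e (EE (Sum.inr l))).2 j -
      (g.e (EE (Sum.inr i))).2 j * (g.e (EE (Sum.inr l))).2 j) = 6) := by
  classical
  set V : Finset II := insert s ((range p).biUnion fun i => (g.e (EE (Sum.inr i))).2.support)
    with hV
  have hsV : s ∈ V := Finset.mem_insert_self _ _
  have hsup : ∀ i < p, (g.e (EE (Sum.inr i))).2.support ⊆ V := by
    intro i hi
    apply Finset.Subset.trans _ (Finset.subset_insert _ _)
    exact Finset.subset_biUnion_of_mem (fun i => (g.e (EE (Sum.inr i))).2.support)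
      (Finset.mem_range.mpr hi)
  have hkap : ∀ i < p, ∑ j ∈ V.erase s, (g.e (EE (Sum.inr i))).2 j =
      2 * (g.e (EE (Sum.inr i))).1 + 1 := by
    intro i hi
    have h := kap_eq_sum (g.e (EE (Sum.inr i))) V (hsup i hi)
    rw [g.kap_e, kap_EE, ← Finset.add_sum_erase _ _ hsV, coord_s H i hi] at h
    omega
  have hform : ∀ i < p, ∀ l < p,
      ∑ j ∈ V.erase s, (g.e (EE (Sum.inr i))).2 j * (g.e (EE (Sum.inr l))).2 j =
      2 * ((g.e (EE (Sum.inr i))).1 + (g.e (EE (Sum.inr l))).1) - 4 -
        form (EE (Sum.inr i) : Lat II) (EE (Sum.inr l)) := by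
    intro i hi l hl
    have h := form_eq_sum (g.e (EE (Sum.inr i))) (g.e (EE (Sum.inr l))) V (hsup i hi)
    rw [g.form_e, ← Finset.add_sum_erase _ _ hsV, coord_s H i hi, coord_s H l hl] at h
    linarith
  refine ⟨V.erase s, Finset.notMem_erase _ _, ?_, ?_, ?_⟩
  · intro i hi j hjs hj
    by_contra hne
    apply hj
    rw [Finset.mem_erase]
    exact ⟨hjs, hsup i hi (Finsupp.mem_support_iff.mpr hne)⟩
  · intro i hi
    have h1 := hkap i hi
    have h2 := hform i hi i hi
    rw [form_EE_self] at h2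
    have : ∑ j ∈ V.erase s, (g.e (EE (Sum.inr i))).2 j * (2 - (g.e (EE (Sum.inr i))).2 j) =
        2 * ∑ j ∈ V.erase s, (g.e (EE (Sum.inr i))).2 j -
        ∑ j ∈ V.erase s, (g.e (EE (Sum.inr i))).2 j * (g.e (EE (Sum.inr i))).2 j := by
      rw [Finset.mul_sum, ← Finset.sum_sub_distrib]
      apply Finset.sum_congr rfl
      intro j _; ring
    rw [this, h1, h2]
    ring
  · intro i hi l hl hil
    have h1 := hkap i hi
    have h1' := hkap l hl
    have h2 := hform i hi l hl
    rw [form_EE_ne (by intro h; exact hil (Sum.inr_injective h))] at h2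
    rw [Finset.sum_sub_distrib, Finset.sum_add_distrib, h1, h1', h2]
    ring

end

end Cls

section Fibr
variable {F : Lat II} {g : Adm II} {s : II} {p q k : ℕ}

theorem cls_comb (H : Fdat F g s p 1 2) (hp : 0 < p) :
    (∃ A J : Finset II, A.card = 4 ∧ J.card = p ∧ Disjoint A J ∧ s ∉ A ∧ s ∉ J ∧
      (∀ j ∈ A, tt g p j = p) ∧ (∀ j ∈ J, tt g p j = 1 ∨ tt g p j = 2 * p - 1) ∧
      ∀ j, j ∉ A → j ∉ J → j ≠ s → tt g p j = 0 ∨ tt g p j = 2 * p) ∨
    (3 ≤ p ∧ p ≤ 6 ∧ ∃ P R : Finset II, P.card = p ∧ R.card = 6 - p ∧ Disjoint P R ∧ s ∉ P ∧ s ∉ R ∧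
      (∀ j ∈ P, tt g p j = p - 1 ∨ tt g p j = p + 1) ∧ (∀ j ∈ R, tt g p j = p) ∧
      ∀ j, j ∉ P → j ∉ R → j ≠ s → tt g p j = 0 ∨ tt g p j = 2 * p) := by
  classical
  obtain ⟨U, hsU, h0, h1, h2⟩ := Cls.sums H
  have hm : ∀ i < p, ∀ j ∈ U, (g.e (EE (Sum.inr i))).2 j = 0 ∨ (g.e (EE (Sum.inr i))).2 j = 1 ∨
      (g.e (EE (Sum.inr i))).2 j = 2 := by
    intro i hi j hj
    have hjs : j ≠ s := by rintro rfl; exact hsU hj
    have ha := Cls.coord_nonneg H i hi j hjs
    have hb := Cls.coord_le H i hi j hjs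
    omega
  have hz : ∀ j, j ≠ s → j ∉ U → tt g p j = 0 := by
    intro j hjs hj
    apply Finset.sum_eq_zero
    intro i hi
    exact h0 i (Finset.mem_range.mp hi) j hjs hj
  rcases Cls.comb U p hp (fun i j => (g.e (EE (Sum.inr i))).2 j) hm h1 h2 with
    ⟨A, J, hA, hJ, hAJ, hAU, hJU, hA', hJ', hr⟩ | ⟨h3, h6, P, R, hP, hR, hPR, hPU, hRU, hP', hR', hr⟩
  · left
    refine ⟨A, J, hA, hJ, hAJ, fun h => hsU (hAU h), fun h => hsU (hJU h), hA', hJ', ?_⟩
    intro j hjA hjJ hjs
    by_cases hj : j ∈ U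
    · exact hr j hj hjA hjJ
    · exact Or.inl (hz j hjs hj)
  · right
    refine ⟨h3, h6, P, R, hP, hR, hPR, fun h => hsU (hPU h), fun h => hsU (hRU h), hP', hR', ?_⟩
    intro j hjP hjR hjs
    by_cases hj : j ∈ U
    · exact hr j hj hjP hjR
    · exact Or.inl (hz j hjs hj)

end Fibr

end Pool.Agent.Stair
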