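import Pool.Agent.Lib.MP_f690a7_gt.Alg

/-!
Cremona reflections, relabelling, positive parts (module CREM of the blueprint).
-/

namespace Pool.Agent.Stair

open Finset

variable {ι : Type}

theorem idx_eq' (A : Lat ι) : idx A = A.1 ^ 2 + 3 * A.1 - A.2.sum (fun _ k => k ^ 2 + k) := by
  rw [idx_eq_sum A _ (le_refl _)]
  rfl

private theorem sq_add_nonneg (x : ℤ) : 0 ≤ x ^ 2 + x := by
  rcases le_or_gt 0 x with h | h
  · positivity
  · nlinarith

/-- a finite part of the index sum -/
theorem Eff.part_le {A : Lat ι} (h : Eff A) (S : Finset ι) :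
    ∑ i ∈ S, (A.2 i ^ 2 + A.2 i) ≤ A.1 ^ 2 + 3 * A.1 := by
  classical
  have h1 := h.2
  rw [idx_eq_sum A (A.2.support ∪ S) Finset.subset_union_left] at h1
  have h2 : ∑ i ∈ S, (A.2 i ^ 2 + A.2 i) ≤ ∑ i ∈ A.2.support ∪ S, (A.2 i ^ 2 + A.2 i) :=
    Finset.sum_le_sum_of_subset_of_nonneg Finset.subset_union_right
      (fun i _ _ => sq_add_nonneg _)
  linarith

/-- index nonnegative classes have entries bounded by the degree -/
theorem Eff.entry_le {A : Lat ι} (h : Eff A) (i : ι) : A.2 i ≤ A.1 := by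
  have h1 := h.part_le {i}
  rw [Finset.sum_singleton] at h1
  have h0 := h.1
  by_contra hc
  push Not at hc
  nlinarith

/-- positive part of a class -/
noncomputable def posP (A : Lat ι) : Lat ι := (A.1, A.2.mapRange (fun k => max k 0) (by simp))

theorem posP_fst (A : Lat ι) : (posP A).1 = A.1 := rfl

theorem posP_snd (A : Lat ι) (i : ι) : (posP A).2 i = max (A.2 i) 0 := rfl

theorem posP_supp (A : Lat ι) : (posP A).2.support ⊆ A.2.support := by
  intro i hi
  rw [Finsupp.mem_support_iff, posP_snd] at hi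
  rw [Finsupp.mem_support_iff]
  intro h
  apply hi
  rw [h, max_self]

theorem Eff.posP {A : Lat ι} (h : Eff A) : Eff (posP A) := by
  refine ⟨h.1, ?_⟩
  have h1 := h.2
  rw [idx_eq_sum A A.2.support (le_refl _)] at h1
  rw [idx_eq_sum _ A.2.support (posP_supp A)]
  have h2 : ∑ i ∈ A.2.support, ((Stair.posP A).2 i ^ 2 + (Stair.posP A).2 i) ≤
      ∑ i ∈ A.2.support, (A.2 i ^ 2 + A.2 i) := by
    apply Finset.sum_le_sum
    intro i _
    rw [posP_snd]
    rcases le_total 0 (A.2 i) with h0 | h0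
    · rw [max_eq_left h0]
    · rw [max_eq_right h0]
      have := sq_add_nonneg (A.2 i)
      linarith
  rw [posP_fst]
  linarith

theorem Eff.posPart {A : Lat ι} (h : Eff A) :
    Eff (A.1, A.2.mapRange (fun k => max k 0) (by simp)) := h.posP

theorem Eff.three_le {A : Lat ι} (h : Eff A) {i j k : ι} (hij : i ≠ j) (hik : i ≠ k) (hjk : j ≠ k) :
    A.2 i + A.2 j + A.2 k ≤ 2 * A.1 := by
  classical
  have h1 := h.part_le {i, j, k}
  rw [Finset.sum_insert (by simp [hij, hik]), Finset.sum_insert (by simp [hjk]),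
    Finset.sum_singleton] at h1
  have h0 := h.1
  by_contra hc
  push Not at hc
  nlinarith [sq_nonneg (A.2 i - A.2 j), sq_nonneg (A.2 i - A.2 k), sq_nonneg (A.2 j - A.2 k)]

/-- the Cremona root -/
noncomputable def RR (i j k : ι) : Lat ι := LL - EE i - EE j - EE k

theorem form_RR (A : Lat ι) (i j k : ι) : form A (RR i j k) = A.1 - A.2 i - A.2 j - A.2 k := by
  rw [RR, form_sub_right, form_sub_right, form_sub_right, form_LL, form_EE, form_EE, form_EE]

theorem form_RR_RR {i j k : ι} (hij : i ≠ j) (hik : i ≠ k) (hjk : j ≠ k) :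
    form (RR i j k) (RR i j k) = -2 := by
  classical
  rw [form_RR]
  simp [RR, hij, hik, hjk, hij.symm, hik.symm, hjk.symm]

theorem kap_RR (i j k : ι) : kap (RR i j k) = 0 := by
  rw [RR, kap_sub, kap_sub, kap_sub, kap_LL, kap_EE, kap_EE, kap_EE]; norm_num

/-- the reflection as a map -/
noncomputable def refl3 (i j k : ι) (A : Lat ι) : Lat ι := A + (form A (RR i j k)) • (RR i j k)

theorem refl3_add (i j k : ι) (A B : Lat ι) : refl3 i j k (A + B) = refl3 i j k A + refl3 i j k B := by
  rw [refl3, refl3, refl3, form_add_left, add_smul]; abel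

theorem form_refl3 {i j k : ι} (hij : i ≠ j) (hik : i ≠ k) (hjk : j ≠ k) (A B : Lat ι) :
    form (refl3 i j k A) (refl3 i j k B) = form A B := by
  rw [refl3, refl3, form_add_left, form_add_right, form_add_right, form_smul_left, form_smul_left,
    form_smul_right, form_smul_right, form_RR_RR hij hik hjk, form_comm (RR i j k) B]
  ring

theorem refl3_refl3 {i j k : ι} (hij : i ≠ j) (hik : i ≠ k) (hjk : j ≠ k) (A : Lat ι) :
    refl3 i j k (refl3 i j k A) = A := by
  have h : form (refl3 i j k A) (RR i j k) = -form A (RR i j k) := by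
    rw [refl3, form_add_left, form_smul_left, form_RR_RR hij hik hjk]; ring
  rw [refl3, h, refl3, neg_smul]
  abel

theorem kap_refl3 (i j k : ι) (A : Lat ι) : kap (refl3 i j k A) = kap A := by
  rw [refl3, kap_add, kap_smul, kap_RR]; ring

theorem eff_refl3 {i j k : ι} (hij : i ≠ j) (hik : i ≠ k) (hjk : j ≠ k) {A : Lat ι} (h : Eff A) :
    Eff (refl3 i j k A) := by
  refine ⟨?_, ?_⟩
  · have h3 := h.three_le hij hik hjk
    have : (refl3 i j k A).1 = A.1 + (A.1 - A.2 i - A.2 j - A.2 k) := by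
      rw [refl3, form_RR]
      simp [RR]
    rw [this]
    linarith
  · rw [idx, form_refl3 hij hik hjk, kap_refl3]
    exact h.2

/-- the Cremona reflection as an admissible automorphism -/
noncomputable def cremAdm (i j k : ι) (hij : i ≠ j) (hik : i ≠ k) (hjk : j ≠ k) : Adm ι where
  e := { toFun := refl3 i j k
         invFun := refl3 i j k
         left_inv := refl3_refl3 hij hik hjk
         right_inv := refl3_refl3 hij hik hjk
         map_add' := refl3_add i j k }
  form_e := form_refl3 hij hik hjk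
  kap_e := kap_refl3 i j k
  eff_e := by
    intro A
    constructor
    · intro h
      have := eff_refl3 hij hik hjk h
      simpa [refl3_refl3 hij hik hjk] using this
    · intro h
      exact eff_refl3 hij hik hjk h

theorem cremAdm_apply {i j k : ι} (hij : i ≠ j) (hik : i ≠ k) (hjk : j ≠ k) (A : Lat ι) :
    (cremAdm i j k hij hik hjk).e A = refl3 i j k A := rfl

theorem refl3_EE_ne {i j k l : ι} (hi : l ≠ i) (hj : l ≠ j) (hk : l ≠ k) :
    refl3 i j k (EE l) = EE l := by
  classical
  have : form (EE l) (RR i j k) = 0 := by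
    rw [form_RR]; simp [hi, hj, hk]
  rw [refl3, this, zero_smul, add_zero]

theorem refl3_EE_fst {i j k : ι} (hij : i ≠ j) (hik : i ≠ k) :
    refl3 i j k (EE i) = LL - EE j - EE k := by
  classical
  have : form (EE i) (RR i j k) = 1 := by
    rw [form_RR]; simp [hij, hik]
  rw [refl3, this, one_smul, RR]
  abel

theorem refl3_EE_snd {i j k : ι} (hij : i ≠ j) (hjk : j ≠ k) :
    refl3 i j k (EE j) = LL - EE i - EE k := by
  classical
  have : form (EE j) (RR i j k) = 1 := by
    rw [form_RR]; simp [hij.symm, hjk]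
  rw [refl3, this, one_smul, RR]
  abel

theorem refl3_EE_trd {i j k : ι} (hik : i ≠ k) (hjk : j ≠ k) :
    refl3 i j k (EE k) = LL - EE i - EE j := by
  classical
  have : form (EE k) (RR i j k) = 1 := by
    rw [form_RR]; simp [hik.symm, hjk.symm]
  rw [refl3, this, one_smul, RR]
  abel

theorem refl3_LL (i j k : ι) : refl3 i j k LL = LL + LL - EE i - EE j - EE k := by
  classical
  have : form LL (RR i j k) = 1 := by
    rw [form_RR]; simp
  rw [refl3, this, one_smul, RR]
  abel

/-- Cremona reflection in `LL - EE i - EE j - EE k`. -/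
theorem cremona (i j k : ι) (hij : i ≠ j) (hik : i ≠ k) (hjk : j ≠ k) :
    ∃ g : Adm ι, (∀ A, g.e A = A + (form A (LL - EE i - EE j - EE k)) • (LL - EE i - EE j - EE k)) ∧
      (∀ A, g.e (g.e A) = A) ∧ (∀ l, l ≠ i → l ≠ j → l ≠ k → g.e (EE l) = EE l) ∧
      g.e (EE i) = LL - EE j - EE k ∧ g.e (EE j) = LL - EE i - EE k ∧
      g.e (EE k) = LL - EE i - EE j :=
  ⟨cremAdm i j k hij hik hjk, fun _ => rfl, refl3_refl3 hij hik hjk,
    fun _ hi hj hk => refl3_EE_ne hi hj hk, refl3_EE_fst hij hik, refl3_EE_snd hij hjk,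
    refl3_EE_trd hik hjk⟩

theorem vec_comp_crem [DecidableEq ι] (v0 : ℝ) (v : ι → ℝ) {i j k : ι} (hij : i ≠ j) (hik : i ≠ k)
    (hjk : j ≠ k) : (vec v0 v).comp (cremAdm i j k hij hik hjk).e.toAddMonoidHom =
      (vec (2 * v0 - v i - v j - v k)
        (fun l => if l = i then v0 - v j - v k else if l = j then v0 - v i - v k
          else if l = k then v0 - v i - v j else v l)) := by
  rw [eq_vec ((vec v0 v).comp (cremAdm i j k hij hik hjk).e.toAddMonoidHom)]
  apply vec_congr
  · show vec v0 v (refl3 i j k LL) = _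
    rw [refl3_LL, map_sub, map_sub, map_sub, map_add, vec_LL, vec_EE, vec_EE, vec_EE]
    ring
  · intro l
    show vec v0 v (refl3 i j k (EE l)) = _
    by_cases h1 : l = i
    · subst h1
      rw [refl3_EE_fst hij hik, if_pos rfl, map_sub, map_sub, vec_LL, vec_EE, vec_EE]
    · rw [if_neg h1]
      by_cases h2 : l = j
      · subst h2
        rw [refl3_EE_snd hij hjk, if_pos rfl, map_sub, map_sub, vec_LL, vec_EE, vec_EE]
      · rw [if_neg h2]
        by_cases h3 : l = k
        · subst h3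
          rw [refl3_EE_trd hik hjk, if_pos rfl, map_sub, map_sub, vec_LL, vec_EE, vec_EE]
        · rw [if_neg h3, refl3_EE_ne h1 h2 h3, vec_EE]

/-- Cremona on real vectors. -/
theorem good_cremona [DecidableEq ι] (v0 : ℝ) (v : ι → ℝ) (i j k : ι) (hij : i ≠ j) (hik : i ≠ k)
    (hjk : j ≠ k) : Good (vec v0 v) ↔
      Good (vec (2 * v0 - v i - v j - v k)
        (fun l => if l = i then v0 - v j - v k else if l = j then v0 - v i - v k
          else if l = k then v0 - v i - v j else v l)) := by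
  rw [← vec_comp_crem v0 v hij hik hjk, Adm.good]

/-- Good can be tested on classes with nonnegative entries. -/
theorem good_of_nonneg (v0 : ℝ) (v : ι → ℝ) (hv : ∀ i, 0 ≤ v i)
    (h : ∀ A : Lat ι, Eff A → (∀ i, 0 ≤ A.2 i) → 0 ≤ vec v0 v A) : Good (vec v0 v) := by
  intro A hA
  have h1 := h _ hA.posP (fun i => le_max_right _ _)
  rw [vec_eq_sum v0 v (posP A) A.2.support (posP_supp A)] at h1
  rw [vec_eq_sum v0 v A A.2.support (le_refl _)]
  have h2 : ∑ i ∈ A.2.support, v i * ((A.2 i : ℤ) : ℝ) ≤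
      ∑ i ∈ A.2.support, v i * (((posP A).2 i : ℤ) : ℝ) := by
    apply Finset.sum_le_sum
    intro i _
    apply mul_le_mul_of_nonneg_left _ (hv i)
    rw [posP_snd]
    exact_mod_cast le_max_left (A.2 i) 0
  rw [posP_fst] at h1
  linarith

theorem good_embed {κ : Type} (f : ι → κ) (hf : Function.Injective f) (v0 : ℝ) (v : κ → ℝ)
    (h0 : ∀ j, j ∉ Set.range f → v j = 0) : Good (vec v0 v) ↔ Good (vec v0 (v ∘ f)) := by
  classical
  constructor
  · intro h A hA
    have hB : Eff ((A.1, A.2.mapDomain f) : Lat κ) := by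
      refine ⟨hA.1, ?_⟩
      have h2 := hA.2
      rw [idx_eq'] at h2 ⊢
      rw [Finsupp.sum_mapDomain_index_inj hf]
      exact h2
    have h1 := h _ hB
    have e1 : vec v0 v ((A.1, A.2.mapDomain f) : Lat κ) = vec v0 (v ∘ f) A := by
      show v0 * (A.1 : ℝ) - (A.2.mapDomain f).sum (fun i k => v i * (k : ℝ)) =
        v0 * (A.1 : ℝ) - A.2.sum (fun i k => (v ∘ f) i * (k : ℝ))
      rw [Finsupp.sum_mapDomain_index_inj hf]
      rfl
    rwa [e1] at h1
  · intro h A hA
    let B : Lat ι := (A.1, A.2.comapDomain f hf.injOn)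
    have hsub : B.2.support.map ⟨f, hf⟩ ⊆ A.2.support := by
      intro j hj
      rw [Finset.mem_map] at hj
      obtain ⟨i, hi, rfl⟩ := hj
      rw [Finsupp.mem_support_iff] at hi ⊢
      exact hi
    have hB : Eff B := by
      refine ⟨hA.1, ?_⟩
      have h2 := hA.part_le (B.2.support.map ⟨f, hf⟩)
      rw [Finset.sum_map] at h2
      rw [idx_eq_sum B B.2.support (le_refl _)]
      have h3 : ∑ i ∈ B.2.support, (B.2 i ^ 2 + B.2 i) =
          ∑ x ∈ B.2.support, (A.2 ((⟨f, hf⟩ : ι ↪ κ) x) ^ 2 + A.2 ((⟨f, hf⟩ : ι ↪ κ) x)) := rfl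
      rw [h3]
      show 0 ≤ A.1 ^ 2 + 3 * A.1 - _
      linarith
    have h1 := h B hB
    rw [vec_eq_sum v0 (v ∘ f) B B.2.support (le_refl _)] at h1
    rw [vec_eq_sum v0 v A A.2.support (le_refl _)]
    have h4 : ∑ j ∈ A.2.support, v j * ((A.2 j : ℤ) : ℝ) =
        ∑ j ∈ B.2.support.map ⟨f, hf⟩, v j * ((A.2 j : ℤ) : ℝ) := by
      symm
      apply Finset.sum_subset hsub
      intro j hj hj'
      by_cases hr : j ∈ Set.range f
      · obtain ⟨i, rfl⟩ := hr
        exfalso
        apply hj'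
        rw [Finset.mem_map]
        refine ⟨i, ?_, rfl⟩
        rw [Finsupp.mem_support_iff] at hj ⊢
        exact hj
      · rw [h0 j hr]; ring
    rw [h4, Finset.sum_map]
    exact h1

/-- Good is invariant under relabelling. -/
theorem good_perm (v0 : ℝ) (v : ι → ℝ) (π : Equiv.Perm ι) :
    Good (vec v0 (v ∘ π)) ↔ Good (vec v0 v) := by
  rw [good_embed (⇑π) π.injective v0 v]
  intro j hj
  exact absurd (π.surjective j) hj

end Pool.Agent.Stair
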