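import Pool.Agent.Lib.MP_f690a7_gt.Alg

/-!
Reduced vectors are good.
-/

namespace Pool.Agent.Stair

open Finset

variable {ι : Type}

namespace LemR

theorem int_nonneg (m : ℤ) : 0 ≤ m ^ 2 + m := by
  rcases le_or_gt 0 m with h | h
  · positivity
  · nlinarith

/-- it is enough to look at the positive entries -/
theorem key (v0 : ℝ) (v : ι → ℝ) (hv : ∀ i, 0 ≤ v i)
    (h : ∀ (d : ℤ) (m : ι → ℤ) (P : Finset ι), 0 ≤ d → (∀ i ∈ P, 0 < m i) →
      ∑ i ∈ P, (m i ^ 2 + m i) ≤ d ^ 2 + 3 * d → ∑ i ∈ P, v i * (m i : ℝ) ≤ v0 * d) :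
    Good (vec v0 v) := by
  classical
  intro A hA
  rw [vec_eq_sum v0 v A _ (le_refl _)]
  have h1 := hA.2
  rw [idx_eq_sum A _ (le_refl _)] at h1
  have h2 := h A.1 A.2 (A.2.support.filter fun i => 0 < A.2 i) hA.1
    (fun i hi => (Finset.mem_filter.1 hi).2) ?_
  · have h3 : ∑ i ∈ A.2.support, v i * (A.2 i : ℝ) ≤
        ∑ i ∈ A.2.support.filter (fun i => 0 < A.2 i), v i * (A.2 i : ℝ) := by
      rw [← Finset.sum_filter_add_sum_filter_not A.2.support (fun i => 0 < A.2 i)]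
      have h4 : ∑ i ∈ A.2.support.filter (fun i => ¬ 0 < A.2 i), v i * (A.2 i : ℝ) ≤ 0 := by
        refine Finset.sum_nonpos fun i hi => ?_
        have h5 : A.2 i ≤ 0 := not_lt.1 (Finset.mem_filter.1 hi).2
        exact mul_nonpos_of_nonneg_of_nonpos (hv i) (by exact_mod_cast h5)
      linarith
    linarith
  · refine le_trans (Finset.sum_le_sum_of_subset_of_nonneg (Finset.filter_subset _ _)
      fun i _ _ => int_nonneg _) (by linarith)

end LemR

theorem lemR (v0 : ℝ) (v : ι → ℝ) (hv : ∀ i, 0 ≤ v i) (i1 i2 : ι) (hne : i1 ≠ i2) (r1 r2 r3 : ℝ)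
    (h1 : v i1 ≤ r1) (h2 : v i2 ≤ r2) (h3 : ∀ i, i ≠ i1 → i ≠ i2 → v i ≤ r3) (h12 : r2 ≤ r1)
    (h23 : r3 ≤ r2) (h30 : 0 ≤ r3) (hr : r1 + r2 + r3 ≤ v0)
    (hsq : ∀ T : Finset ι, ∑ i ∈ T, v i ^ 2 ≤ v0 ^ 2) : Good (vec v0 v) := by
  classical
  refine LemR.key v0 v hv fun d m P hd hm hidx => ?_
  have hv0 : 0 ≤ v0 := by linarith
  have hd' : (0 : ℝ) ≤ d := by exact_mod_cast hd
  have hm' : ∀ i ∈ P, (0 : ℝ) ≤ m i := fun i hi => by exact_mod_cast (hm i hi).le
  rcases le_or_gt (∑ i ∈ P, m i ^ 2) (d ^ 2) with hc | hc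
  · have e1 : (∑ i ∈ P, v i * (m i : ℝ)) ^ 2 ≤ (v0 * d) ^ 2 := by
      refine (Finset.sum_mul_sq_le_sq_mul_sq P v fun i => (m i : ℝ)).trans ?_
      rw [mul_pow]
      have e2 : ∑ i ∈ P, (m i : ℝ) ^ 2 ≤ (d : ℝ) ^ 2 := by exact_mod_cast hc
      exact mul_le_mul (hsq P) e2 (Finset.sum_nonneg fun i _ => sq_nonneg _) (sq_nonneg _)
    exact le_of_sq_le_sq e1 (mul_nonneg hv0 hd')
  · have e1 : ∑ i ∈ P, m i ≤ 3 * d := by
      rw [Finset.sum_add_distrib] at hidx
      linarith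
    have e2 : ∀ i ∈ P, m i ≤ d := by
      intro i hi
      by_contra hcon
      have e3 : m i ^ 2 + m i ≤ d ^ 2 + 3 * d :=
        (Finset.single_le_sum (f := fun i => m i ^ 2 + m i)
          (fun j _ => LemR.int_nonneg (m j)) hi).trans hidx
      have e4 : d + 1 ≤ m i := by omega
      nlinarith
    have e3 : ∀ i ∈ P, v i * (m i : ℝ) ≤ r3 * m i + (if i = i1 then (r1 - r3) * d else 0) +
        (if i = i2 then (r2 - r3) * d else 0) := by
      intro i hi
      have a1 := hm' i hi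
      have a2 : (m i : ℝ) ≤ d := by exact_mod_cast e2 i hi
      by_cases hi1 : i = i1
      · rw [if_pos hi1, if_neg (by rw [hi1]; exact hne)]
        have a3 : v i ≤ r1 := by rw [hi1]; exact h1
        nlinarith [mul_le_mul_of_nonneg_right a3 a1,
          mul_le_mul_of_nonneg_left a2 (show 0 ≤ r1 - r3 by linarith)]
      · rw [if_neg hi1]
        by_cases hi2 : i = i2
        · rw [if_pos hi2]
          have a3 : v i ≤ r2 := by rw [hi2]; exact h2
          nlinarith [mul_le_mul_of_nonneg_right a3 a1,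
            mul_le_mul_of_nonneg_left a2 (show 0 ≤ r2 - r3 by linarith)]
        · rw [if_neg hi2]
          have a3 : v i ≤ r3 := h3 i hi1 hi2
          nlinarith [mul_le_mul_of_nonneg_right a3 a1]
    have e4 : ∀ (j : ι) (c : ℝ), 0 ≤ c → ∑ i ∈ P, (if i = j then c else 0) ≤ c := by
      intro j c hc
      rw [Finset.sum_ite_eq' P j]
      split_ifs
      · exact le_rfl
      · exact hc
    have e5 := Finset.sum_le_sum e3
    rw [Finset.sum_add_distrib, Finset.sum_add_distrib, ← Finset.mul_sum] at e5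
    have e6 := e4 i1 ((r1 - r3) * d) (mul_nonneg (by linarith) hd')
    have e7 := e4 i2 ((r2 - r3) * d) (mul_nonneg (by linarith) hd')
    have e8 : ∑ i ∈ P, (m i : ℝ) ≤ 3 * d := by exact_mod_cast e1
    nlinarith [mul_le_mul_of_nonneg_left e8 h30, mul_le_mul_of_nonneg_right hr hd']

end Pool.Agent.Stair
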