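import Pool.Agent.Lib.MP_f690a7_gt.Alg
import Pool.Agent.Lib.MP_f690a7_gt.Crem
import Pool.Agent.Lib.MP_f690a7_gt.LemR
import Pool.Agent.Lib.MP_f690a7_gt.Eu

/-!
List calculus for good vectors.
-/

namespace Pool.Agent.Stair

open Finset

namespace Glb

variable {ι κ : Type}

theorem good_congr {v0 w0 : ℝ} {v w : ι → ℝ} (h0 : v0 = w0) (h : ∀ i, v i = w i) :
    Good (vec v0 v) ↔ Good (vec w0 w) := by
  rw [vec_congr h0 h]

theorem good_equiv (e : ι ≃ κ) (v0 : ℝ) (v : ι → ℝ) (w : κ → ℝ) (h : ∀ i, w (e i) = v i) :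
    Good (vec v0 v) ↔ Good (vec v0 w) := by
  rw [good_embed e e.injective v0 w (fun j hj => absurd (e.surjective j) hj)]
  exact good_congr rfl (fun i => (h i).symm)

theorem perm_equiv {L L' : List ℝ} (h : L.Perm L') :
    ∃ e : Fin L.length ≃ Fin L'.length, ∀ i, L'.get (e i) = L.get i := by
  induction h with
  | nil => exact ⟨Equiv.refl _, fun i => rfl⟩
  | @cons x L L' _ ih =>
    obtain ⟨e, he⟩ := ih
    refine ⟨(finSuccEquiv L.length).trans ((Equiv.optionCongr e).trans
      (finSuccEquiv L'.length).symm), ?_⟩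
    intro i
    induction i using Fin.cases with
    | zero => simp
    | succ i => simpa using he i
  | swap x y L =>
    refine ⟨Equiv.swap (0 : Fin (L.length + 2)) (1 : Fin (L.length + 2)), ?_⟩
    intro i
    have : ∀ i : Fin (L.length + 2), (x :: y :: L).get (Equiv.swap (0 : Fin (L.length + 2)) 1 i) =
        (y :: x :: L).get i := by
      intro i
      induction i using Fin.cases with
      | zero => simp
      | succ i =>
        induction i using Fin.cases with
        | zero => simp
        | succ i =>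
          have h0 : (i.succ.succ : Fin (L.length + 2)) ≠ 0 := Fin.succ_ne_zero _
          have h1 : (i.succ.succ : Fin (L.length + 2)) ≠ 1 := by
            intro h
            have := congrArg Fin.val h
            simp at this
          rw [Equiv.swap_apply_of_ne_of_ne h0 h1]
          rfl
    exact this i
  | trans _ _ ih1 ih2 =>
    obtain ⟨e1, h1⟩ := ih1
    obtain ⟨e2, h2⟩ := ih2
    exact ⟨e1.trans e2, fun i => by rw [Equiv.trans_apply, h2, h1]⟩

end Glb

open Glb

theorem GoL.perm {d a b : ℝ} {L L' : List ℝ} (h : L.Perm L') : GoL d L a b ↔ GoL d L' a b := by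
  obtain ⟨e, he⟩ := perm_equiv h
  refine good_equiv (Equiv.sumCongr e (Equiv.refl ℕ)) d _ _ ?_
  rintro (i | n)
  · simpa using he i
  · rfl

theorem GoL.crem {d x y w a b : ℝ} {L : List ℝ} : GoL d (x :: y :: w :: L) a b ↔
    GoL (2 * d - x - y - w) ((d - y - w) :: (d - x - w) :: (d - x - y) :: L) a b := by
  classical
  have n01 : (Sum.inl ⟨0, by omega⟩ : Fin (L.length + 3) ⊕ ℕ) ≠ Sum.inl ⟨1, by omega⟩ := by
    intro h; simp [Fin.ext_iff] at h
  have n02 : (Sum.inl ⟨0, by omega⟩ : Fin (L.length + 3) ⊕ ℕ) ≠ Sum.inl ⟨2, by omega⟩ := by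
    intro h; simp [Fin.ext_iff] at h
  have n12 : (Sum.inl ⟨1, by omega⟩ : Fin (L.length + 3) ⊕ ℕ) ≠ Sum.inl ⟨2, by omega⟩ := by
    intro h; simp [Fin.ext_iff] at h
  have key := good_cremona (ι := Fin (L.length + 3) ⊕ ℕ) d
    (Sum.elim (fun i : Fin (L.length + 3) => (x :: y :: w :: L).get i) (wt a b))
    (Sum.inl ⟨0, by omega⟩) (Sum.inl ⟨1, by omega⟩) (Sum.inl ⟨2, by omega⟩) n01 n02 n12
  refine key.trans (good_congr ?_ ?_)
  · rfl
  · rintro (i | n)
    · obtain ⟨i, hi⟩ := i
      match i, hi with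
      | 0, hi => rw [if_pos rfl]; rfl
      | 1, hi => rw [if_neg n01.symm, if_pos rfl]; rfl
      | 2, hi => rw [if_neg n02.symm, if_neg n12.symm, if_pos rfl]; rfl
      | i + 3, hi =>
        rw [if_neg (by intro h; simp [Fin.ext_iff] at h),
          if_neg (by intro h; simp [Fin.ext_iff] at h), if_neg (by intro h; simp [Fin.ext_iff] at h)]
        rfl
    · rw [if_neg (by simp), if_neg (by simp), if_neg (by simp)]
      rfl

theorem GoL.flip2 {d s x y a b : ℝ} {L : List ℝ} : GoL d (s :: x :: y :: L) a b ↔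
    GoL (d + (d - s) - x - y) ((s + (d - s) - x - y) :: (d - s - x) :: (d - s - y) :: L) a b := by
  rw [GoL.crem]
  have h1 : 2 * d - s - x - y = d + (d - s) - x - y := by ring
  have h2 : d - x - y = s + (d - s) - x - y := by ring
  rw [h1, h2]
  exact GoL.perm (List.Perm.cons _ (List.Perm.swap _ _ _))

theorem GoL.zero {d a b : ℝ} {L : List ℝ} : GoL d (0 :: L) a b ↔ GoL d L a b := by
  have key := good_embed (ι := Fin L.length ⊕ ℕ) (κ := Fin (L.length + 1) ⊕ ℕ)
    (Sum.map Fin.succ id) (Function.Injective.sumMap (Fin.succ_injective _) Function.injective_id)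
    d (Sum.elim (fun i : Fin (L.length + 1) => ((0 : ℝ) :: L).get i) (wt a b)) ?_
  · refine key.trans (good_congr rfl ?_)
    rintro (i | n)
    · rfl
    · rfl
  · rintro (i | n) hj
    · induction i using Fin.cases with
      | zero => rfl
      | succ i => exact absurd ⟨Sum.inl i, rfl⟩ hj
    · exact absurd ⟨Sum.inr n, rfl⟩ hj

theorem GoL.comm {d a b : ℝ} {L : List ℝ} : GoL d L a b ↔ GoL d L b a := by
  refine good_congr rfl ?_
  rintro (i | n)
  · rfl
  · exact wt_comm a b n

theorem GoL.pull {d a b : ℝ} {L : List ℝ} (h : a ≤ b) : GoL d L a b ↔ GoL d (a :: L) a (b - a) := by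
  let e : Fin L.length ⊕ ℕ ≃ Fin (L.length + 1) ⊕ ℕ :=
    { toFun := Sum.elim (fun i => Sum.inl i.succ) (fun n => match n with
        | 0 => Sum.inl 0
        | n + 1 => Sum.inr n)
      invFun := Sum.elim (fun i => Fin.cases (Sum.inr 0) (fun j => Sum.inl j) i)
        (fun n => Sum.inr (n + 1))
      left_inv := by
        rintro (i | n)
        · rfl
        · cases n <;> rfl
      right_inv := by
        rintro (i | n)
        · induction i using Fin.cases <;> rfl
        · rfl }
  refine good_equiv e d _ _ ?_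
  rintro (i | n)
  · rfl
  · cases n with
    | zero =>
      change a = wt a b 0
      rw [wt_zero, min_eq_left h]
    | succ n =>
      change wt a (b - a) n = wt a b (n + 1)
      rw [wt_succ_le h]

theorem GoL.scale {r : ℝ} (hr : 0 < r) {d a b : ℝ} {L : List ℝ} :
    GoL (r * d) (L.map (fun x => r * x)) (r * a) (r * b) ↔ GoL d L a b := by
  have h1 : GoL (r * d) (L.map (fun x => r * x)) (r * a) (r * b) ↔
      Good (vec (r * d) (fun j => r * (Sum.elim (fun i : Fin L.length => L.get i) (wt a b) j))) := by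
    refine good_equiv (Equiv.sumCongr (finCongr (by simp)) (Equiv.refl ℕ)) (r * d) _ _ ?_
    rintro (i | n)
    · simp
    · simpa using (wt_scale hr a b n).symm
  rw [h1]
  have h2 : ∀ A : Lat (Fin L.length ⊕ ℕ),
      vec (r * d) (fun j => r * (Sum.elim (fun i : Fin L.length => L.get i) (wt a b) j)) A =
      r * vec d (Sum.elim (fun i : Fin L.length => L.get i) (wt a b)) A := by
    intro A
    rw [vec_eq_sum _ _ A _ (le_refl _), vec_eq_sum _ _ A _ (le_refl _), mul_sub, Finset.mul_sum]
    congr 1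
    · ring
    · apply Finset.sum_congr rfl; intro i _; ring
  constructor
  · intro h A hA
    have := h A hA
    rw [h2] at this
    exact nonneg_of_mul_nonneg_right this hr
  · intro h A hA
    rw [h2]
    exact mul_nonneg hr.le (h A hA)

theorem GoL.fin {d x y r a b : ℝ} {L : List ℝ} (ha : 0 ≤ a) (hb : 0 ≤ b) (hL : ∀ w ∈ L, 0 ≤ w ∧ w ≤ r)
    (hab : min a b ≤ r) (hr : 0 ≤ r) (hry : r ≤ y) (hyx : y ≤ x) (hd : x + y + r ≤ d)
    (hsq : x ^ 2 + y ^ 2 + (L.map (fun w => w ^ 2)).sum + a * b ≤ d ^ 2) :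
    GoL d (x :: y :: L) a b := by
  classical
  have hget : ∀ i : Fin L.length, L.get i ∈ L := fun i => List.get_mem L i
  refine lemR (ι := Fin (L.length + 2) ⊕ ℕ) d
    (Sum.elim (fun i : Fin (L.length + 2) => (x :: y :: L).get i) (wt a b)) ?_
    (Sum.inl ⟨0, by omega⟩) (Sum.inl ⟨1, by omega⟩) (by intro h; simp [Fin.ext_iff] at h)
    x y r ?_ ?_ ?_ hyx hry hr hd ?_
  · rintro (i | n)
    · obtain ⟨i, hi⟩ := i
      match i, hi with
      | 0, hi => exact (hr.trans hry).trans hyx
      | 1, hi => exact hr.trans hry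
      | i + 2, hi => exact (hL _ (hget ⟨i, by simpa using hi⟩)).1
    · exact wt_nonneg ha hb n
  · exact le_refl x
  · exact le_refl y
  · rintro (i | n) h1 h2
    · obtain ⟨i, hi⟩ := i
      match i, hi with
      | 0, hi => exact absurd rfl h1
      | 1, hi => exact absurd rfl h2
      | i + 2, hi => exact (hL _ (hget ⟨i, by simpa using hi⟩)).2
    · refine le_trans (wt_anti ha hb (Nat.zero_le n)) ?_
      rw [wt_zero]; exact hab
  · intro T
    obtain ⟨k, hk⟩ : ∃ k, T ⊆ (Finset.univ : Finset (Fin (L.length + 2))).disjSum (range k) := by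
      refine ⟨(T.toRight.sup id) + 1, ?_⟩
      rintro (i | n) hj
      · simp
      · simp only [Finset.inr_mem_disjSum, Finset.mem_range]
        have : n ≤ T.toRight.sup id := Finset.le_sup (f := id) (Finset.mem_toRight.mpr hj)
        omega
    refine le_trans (Finset.sum_le_sum_of_subset_of_nonneg hk (fun _ _ _ => sq_nonneg _)) ?_
    rw [Finset.sum_disjSum]
    simp only [Sum.elim_inl, Sum.elim_inr]
    have h1 : ∑ i : Fin (L.length + 2), (x :: y :: L).get i ^ 2 =
        x ^ 2 + y ^ 2 + (L.map (fun w => w ^ 2)).sum := by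
      rw [Fin.sum_univ_succ, Fin.sum_univ_succ]
      have : ∑ i : Fin L.length, (x :: y :: L).get i.succ.succ ^ 2 =
          (L.map (fun w => w ^ 2)).sum := by
        have h := Fin.sum_univ_fun_getElem L (fun w : ℝ => w ^ 2)
        rw [← h]
        rfl
      rw [this]
      change x ^ 2 + (y ^ 2 + (L.map (fun w => w ^ 2)).sum) = _
      ring
    have h2 := sum_wt_sq a b k
    have h3 := eu_nonneg ha hb k
    have h4 := mul_nonneg h3.1 h3.2
    rw [h1]
    linarith

theorem good_iff_GoL {ι : Type} (v0 : ℝ) (v : ι → ℝ) (l : List ι) (hl : l.Nodup) (e : ℕ → ι)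
    (he : Function.Injective e) (hle : ∀ n, e n ∉ l) (h0 : ∀ j, j ∉ l → (∀ n, e n ≠ j) → v j = 0)
    (a b : ℝ) (hv : ∀ n, v (e n) = wt a b n) : Good (vec v0 v) ↔ GoL v0 (l.map v) a b := by
  have key := good_embed (ι := Fin l.length ⊕ ℕ) (κ := ι)
    (Sum.elim (fun i => l.get i) e) ?_ v0 v ?_
  · refine key.trans (good_equiv (Equiv.sumCongr (finCongr (by simp)) (Equiv.refl ℕ)) v0 _ _ ?_)
    rintro (i | n)
    · simp
    · simpa using (hv n).symm
  · rintro (i | n) (j | m) h
    · simp only [Sum.elim_inl] at h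
      rw [hl.get_inj_iff] at h
      rw [h]
    · simp only [Sum.elim_inl, Sum.elim_inr] at h
      exact absurd (h ▸ List.get_mem l i) (hle m)
    · simp only [Sum.elim_inl, Sum.elim_inr] at h
      exact absurd (h ▸ List.get_mem l j) (hle n)
    · simp only [Sum.elim_inr] at h
      rw [he h]
  · intro j hj
    apply h0
    · intro hjl
      obtain ⟨i, hi⟩ := List.get_of_mem hjl
      exact hj ⟨Sum.inl i, hi⟩
    · intro n hn
      exact hj ⟨Sum.inr n, hn⟩

end Pool.Agent.Stair
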