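import Pool.Agent.Lib.MP_f690a7_gt.Plb

/-!
Type I vectors are pillow good.
-/

namespace Pool.Agent.Stair

open Finset

namespace TypeI

/-- the final case -/
theorem mixed {p : ℕ} {η A B : ℝ} {i j : ℕ} {M : List ℝ} (hη : 0 < η) (hA : 0 ≤ A) (hB : 0 ≤ B)
    (hi : 1 ≤ i) (hj : η ≤ B + η * j) (h1 : A * j + B * i = 2 * p * η)
    (h2 : (A + η * i) * (B + η * j) - ((M.map (fun w => w ^ 2)).sum + p * η ^ 2 + A * B) =
      p * η ^ 2)
    (h3 : ∀ w ∈ M, 0 ≤ w ∧ w ≤ η * i ∧ w ≤ η * j)
    (h4 : (A - η * i) * (B - η * j) ≤ 0) :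
    PL (A + η * i) (B + η * j) (M ++ List.replicate p η) A B := by
  have hiR : (1 : ℝ) ≤ i := by exact_mod_cast hi
  have hαη : η ≤ A + η * i := by nlinarith
  have hprod : (A + η * i) * (B + η * j) ≤ 4 * (p * η ^ 2) := by nlinarith
  have hsum : ((M ++ List.replicate p η).map (fun w => w ^ 2)).sum =
      (M.map (fun w => w ^ 2)).sum + p * η ^ 2 := by
    rw [List.map_append, List.sum_append, List.map_replicate, List.sum_replicate, nsmul_eq_mul]
  have hent : ∀ w ∈ M ++ List.replicate p η, 0 ≤ w ∧ w ≤ A + η * i ∧ w ≤ B + η * j := by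
    intro w hw
    rw [List.mem_append] at hw
    rcases hw with hw | hw
    · obtain ⟨e1, e2, e3⟩ := h3 w hw
      exact ⟨e1, by linarith, by linarith⟩
    · rw [List.eq_of_mem_replicate hw]
      exact ⟨hη.le, hαη, hj⟩
  have hjn : 0 ≤ η * j := by positivity
  have hin : 0 ≤ η * i := by positivity
  rcases le_total (A + η * i) (B + η * j) with h | h
  · rw [PL.swap]
    apply PL.half (by linarith) hA hB (fun w hw => ⟨(hent w hw).1, (hent w hw).2.1⟩)
      (le_trans (min_le_left _ _) (by linarith))
    rw [hsum]
    nlinarith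
  · apply PL.half (by linarith) hA hB (fun w hw => ⟨(hent w hw).1, (hent w hw).2.2⟩)
      (le_trans (min_le_right _ _) (by linarith))
    rw [hsum]
    nlinarith

/-- pull the weight `B` and flip it -/
theorem step {α β A B : ℝ} {L : List ℝ} (h : B ≤ A) :
    PL α β L A B ↔ PL (α + β - 2 * B) β ((β - B) :: L) (A - B) B := by
  rw [PL.comm, PL.pull h, PL.comm, PL.flip]

/-- pull the weight `A` and flip it in the other ruling -/
theorem step' {α β A B : ℝ} {L : List ℝ} (h : A ≤ B) :
    PL α β L A B ↔ PL α (α + β - 2 * A) ((α - A) :: L) A (B - A) := by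
  rw [PL.pull h, PL.swap, PL.flip, PL.swap, add_comm β α]

theorem phase1 {p : ℕ} {η : ℝ} (hη : 0 < η) : ∀ (n : ℕ) (i j : ℕ) (A B : ℝ) (M : List ℝ),
    1 ≤ i → 1 ≤ j → 0 ≤ A → 0 ≤ B → A * j + B * i = 2 * p * η →
    (A + η * i) * (B + η * j) - ((M.map (fun w => w ^ 2)).sum + p * η ^ 2 + A * B) =
      p * η ^ 2 →
    (∀ w ∈ M, 0 ≤ w ∧ w ≤ η * i ∧ w ≤ η * j) → (η * i ≤ A ∨ η * j ≤ B) →
    p + 1 ≤ n + (i + j) →
    PL (A + η * i) (B + η * j) (M ++ List.replicate p η) A B := by
  intro n
  induction n with
  | zero =>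
    intro i j A B M hi hj hA hB h1 h2 h3 h4 hn
    have hiR : (1 : ℝ) ≤ i := by exact_mod_cast hi
    have hjR : (1 : ℝ) ≤ j := by exact_mod_cast hj
    apply mixed hη hA hB hi (by nlinarith) h1 h2 h3
    by_contra hc
    push Not at hc
    have hAB : η * i < A ∧ η * j < B := by
      rcases h4 with h4 | h4
      · have : 0 < A - η * i := by
          rcases (sub_nonneg.mpr h4).lt_or_eq with h5 | h5
          · exact h5
          · rw [← h5] at hc; simp at hc
        have h6 : 0 < B - η * j := by
          by_contra h7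
          push Not at h7
          nlinarith
        exact ⟨by linarith, by linarith⟩
      · have : 0 < B - η * j := by
          rcases (sub_nonneg.mpr h4).lt_or_eq with h5 | h5
          · exact h5
          · rw [← h5] at hc; simp at hc
        have h6 : 0 < A - η * i := by
          by_contra h7
          push Not at h7
          nlinarith
        exact ⟨by linarith, by linarith⟩
    have h8 : η * (i * j) < η * p := by
      nlinarith [mul_lt_mul_of_pos_right hAB.1 (show (0 : ℝ) < j by linarith),
        mul_lt_mul_of_pos_right hAB.2 (show (0 : ℝ) < i by linarith)]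
    have h9 : (i * j : ℝ) < p := lt_of_mul_lt_mul_left h8 hη.le
    have h10 : i * j < p := by exact_mod_cast h9
    have h11 : i + j ≤ i * j + 1 := by nlinarith
    omega
  | succ n ih =>
    intro i j A B M hi hj hA hB h1 h2 h3 h4 hn
    have hiR : (1 : ℝ) ≤ i := by exact_mod_cast hi
    have hjR : (1 : ℝ) ≤ j := by exact_mod_cast hj
    by_cases hc : (A - η * i) * (B - η * j) ≤ 0
    · exact mixed hη hA hB hi (by nlinarith) h1 h2 h3 hc
    push Not at hc
    have hAB : η * i < A ∧ η * j < B := by
      rcases h4 with h4 | h4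
      · have : 0 < A - η * i := by
          rcases (sub_nonneg.mpr h4).lt_or_eq with h5 | h5
          · exact h5
          · rw [← h5] at hc; simp at hc
        have h6 : 0 < B - η * j := by
          by_contra h7
          push Not at h7
          nlinarith
        exact ⟨by linarith, by linarith⟩
      · have : 0 < B - η * j := by
          rcases (sub_nonneg.mpr h4).lt_or_eq with h5 | h5
          · exact h5
          · rw [← h5] at hc; simp at hc
        have h6 : 0 < A - η * i := by
          by_contra h7
          push Not at h7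
          nlinarith
        exact ⟨by linarith, by linarith⟩
    rcases le_total B A with hBA | hAB'
    · rw [step hBA]
      have e1 : A + η * i + (B + η * j) - 2 * B = (A - B) + η * ((i + j : ℕ) : ℝ) := by
        push_cast; ring
      have e2 : B + η * j - B = η * j := by ring
      rw [e1, e2]
      have := ih (i + j) j (A - B) B ((η * j) :: M) (by omega) hj (by linarith) hB
        (by push_cast; linarith)
        (by
          rw [List.map_cons, List.sum_cons]
          push_cast
          linarith [h2])
        (by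
          intro w hw
          rw [List.mem_cons] at hw
          push_cast
          rcases hw with rfl | hw
          · exact ⟨by positivity, by nlinarith, le_rfl⟩
          · obtain ⟨f1, f2, f3⟩ := h3 w hw
            exact ⟨f1, by nlinarith, f3⟩)
        (Or.inr hAB.2.le) (by omega)
      exact this
    · rw [step' hAB']
      have e1 : A + η * i + (B + η * j) - 2 * A = (B - A) + η * ((i + j : ℕ) : ℝ) := by
        push_cast; ring
      have e2 : A + η * i - A = η * i := by ring
      rw [e1, e2]
      have := ih i (i + j) A (B - A) ((η * i) :: M) hi (by omega) hA (by linarith)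
        (by push_cast; linarith)
        (by
          rw [List.map_cons, List.sum_cons]
          push_cast
          linarith [h2])
        (by
          intro w hw
          rw [List.mem_cons] at hw
          push_cast
          rcases hw with rfl | hw
          · exact ⟨by positivity, le_rfl, by nlinarith⟩
          · obtain ⟨f1, f2, f3⟩ := h3 w hw
            exact ⟨f1, f2, by nlinarith⟩)
        (Or.inl hAB.1.le) (by omega)
      exact this

theorem phase0 {p : ℕ} (hp : 0 < p) {η : ℝ} (hη : 0 < η) : ∀ (n : ℕ) (A : ℝ), 0 ≤ A →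
    A ≤ n * (2 * p * η) → PL (A + η) (2 * p * η) (List.replicate p η) A (2 * p * η) := by
  have hpR : (1 : ℝ) ≤ p := by exact_mod_cast hp
  have hB : 0 < 2 * p * η := by positivity
  have hsmall : ∀ A : ℝ, 0 ≤ A → A ≤ 2 * p * η →
      PL (A + η) (2 * p * η) (List.replicate p η) A (2 * p * η) := by
    intro A hA hAB
    by_cases hAη : A ≤ η
    · have := mixed (p := p) (η := η) (A := A) (B := 2 * p * η) (i := 1) (j := 0) (M := []) hη hA
        hB.le le_rfl (by push_cast; nlinarith) (by push_cast; ring)
        (by simp only [List.map_nil, List.sum_nil]; push_cast; ring) (by simp)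
        (by push_cast; nlinarith)
      simpa using this
    · push Not at hAη
      rw [step' hAB]
      have := phase1 (p := p) hη p 1 1 A (2 * p * η - A) [η] le_rfl le_rfl hA (by linarith)
        (by push_cast; ring)
        (by simp only [List.map_cons, List.map_nil, List.sum_cons, List.sum_nil]; push_cast; ring)
        (by simp [hη.le]) (Or.inl (by push_cast; linarith)) (by omega)
      have e1 : A + η + 2 * p * η - 2 * A = 2 * p * η - A + η * ((1 : ℕ) : ℝ) := by
        push_cast; ring
      have e2 : A + η - A = η := by ring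
      have e3 : A + η = A + η * ((1 : ℕ) : ℝ) := by push_cast; ring
      rw [e1, e2, e3]
      exact this
  intro n
  induction n with
  | zero =>
    intro A hA hn
    exact hsmall A hA (by push_cast at hn; linarith)
  | succ n ih =>
    intro A hA hn
    by_cases hAB : A ≤ 2 * p * η
    · exact hsmall A hA hAB
    · push Not at hAB
      rw [step hAB.le]
      have e1 : A + η + 2 * p * η - 2 * (2 * p * η) = (A - 2 * p * η) + η := by ring
      have e2 : 2 * p * η - 2 * p * η = 0 := by ring
      rw [e1, e2, PL.zero]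
      apply ih
      · linarith
      · push_cast at hn; linarith

/-- normalised position -/
def Inv (C δ : ℝ) (L : List ℝ) : Prop := PL (C + L.sum) δ L 1 δ

theorem Inv.perm {C δ : ℝ} {L L' : List ℝ} (h : L.Perm L') : Inv C δ L ↔ Inv C δ L' := by
  rw [Inv, Inv, PL.perm h, h.sum_eq]

theorem Inv.flip {C δ x : ℝ} {L : List ℝ} : Inv C δ (x :: L) ↔ Inv C δ ((δ - x) :: L) := by
  rw [Inv, Inv, PL.flip]
  have : C + (x :: L).sum + δ - 2 * x = C + ((δ - x) :: L).sum := by
    simp only [List.sum_cons]; ring
  rw [this]

theorem Inv.zero {C δ : ℝ} {L : List ℝ} : Inv C δ (0 :: L) ↔ Inv C δ L := by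
  rw [Inv, Inv, PL.zero, List.sum_cons, zero_add]

theorem Inv.drop {C δ : ℝ} {L : List ℝ} : ∀ L2 : List ℝ, (∀ w ∈ L2, w = 0 ∨ w = δ) →
    Inv C δ L → Inv C δ (L2 ++ L) := by
  intro L2
  induction L2 with
  | nil => intro _ h; exact h
  | cons x L2 ih =>
    intro h2 h
    have h3 := ih (fun w hw => h2 w (List.mem_cons_of_mem _ hw)) h
    rw [List.cons_append]
    rcases h2 x List.mem_cons_self with e | e
    · rw [e, Inv.zero]; exact h3
    · rw [Inv.flip, e, sub_self, Inv.zero]; exact h3

theorem Inv.small {C δ η : ℝ} : ∀ (L1 L : List ℝ), (∀ w ∈ L1, w = η ∨ w = δ - η) →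
    Inv C δ (List.replicate L1.length η ++ L) → Inv C δ (L1 ++ L) := by
  intro L1
  induction L1 with
  | nil => intro L _ h; exact h
  | cons x L1 ih =>
    intro L h1 h
    rw [List.length_cons, List.replicate_succ, List.cons_append] at h
    have hp : (η :: (List.replicate L1.length η ++ L)).Perm
        (List.replicate L1.length η ++ (η :: L)) := List.perm_middle.symm
    rw [Inv.perm hp] at h
    have h3 := ih (η :: L) (fun w hw => h1 w (List.mem_cons_of_mem _ hw)) h
    have hp' : (L1 ++ (η :: L)).Perm (η :: (L1 ++ L)) := List.perm_middle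
    rw [Inv.perm hp'] at h3
    rw [List.cons_append]
    rcases h1 x List.mem_cons_self with e | e
    · rw [e]; exact h3
    · rw [Inv.flip, e]
      have : δ - (δ - η) = η := by ring
      rw [this]; exact h3

end TypeI

/-- the normalised type I vector is pillow good -/
theorem typeI (p : ℕ) (hp : 0 < p) (η : ℝ) (hη : 0 < η) (hs : 2 * p * η < 1) :
    PL (1 + η) (2 * p * η) (List.replicate p η) 1 (2 * p * η) := by
  obtain ⟨n, hn⟩ := exists_nat_ge (1 / (2 * p * η))
  have hB : 0 < 2 * p * η := by positivity
  apply TypeI.phase0 hp hη n 1 zero_le_one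
  rw [div_le_iff₀ hB] at hn
  exact hn

theorem goodI (p : ℕ) (hp : 0 < p) (δ : ℝ) (hδ : 0 < δ) (hδ1 : δ < 1) (L1 L2 : List ℝ)
    (hl : L1.length = p) (h1 : ∀ w ∈ L1, w = δ / (2 * p) ∨ w = δ - δ / (2 * p))
    (h2 : ∀ w ∈ L2, w = 0 ∨ w = δ) (s : ℝ)
    (hs : s = 1 / 2 + δ * (1 - p) / (4 * p) + (L1.sum + L2.sum) / 2) :
    GoL (s + δ) (s :: δ / 2 :: δ / 2 :: δ / 2 :: δ / 2 :: (L1 ++ L2)) 1 δ := by
  have hpR : (0 : ℝ) < p := by exact_mod_cast hp
  apply GoL_of_PL
  have hη : 0 < δ / (2 * p) := by positivity
  have hsη : 2 * p * (δ / (2 * p)) = δ := by field_simp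
  have hbase := typeI p hp (δ / (2 * p)) hη (by rw [hsη]; exact hδ1)
  rw [hsη] at hbase
  set C : ℝ := 1 + δ * (1 - p) / (2 * p) with hC
  have hI : TypeI.Inv C δ (List.replicate p (δ / (2 * p))) := by
    rw [TypeI.Inv]
    have : C + (List.replicate p (δ / (2 * p))).sum = 1 + δ / (2 * p) := by
      rw [List.sum_replicate, nsmul_eq_mul, hC]; field_simp; ring
    rw [this]; exact hbase
  have hI2 : TypeI.Inv C δ (L2 ++ List.replicate L1.length (δ / (2 * p))) := by
    rw [hl]; exact TypeI.Inv.drop L2 h2 hI
  rw [TypeI.Inv.perm List.perm_append_comm] at hI2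
  have hI3 := TypeI.Inv.small L1 L2 h1 hI2
  rw [TypeI.Inv] at hI3
  have : C + (L1 ++ L2).sum = 2 * s := by
    rw [hs, hC, List.sum_append]; field_simp; ring
  rw [this] at hI3
  exact hI3

end Pool.Agent.Stair
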