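import Pool.Agent.Lib.MP_f690a7_gt.TB

/-!
The base case is proved in TB.lean.
-/
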