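import Pool.Agent.Lib.MP_f690a7_gt.Glb
import Pool.Agent.Lib.MP_f690a7_gt.TB3
import Pool.Agent.Lib.MP_f690a7_gt.TB4
import Pool.Agent.Lib.MP_f690a7_gt.TB5
import Pool.Agent.Lib.MP_f690a7_gt.TB6
import Pool.Agent.Lib.MP_f690a7_gt.TB6v

/-!
Type II vectors: reduction to the base cases by double flips, pulling of weights and scaling.
-/

namespace Pool.Agent.Stair

namespace TypeII

/-- the section coordinate of a scaled type II vector with the entries `L` and weights of `(1, X)` -/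
noncomputable def sec (p : ℕ) (X : ℝ) (L : List ℝ) : ℝ :=
  X / 2 + (1 - 5 * p) / (4 * p) + L.sum / 2

/-- the scaled vector is good -/
def Q (p : ℕ) (X : ℝ) (L : List ℝ) : Prop := GoL (sec p X L + 1) (sec p X L :: L) 1 X

theorem Q_perm {p : ℕ} {X : ℝ} {L L' : List ℝ} (h : L.Perm L') : Q p X L ↔ Q p X L' := by
  have hs : sec p X L = sec p X L' := by rw [sec, sec, h.sum_eq]
  rw [Q, Q, hs]
  exact GoL.perm (h.cons _)

theorem Q_flip {p : ℕ} {X x y : ℝ} {L : List ℝ} :
    Q p X (x :: y :: L) ↔ Q p X ((1 - x) :: (1 - y) :: L) := by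
  have h : sec p X ((1 - x) :: (1 - y) :: L) = sec p X (x :: y :: L) + 1 - x - y := by
    simp only [sec, List.sum_cons]
    ring
  rw [Q, Q, h, GoL.flip2]
  have h1 : sec p X (x :: y :: L) + 1 - sec p X (x :: y :: L) = 1 := by ring
  rw [h1]
  have h2 : sec p X (x :: y :: L) + 1 + 1 - x - y = sec p X (x :: y :: L) + 1 - x - y + 1 := by ring
  rw [h2]

theorem Q_zero {p : ℕ} {X : ℝ} {L : List ℝ} : Q p X (0 :: L) ↔ Q p X L := by
  have h : sec p X (0 :: L) = sec p X L := by simp [sec]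
  rw [Q, Q, h, GoL.perm (List.Perm.swap _ _ _), GoL.zero]

theorem Q_zeros {p : ℕ} {X : ℝ} (k : ℕ) {L : List ℝ} :
    Q p X (List.replicate k 0 ++ L) ↔ Q p X L := by
  induction k with
  | zero => simp
  | succ k ih => rw [List.replicate_succ, List.cons_append, Q_zero, ih]

theorem Q_pull {p : ℕ} {X : ℝ} (hX : 1 ≤ X) {L : List ℝ} : Q p X L ↔ Q p (X - 1) (1 :: L) := by
  have h : sec p (X - 1) (1 :: L) = sec p X L := by
    simp only [sec, List.sum_cons]
    ring
  rw [Q, Q, h, GoL.pull hX, GoL.perm (List.Perm.swap _ _ _)]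

theorem Q_norm {p : ℕ} {X u h : ℝ} (K : List ℝ) (hK : ∀ w ∈ K, w = u ∨ w = 1 - u) :
    ∀ (y : ℝ) (N : List ℝ), (y = h ∨ y = 1 - h) → ∃ y', (y' = h ∨ y' = 1 - h) ∧
      (Q p X (K ++ y :: N) ↔ Q p X (List.replicate K.length u ++ y' :: N)) := by
  induction K with
  | nil => intro y N hy; exact ⟨y, hy, Iff.rfl⟩
  | cons w K ih =>
    intro y N hy
    have ih' := ih fun w' hw' => hK w' (List.mem_cons_of_mem _ hw')
    have hperm : ∀ (w y : ℝ), List.Perm (w :: K ++ y :: N) (K ++ y :: (w :: N)) := by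
      intro w y
      have h1 : List.Perm (w :: K ++ y :: N) (K ++ w :: y :: N) := by
        rw [List.cons_append]
        exact List.perm_middle.symm
      exact h1.trans (List.Perm.append_left K (List.Perm.swap _ _ _))
    have hperm2 : ∀ (y : ℝ), List.Perm (List.replicate K.length u ++ y :: (u :: N))
        (List.replicate (w :: K).length u ++ y :: N) := by
      intro y
      rw [List.length_cons, List.replicate_succ, List.cons_append]
      have h1 : List.Perm (List.replicate K.length u ++ y :: u :: N)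
          (List.replicate K.length u ++ u :: y :: N) :=
        List.Perm.append_left _ (List.Perm.swap _ _ _)
      exact h1.trans List.perm_middle
    rcases hK w (List.mem_cons_self ..) with hw | hw
    · obtain ⟨y', hy', hiff⟩ := ih' y (u :: N) hy
      refine ⟨y', hy', ?_⟩
      rw [hw, Q_perm (hperm u y), hiff, Q_perm (hperm2 y')]
      simp only [List.length_cons]
    · have hy1 : (1 - y = h ∨ 1 - y = 1 - h) := by
        rcases hy with hy | hy
        · right; rw [hy]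
        · left; rw [hy]; ring
      obtain ⟨y', hy', hiff⟩ := ih' (1 - y) (u :: N) hy1
      refine ⟨y', hy', ?_⟩
      have h2 : Q p X (w :: K ++ y :: N) ↔ Q p X (w :: y :: (K ++ N)) := by
        apply Q_perm
        rw [List.cons_append]
        exact List.Perm.cons _ List.perm_middle
      have h3 : Q p X ((1 - w) :: (1 - y) :: (K ++ N)) ↔ Q p X (K ++ (1 - y) :: u :: N) := by
        have h4 : 1 - w = u := by rw [hw]; ring
        rw [h4]
        apply Q_perm
        have h5 : List.Perm (u :: (1 - y) :: (K ++ N)) ((1 - y) :: u :: (K ++ N)) :=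
          List.Perm.swap _ _ _
        have h6 : List.Perm ((1 - y) :: u :: (K ++ N)) ((1 - y) :: (K ++ u :: N)) :=
          List.Perm.cons _ List.perm_middle.symm
        exact (h5.trans h6).trans List.perm_middle.symm
      rw [h2, Q_flip, h3, hiff, Q_perm (hperm2 y')]

/-- normal form -/
theorem Q_main {p : ℕ} {X u h y : ℝ} (K L3 M : List ℝ) (hK : ∀ w ∈ K, w = u ∨ w = 1 - u)
    (h3 : ∀ w ∈ L3, w = 0 ∨ w = 1) (hy : y = h ∨ y = 1 - h)
    (hb : Q p X (h :: (List.replicate K.length u ++ M)))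
    (hb' : Q p X ((1 - h) :: (List.replicate K.length u ++ M))) :
    Q p X (K ++ y :: (M ++ L3)) := by
  obtain ⟨y1, hy1, h1⟩ := Q_norm (p := p) (X := X) (h := h) K hK y (M ++ L3) hy
  rw [h1]
  have h2 : Q p X (List.replicate K.length u ++ y1 :: (M ++ L3)) ↔
      Q p X (L3 ++ y1 :: (List.replicate K.length u ++ M)) := by
    apply Q_perm
    have e1 : List.Perm (List.replicate K.length u ++ y1 :: (M ++ L3))
        (y1 :: (List.replicate K.length u ++ (M ++ L3))) := List.perm_middle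
    have e2 : List.Perm (y1 :: (List.replicate K.length u ++ (M ++ L3)))
        (y1 :: (L3 ++ (List.replicate K.length u ++ M))) := by
      apply List.Perm.cons
      rw [← List.append_assoc]
      exact List.perm_append_comm
    exact (e1.trans e2).trans List.perm_middle.symm
  rw [h2]
  obtain ⟨y2, hy2, h4⟩ := Q_norm (p := p) (X := X) (u := 0) (h := h) L3
    (fun w hw => by rcases h3 w hw with e | e <;> simp [e]) y1
    (List.replicate K.length u ++ M) hy1
  rw [h4, Q_zeros]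
  rcases hy2 with e | e
  · rw [e]; exact hb
  · rw [e]; exact hb'

/-- the base cases in normal form, `p ≤ 5` -/
theorem Q_small {p : ℕ} (hp : 3 ≤ p) (hp5 : p ≤ 5) {X : ℝ} (h0 : 0 ≤ X) (h1 : X ≤ 1) :
    Q p X (1 / 2 :: (List.replicate p (((p : ℝ) - 1) / (2 * p)) ++
      List.replicate (5 - p) (1 / 2))) := by
  interval_cases p
  · have h := base3 X h0 h1
    have hp : List.Perm [(1 : ℝ)/2, 1/2, 1/2, 1/3, 1/3, 1/3] [1/2, 1/3, 1/3, 1/3, 1/2, 1/2] := by
      apply List.Perm.cons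
      exact (List.perm_append_comm (l₁ := [(1 : ℝ)/2, 1/2]) (l₂ := [1/3, 1/3, 1/3]))
    have he : (1 / 2 :: (List.replicate 3 ((((3 : ℕ) : ℝ) - 1) / (2 * ((3 : ℕ) : ℝ))) ++
      List.replicate (5 - 3) (1 / 2))) = [(1 : ℝ)/2, 1/3, 1/3, 1/3, 1/2, 1/2] := by
      norm_num [List.replicate]
    rw [he, ← Q_perm hp, Q]
    have hs : sec 3 X [(1 : ℝ)/2, 1/2, 1/2, 1/3, 1/3, 1/3] = X / 2 + 1 / 12 := by
      simp only [sec, List.sum_cons, List.sum_nil]
      push_cast
      ring
    rw [hs, add_comm]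
    exact h
  · have h := base4 X h0 h1
    have hp : List.Perm [(1 : ℝ)/2, 1/2, 3/8, 3/8, 3/8, 3/8] [1/2, 3/8, 3/8, 3/8, 3/8, 1/2] := by
      apply List.Perm.cons
      exact (List.perm_append_comm (l₁ := [(1 : ℝ)/2]) (l₂ := [3/8, 3/8, 3/8, 3/8]))
    have he : (1 / 2 :: (List.replicate 4 ((((4 : ℕ) : ℝ) - 1) / (2 * ((4 : ℕ) : ℝ))) ++
      List.replicate (5 - 4) (1 / 2))) = [(1 : ℝ)/2, 3/8, 3/8, 3/8, 3/8, 1/2] := by
      norm_num [List.replicate]
    rw [he, ← Q_perm hp, Q]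
    have hs : sec 4 X [(1 : ℝ)/2, 1/2, 3/8, 3/8, 3/8, 3/8] = X / 2 + 1 / 16 := by
      simp only [sec, List.sum_cons, List.sum_nil]
      push_cast
      ring
    rw [hs, add_comm]
    exact h
  · have h := base5 X h0 h1
    have he : (1 / 2 :: (List.replicate 5 ((((5 : ℕ) : ℝ) - 1) / (2 * ((5 : ℕ) : ℝ))) ++
      List.replicate (5 - 5) (1 / 2))) = [(1 : ℝ)/2, 2/5, 2/5, 2/5, 2/5, 2/5] := by
      norm_num [List.replicate]
    rw [he, Q]
    have hs : sec 5 X [(1 : ℝ)/2, 2/5, 2/5, 2/5, 2/5, 2/5] = X / 2 + 1 / 20 := by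
      simp only [sec, List.sum_cons, List.sum_nil]
      push_cast
      ring
    rw [hs, add_comm]
    exact h

theorem Q_six {X : ℝ} (h0 : 0 ≤ X) (h1 : X ≤ 1) :
    Q 6 X (5 / 12 :: List.replicate 5 (5 / 12)) ∧
    Q 6 X ((1 - 5 / 12) :: List.replicate 5 (5 / 12)) := by
  constructor
  · have h := base6 X h0 h1
    have he : (5 / 12 :: List.replicate 5 (5 / 12)) =
        [(5 : ℝ)/12, 5/12, 5/12, 5/12, 5/12, 5/12] := by
      simp [List.replicate]
    rw [he, Q]
    have hs : sec 6 X [(5 : ℝ)/12, 5/12, 5/12, 5/12, 5/12, 5/12] = X / 2 + 1 / 24 := by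
      simp only [sec, List.sum_cons, List.sum_nil]
      push_cast
      ring
    rw [hs, add_comm]
    exact h
  · have h := base6v X h0 h1
    have he : ((1 - 5 / 12) :: List.replicate 5 (5 / 12)) =
        [(7 : ℝ)/12, 5/12, 5/12, 5/12, 5/12, 5/12] := by
      norm_num [List.replicate]
    rw [he, Q]
    have hs : sec 6 X [(7 : ℝ)/12, 5/12, 5/12, 5/12, 5/12, 5/12] = X / 2 + 1 / 8 := by
      simp only [sec, List.sum_cons, List.sum_nil]
      push_cast
      ring
    rw [hs, add_comm]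
    exact h

/-- scaled statement with weights of `(1, X)`, `X ≤ 1` -/
theorem Q_le_one {p : ℕ} (hp : 3 ≤ p) (hp6 : p ≤ 6) {X : ℝ} (h0 : 0 ≤ X) (h1 : X ≤ 1)
    (L1 L3 : List ℝ) (hl : L1.length = p)
    (hL : ∀ w ∈ L1, w = ((p : ℝ) - 1) / (2 * p) ∨ w = ((p : ℝ) + 1) / (2 * p))
    (h3 : ∀ w ∈ L3, w = 0 ∨ w = 1) :
    Q p X (L1 ++ List.replicate (6 - p) (1 / 2) ++ L3) := by
  have hp0 : (0 : ℝ) < p := by exact_mod_cast (by omega : 0 < p)
  have hflip : ((p : ℝ) + 1) / (2 * p) = 1 - ((p : ℝ) - 1) / (2 * p) := by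
    field_simp
    ring
  have hL' : ∀ w ∈ L1, w = ((p : ℝ) - 1) / (2 * p) ∨ w = 1 - ((p : ℝ) - 1) / (2 * p) := by
    intro w hw
    rw [← hflip]
    exact hL w hw
  rcases Nat.lt_or_ge p 6 with hlt | hge
  · have h6 : 6 - p = (5 - p) + 1 := by omega
    rw [h6, List.replicate_succ, List.append_assoc, List.cons_append]
    have hb := Q_small hp (by omega) h0 h1
    refine Q_main (u := ((p : ℝ) - 1) / (2 * p)) (h := 1 / 2) L1 L3 _ hL' h3 (Or.inl rfl) ?_ ?_
    · rw [hl]; exact hb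
    · rw [hl]
      have : (1 : ℝ) - 1 / 2 = 1 / 2 := by norm_num
      rw [this]; exact hb
  · have hp' : p = 6 := by omega
    subst hp'
    cases L1 with
    | nil => simp at hl
    | cons w K =>
      have hk : K.length = 5 := by simpa using hl
      obtain ⟨hb, hb'⟩ := Q_six h0 h1
      have hu : (((6 : ℕ) : ℝ) - 1) / (2 * ((6 : ℕ) : ℝ)) = 5 / 12 := by norm_num
      rw [hu] at hL'
      have hperm : List.Perm (w :: K ++ List.replicate (6 - 6) (1 / 2) ++ L3)
          (K ++ w :: ([] ++ L3)) := by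
        have : w :: K ++ List.replicate (6 - 6) (1 / 2) ++ L3 = w :: (K ++ L3) := by simp
        rw [this, List.nil_append]
        exact List.perm_middle.symm
      rw [Q_perm hperm]
      refine Q_main (u := 5 / 12) (h := 5 / 12) K L3 []
        (fun x hx => hL' x (List.mem_cons_of_mem _ hx)) h3 (hL' w (List.mem_cons_self ..)) ?_ ?_
      · rw [hk, List.append_nil]; exact hb
      · rw [hk, List.append_nil]; exact hb'

theorem Q_all {p : ℕ} (hp : 3 ≤ p) (hp6 : p ≤ 6) (L1 : List ℝ) (hl : L1.length = p)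
    (hL : ∀ w ∈ L1, w = ((p : ℝ) - 1) / (2 * p) ∨ w = ((p : ℝ) + 1) / (2 * p)) (n : ℕ) :
    ∀ (X : ℝ), 0 ≤ X → X ≤ n + 1 → ∀ (L3 : List ℝ), (∀ w ∈ L3, w = 0 ∨ w = 1) →
    Q p X (L1 ++ List.replicate (6 - p) (1 / 2) ++ L3) := by
  induction n with
  | zero =>
    intro X h0 h1 L3 h3
    exact Q_le_one hp hp6 h0 (by simpa using h1) L1 L3 hl hL h3
  | succ n ih =>
    intro X h0 h1 L3 h3
    rcases le_or_gt 1 X with hX | hX
    · rw [Q_pull hX]
      have hperm : List.Perm (1 :: (L1 ++ List.replicate (6 - p) (1 / 2) ++ L3))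
          (L1 ++ List.replicate (6 - p) (1 / 2) ++ (1 :: L3)) := List.perm_middle.symm
      rw [Q_perm hperm]
      refine ih (X - 1) (by linarith) ?_ (1 :: L3) ?_
      · push_cast at h1
        linarith
      · intro w hw
        rcases List.mem_cons.1 hw with e | e
        · exact Or.inr e
        · exact h3 w e
    · exact Q_le_one hp hp6 h0 hX.le L1 L3 hl hL h3

end TypeII

open TypeII in
theorem goodII (p : ℕ) (hp : 3 ≤ p) (hp6 : p ≤ 6) (δ : ℝ) (hδ : 0 < δ) (hδ1 : δ < 1)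
    (L1 L3 : List ℝ) (hl : L1.length = p)
    (h1 : ∀ w ∈ L1, w = δ * (p - 1) / (2 * p) ∨ w = δ * (p + 1) / (2 * p))
    (h3 : ∀ w ∈ L3, w = 0 ∨ w = δ) (s : ℝ)
    (hs : s = 1 / 2 + δ * (1 - 5 * p) / (4 * p) + (L1.sum + (6 - p) * (δ / 2) + L3.sum) / 2) :
    GoL (s + δ) (s :: (L1 ++ List.replicate (6 - p) (δ / 2) ++ L3)) 1 δ := by
  have _ := hδ1
  have hδ0 : δ ≠ 0 := hδ.ne'
  have hp0 : (0 : ℝ) < p := by exact_mod_cast (by omega : 0 < p)
  have hr : 0 < δ⁻¹ := inv_pos.2 hδ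
  rw [← GoL.scale hr, GoL.comm]
  have hmap : List.map (fun x => δ⁻¹ * x) (s :: (L1 ++ List.replicate (6 - p) (δ / 2) ++ L3)) =
      (δ⁻¹ * s) :: (L1.map (fun x => δ⁻¹ * x) ++ List.replicate (6 - p) (1 / 2) ++
        L3.map (fun x => δ⁻¹ * x)) := by
    have : δ⁻¹ * (δ / 2) = 1 / 2 := by field_simp
    simp only [List.map_cons, List.map_append, List.map_replicate, this]
  rw [hmap, inv_mul_cancel₀ hδ0, mul_one]
  have key := Q_all hp hp6 (L1.map (fun x => δ⁻¹ * x)) (by simpa using hl) (by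
      intro w hw
      obtain ⟨v, hv, rfl⟩ := List.mem_map.1 hw
      rcases h1 v hv with e | e
      · left; rw [e]; field_simp
      · right; rw [e]; field_simp) ⌈δ⁻¹⌉₊ δ⁻¹ hr.le
      (by have := Nat.le_ceil δ⁻¹; linarith) (L3.map (fun x => δ⁻¹ * x)) (by
      intro w hw
      obtain ⟨v, hv, rfl⟩ := List.mem_map.1 hw
      rcases h3 v hv with e | e
      · left; rw [e]; simp
      · right; rw [e]; field_simp)
  have hsec : sec p δ⁻¹ (L1.map (fun x => δ⁻¹ * x) ++ List.replicate (6 - p) (1 / 2) ++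
        L3.map (fun x => δ⁻¹ * x)) = δ⁻¹ * s := by
    have hm1 : (L1.map (fun x => δ⁻¹ * x)).sum = δ⁻¹ * L1.sum := by
      rw [List.sum_map_mul_left, List.map_id']
    have hm3 : (L3.map (fun x => δ⁻¹ * x)).sum = δ⁻¹ * L3.sum := by
      rw [List.sum_map_mul_left, List.map_id']
    have hc : ((6 - p : ℕ) : ℝ) = 6 - p := by
      rw [Nat.cast_sub hp6]; norm_num
    rw [sec, List.sum_append, List.sum_append, hm1, hm3, List.sum_replicate, nsmul_eq_mul, hc, hs]
    field_simp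
  rw [Q, hsec] at key
  have hd : δ⁻¹ * (s + δ) = δ⁻¹ * s + 1 := by
    rw [mul_add, inv_mul_cancel₀ hδ0]
  rw [hd]
  exact key

end Pool.Agent.Stair
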