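import Pool.Agent.Lib.MP_f690a7_gt.Val
import Pool.Agent.Lib.MP_f690a7_gt.Glb
import Pool.Agent.Lib.MP_f690a7_gt.Cls
import Pool.Agent.Lib.MP_f690a7_gt.TypeI
import Pool.Agent.Lib.MP_f690a7_gt.TypeII
import Pool.Agent.Lib.MP_f690a7_gt.Eu
import Pool.Agent.Lib.MP_f690a7_gt.Crem

/-!
The good side: `q = 1`, `k = 2`, right of the integer `p`.
-/

namespace Pool.Agent.Stair

open Finset

section Fibr
variable {F : Lat II} {g : Adm II} {s : II} {p q k : ℕ}

namespace Goods

theorem aux (H : Fdat F g s p 1 2) (δ : ℝ) (h0 : 0 < δ) (h1 : δ < 1) (X Y : Finset II)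
    (hXY : Disjoint X Y) (hXs : s ∉ X) (hYs : s ∉ Y) (hX0 : ∀ j ∈ X, tt g p j ≠ 0)
    (hY0 : ∀ j ∈ Y, tt g p j ≠ 0)
    (hrest : ∀ j, j ∉ X → j ∉ Y → j ≠ s → tt g p j = 0 ∨ tt g p j = 2 * p) :
    ∃ (L3 : List ℝ) (vs : ℝ), (∀ w ∈ L3, w = 0 ∨ w = δ) ∧
      vs = 1 / 2 + δ * (1 - 5 * p) / (4 * p) +
        (∑ j ∈ X, δ * tt g p j / (2 * p) + ∑ j ∈ Y, δ * tt g p j / (2 * p) + L3.sum) / 2 ∧
      (GoL (vs + δ) (vs :: (X.toList.map (fun j => δ * tt g p j / (2 * p)) ++
        (Y.toList.map (fun j => δ * tt g p j / (2 * p)) ++ L3))) 1 δ →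
        Good (phi F (1 / 2 + δ / (4 * p)) (p + δ))) := by
  classical
  have hp : 0 < p := lt_of_lt_of_le Nat.zero_lt_one H.hpq
  have hpR : (0 : ℝ) < p := by exact_mod_cast hp
  obtain ⟨v1, v2, v3, v4, v5, v6, v7, v8⟩ := val H δ h0.le h1
  set φ := phi F (1 / 2 + δ / (4 * p)) (p + δ) with hφ
  set v : II → ℝ := fun j => φ (g.e.symm (EE j)) with hv
  set S : Finset II := F.2.support.erase s with hS
  have hsS : s ∉ S := by simp [hS]
  have hSmem : ∀ j, j ∈ S ↔ j ≠ s ∧ F.2 j ≠ 0 := by
    intro j; simp [hS, Finset.mem_erase, Finsupp.mem_support_iff]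
  have hsub : ∀ Z : Finset II, s ∉ Z → (∀ j ∈ Z, tt g p j ≠ 0) → Z ⊆ S := by
    intro Z hZs hZ j hj
    rw [hSmem]
    refine ⟨fun e => hZs (e ▸ hj), fun e => hZ j hj (v5 j e)⟩
  have hXS := hsub X hXs hX0
  have hYS := hsub Y hYs hY0
  set B : Finset II := S \ (X ∪ Y) with hB
  have hSdec : S = (X ∪ Y) ∪ B := by
    rw [hB, Finset.union_sdiff_of_subset (Finset.union_subset hXS hYS)]
  have hdisj : Disjoint (X ∪ Y) B := by rw [hB]; exact Finset.disjoint_sdiff
  have hvS : ∀ j ∈ S, v j = δ * tt g p j / (2 * p) := by
    intro j hj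
    rw [hSmem] at hj
    exact v2 j hj.1 hj.2
  have hBS : B ⊆ S := by rw [hB]; exact Finset.sdiff_subset
  -- the list
  set l : List II := s :: (X.toList ++ (Y.toList ++ B.toList)) with hl
  have hlmem : ∀ j, j ∈ l ↔ F.2 j ≠ 0 := by
    intro j
    rw [hl]
    simp only [List.mem_cons, List.mem_append, Finset.mem_toList]
    constructor
    · rintro (e | hj | hj | hj)
      · rw [e]; exact v6
      · exact ((hSmem j).mp (hXS hj)).2
      · exact ((hSmem j).mp (hYS hj)).2
      · exact ((hSmem j).mp (hBS hj)).2
    · intro hj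
      by_cases e : j = s
      · exact Or.inl e
      · have : j ∈ S := (hSmem j).mpr ⟨e, hj⟩
        rw [hSdec] at this
        simp only [Finset.mem_union] at this
        tauto
  have hnd : l.Nodup := by
    rw [hl, List.nodup_cons, List.nodup_append, List.nodup_append]
    refine ⟨?_, X.nodup_toList, ⟨Y.nodup_toList, B.nodup_toList, ?_⟩, ?_⟩
    · simp only [List.mem_append, Finset.mem_toList]
      rintro (hj | hj | hj)
      · exact hXs hj
      · exact hYs hj
      · exact hsS (hBS hj)
    · intro a ha c hc e
      rw [Finset.mem_toList] at ha hc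
      subst e
      exact Finset.disjoint_left.mp hdisj (Finset.mem_union_right _ ha) hc
    · intro a ha c hc e
      rw [Finset.mem_toList] at ha
      rw [List.mem_append, Finset.mem_toList, Finset.mem_toList] at hc
      subst e
      rcases hc with hc | hc
      · exact Finset.disjoint_left.mp hXY ha hc
      · exact Finset.disjoint_left.mp hdisj (Finset.mem_union_left _ ha) hc
  refine ⟨B.toList.map v, v s, ?_, ?_, ?_⟩
  · intro w hw
    rw [List.mem_map] at hw
    obtain ⟨j, hj, rfl⟩ := hw
    rw [Finset.mem_toList] at hj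
    rw [hvS j (hBS hj)]
    have hj2 : j ∉ X ∧ j ∉ Y := by
      rw [hB, Finset.mem_sdiff, Finset.mem_union] at hj
      tauto
    rcases hrest j hj2.1 hj2.2 ((hSmem j).mp (hBS hj)).1 with e | e
    · left; rw [e]; simp
    · right; rw [e]; push_cast; field_simp
  · rw [Finset.sum_map_toList]
    have h3 := v8 S hsS (fun j hj1 hj2 => (hSmem j).mpr ⟨hj1, hj2⟩)
    rw [hSdec, Finset.sum_union hdisj, Finset.sum_union hXY] at h3
    have h4 : ∑ j ∈ B, v j = ∑ j ∈ B, δ * tt g p j / (2 * p) :=
      Finset.sum_congr rfl (fun j hj => hvS j (hBS hj))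
    rw [h4]
    exact h3
  · intro hgo
    have h5 : (g.symm).e = g.e.symm := rfl
    rw [← (g.symm).good φ, eq_vec (φ.comp (g.symm).e.toAddMonoidHom)]
    have h6 : (φ.comp (g.symm).e.toAddMonoidHom) LL = v s + δ := by
      have h7 : (φ.comp (g.symm).e.toAddMonoidHom) LL =
          (φ.comp (g.symm).e.toAddMonoidHom) (EE s) +
            (φ.comp (g.symm).e.toAddMonoidHom) (LL - EE s) := by
        rw [← map_add]; congr 1; abel
      rw [h7]
      have h8 : (φ.comp (g.symm).e.toAddMonoidHom) (LL - EE s) = δ := v1
      rw [h8]; rfl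
    rw [h6]
    have h9 : (fun i => (φ.comp (g.symm).e.toAddMonoidHom) (EE i)) = v := rfl
    rw [h9]
    rw [good_iff_GoL (v s + δ) v l hnd (fun n => Sum.inr (p + n)) ?_ ?_ ?_ 1 δ ?_]
    · have h10 : l.map v = v s :: (X.toList.map (fun j => δ * tt g p j / (2 * p)) ++
          (Y.toList.map (fun j => δ * tt g p j / (2 * p)) ++ B.toList.map v)) := by
        rw [hl, List.map_cons, List.map_append, List.map_append]
        congr 2
        · apply List.map_congr_left
          intro j hj
          rw [Finset.mem_toList] at hj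
          exact hvS j (hXS hj)
        · congr 1
          apply List.map_congr_left
          intro j hj
          rw [Finset.mem_toList] at hj
          exact hvS j (hYS hj)
      rw [h10]
      exact hgo
    · intro a c hac
      simpa using hac
    · intro n hn
      exact (hlmem _).mp hn (v7 n)
    · intro j hj hne
      rw [hlmem, not_not] at hj
      rcases j with i | m
      · exact v3 i hj
      · exfalso
        by_cases hm : m < p
        · have h11 := H.hw m
          rw [hj, Val.wN_lt hm] at h11
          norm_num at h11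
        · exact hne (m - p) (by simp only [Sum.inr.injEq]; omega)
    · intro n
      exact v4 n

/-- dependence on `c` -/
theorem phi_sub (F : Lat II) (c c' z : ℝ) (A : Lat II) :
    phi F c z A = phi F c' z A + (c - c') * (form F (res A) : ℝ) := by
  classical
  have h1 : (res A).2.support ⊆ A.2.support := by
    intro i hi
    rw [Finsupp.mem_support_iff] at hi ⊢
    intro h
    apply hi
    simp only [res, Finsupp.filter_apply]
    split_ifs <;> simp_all
  rw [phi, phi, vec_eq_sum _ _ A A.2.support (le_refl _), vec_eq_sum _ _ A A.2.support (le_refl _),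
    form_comm, form_eq_sum (res A) F A.2.support h1]
  have h2 : ∀ i ∈ A.2.support,
      (Sum.elim (fun i => c * (F.2 (Sum.inl i) : ℝ)) (fun n => wt 1 z n) i) * (A.2 i : ℝ) =
      (Sum.elim (fun i => c' * (F.2 (Sum.inl i) : ℝ)) (fun n => wt 1 z n) i) * (A.2 i : ℝ) +
        (c - c') * (((res A).2 i : ℝ) * (F.2 i : ℝ)) := by
    intro i _
    rcases i with i | n
    · simp only [Sum.elim_inl, res, Finsupp.filter_apply, Sum.isLeft_inl, if_true]
      ring
    · simp only [Sum.elim_inr, res, Finsupp.filter_apply, Sum.isLeft_inr]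
      simp
  rw [Finset.sum_congr rfl h2, Finset.sum_add_distrib, ← Finset.mul_sum]
  push_cast
  have h3 : (res A).1 = A.1 := rfl
  rw [h3]
  ring

/-- monotonicity in `c` -/
theorem mono (H : Fdat F g s p q k) {c c' z : ℝ} (hc : c' ≤ c) (h : Good (phi F c' z)) :
    Good (phi F c z) := by
  intro A hA
  rw [phi_sub F c c' z A]
  have h1 := h A hA
  have h2 : (0 : ℝ) ≤ (form F (res A) : ℝ) := by exact_mod_cast H.hres A hA
  have h3 : 0 ≤ (c - c') * (form F (res A) : ℝ) := mul_nonneg (by linarith) h2
  linarith

end Goods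

/-- on the good side the vector on the line `c = 1/2 + δ/(4p)` is good -/
theorem good_line (H : Fdat F g s p 1 2) (δ : ℝ) (h0 : 0 < δ) (h1 : δ < 1) :
    Good (phi F (1 / 2 + δ / (4 * p)) (p + δ)) := by
  classical
  have hp : 0 < p := lt_of_lt_of_le Nat.zero_lt_one H.hpq
  have hpR : (0 : ℝ) < p := by exact_mod_cast hp
  rcases cls_comb H hp with ⟨A, J, hA4, hJp, hAJ, hsA, hsJ, hAt, hJt, hrest⟩ |
    ⟨hp3, hp6, P, R, hPp, hR, hPR, hsP, hsR, hPt, hRt, hrest⟩
  · obtain ⟨L3, vs, hL3, hvs, hgood⟩ := Goods.aux H δ h0 h1 A J hAJ hsA hsJ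
      (by intro j hj; rw [hAt j hj]; omega)
      (by intro j hj; rcases hJt j hj with e | e <;> rw [e] <;> omega) hrest
    apply hgood
    have hA : A.toList.map (fun j => δ * tt g p j / (2 * p)) = List.replicate 4 (δ / 2) := by
      rw [List.eq_replicate_iff]
      refine ⟨by rw [List.length_map, Finset.length_toList, hA4], ?_⟩
      intro w hw
      rw [List.mem_map] at hw
      obtain ⟨j, hj, rfl⟩ := hw
      rw [Finset.mem_toList] at hj
      rw [hAt j hj]
      push_cast
      field_simp
    rw [hA]
    have hgI := goodI p hp δ h0 h1 (J.toList.map (fun j => δ * tt g p j / (2 * p))) L3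
      (by rw [List.length_map, Finset.length_toList, hJp])
      (by
        intro w hw
        rw [List.mem_map] at hw
        obtain ⟨j, hj, rfl⟩ := hw
        rw [Finset.mem_toList] at hj
        rcases hJt j hj with e | e
        · left; rw [e]; push_cast; ring
        · right; rw [e]; push_cast; field_simp)
      hL3 vs
      (by
        rw [hvs, Finset.sum_map_toList]
        have h2 : ∑ j ∈ A, δ * tt g p j / (2 * p) = 2 * δ := by
          rw [← Finset.sum_map_toList, hA]
          simp only [List.sum_replicate, nsmul_eq_mul]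
          push_cast; ring
        rw [h2]
        field_simp
        ring)
    exact hgI
  · obtain ⟨L3, vs, hL3, hvs, hgood⟩ := Goods.aux H δ h0 h1 P R hPR hsP hsR
      (by intro j hj; rcases hPt j hj with e | e <;> rw [e] <;> omega)
      (by intro j hj; rw [hRt j hj]; omega) hrest
    apply hgood
    have hR' : R.toList.map (fun j => δ * tt g p j / (2 * p)) = List.replicate (6 - p) (δ / 2) := by
      rw [List.eq_replicate_iff]
      refine ⟨by rw [List.length_map, Finset.length_toList, hR], ?_⟩
      intro w hw
      rw [List.mem_map] at hw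
      obtain ⟨j, hj, rfl⟩ := hw
      rw [Finset.mem_toList] at hj
      rw [hRt j hj]
      push_cast
      field_simp
    rw [hR']
    have hgII := goodII p hp3 hp6 δ h0 h1 (P.toList.map (fun j => δ * tt g p j / (2 * p))) L3
      (by rw [List.length_map, Finset.length_toList, hPp])
      (by
        intro w hw
        rw [List.mem_map] at hw
        obtain ⟨j, hj, rfl⟩ := hw
        rw [Finset.mem_toList] at hj
        rcases hPt j hj with e | e
        · left; rw [e]; push_cast; ring
        · right; rw [e]; push_cast; ring)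
      hL3 vs
      (by
        rw [hvs, Finset.sum_map_toList]
        have h2 : ∑ j ∈ R, δ * tt g p j / (2 * p) = (6 - p) * (δ / 2) := by
          rw [← Finset.sum_map_toList, hR']
          simp only [List.sum_replicate, nsmul_eq_mul]
          rw [Nat.cast_sub hp6]
          push_cast; ring
        rw [h2])
    rw [← List.append_assoc]
    exact hgII

theorem core_good (H : Fdat F g s p 1 2) : CoreF F p 1 2 1 := by
  classical
  have hp : 0 < p := lt_of_lt_of_le Nat.zero_lt_one H.hpq
  have hpR : (0 : ℝ) < p := by exact_mod_cast hp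
  obtain ⟨-, -, -, -, -, v6, v7, -⟩ := val H 0 le_rfl one_pos
  have hfixp : g.e (EE (Sum.inr p)) = EE (Sum.inr p) := H.hfix _ (v7 0)
  have hsp : s ≠ Sum.inr p := by
    intro e; rw [e] at v6; exact v6 (v7 0)
  refine ⟨{F - EE (Sum.inr p)}, 1 / 2, by norm_num, ?_, ?_⟩
  · intro A hA
    rw [Finset.mem_singleton] at hA
    rw [hA, ← g.eff_e, map_sub, H.hF, hfixp]
    exact eff_LLEE hsp
  intro t c ht0 ht1 hz1 hc hc0 hvol hA
  have hzt : (p : ℝ) / ((1 : ℕ) : ℝ) + 1 * t = p + t := by push_cast; ring
  rw [hzt] at hvol hA ⊢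
  have ht1' : t < 1 := by linarith
  have hc1 : 1 / 2 + t / (4 * p) ≤ c := by
    obtain ⟨v1, -, -, v4, -, -, -, -⟩ := val H t ht0 ht1'
    have h1 := hA (F - EE (Sum.inr p)) (Finset.mem_singleton_self _)
    rw [map_sub] at h1
    have h2 : phi F c (p + t) (EE (Sum.inr p)) = t := by
      have h3 : phi F c (p + t) (EE (Sum.inr p)) =
          phi F (1 / 2 + t / (4 * p)) (p + t) (EE (Sum.inr p)) := by
        rw [phi, phi, vec_EE, vec_EE]; rfl
      have h4 : g.e.symm (EE (Sum.inr p)) = EE (Sum.inr p) := by
        rw [AddEquiv.symm_apply_eq, hfixp]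
      have h5 := v4 0
      rw [Nat.add_zero, h4] at h5
      rw [h3, h5]
      show min (1 : ℝ) t = t
      exact min_eq_right ht1'.le
    have hFs : g.e.symm (LL - EE s) = F := by rw [← H.hF, g.e.symm_apply_apply]
    rw [hFs] at v1
    have h6 := Goods.phi_sub F c (1 / 2 + t / (4 * p)) (p + t) F
    rw [v1] at h6
    -- the square of the domain part
    have h7 : form F (res F) = 4 * p := by
      have h8 : form F F = 0 := by
        rw [← g.form_e, H.hF]
        rw [form_sub_left, form_sub_right, form_sub_right, form_LL_LL, form_LL_EE, form_EE_LL,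
          form_EE_self]
        norm_num
      have h9 : form F (res F) = form F F + ∑ n ∈ range p, F.2 (Sum.inr n) ^ 2 := by
        set T : Finset II := F.2.support ∪ (range p).map ⟨Sum.inr, Sum.inr_injective⟩ with hT
        have h10 : F.2.support ⊆ T := Finset.subset_union_left
        rw [form_eq_sum F (res F) T h10, form_eq_sum F F T h10]
        have h11 : ∑ n ∈ range p, F.2 (Sum.inr n) ^ 2 =
            ∑ i ∈ (range p).map ⟨Sum.inr, Sum.inr_injective⟩, (F.2 i ^ 2 : ℤ) := by
          rw [Finset.sum_map]; rfl
        have h12 : ∑ i ∈ T, F.2 i * (res F).2 i + ∑ n ∈ range p, F.2 (Sum.inr n) ^ 2 =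
            ∑ i ∈ T, F.2 i * F.2 i := by
          rw [h11]
          have h13 : ∑ i ∈ (range p).map ⟨Sum.inr, Sum.inr_injective⟩, (F.2 i ^ 2 : ℤ) =
              ∑ i ∈ T, if i.isLeft = true then (0 : ℤ) else F.2 i ^ 2 := by
            rw [← Finset.sum_subset (s₁ := (range p).map ⟨Sum.inr, Sum.inr_injective⟩)
              (s₂ := T) Finset.subset_union_right]
            · apply Finset.sum_congr rfl
              intro i hi
              rw [Finset.mem_map] at hi
              obtain ⟨n, -, rfl⟩ := hi
              simp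
            · intro i _ hi
              rcases i with i | n
              · simp
              · rw [if_neg (by simp)]
                have hn : p ≤ n := by
                  by_contra hlt
                  apply hi
                  rw [Finset.mem_map]
                  exact ⟨n, Finset.mem_range.mpr (by omega), rfl⟩
                have := v7 (n - p)
                rw [show p + (n - p) = n by omega] at this
                rw [this]; rfl
          rw [h13, ← Finset.sum_add_distrib]
          apply Finset.sum_congr rfl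
          intro i _
          rcases i with i | n
          · simp [res, Finsupp.filter_apply]
          · simp [res, sq]
        have h14 : (res F).1 = F.1 := rfl
        rw [h14]
        linarith
      rw [h9, h8]
      have h15 : ∀ n ∈ range p, F.2 (Sum.inr n) ^ 2 = 4 := by
        intro n hn
        rw [Finset.mem_range] at hn
        rw [H.hw n, Val.wN_lt hn]; norm_num
      rw [Finset.sum_congr rfl h15]
      simp [mul_comm]
    rw [h7] at h6
    push_cast at h6
    rw [h2, h6] at h1
    have h8 : 0 ≤ (c - (1 / 2 + t / (4 * p))) * (4 * p) := by linarith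
    have h9 : 0 ≤ c - (1 / 2 + t / (4 * p)) := by
      by_contra hlt
      push Not at hlt
      nlinarith
    linarith
  rcases ht0.lt_or_eq with ht | ht
  · exact Goods.mono H hc1 (good_line H t ht ht1')
  · rw [← ht] at hc1 ⊢
    apply Goods.mono H (c' := 1 / 2) (by simpa using hc1)
    intro A hAeff
    have hw := (tsum_wt_rat (p := p) (q := 1) one_pos hp (Nat.coprime_one_right p)).2
    have h1 : phi F (1 / 2) (p + 0) A = 1 / 2 * (form F A : ℝ) := by
      rw [form_eq_vec, phi, vec_eq_sum _ _ A _ (le_refl _), vec_eq_sum _ _ A _ (le_refl _),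
        mul_sub, Finset.mul_sum]
      congr 1
      · ring
      · apply Finset.sum_congr rfl
        intro i _
        rcases i with i | n
        · simp only [Sum.elim_inl]; ring
        · simp only [Sum.elim_inr]
          have h2 := hw n
          have h3 : ((p : ℝ) / ((1 : ℕ) : ℝ)) = p + 0 := by push_cast; ring
          rw [h3] at h2
          rw [h2, H.hw n]
          push_cast; ring
    rw [h1]
    have h4 : (0 : ℤ) ≤ form F A := by
      rw [← g.form_e, H.hF, form_sub_left, form_comm, form_LL, form_comm, form_EE]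
      have := Eff.entry_le ((g.eff_e A).mpr hAeff) s
      linarith
    have h5 : (0 : ℝ) ≤ (form F A : ℝ) := by exact_mod_cast h4
    linarith

end Fibr

end Pool.Agent.Stair
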