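import Pool.Agent.Lib.MP_f690a7_gt.Fcom
import Pool.Agent.Lib.MP_f690a7_gt.Fib
import Pool.Agent.Lib.MP_f690a7_gt.SideE

/-!
Cores for the fibration data with `k = 1` and `k ≥ 3` (blueprint, section 12).
-/

namespace Pool.Agent.Stair

open Finset

namespace K13

open Fcom

/-- the first weights of a thin ellipsoid -/
theorem wt_const : ∀ (i : ℕ) (τ ω : ℝ), 0 ≤ τ → ((i : ℝ) + 1) * τ ≤ ω → wt τ ω i = τ := by
  intro i
  induction i with
  | zero =>
    intro τ ω h0 h
    rw [wt_zero]
    apply min_eq_left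
    simpa using h
  | succ i ih =>
    intro τ ω h0 h
    push_cast at h
    have h1 : 0 ≤ (i : ℝ) * τ := by positivity
    have h2 : τ ≤ ω := by linarith
    rw [wt_succ_le h2]
    apply ih τ (ω - τ) h0
    linarith

section
variable {F : Lat II} {g : Adm II} {s : II} {p q k : ℕ} {σ : ℝ} {N : ℕ} {x y : ℕ → ℤ} {ε : ℝ}

theorem psi_LLs (H : Fdat F g s p q k) (c z : ℝ) :
    ((phi F c z).comp g.e.symm.toAddMonoidHom) (LL - EE s) = phi F c z F := by
  show phi F c z (g.e.symm (LL - EE s)) = _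
  rw [symm_LLs H]

/-- the two kinds of component classes of the fibration -/
noncomputable def S1 (F : Lat II) (g : Adm II) (s : II) : Finset (Lat II) :=
  (F.2.support.erase s).image (fun j => g.e.symm (EE j)) ∪
    (F.2.support.erase s).image (fun j => g.e.symm (LL - EE s - EE j))

theorem S1_eff {F : Lat II} {g : Adm II} {s : II} : ∀ A ∈ S1 F g s, Eff A := by
  intro A hA
  rw [S1, Finset.mem_union, Finset.mem_image, Finset.mem_image] at hA
  rcases hA with ⟨j, _, rfl⟩ | ⟨j, hj, rfl⟩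
  · exact eff1 g j
  · exact eff2 g (Finset.mem_erase.mp hj).1

theorem S1_use (H : Fdat F g s p q k) {c z : ℝ} (hS : ∀ A ∈ S1 F g s, 0 ≤ phi F c z A) :
    ∀ j ∈ F.2.support.erase s, 0 ≤ phi F c z (g.e.symm (EE j)) ∧
      phi F c z (g.e.symm (EE j)) ≤ phi F c z F := by
  intro j hj
  constructor
  · exact hS _ (Finset.mem_union_left _ (Finset.mem_image_of_mem _ hj))
  · have := hS _ (Finset.mem_union_right _ (Finset.mem_image_of_mem _ hj))
    rw [symm_LLE H, map_sub] at this
    linarith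

/-- the centre case -/
theorem good_centre (H : Fdat F g s p q k) (hσ : σ = 1 ∨ (σ = -1 ∧ q < p))
    (S : Side p q σ N x y ε) {c z : ℝ} (h0 : 0 ≤ σ * (z - p / q)) (h1 : σ * (z - p / q) ≤ ε)
    (hf : phi F c z F = 0) (hτ : σ * (q * z - p) = 0) : Good (phi F c z) := by
  have hq := q_pos H
  have hp := p_pos H
  have hk := k_pos H
  have hz : z = p / q := by
    have h2 : (q : ℝ) * z - p = 0 := by
      rcases hσ with rfl | ⟨rfl, _⟩
      · linarith
      · linarith
    rw [eq_div_iff hq.ne']; linarith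
  have hc : c = 1 / (q * k) := by
    rw [phi_F H S c z h0 h1, hτ, hz] at hf
    have h3 : (q : ℝ) * (p / q) = p := by field_simp
    rw [h3] at hf
    have h4 : (k * p : ℝ) * (c * (q * k) - 1) = 0 := by linarith
    have h5 : c * (q * k) - 1 = 0 := by
      rcases mul_eq_zero.mp h4 with h | h
      · exact absurd h (by positivity)
      · exact h
    rw [eq_div_iff (by positivity)]; linarith
  rw [hz, hc]
  exact good0 H

/-- the fibration lemma applied to `phi` -/
theorem good_of_fib (H : Fdat F g s p q k) (hσ : σ = 1 ∨ (σ = -1 ∧ q < p))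
    (S : Side p q σ N x y ε) {c z : ℝ} (h0 : 0 ≤ σ * (z - p / q)) (h1 : σ * (z - p / q) ≤ ε)
    (hf : 0 < phi F c z F) (hτ : σ * (q * z - p) ≤ phi F c z F)
    (hS : ∀ j ∈ F.2.support.erase s, 0 ≤ phi F c z (g.e.symm (EE j)) ∧
      phi F c z (g.e.symm (EE j)) ≤ phi F c z F)
    (hmain : (F.2.support.card : ℝ) * phi F c z F ^ 2 + σ * (q * z - p) * wt 1 z (N - 1) ≤
      2 * phi F c z (g.e.symm (EE s)) * phi F c z F) : Good (phi F c z) := by
  rw [← good_iff g]
  have hv : ∀ j, j ≠ s → 0 ≤ phi F c z (g.e.symm (EE j)) ∧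
      phi F c z (g.e.symm (EE j)) ≤ phi F c z F := by
    intro j hj
    by_cases hj0 : F.2 j = 0
    · have := tail_val (c := c) H hσ S h0 h1 hj0
      exact ⟨this.1, this.2.trans hτ⟩
    · exact hS j (Finset.mem_erase.mpr ⟨hj, Finsupp.mem_support_iff.mpr hj0⟩)
  apply fib _ s
  · rw [psi_LLs H]; exact hf
  · intro j hj
    exact (hv j hj).1
  · intro j hj
    rw [psi_LLs H]
    exact (hv j hj).2
  · intro T hT
    rw [psi_LLs H]
    have e1 : ∑ j ∈ T, ((phi F c z).comp g.e.symm.toAddMonoidHom) (EE j) ^ 2 =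
        ∑ j ∈ T, phi F c z (g.e.symm (EE j)) ^ 2 := rfl
    have e2 : ((phi F c z).comp g.e.symm.toAddMonoidHom) (EE s) =
        phi F c z (g.e.symm (EE s)) := rfl
    rw [e1, e2]
    refine (sq_le H hσ S h0 h1 T hT).trans (le_trans ?_ hmain)
    have h3 : ∑ j ∈ F.2.support.erase s, phi F c z (g.e.symm (EE j)) ^ 2 ≤
        (F.2.support.card : ℝ) * phi F c z F ^ 2 := by
      have h4 : ∑ j ∈ F.2.support.erase s, phi F c z (g.e.symm (EE j)) ^ 2 ≤
          ∑ _j ∈ F.2.support.erase s, phi F c z F ^ 2 := by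
        apply Finset.sum_le_sum
        intro j hj
        have := hS j hj
        exact pow_le_pow_left₀ this.1 this.2 2
      refine h4.trans ?_
      rw [Finset.sum_const, nsmul_eq_mul]
      apply mul_le_mul_of_nonneg_right _ (sq_nonneg _)
      exact_mod_cast Finset.card_le_card (Finset.erase_subset _ _)
    linarith

/-- estimates near the centre, with one small parameter -/
theorem near (H : Fdat F g s p q k) (hσ : σ = 1 ∨ (σ = -1 ∧ q < p))
    (S : Side p q σ N x y ε) (K : ℝ) (hK : 0 ≤ K) : ∃ e : ℝ, 0 < e ∧ e ≤ ε ∧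
    ∀ c z : ℝ, 0 ≤ σ * (z - p / q) → σ * (z - p / q) ≤ e → |c - 1 / (q * k)| ≤ e →
      K * |phi F c z F| ≤ 1 / (100 * (q * k)) ∧
      |phi F c z (g.e.symm (EE s)) - 1 / (q * k)| ≤ 1 / (100 * (q * k)) ∧
      |wt 1 z (N - 1) - 1 / q| ≤ 1 / (100 * (q * k)) ∧
      K * (σ * (q * z - p)) ≤ 1 / (100 * (q * k)) := by
  have hq := q_pos H
  have hk := k_pos H
  obtain ⟨C1, hC1, h1⟩ := phi_lip H hσ S F
  obtain ⟨C2, hC2, h2⟩ := phi_lip H hσ S (g.e.symm (EE s))
  obtain ⟨C3, hC3, h3⟩ := om_lip H hσ S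
  set r : ℝ := 1 / (100 * (q * k)) with hr
  have hr0 : 0 < r := by positivity
  set D : ℝ := K * (2 * C1) + 2 * C2 + C3 + K * q + 1 with hD
  have hD0 : 0 < D := by positivity
  have hε := S.hε
  refine ⟨min ε (r / D), lt_min hε (by positivity), min_le_left _ _, ?_⟩
  intro c z z0 z1 hc
  set e := min ε (r / D) with he
  have he0 : 0 < e := lt_min hε (by positivity)
  have heε : e ≤ ε := min_le_left _ _
  have heD : D * e ≤ r := by
    have : e ≤ r / D := min_le_right _ _
    rw [le_div_iff₀ hD0] at this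
    linarith
  have z2 := z1.trans heε
  have a1 := h1 c z z0 z2
  have a2 := h2 c z z0 z2
  have a3 := h3 z z0 z2
  have f0 : form F F = 0 := formFF H
  have f1 : form F (g.e.symm (EE s)) = 1 := by
    rw [form_symm H, form_sub_left, form_LL_EE, form_EE_self]; norm_num
  rw [f0] at a1
  rw [f1] at a2
  simp only [Int.cast_zero, mul_zero, sub_zero, Int.cast_one, mul_one] at a1 a2
  have b : |c - 1 / (q * k)| + σ * (z - p / q) ≤ 2 * e := by linarith
  have b1 : |phi F c z F| ≤ 2 * C1 * e := a1.trans (by linarith [mul_le_mul_of_nonneg_left b hC1])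
  have b2 : |phi F c z (g.e.symm (EE s)) - 1 / (q * k)| ≤ 2 * C2 * e :=
    a2.trans (by linarith [mul_le_mul_of_nonneg_left b hC2])
  have b3 : |wt 1 z (N - 1) - 1 / q| ≤ C3 * e := a3.trans (by linarith [mul_le_mul_of_nonneg_left z1 hC3])
  have b4 : σ * (q * z - p) ≤ q * e := by
    rw [tau_eq H]; linarith [mul_le_mul_of_nonneg_left z1 hq.le]
  have n1 : 0 ≤ K * (2 * C1) * e := by positivity
  have n2 : 0 ≤ 2 * C2 * e := by positivity
  have n3 : 0 ≤ C3 * e := by positivity
  have n4 : 0 ≤ K * q * e := by positivity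
  have hDe : D * e = K * (2 * C1) * e + 2 * C2 * e + C3 * e + K * q * e + e := by
    rw [hD]; ring
  refine ⟨?_, ?_, ?_, ?_⟩
  · have := mul_le_mul_of_nonneg_left b1 hK
    linarith
  · linarith
  · linarith
  · have := mul_le_mul_of_nonneg_left b4 hK
    linarith

theorem sig_t (hσ : σ = 1 ∨ (σ = -1 ∧ q < p)) (t : ℝ) :
    σ * ((p : ℝ) / q + σ * t - p / q) = t := by
  rcases hσ with rfl | ⟨rfl, _⟩ <;> ring
end

end K13

section Fibr
open Fcom K13
variable {F : Lat II} {g : Adm II} {s : II} {p q k : ℕ}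

/-! ### K13 (file K13.lean) -/
theorem core_k1 (H : Fdat F g s p q 1) (σ : ℝ) (hσ : σ = 1 ∨ (σ = -1 ∧ q < p)) :
    CoreF F p q 1 σ := by
  obtain ⟨N, x, y, ε, S, -⟩ := side_exists p q H.hq H.hpq H.cop σ hσ
  have hq := q_pos H
  set n : ℝ := (F.2.support.card : ℝ) with hn
  have hn0 : 0 ≤ n := Nat.cast_nonneg _
  obtain ⟨e, he, heε, hnear⟩ := near H hσ S (n + 1) (by positivity)
  have hsN : Sum.inr N ≠ s := by
    intro h
    exact Fs_ne H (by rw [← h]; exact inr_zero H S le_rfl)
  refine ⟨S1 F g s ∪ {g.e.symm (LL - EE s - EE (Sum.inr N))}, e, he, ?_, ?_⟩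
  · intro A hA
    rw [Finset.mem_union, Finset.mem_singleton] at hA
    rcases hA with hA | rfl
    · exact S1_eff A hA
    · exact eff2 g hsN
  · intro t c ht0 ht1 _ hc _ _ hS
    have hst := sig_t (p := p) (q := q) hσ t
    set z : ℝ := (p : ℝ) / q + σ * t with hz
    have z0 : 0 ≤ σ * (z - p / q) := by rw [hst]; exact ht0
    have ze : σ * (z - p / q) ≤ e := by rw [hst]; exact ht1
    have z1 : σ * (z - p / q) ≤ ε := ze.trans heε
    obtain ⟨a1, a2, a3, a4⟩ := hnear c z z0 ze hc
    have hS1 := S1_use H (fun A hA => hS A (Finset.mem_union_left _ hA))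
    have hτ0 := tau_nonneg H z0
    have hω0 := om_nonneg H hσ S z0 z1
    set r : ℝ := 1 / (100 * (q * ((1 : ℕ) : ℝ))) with hr
    have hr0 : 0 < r := by rw [hr]; positivity
    have hq1 : 1 / (q : ℝ) = 100 * r := by rw [hr]; push_cast; field_simp
    have hq2 : 1 / ((q : ℝ) * ((1 : ℕ) : ℝ)) = 100 * r := by rw [hr]; push_cast; field_simp
    rw [hq2] at a2
    rw [hq1] at a3
    set τ : ℝ := σ * (q * z - p) with hτ
    set ω : ℝ := wt 1 z (N - 1) with hω
    set f : ℝ := phi F c z F with hf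
    set v : ℝ := phi F c z (g.e.symm (EE s)) with hv
    rw [abs_le] at a2 a3
    have hτr : τ ≤ r := by linarith [mul_nonneg hn0 hτ0]
    have hfτ : τ ≤ f := by
      have h1 := hS _ (Finset.mem_union_right _ (Finset.mem_singleton_self _))
      rw [symm_LLE H, map_sub, symm_EE H (inr_zero H S le_rfl), phi_inr] at h1
      have h2 : wt 1 z N = τ := by
        have h3 := S.tail z z0 z1 0
        rw [Nat.add_zero, wt_zero] at h3
        rw [h3]
        apply min_eq_left
        linarith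
      rw [h2] at h1
      linarith
    have hf0 : 0 ≤ f := hτ0.trans hfτ
    rcases hf0.lt_or_eq with hfp | hfe
    · apply good_of_fib H hσ S z0 z1 hfp hfτ hS1
      rw [abs_of_nonneg hf0] at a1
      have h1 : n * f + ω ≤ 2 * v := by linarith
      have h2 : τ * ω ≤ f * ω := mul_le_mul_of_nonneg_right hfτ hω0
      linarith [mul_le_mul_of_nonneg_left h1 hf0]
    · apply good_centre H hσ S z0 z1 hfe.symm
      linarith

theorem core_k3 (H : Fdat F g s p q k) (hk : 3 ≤ k) (σ : ℝ) (hσ : σ = 1 ∨ (σ = -1 ∧ q < p)) :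
    CoreF F p q k σ := by
  obtain ⟨N, x, y, ε, S, -⟩ := side_exists p q H.hq H.hpq H.cop σ hσ
  have hq := q_pos H
  have hk0 := k_pos H
  have hk3 : (3 : ℝ) ≤ k := by exact_mod_cast hk
  set n : ℝ := (F.2.support.card : ℝ) with hn
  have hn0 : 0 ≤ n := Nat.cast_nonneg _
  set K0 : ℕ := 8 * (k + 1) ^ 2 with hK0
  obtain ⟨e, he, heε, hnear⟩ := near H hσ S (n + 1 + K0) (by positivity)
  refine ⟨S1 F g s, e, he, S1_eff, ?_⟩
  intro t c ht0 ht1 _ hc _ hvol hS
  have hst := sig_t (p := p) (q := q) hσ t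
  set z : ℝ := (p : ℝ) / q + σ * t with hz
  have z0 : 0 ≤ σ * (z - p / q) := by rw [hst]; exact ht0
  have ze : σ * (z - p / q) ≤ e := by rw [hst]; exact ht1
  have z1 : σ * (z - p / q) ≤ ε := ze.trans heε
  obtain ⟨a1, a2, a3, a4⟩ := hnear c z z0 ze hc
  have hS1 := S1_use H hS
  have hτ0 := tau_nonneg H z0
  have hω0 := om_nonneg H hσ S z0 z1
  have hid := vol_id (c := c) H S z0 z1
  set r : ℝ := 1 / (100 * (q * k)) with hr
  have hr0 : 0 < r := by rw [hr]; positivity
  have hq1 : 1 / (q : ℝ) = 100 * (k * r) := by rw [hr]; field_simp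
  have hq2 : 1 / ((q : ℝ) * k) = 100 * r := by rw [hr]; field_simp
  have hkr : 3 * r ≤ k * r := mul_le_mul_of_nonneg_right hk3 hr0.le
  rw [hq2] at a2
  rw [hq1] at a3
  set τ : ℝ := σ * (q * z - p) with hτ
  set ω : ℝ := wt 1 z (N - 1) with hω
  set f : ℝ := phi F c z F with hf
  set v : ℝ := phi F c z (g.e.symm (EE s)) with hv
  rw [abs_le] at a2 a3
  have hK0' : (0 : ℝ) ≤ K0 := Nat.cast_nonneg _
  have hτr : τ ≤ r := by linarith [mul_nonneg hn0 hτ0, mul_nonneg hK0' hτ0]
  have hsq0 : 0 ≤ ∑ j ∈ F.2.support.erase s, phi F c z (g.e.symm (EE j)) ^ 2 :=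
    Finset.sum_nonneg (fun j _ => sq_nonneg _)
  have hfabs : |f| ≤ r := by
    have h1 : 0 ≤ |f| := abs_nonneg f
    linarith [mul_nonneg hn0 h1, mul_nonneg hK0' h1]
  have hfb := abs_le.mp hfabs
  have hsum : 0 < f + 2 * v := by linarith
  have hτω : τ * ω ≤ f * (f + 2 * v) := by
    rw [hid]; linarith
  have hf0 : 0 ≤ f := by
    by_contra h
    have h1 : f * (f + 2 * v) < 0 := mul_neg_of_neg_of_pos (not_le.mp h) hsum
    have h2 : 0 ≤ τ * ω := mul_nonneg hτ0 hω0
    linarith
  rcases le_or_gt (k * τ) f with hcase | hcase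
  · -- the fibre is long
    have hτf : τ ≤ f := by linarith [mul_le_mul_of_nonneg_right hk3 hτ0]
    rcases hf0.lt_or_eq with hfp | hfe
    · apply good_of_fib H hσ S z0 z1 hfp hτf hS1
      rw [abs_of_nonneg hf0] at a1
      have h1 : n * f ≤ r := by linarith [mul_nonneg hK0' hf0]
      -- `τ ω ≤ (f / k) ω`, `ω ≤ 101 k r`
      have h2 : τ * ω ≤ f * (101 * r) := by
        have h3 : ω ≤ 101 * (k * r) := by linarith
        have h4 : τ * ω ≤ τ * (101 * (k * r)) := mul_le_mul_of_nonneg_left h3 hτ0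
        have h5 : τ * (101 * (k * r)) = (k * τ) * (101 * r) := by ring
        have h6 : (k * τ) * (101 * r) ≤ f * (101 * r) :=
          mul_le_mul_of_nonneg_right hcase (by positivity)
        linarith
      have h7 : n * f ^ 2 ≤ f * r := by linarith [mul_le_mul_of_nonneg_left h1 hf0]
      have h8 : f * (198 * r) ≤ 2 * v * f := by
        have h9 : 198 * r ≤ 2 * v := by linarith
        linarith [mul_le_mul_of_nonneg_left h9 hf0]
      linarith [mul_nonneg hf0 hr0.le]
    · apply good_centre H hσ S z0 z1 hfe.symm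
      linarith
  · -- the fibre is comparable with the tail
    have hτp : 0 < τ := by
      by_contra h
      have : τ = 0 := le_antisymm (not_lt.mp h) hτ0
      rw [this, mul_zero] at hcase
      linarith
    have hωp : 297 * r + (k * r - 3 * r) * 99 ≤ ω := by linarith
    have hωp' : 0 < ω := by linarith
    have hfp : 0 < f := by
      rcases hf0.lt_or_eq with h | h
      · exact h
      · rw [← h, zero_mul] at hτω
        linarith [mul_pos hτp hωp']
    have h43 : 4 / 3 * (f + 2 * v) ≤ ω := by linarith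
    have hf43 : 4 / 3 * τ ≤ f := by
      have h1 : τ * (4 / 3 * (f + 2 * v)) ≤ τ * ω := mul_le_mul_of_nonneg_left h43 hτ0
      have h2 : (4 / 3 * τ) * (f + 2 * v) ≤ f * (f + 2 * v) := by linarith
      exact le_of_mul_le_mul_right h2 hsum
    rw [← good_iff g]
    have hmem : ∀ i : ℕ, F.2 (Sum.inr (N + i)) = 0 := fun i => inr_zero H S (Nat.le_add_right _ _)
    have hv' : ∀ j, j ≠ s → 0 ≤ phi F c z (g.e.symm (EE j)) ∧
        phi F c z (g.e.symm (EE j)) ≤ phi F c z F := by
      intro j hj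
      by_cases hj0 : F.2 j = 0
      · have := tail_val (c := c) H hσ S z0 z1 hj0
        exact ⟨this.1, this.2.trans (by linarith)⟩
      · exact hS1 j (Finset.mem_erase.mpr ⟨hj, Finsupp.mem_support_iff.mpr hj0⟩)
    have hK0c : (K0 : ℝ) * τ ≤ r := by linarith [mul_nonneg hn0 hτ0]
    have hval : ∀ i < K0, phi F c z (g.e.symm (EE (Sum.inr (N + i)))) = τ := by
      intro i hi
      rw [symm_EE H (hmem i), phi_inr, S.tail z z0 z1]
      apply wt_const i _ _ hτ0
      have h1 : (i : ℝ) + 1 ≤ K0 := by exact_mod_cast hi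
      have h2 : ((i : ℝ) + 1) * τ ≤ K0 * τ := mul_le_mul_of_nonneg_right h1 hτ0
      have h3 : r ≤ ω := by linarith
      exact h2.trans (hK0c.trans h3)
    set μ : ℝ := 1 / ((k : ℝ) + 1) with hμ
    have hμ0 : 0 < μ := by rw [hμ]; positivity
    have hμ4 : μ ≤ 1 / 4 := by
      rw [hμ]
      apply one_div_le_one_div_of_le (by norm_num)
      linarith
    have hμk : μ * k ≤ 1 := by
      rw [hμ, one_div, inv_mul_le_iff₀ (by positivity)]; linarith
    have hinj : Function.Injective (fun i : ℕ => (Sum.inr (N + i) : II)) := by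
      intro a b hab
      have := Sum.inr.inj hab
      omega
    apply fib' _ s (μ := μ) (K := (range K0).map ⟨fun i : ℕ => (Sum.inr (N + i) : II), hinj⟩)
    · rw [psi_LLs H]; exact hfp
    · intro j hj
      exact (hv' j hj).1
    · intro j hj
      rw [psi_LLs H]
      exact (hv' j hj).2
    · intro T hT
      rw [psi_LLs H]
      have e1 : ∑ j ∈ T, ((phi F c z).comp g.e.symm.toAddMonoidHom) (EE j) ^ 2 =
          ∑ j ∈ T, phi F c z (g.e.symm (EE j)) ^ 2 := rfl
      have e2 : ((phi F c z).comp g.e.symm.toAddMonoidHom) (EE s) =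
          phi F c z (g.e.symm (EE s)) := rfl
      rw [e1, e2]
      have h1 := sq_le (c := c) H hσ S z0 z1 T hT
      have h2 : 0 ≤ c ^ 2 * (k ^ 2 * p * q) - z := by linarith
      calc ∑ j ∈ T, phi F c z (g.e.symm (EE j)) ^ 2
          ≤ ∑ j ∈ F.2.support.erase s, phi F c z (g.e.symm (EE j)) ^ 2 + τ * ω := h1
        _ ≤ f * (f + 2 * v) := by rw [hid]; linarith
        _ = 2 * v * f + f ^ 2 := by ring
    · exact hμ0
    · rw [Finset.mem_map]
      rintro ⟨i, _, hi⟩
      have hi' : (Sum.inr (N + i) : II) = s := hi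
      exact Fs_ne H (by rw [← hi']; exact hmem i)
    · rw [Finset.card_map, Finset.card_range, hK0, hμ]
      push_cast
      have : (0 : ℝ) < (k : ℝ) + 1 := by positivity
      apply le_of_eq
      field_simp
    · intro j hj
      rw [Finset.mem_map] at hj
      obtain ⟨i, hi, rfl⟩ := hj
      rw [psi_LLs H]
      show μ * f ≤ phi F c z (g.e.symm (EE (Sum.inr (N + i))))
      rw [hval i (Finset.mem_range.mp hi)]
      have h1 : μ * f ≤ μ * (k * τ) := mul_le_mul_of_nonneg_left hcase.le hμ0.le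
      have h2 : μ * (k * τ) = (μ * k) * τ := by ring
      have h3 : (μ * k) * τ ≤ 1 * τ := mul_le_mul_of_nonneg_right hμk hτ0
      linarith
    · intro j hj
      rw [Finset.mem_map] at hj
      obtain ⟨i, hi, rfl⟩ := hj
      rw [psi_LLs H]
      show phi F c z (g.e.symm (EE (Sum.inr (N + i)))) ≤ (1 - μ) * f
      rw [hval i (Finset.mem_range.mp hi)]
      linarith [mul_le_mul_of_nonneg_right hμ4 hf0]
end Fibr

end Pool.Agent.Stair
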