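import Pool.Agent.Lib.MP_f690a7_gt.Crem
import Pool.Agent.Lib.MP_f690a7_gt.Bdi
import Pool.Agent.Lib.MP_f690a7_gt.Eu

/-!
PACK: packings and functionals, the embedding function, the volume bound and the dichotomy.
-/

namespace Pool.Agent.Stair

open Finset

section Pk
variable {b : ℝ} {β : ℕ → ℝ}

namespace Pack

/-- the domain part of the functional -/
noncomputable def XX (b : ℝ) (β : ℕ → ℝ) : Lat II →+ ℝ := vec b (Sum.elim β (fun _ => 0))

/-- the ellipsoid part of the functional -/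
noncomputable def WW (z : ℝ) : Lat II →+ ℝ := vec 0 (Sum.elim (fun _ => 0) (fun n => wt 1 z n))

theorem supp_split (A : Lat II) : A.2.support ⊆ A.2.support.toLeft.disjSum A.2.support.toRight := by
  rw [Finset.toLeft_disjSum_toRight]

theorem XX_eq (b : ℝ) (β : ℕ → ℝ) (A : Lat II) :
    XX b β A = b * A.1 - ∑ i ∈ A.2.support.toLeft, β i * A.2 (Sum.inl i) := by
  rw [XX, vec_eq_sum _ _ A _ (supp_split A), Finset.sum_disjSum]
  simp

theorem WW_eq (z : ℝ) (A : Lat II) :
    WW z A = - ∑ n ∈ A.2.support.toRight, wt 1 z n * A.2 (Sum.inr n) := by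
  rw [WW, vec_eq_sum _ _ A _ (supp_split A), Finset.sum_disjSum]
  simp

theorem uu_split (c z : ℝ) (A : Lat II) : uu b β c z A = c * XX b β A + WW z A := by
  rw [XX_eq, WW_eq, uu, vec_eq_sum _ _ A _ (supp_split A), Finset.sum_disjSum]
  simp only [Sum.elim_inl, Sum.elim_inr]
  have : ∑ i ∈ A.2.support.toLeft, c * β i * (A.2 (Sum.inl i) : ℝ) =
      c * ∑ i ∈ A.2.support.toLeft, β i * A.2 (Sum.inl i) := by
    rw [Finset.mul_sum]; apply Finset.sum_congr rfl; intro i _; ring
  rw [this]; ring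

theorem res_inl (A : Lat II) (i : ℕ) : (res A).2 (Sum.inl i) = A.2 (Sum.inl i) := by
  simp [res]

theorem res_inr (A : Lat II) (n : ℕ) : (res A).2 (Sum.inr n) = 0 := by
  simp [res]

theorem idx_split (A : Lat II) : idx A = A.1 ^ 2 + 3 * A.1 -
    (∑ i ∈ A.2.support.toLeft, (A.2 (Sum.inl i) ^ 2 + A.2 (Sum.inl i)) +
      ∑ n ∈ A.2.support.toRight, (A.2 (Sum.inr n) ^ 2 + A.2 (Sum.inr n))) := by
  rw [idx_eq_sum A _ (supp_split A), Finset.sum_disjSum]

theorem sq_add_nonneg (m : ℤ) : 0 ≤ m ^ 2 + m := by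
  rcases le_or_gt 0 m with h | h
  · positivity
  · nlinarith

theorem eff_res {A : Lat II} (h : Eff A) : Eff (res A) := by
  classical
  refine ⟨h.1, ?_⟩
  have h2 := h.2
  rw [idx_split] at h2
  have hs : (res A).2.support ⊆ A.2.support.toLeft.disjSum A.2.support.toRight := by
    refine Finset.Subset.trans ?_ (supp_split A)
    intro i hi
    rcases i with i | n
    · rw [Finsupp.mem_support_iff, res_inl] at hi
      exact Finsupp.mem_support_iff.mpr hi
    · rw [Finsupp.mem_support_iff, res_inr] at hi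
      exact absurd rfl hi
  rw [idx_eq_sum _ _ hs, Finset.sum_disjSum]
  simp only [res_inl, res_inr]
  have h3 : 0 ≤ ∑ n ∈ A.2.support.toRight, (A.2 (Sum.inr n) ^ 2 + A.2 (Sum.inr n)) :=
    Finset.sum_nonneg fun n _ => sq_add_nonneg _
  have h4 : (res A).1 = A.1 := rfl
  rw [h4]
  simp only [ne_eq, OfNat.ofNat_ne_zero, not_false_eq_true, zero_pow, add_zero,
    Finset.sum_const_zero]
  linarith

theorem XX_res (A : Lat II) : XX b β (res A) = XX b β A := by
  have hs : (res A).2.support ⊆ A.2.support.toLeft.disjSum A.2.support.toRight := by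
    refine Finset.Subset.trans ?_ (supp_split A)
    intro i hi
    rcases i with i | n
    · rw [Finsupp.mem_support_iff, res_inl] at hi
      exact Finsupp.mem_support_iff.mpr hi
    · rw [Finsupp.mem_support_iff, res_inr] at hi
      exact absurd rfl hi
  rw [XX_eq b β A, XX, vec_eq_sum _ _ _ _ hs, Finset.sum_disjSum]
  simp only [res_inl, Sum.elim_inl, Sum.elim_inr, zero_mul, Finset.sum_const_zero, add_zero]
  rfl

theorem WW_res (z : ℝ) (A : Lat II) : WW z (res A) = 0 := by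
  rw [WW_eq]
  simp [res_inr]

theorem XX_nonneg {c z : ℝ} (hc : 0 < c) (h : Good (uu b β c z)) {A : Lat II} (hA : Eff A) :
    0 ≤ XX b β A := by
  have h1 := h (res A) (eff_res hA)
  rw [uu_split, XX_res, WW_res, add_zero] at h1
  exact nonneg_of_mul_nonneg_right h1 hc

theorem elim_nonneg (D : Dat b β) {c z : ℝ} (hc : 0 ≤ c) (hz : 0 ≤ z) (i : II) :
    0 ≤ (Sum.elim (fun i => c * β i) (fun n => wt 1 z n) : II → ℝ) i := by
  rcases i with i | n
  · exact mul_nonneg hc (D.hβ i)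
  · exact wt_nonneg zero_le_one hz n

theorem beta_sq_summable (D : Dat b β) : Summable (fun i => β i ^ 2) := by
  have h1 : ∀ i, β i ≤ ∑' j, β j := fun i => D.hs.le_tsum i (fun j _ => D.hβ j)
  refine Summable.of_nonneg_of_le (fun i => sq_nonneg _) (fun i => ?_)
    (D.hs.mul_left (∑' j, β j))
  rw [sq]
  exact mul_le_mul_of_nonneg_right (h1 i) (D.hβ i)

end Pack

open Pack

theorem packs_iff {κ : Type} (v0 : ℝ) (v : κ → ℝ) (hv : ∀ i, 0 ≤ v i) :
    Packs v0 v ↔ Good (vec v0 v) := by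
  constructor
  · intro h
    apply good_of_nonneg v0 v hv
    intro A hA hm
    have h1 := h A.1.toNat (A.2.mapRange Int.toNat (by simp)) ?_
    · rw [Finsupp.sum_mapRange_index (by intro a; simp)] at h1
      have h2 : ((A.1.toNat : ℕ) : ℝ) = (A.1 : ℝ) := by
        have : ((A.1.toNat : ℕ) : ℤ) = A.1 := Int.toNat_of_nonneg hA.1
        exact_mod_cast this
      rw [h2] at h1
      have h3 : (A.2.sum fun i k => v i * ((k.toNat : ℕ) : ℝ)) = A.2.sum fun i k => v i * (k : ℝ) := by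
        apply Finsupp.sum_congr
        intro i _
        have : (((A.2 i).toNat : ℕ) : ℤ) = A.2 i := Int.toNat_of_nonneg (hm i)
        congr 1
        exact_mod_cast this
      rw [h3] at h1
      have h4 : vec v0 v A = v0 * A.1 - A.2.sum (fun i k => v i * k) := rfl
      rw [h4]; linarith
    · rw [Finsupp.sum_mapRange_index (by intro a; simp)]
      have h2 := hA.2
      rw [idx_eq_sum A _ (le_refl _)] at h2
      have h3 : ((A.2.sum fun i k => k.toNat ^ 2 + k.toNat : ℕ) : ℤ) =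
          ∑ i ∈ A.2.support, (A.2 i ^ 2 + A.2 i) := by
        rw [Finsupp.sum]
        push_cast
        apply Finset.sum_congr rfl
        intro i _
        rw [Int.toNat_of_nonneg (hm i)]
      have h4 : ((A.1.toNat ^ 2 + 3 * A.1.toNat : ℕ) : ℤ) = A.1 ^ 2 + 3 * A.1 := by
        push_cast
        rw [Int.toNat_of_nonneg hA.1]
      have : ((A.2.sum fun i k => k.toNat ^ 2 + k.toNat : ℕ) : ℤ) ≤
          ((A.1.toNat ^ 2 + 3 * A.1.toNat : ℕ) : ℤ) := by
        rw [h3, h4]; linarith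
      exact_mod_cast this
  · intro h d m hm
    let A : Lat κ := ((d : ℤ), m.mapRange (fun k : ℕ => (k : ℤ)) (by simp))
    have hA : Eff A := by
      refine ⟨Int.natCast_nonneg d, ?_⟩
      have : idx A = (d : ℤ) ^ 2 + 3 * (d : ℤ) - ((m.sum fun _ k => k ^ 2 + k : ℕ) : ℤ) := by
        rw [idx_eq_sum A m.support (by
          intro i hi
          rw [Finsupp.mem_support_iff] at hi ⊢
          intro h0
          apply hi
          simp [A, h0])]
        rw [Finsupp.sum]
        push_cast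
        congr 1
      rw [this]
      have : ((m.sum fun _ k => k ^ 2 + k : ℕ) : ℤ) ≤ ((d ^ 2 + 3 * d : ℕ) : ℤ) := by
        exact_mod_cast hm
      push_cast at this
      push_cast
      linarith
    have h1 := h A hA
    have h4 : vec v0 v A = v0 * (d : ℝ) - m.sum (fun i k => v i * (k : ℝ)) := by
      have : vec v0 v A = v0 * ((d : ℤ) : ℝ) -
        (m.mapRange (fun k : ℕ => (k : ℤ)) (by simp)).sum (fun i k => v i * (k : ℝ)) := rfl
      rw [this, Finsupp.sum_mapRange_index (by intro a; simp)]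
      simp
    rw [h4] at h1
    linarith

theorem cfun_eq (D : Dat b β) {z : ℝ} (hz : 1 ≤ z) :
    cfun b β z = sInf {c : ℝ | 0 < c ∧ Good (uu b β c z)} := by
  rw [cfun]
  congr 1
  ext c
  simp only [Set.mem_ofPred_eq]
  constructor
  · rintro ⟨hc, h⟩
    refine ⟨hc, ?_⟩
    rw [uu]
    exact (packs_iff _ _ (elim_nonneg D hc.le (by linarith))).mp h
  · rintro ⟨hc, h⟩
    refine ⟨hc, ?_⟩
    rw [uu] at h
    exact (packs_iff _ _ (elim_nonneg D hc.le (by linarith))).mpr h

theorem uu_mono {c c' z : ℝ} (hc : 0 < c) (h : Good (uu b β c z)) (hcc : c ≤ c') :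
    Good (uu b β c' z) := by
  intro A hA
  have h1 := h A hA
  have h2 := XX_nonneg hc h hA
  rw [uu_split] at h1 ⊢
  nlinarith

theorem VV_le (D : Dat b β) {c z : ℝ} (hz : 1 ≤ z) (hc : 0 < c) (h : Good (uu b β c z)) :
    VV b β z ≤ c := by
  have h0 : (0 : ℝ) ≤ z := by linarith
  have h1 : ∀ S1 S2 : Finset ℕ, ∑ i ∈ S1, (c ^ 2 * β i ^ 2) + ∑ n ∈ S2, wt 1 z n ^ 2 ≤
      (c * b) ^ 2 := by
    intro S1 S2
    have := vol_of_good _ _ h (S1.disjSum S2)
    rw [Finset.sum_disjSum] at this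
    simp only [Sum.elim_inl, Sum.elim_inr] at this
    have h2 : ∑ i ∈ S1, (c * β i) ^ 2 = ∑ i ∈ S1, (c ^ 2 * β i ^ 2) := by
      apply Finset.sum_congr rfl; intro i _; ring
    rw [h2] at this
    exact this
  have hs := (beta_sq_summable D).mul_left (c ^ 2)
  have h2 : ∀ S1 : Finset ℕ, ∑ i ∈ S1, (c ^ 2 * β i ^ 2) + 1 * z ≤ (c * b) ^ 2 := by
    intro S1
    rw [← tsum_wt_sq zero_le_one h0]
    have : ∑' n, wt 1 z n ^ 2 ≤ (c * b) ^ 2 - ∑ i ∈ S1, (c ^ 2 * β i ^ 2) := by
      apply (summable_wt_sq zero_le_one h0).tsum_le_of_sum_le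
      intro S2
      have := h1 S1 S2
      linarith
    linarith
  have h3 : ∑' i, (c ^ 2 * β i ^ 2) ≤ (c * b) ^ 2 - 1 * z := by
    apply hs.tsum_le_of_sum_le
    intro S1
    have := h2 S1
    linarith
  rw [tsum_mul_left] at h3
  have h4 : z ≤ c ^ 2 * Vol b β := by
    rw [Vol]; nlinarith
  rw [VV]
  apply Real.sqrt_le_iff.mpr
  refine ⟨hc.le, ?_⟩
  rw [div_le_iff₀ D.hV]
  exact h4

theorem good_cfun (D : Dat b β) {z : ℝ} (hz : 1 ≤ z) (hne : ∃ c, 0 < c ∧ Good (uu b β c z)) :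
    0 < cfun b β z ∧ VV b β z ≤ cfun b β z ∧ Good (uu b β (cfun b β z) z) := by
  rw [cfun_eq D hz]
  set S := {c : ℝ | 0 < c ∧ Good (uu b β c z)} with hS
  have hSne : S.Nonempty := hne
  have hV : VV b β z ≤ sInf S := le_csInf hSne (fun c hc => VV_le D hz hc.1 hc.2)
  have hVp : 0 < VV b β z := by
    rw [VV]
    apply Real.sqrt_pos.mpr
    exact div_pos (by linarith) D.hV
  have hpos : 0 < sInf S := lt_of_lt_of_le hVp hV
  refine ⟨hpos, hV, ?_⟩
  intro A hA
  by_contra hcon
  push Not at hcon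
  rw [uu_split] at hcon
  obtain ⟨c0, hc0, hG0⟩ := hne
  have hX := XX_nonneg hc0 hG0 hA
  rcases hX.eq_or_lt with hX | hX
  · have := hG0 A hA
    rw [uu_split, ← hX] at this
    rw [← hX] at hcon
    linarith
  · have h1 : sInf S < -WW z A / XX b β A := by
      rw [lt_div_iff₀ hX]; linarith
    obtain ⟨c, hc, hlt⟩ := exists_lt_of_csInf_lt hSne h1
    have := hc.2 A hA
    rw [uu_split] at this
    rw [lt_div_iff₀ hX] at hlt
    linarith

/-- if some ellipsoid fits, all do -/
theorem dich (D : Dat b β) {z z' : ℝ} (hz : 1 ≤ z) (hz' : 1 ≤ z')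
    (h : ∃ c, 0 < c ∧ Good (uu b β c z)) : ∃ c, 0 < c ∧ Good (uu b β c z') := by
  classical
  obtain ⟨c0, hc0, hG0⟩ := h
  have hz0 : (0 : ℝ) ≤ z' := by linarith
  set V := Vol b β with hVdef
  have hV : 0 < V := D.hV
  set DD := 6 * b ^ 2 / V with hDD
  have hDD0 : 0 ≤ DD := by positivity
  set c := 1 + 2 * z' / V + c0 * (DD ^ 2 + 3 * DD) with hc
  have hc1 : 1 ≤ c := by
    have h1 : 0 ≤ 2 * z' / V := by positivity
    have h2 : 0 ≤ c0 * (DD ^ 2 + 3 * DD) := by positivity
    linarith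
  have hcz : 2 * z' / V ≤ c := by
    have h2 : 0 ≤ c0 * (DD ^ 2 + 3 * DD) := by positivity
    linarith
  have hcD : c0 * (DD ^ 2 + 3 * DD) ≤ c := by
    have h1 : 0 ≤ 2 * z' / V := by positivity
    linarith
  have hc2 : 2 * z' ≤ c ^ 2 * V := by
    have h1 : 2 * z' ≤ c * V := by
      rw [div_le_iff₀ hV] at hcz; exact hcz
    have h2 : c * V ≤ c ^ 2 * V := by
      apply mul_le_mul_of_nonneg_right _ hV.le
      nlinarith
    linarith
  have hcpos : 0 < c := by linarith
  refine ⟨c, hcpos, ?_⟩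
  apply good_of_nonneg _ _ (elim_nonneg D hcpos.le hz0)
  intro A hA hm
  by_contra hcon
  push Not at hcon
  have hcon' : uu b β c z' A < 0 := hcon
  -- degree bound
  have hd : (A.1 : ℝ) ≤ DD := by
    have hv0 : 0 < c * b := mul_pos hcpos D.hb
    have hQ : ∀ S : Finset II, ∑ i ∈ S, (Sum.elim (fun i => c * β i) (fun n => wt 1 z' n) : II → ℝ) i ^ 2
        ≤ (c * b) ^ 2 - (c ^ 2 * V - z') := by
      intro S
      rw [← Finset.toLeft_disjSum_toRight (u := S), Finset.sum_disjSum]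
      simp only [Sum.elim_inl, Sum.elim_inr]
      have h1 : ∑ i ∈ S.toLeft, (c * β i) ^ 2 ≤ c ^ 2 * ∑' i, β i ^ 2 := by
        have : ∑ i ∈ S.toLeft, (c * β i) ^ 2 = c ^ 2 * ∑ i ∈ S.toLeft, β i ^ 2 := by
          rw [Finset.mul_sum]; apply Finset.sum_congr rfl; intro i _; ring
        rw [this]
        apply mul_le_mul_of_nonneg_left _ (sq_nonneg c)
        exact (beta_sq_summable D).sum_le_tsum _ (fun i _ => sq_nonneg _)
      have h2 : ∑ n ∈ S.toRight, wt 1 z' n ^ 2 ≤ 1 * z' := by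
        rw [← tsum_wt_sq zero_le_one hz0]
        exact (summable_wt_sq zero_le_one hz0).sum_le_tsum _ (fun i _ => sq_nonneg _)
      rw [hVdef, Vol]
      nlinarith
    have h1 := bdi (c * b) _ hv0 (elim_nonneg D hcpos.le hz0) (c ^ 2 * V - z') hQ ∅ A hA hm hcon
    simp only [Finset.sum_empty, sub_zero, Finset.card_empty, Nat.cast_zero, zero_div] at h1
    have hd0 : (0 : ℝ) ≤ (A.1 : ℝ) := by exact_mod_cast hA.1
    rcases hd0.eq_or_lt with hd0 | hd0
    · rw [← hd0]; exact hDD0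
    · have hl : 0 < (A.1 : ℝ) / (c * b) := div_pos hd0 hv0
      have h2 : (A.1 : ℝ) / (c * b) * (c ^ 2 * V - z') ≤ 3 * (c * b) := by
        by_contra hh
        push Not at hh
        have := mul_lt_mul_of_pos_left hh hl
        nlinarith
      have h3 : (A.1 : ℝ) / (c * b) * (c ^ 2 * V / 2) ≤ 3 * (c * b) := by
        refine le_trans (mul_le_mul_of_nonneg_left ?_ hl.le) h2
        linarith
      rw [hDD, le_div_iff₀ hV]
      have h4 : (A.1 : ℝ) / (c * b) * (c ^ 2 * V / 2) = (A.1 : ℝ) * V * c / (2 * b) := by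
        field_simp
      rw [h4, div_le_iff₀ (by have := D.hb; linarith)] at h3
      have h5 : c * ((A.1 : ℝ) * V) ≤ c * (6 * b ^ 2) := by nlinarith
      exact le_of_mul_le_mul_left h5 hcpos
  rw [uu_split] at hcon'
  have hX0 := XX_nonneg hc0 hG0 hA
  by_cases hn : ∀ n, A.2 (Sum.inr n) = 0
  · have : WW z' A = 0 := by
      rw [WW_eq]; simp [hn]
    rw [this] at hcon'
    nlinarith
  · push Not at hn
    obtain ⟨n0, hn0⟩ := hn
    have hn0' : n0 ∈ A.2.support.toRight := by
      rw [Finset.mem_toRight, Finsupp.mem_support_iff]; exact hn0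
    have hsum : (2 : ℤ) ≤ ∑ n ∈ A.2.support.toRight, (A.2 (Sum.inr n) ^ 2 + A.2 (Sum.inr n)) := by
      refine le_trans ?_ (Finset.single_le_sum (f := fun n => A.2 (Sum.inr n) ^ 2 + A.2 (Sum.inr n))
        (fun n _ => sq_add_nonneg _) hn0')
      have : 1 ≤ A.2 (Sum.inr n0) := by
        have := hm (Sum.inr n0)
        omega
      nlinarith
    -- the class with one ellipsoid entry
    let A' : Lat II := (A.1, (res A).2 + Finsupp.single (Sum.inr 0) 1)
    have hA'l : ∀ i, A'.2 (Sum.inl i) = A.2 (Sum.inl i) := by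
      intro i; simp [A', res_inl]
    have hA'0 : A'.2 (Sum.inr 0) = 1 := by simp [A', res_inr]
    have hA'r : ∀ n, n ≠ 0 → A'.2 (Sum.inr n) = 0 := by
      intro n hn
      simp only [A', Finsupp.add_apply, res_inr, zero_add]
      rw [Finsupp.single_apply, if_neg]
      intro h; exact hn (Sum.inr_injective h).symm
    have hsupp : A'.2.support ⊆ A.2.support.toLeft.disjSum {0} := by
      intro i hi
      rw [Finsupp.mem_support_iff] at hi
      rcases i with i | n
      · rw [hA'l] at hi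
        rw [Finset.inl_mem_disjSum, Finset.mem_toLeft, Finsupp.mem_support_iff]; exact hi
      · rw [Finset.inr_mem_disjSum, Finset.mem_singleton]
        by_contra hne
        exact hi (hA'r n hne)
    have hA' : Eff A' := by
      refine ⟨hA.1, ?_⟩
      have h2 := hA.2
      rw [idx_split] at h2
      rw [idx_eq_sum _ _ hsupp, Finset.sum_disjSum]
      simp only [hA'l, Finset.sum_singleton, hA'0]
      have : A'.1 = A.1 := rfl
      rw [this]
      linarith
    have h1 := hG0 A' hA'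
    have hX' : XX b β A' = XX b β A := by
      rw [XX_eq b β A, XX, vec_eq_sum _ _ _ _ hsupp, Finset.sum_disjSum]
      simp only [hA'l, Sum.elim_inl, Sum.elim_inr, zero_mul, Finset.sum_const_zero, add_zero]
      rfl
    have hW' : WW z A' = -1 := by
      rw [WW, vec_eq_sum _ _ _ _ hsupp, Finset.sum_disjSum]
      simp only [Sum.elim_inl, Sum.elim_inr, zero_mul, Finset.sum_const_zero, Finset.sum_singleton,
        hA'0, wt_zero, min_eq_left hz]
      norm_num
    rw [uu_split, hX', hW'] at h1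
    have hX1 : 1 ≤ c0 * XX b β A := by linarith
    -- the ellipsoid part is bounded
    have hW : -(DD ^ 2 + 3 * DD) ≤ WW z' A := by
      rw [WW_eq]
      have h2 : ∑ n ∈ A.2.support.toRight, wt 1 z' n * (A.2 (Sum.inr n) : ℝ) ≤
          ∑ n ∈ A.2.support.toRight, ((A.2 (Sum.inr n) ^ 2 + A.2 (Sum.inr n) : ℤ) : ℝ) := by
        apply Finset.sum_le_sum
        intro n _
        have hw : wt 1 z' n ≤ 1 := by
          refine le_trans (wt_anti zero_le_one hz0 (Nat.zero_le n)) ?_
          rw [wt_zero]; exact min_le_left _ _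
        have hmn : (0 : ℝ) ≤ (A.2 (Sum.inr n) : ℝ) := by exact_mod_cast hm _
        push_cast
        nlinarith [sq_nonneg ((A.2 (Sum.inr n) : ℝ))]
      have h3 : ∑ n ∈ A.2.support.toRight, ((A.2 (Sum.inr n) ^ 2 + A.2 (Sum.inr n) : ℤ) : ℝ) ≤
          ((A.1 ^ 2 + 3 * A.1 : ℤ) : ℝ) := by
        have h4 := hA.2
        rw [idx_split] at h4
        have h5 : 0 ≤ ∑ i ∈ A.2.support.toLeft, (A.2 (Sum.inl i) ^ 2 + A.2 (Sum.inl i)) :=
          Finset.sum_nonneg fun n _ => sq_add_nonneg _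
        have h6 : ∑ n ∈ A.2.support.toRight, (A.2 (Sum.inr n) ^ 2 + A.2 (Sum.inr n)) ≤
            A.1 ^ 2 + 3 * A.1 := by linarith
        exact_mod_cast h6
      have hd0 : (0 : ℝ) ≤ (A.1 : ℝ) := by exact_mod_cast hA.1
      have h4 : ((A.1 ^ 2 + 3 * A.1 : ℤ) : ℝ) ≤ DD ^ 2 + 3 * DD := by
        push_cast
        nlinarith
      linarith
    have h7 : c0 * (DD ^ 2 + 3 * DD) * XX b β A ≤ c * XX b β A :=
      mul_le_mul_of_nonneg_right hcD hX0
    have h8 : (DD ^ 2 + 3 * DD) ≤ c0 * (DD ^ 2 + 3 * DD) * XX b β A := by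
      have : (DD ^ 2 + 3 * DD) * 1 ≤ (DD ^ 2 + 3 * DD) * (c0 * XX b β A) :=
        mul_le_mul_of_nonneg_left hX1 (by positivity)
      linarith [this]
    linarith

end Pk

end Pool.Agent.Stair
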