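import Pool.Agent.Lib.MP_f690a7_gt.Alg
import Pool.Agent.Lib.MP_f690a7_gt.Eu
import Pool.Agent.Lib.MP_f690a7_gt.Pack
import Pool.Agent.Lib.MP_f690a7_gt.Cbd
import Pool.Agent.Lib.MP_f690a7_gt.Bd1
import Pool.Agent.Lib.MP_f690a7_gt.Bd0
import Pool.Agent.Lib.MP_f690a7_gt.K13
import Pool.Agent.Lib.MP_f690a7_gt.Bad
import Pool.Agent.Lib.MP_f690a7_gt.Goods
import Pool.Agent.Lib.MP_f690a7_gt.Cof

/-!
All non exceptional points have the local structure `Core`.
-/

namespace Pool.Agent.Stair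

variable {b : ℝ} {β : ℕ → ℝ}

namespace Cases

/-- rational numbers `≥ 1` as reduced fractions -/
theorem exists_frac {z : ℝ} (hz : 1 ≤ z) (h : ¬ Irrational z) :
    ∃ p q : ℕ, 0 < q ∧ q ≤ p ∧ Nat.Coprime p q ∧ z = (p : ℝ) / q := by
  rw [Irrational, not_not] at h
  obtain ⟨r, rfl⟩ := h
  have hr : (1 : ℚ) ≤ r := by exact_mod_cast hz
  have hnum : 0 ≤ r.num := by
    have : 0 < r := lt_of_lt_of_le one_pos hr
    exact (Rat.num_pos.mpr this).le
  have e : (r.num.toNat : ℤ) = r.num := Int.toNat_of_nonneg hnum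
  have hden : 0 < r.den := r.den_pos
  have hval : (r : ℝ) = (r.num.toNat : ℝ) / r.den := by
    have h1 : (r : ℝ) = (r.num : ℝ) / (r.den : ℝ) := by
      exact_mod_cast congrArg (fun x : ℚ => (x : ℝ)) (Rat.num_div_den r).symm
    rw [h1]
    congr 1
    have : ((r.num.toNat : ℤ) : ℝ) = (r.num : ℝ) := by rw [e]
    rw [← this]
    norm_cast
  refine ⟨r.num.toNat, r.den, hden, ?_, ?_, hval⟩
  · have h2 : (1 : ℝ) ≤ (r.num.toNat : ℝ) / r.den := by
      rw [← hval]
      exact_mod_cast hr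
    have h3 : (0 : ℝ) < r.den := by exact_mod_cast hden
    rw [le_div_iff₀ h3, one_mul] at h2
    exact_mod_cast h2
  · have h4 := r.reduced
    have h5 : r.num.natAbs = r.num.toNat := by omega
    rwa [h5] at h4

theorem lt_of_frac {p q : ℕ} (hq : 0 < q) (h : 1 < (p : ℝ) / q) : q < p := by
  have h3 : (0 : ℝ) < q := by exact_mod_cast hq
  rw [lt_div_iff₀ h3, one_mul] at h
  exact_mod_cast h

end Cases

theorem core_all (D : Dat b β) (hne : ∀ z, 1 ≤ z → ∃ c, 0 < c ∧ Good (uu b β c z)) {z0 σ : ℝ}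
    (hz0 : 1 ≤ z0) (hσ : σ = 1 ∨ (σ = -1 ∧ 1 < z0))
    (hexc : ¬ (Irrational z0 ∧ VV b β z0 = cfun b β z0 ∧ VV b β z0 * Per b β = 1 + z0)) :
    Core b β z0 σ := by
  have hσ' : σ = 1 ∨ σ = -1 := hσ.imp_right fun h => h.1
  obtain ⟨-, hle, hG⟩ := good_cfun D hz0 (hne z0 hz0)
  rcases lt_or_eq_of_le hle with hlt | heq
  · exact core_of_bd D hz0 hσ' (bd_gt D hz0 hσ' hlt)
  · have hG' : Good (uu b β (VV b β z0) z0) := by rw [heq]; exact hG
    rcases lt_trichotomy (VV b β z0 * Per b β) (∑' n, wt 1 z0 n) with h | h | h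
    · exact core_of_bd D hz0 hσ' (bd_neg D hz0 hσ' heq h)
    · by_cases hirr : Irrational z0
      · exact absurd ⟨hirr, heq, h.trans (tsum_wt_irr hirr hz0).1⟩ hexc
      · obtain ⟨p, q, hq, hpq, cop, rfl⟩ := Cases.exists_frac hz0 hirr
        have hσq : σ = 1 ∨ (σ = -1 ∧ q < p) :=
          hσ.imp_right fun h => ⟨h.1, Cases.lt_of_frac hq h.2⟩
        exact core_of_bd D hz0 hσ' (bd_zero D hq hpq cop hσq heq hG' h)
    · obtain ⟨F, g, s, p, q, k, H, hz, hb, hβ⟩ := exists_Fdat D hz0 hG' h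
      subst hz
      have hσq : σ = 1 ∨ (σ = -1 ∧ q < p) :=
        hσ.imp_right fun h => ⟨h.1, Cases.lt_of_frac H.hq h.2⟩
      apply core_of_coreF D H heq hb hβ hσ'
      have hk := H.hk
      rcases Nat.lt_or_ge k 3 with hk3 | hk3
      · rcases Nat.lt_or_ge k 2 with hk2 | hk2
        · obtain rfl : k = 1 := by omega
          exact core_k1 H σ hσq
        · obtain rfl : k = 2 := by omega
          by_cases hex : q = 1 ∧ σ = 1
          · obtain ⟨rfl, rfl⟩ := hex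
            exact core_good H
          · exact core_bad H σ hσq hex
      · exact core_k3 H hk3 σ hσq

end Pool.Agent.Stair
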