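import Mathlib

/-!
Definitions for the ball packing / ECH model of the ellipsoid embedding function.
Blueprint: /team-store/STAIR_blueprint.md.
Lattice classes (d; m) with d an integer and m finitely supported.
-/

namespace Pool.Agent.Stair

/-- Lattice classes `(d; m)`. -/
abbrev Lat (ι : Type) := ℤ × (ι →₀ ℤ)

variable {ι : Type}

/-- Intersection form `(d; m).(e; n) = d e - sum m_i n_i`. -/
def form (A B : Lat ι) : ℤ := A.1 * B.1 - A.2.sum (fun i k => k * B.2 i)

/-- Pairing with the anticanonical class, `3 d - sum m_i`. -/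
def kap (A : Lat ι) : ℤ := 3 * A.1 - A.2.sum (fun _ k => k)

/-- The index `A.A + kap A = d^2 + 3 d - sum (m_i^2 + m_i)`. -/
def idx (A : Lat ι) : ℤ := form A A + kap A

/-- The test cone. -/
def Eff (A : Lat ι) : Prop := 0 ≤ A.1 ∧ 0 ≤ idx A

/-- The line class. -/
def LL : Lat ι := (1, 0)

/-- The exceptional classes, coordinates `(0; .., -1, ..)`. -/
noncomputable def EE (i : ι) : Lat ι := (0, Finsupp.single i (-1))

/-- Real classes are functionals; good (nef) ones are nonnegative on the test cone. -/
def Good (φ : Lat ι →+ ℝ) : Prop := ∀ A, Eff A → 0 ≤ φ A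

/-- The functional of the real vector `(v0; v)`: `A ↦ v0 d - sum v_i m_i`. -/
noncomputable def vec (v0 : ℝ) (v : ι → ℝ) : Lat ι →+ ℝ where
  toFun A := v0 * A.1 - A.2.sum (fun i k => v i * k)
  map_zero' := by simp
  map_add' A B := by
    have : (A.2 + B.2).sum (fun i k => v i * (k : ℝ)) =
        A.2.sum (fun i k => v i * (k : ℝ)) + B.2.sum (fun i k => v i * (k : ℝ)) := by
      apply Finsupp.sum_add_index'
      · intro i; simp
      · intro i a b; push_cast; ring
    simp only [Prod.fst_add, Prod.snd_add, this]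
    push_cast
    ring

/-- Admissible automorphisms of the lattice. -/
structure Adm (ι : Type) where
  e : Lat ι ≃+ Lat ι
  form_e : ∀ A B, form (e A) (e B) = form A B
  kap_e : ∀ A, kap (e A) = kap A
  eff_e : ∀ A, Eff (e A) ↔ Eff A

/-- Euclidean states of the pair `(a, b)`. -/
noncomputable def eu (a b : ℝ) : ℕ → ℝ × ℝ
  | 0 => (a, b)
  | n + 1 =>
    if (eu a b n).1 ≤ (eu a b n).2 then ((eu a b n).1, (eu a b n).2 - (eu a b n).1)
    else ((eu a b n).1 - (eu a b n).2, (eu a b n).2)

/-- The weight expansion of the ellipsoid `E(a, b)`. -/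
noncomputable def wt (a b : ℝ) (n : ℕ) : ℝ := min (eu a b n).1 (eu a b n).2

/-- Integer Euclidean states. -/
def euN (a b : ℕ) : ℕ → ℕ × ℕ
  | 0 => (a, b)
  | n + 1 =>
    if (euN a b n).1 ≤ (euN a b n).2 then ((euN a b n).1, (euN a b n).2 - (euN a b n).1)
    else ((euN a b n).1 - (euN a b n).2, (euN a b n).2)

/-- Integer weights. -/
def wN (a b : ℕ) (n : ℕ) : ℕ := min (euN a b n).1 (euN a b n).2

/-- Index set: `inl` for the weights of the domain, `inr` for the weights of the ellipsoid. -/
abbrev II := ℕ ⊕ ℕ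

/-- Remove the ellipsoid part of a class. -/
noncomputable def res (A : Lat II) : Lat II :=
  (A.1, A.2.filter (fun i => i.isLeft = true))

/-- The functional `c X - w(z)` where `X` is the domain part of `F`. -/
noncomputable def phi (F : Lat II) (c z : ℝ) : Lat II →+ ℝ :=
  vec (c * F.1) (Sum.elim (fun i => c * F.2 (Sum.inl i)) (fun n => wt 1 z n))

end Pool.Agent.Stair
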