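import Pool.Agent.Lib.MP_f690a7_gt.Defs

/-!
Second group of definitions: the embedding function of a weight sequence.
-/

namespace Pool.Agent.Stair

/-- The balls of sizes `a i` pack the ball of size `B` (criterion for all index nonnegative classes). -/
def Packs {κ : Type} (B : ℝ) (a : κ → ℝ) : Prop :=
  ∀ (d : ℕ) (m : κ →₀ ℕ), (m.sum fun _ k => k ^ 2 + k) ≤ d ^ 2 + 3 * d →
    (m.sum fun i k => a i * (k : ℝ)) ≤ B * d

/-- The ellipsoid embedding function of the weights `(b; β)`. -/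
noncomputable def cfun {κ : Type} (b : ℝ) (β : κ → ℝ) (z : ℝ) : ℝ :=
  sInf {c : ℝ | 0 < c ∧ Packs (c * b) (Sum.elim (fun i => c * β i) (wt 1 z))}

/-- The functional of `c (b; β) - w(z)`. -/
noncomputable def uu (b : ℝ) (β : ℕ → ℝ) (c z : ℝ) : Lat II →+ ℝ :=
  vec (c * b) (Sum.elim (fun i => c * β i) (fun n => wt 1 z n))

/-- Volume of the weights. -/
noncomputable def Vol (b : ℝ) (β : ℕ → ℝ) : ℝ := b ^ 2 - ∑' i, β i ^ 2

/-- Affine perimeter of the weights. -/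
noncomputable def Per (b : ℝ) (β : ℕ → ℝ) : ℝ := 3 * b - ∑' i, β i

/-- The volume curve. -/
noncomputable def VV (b : ℝ) (β : ℕ → ℝ) (z : ℝ) : ℝ := √(z / Vol b β)

/-- Admissible weight data. -/
structure Dat (b : ℝ) (β : ℕ → ℝ) : Prop where
  hb : 0 < b
  hβ : ∀ i, 0 ≤ β i
  hs : Summable β
  hV : 0 < Vol b β

/-- Near `z0`, on the side `σ`, finitely many classes and the volume decide. -/
def Core (b : ℝ) (β : ℕ → ℝ) (z0 σ : ℝ) : Prop :=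
  ∃ (S : Finset (Lat II)) (ε : ℝ), 0 < ε ∧ (∀ A ∈ S, Eff A) ∧
    ∀ t c : ℝ, 0 ≤ t → t ≤ ε → 1 ≤ z0 + σ * t → |c - cfun b β z0| ≤ ε →
      VV b β (z0 + σ * t) ≤ c → (∀ A ∈ S, 0 ≤ uu b β c (z0 + σ * t) A) →
      Good (uu b β c (z0 + σ * t))

/-- The embedding function agrees with the volume curve or an affine function on the side `σ` of `z0`. -/
def Nice (b : ℝ) (β : ℕ → ℝ) (z0 σ : ℝ) : Prop :=
  ∃ ε : ℝ, 0 < ε ∧ ∃ F : ℝ → ℝ, (F = VV b β ∨ ∃ x y : ℝ, F = fun z => x + y * z) ∧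
    ∀ t : ℝ, 0 ≤ t → t ≤ ε → 1 ≤ z0 + σ * t → cfun b β (z0 + σ * t) = F (z0 + σ * t)

/-- Violated classes have bounded degree near `z0`, on the side `σ`. -/
def BD (b : ℝ) (β : ℕ → ℝ) (z0 σ : ℝ) : Prop :=
  ∃ (M : ℕ) (ε : ℝ), 0 < ε ∧ ∀ t c : ℝ, 0 ≤ t → t ≤ ε → 1 ≤ z0 + σ * t →
    |c - cfun b β z0| ≤ ε → VV b β (z0 + σ * t) ≤ c →
    ∀ A : Lat II, Eff A → (∀ i, 0 ≤ A.2 i) → uu b β c (z0 + σ * t) A < 0 → A.1 ≤ M

/-- Fibration data: `u(z0)` is a multiple of the integral isotropic class `F`. -/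
structure Fdat (F : Lat II) (g : Adm II) (s : II) (p q k : ℕ) : Prop where
  hF : g.e F = LL - EE s
  hq : 0 < q
  hpq : q ≤ p
  cop : Nat.Coprime p q
  hk : 0 < k
  hw : ∀ n, F.2 (Sum.inr n) = (k : ℤ) * (wN q p n : ℤ)
  hfix : ∀ j, F.2 j = 0 → g.e (EE j) = EE j
  hres : ∀ A, Eff A → 0 ≤ form F (res A)

/-- The analogue of `Core` for fibration data (`c` in units of `F`, centre `1/(qk)`). -/
def CoreF (F : Lat II) (p q k : ℕ) (σ : ℝ) : Prop :=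
  ∃ (S : Finset (Lat II)) (ε : ℝ), 0 < ε ∧ (∀ A ∈ S, Eff A) ∧
    ∀ t c : ℝ, 0 ≤ t → t ≤ ε → 1 ≤ (p : ℝ) / q + σ * t → |c - 1 / (q * k)| ≤ ε → 0 < c →
      (p : ℝ) / q + σ * t ≤ c ^ 2 * (k ^ 2 * p * q) →
      (∀ A ∈ S, 0 ≤ phi F c ((p : ℝ) / q + σ * t) A) →
      Good (phi F c ((p : ℝ) / q + σ * t))

/-- The index of an elementary pillow class. -/
def PGood {ι : Type} (α β : ℝ) (v : ι → ℝ) : Prop :=
  ∀ (n m : ℤ) (x : ι →₀ ℤ), 0 ≤ n → 0 ≤ m →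
    (x.sum fun _ k => k ^ 2 + k) + (if n % 2 = 0 ∧ m % 2 = 0 then 0 else 1) ≤
      (n + 1) * (m + 1) - 1 →
    (x.sum fun i k => v i * (k : ℝ)) ≤ (α * n + β * m) / 2

/-- The one-sided structure of the weight expansion at `p/q` (side `σ`), with `N` weights. -/
structure Side (p q : ℕ) (σ : ℝ) (N : ℕ) (x y : ℕ → ℤ) (ε : ℝ) : Prop where
  hN : 0 < N
  hε : 0 < ε
  lin : ∀ z : ℝ, 0 ≤ σ * (z - p / q) → σ * (z - p / q) ≤ ε → ∀ n < N, wt 1 z n = x n + y n * z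
  tail : ∀ z : ℝ, 0 ≤ σ * (z - p / q) → σ * (z - p / q) ≤ ε → ∀ n,
    wt 1 z (N + n) = wt (σ * (q * z - p)) (wt 1 z (N - 1)) n
  hW : ∀ n < N, (wN q p n : ℤ) = q * x n + p * y n
  hW0 : ∀ n < N, 0 < wN q p n
  hWN : ∀ n, N ≤ n → wN q p n = 0
  hW1 : wN q p (N - 1) = 1
  sumW : ∑ n ∈ Finset.range N, wN q p n = p + q - 1
  sumW2 : ∑ n ∈ Finset.range N, wN q p n ^ 2 = p * q
  pol : ∀ z : ℝ, ∑ n ∈ Finset.range N, (wN q p n : ℝ) * (x n + y n * z) =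
    (p + q * z - σ * (q * z - p)) / 2
  sum1 : ∀ z : ℝ, ∑ n ∈ Finset.range N, ((x n : ℝ) + y n * z) =
    1 + z - σ * (q * z - p) - (x (N - 1) + y (N - 1) * z)
  sum2 : ∀ z : ℝ, ∑ n ∈ Finset.range N, ((x n : ℝ) + y n * z) ^ 2 =
    z - σ * (q * z - p) * (x (N - 1) + y (N - 1) * z)

/-- Good vector with a finite list of entries followed by the weights of `(a, b)`. -/
def GoL (d : ℝ) (L : List ℝ) (a b : ℝ) : Prop :=
  Good (vec d (Sum.elim (fun i : Fin L.length => L.get i) (wt a b)))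

/-- Pillow version of `GoL`. -/
def PL (α β : ℝ) (L : List ℝ) (a b : ℝ) : Prop :=
  PGood α β (Sum.elim (fun i : Fin L.length => L.get i) (wt a b))

end Pool.Agent.Stair
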