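import Pool.Agent.Lib.MP_f690a7_gt.Defs2

/-!
Weights of a compact convex region of the plane, its affine perimeter and its embedding function.
-/

namespace Pool.Agent.Stair

open MeasureTheory

/-- Support function of `Ω` at an integer vector. -/
noncomputable def hs (Ω : Set (ℝ × ℝ)) (n : ℤ × ℤ) : ℝ :=
  sSup ((fun x : ℝ × ℝ => (n.1 : ℝ) * x.1 + (n.2 : ℝ) * x.2) '' Ω)

/-- The outward normals of the standard triangle. -/
def nn : Fin 3 → ℤ × ℤ := ![(1, 1), (-1, 0), (0, -1)]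

/-- Stern-Brocot pairs below the pair `(u, v)`. -/
def sbp : ℤ × ℤ → ℤ × ℤ → List Bool → (ℤ × ℤ) × (ℤ × ℤ)
  | u, v, [] => (u, v)
  | u, v, false :: l => sbp u (u + v) l
  | u, v, true :: l => sbp (u + v) v l

/-- Size of the smallest standard triangle containing `Ω`. -/
noncomputable def bOm (Ω : Set (ℝ × ℝ)) : ℝ := hs Ω (1, 1) + hs Ω (-1, 0) + hs Ω (0, -1)

/-- Sizes of the triangles successively cut off at the three corners. -/
noncomputable def wOm (Ω : Set (ℝ × ℝ)) (j : Fin 3 × List Bool) : ℝ :=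
  hs Ω (sbp (nn j.1) (nn (j.1 + 1)) j.2).1 + hs Ω (sbp (nn j.1) (nn (j.1 + 1)) j.2).2 -
    hs Ω ((sbp (nn j.1) (nn (j.1 + 1)) j.2).1 + (sbp (nn j.1) (nn (j.1 + 1)) j.2).2)

/-- Lattice length of the face of `Ω` with primitive outward normal `n`. -/
noncomputable def latLen (Ω : Set (ℝ × ℝ)) (n : ℤ × ℤ) : ℝ :=
  sSup {τ : ℝ | ∃ x ∈ Ω, (n.1 : ℝ) * x.1 + (n.2 : ℝ) * x.2 = hs Ω n ∧
    (x.1 - τ * n.2, x.2 + τ * n.1) ∈ Ω}

/-- Affine perimeter. -/
noncomputable def affPer (Ω : Set (ℝ × ℝ)) : ℝ :=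
  ∑' n : {n : ℤ × ℤ // IsCoprime n.1 n.2}, latLen Ω n.1

/-- Twice the area. -/
noncomputable def volOm (Ω : Set (ℝ × ℝ)) : ℝ := 2 * (volume Ω).toReal

/-- The ellipsoid embedding function of the toric domain over `Ω`. -/
noncomputable def cOm (Ω : Set (ℝ × ℝ)) (z : ℝ) : ℝ := cfun (bOm Ω) (wOm Ω) z

end Pool.Agent.Stair
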