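import Pool.Agent.Lib.MP_f690a7_gt.Crem
import Pool.Agent.Lib.MP_f690a7_gt.Eu

/-!
Common facts for fibration data (blueprint, section 12).
-/

namespace Pool.Agent.Stair.Fcom

open Finset

section General
variable {ι : Type}

/-- effective classes meet the fibre class nonnegatively -/
theorem fib_nonneg {A : Lat ι} (h : Eff A) (s : ι) : 0 ≤ form (LL - EE s) A := by
  rw [form_comm, form_sub_right, form_LL, form_EE]
  have := h.entry_le s
  omega

theorem supp_sub {A : Lat ι} {J : Finset ι} (h : ∀ j, j ∉ J → form A (EE j) = 0) :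
    A.2.support ⊆ J := by
  intro j hj
  by_contra hn
  have := h j hn
  rw [form_EE] at this
  exact (Finsupp.mem_support_iff.mp hj) this

/-- the isometry identity -/
theorem iso_id (g : Adm ι) (φ : Lat ι →+ ℝ) (J : Finset ι) (hJ : ∀ j, j ∉ J → g.e (EE j) = EE j) :
    φ LL ^ 2 - ∑ j ∈ J, φ (EE j) ^ 2 =
      φ (g.e.symm LL) ^ 2 - ∑ j ∈ J, φ (g.e.symm (EE j)) ^ 2 := by
  classical
  -- the span of `LL`, `EE j` for `j ∈ J` is preserved
  have hsymm : ∀ j, j ∉ J → g.e.symm (EE j) = EE j := by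
    intro j hj
    rw [AddEquiv.symm_apply_eq]; exact (hJ j hj).symm
  have hfs : ∀ A B : Lat ι, form (g.e.symm A) B = form A (g.e B) := by
    intro A B
    rw [← g.form_e, g.e.apply_symm_apply]
  have hfs' : ∀ A B : Lat ι, form (g.e A) B = form A (g.e.symm B) := by
    intro A B
    rw [← g.form_e A, g.e.apply_symm_apply]
  have hst : ∀ X : Lat ι, X.2.support ⊆ J → (g.e X).2.support ⊆ J := by
    intro X hX
    apply supp_sub
    intro j hj
    rw [hfs', hsymm j hj, form_EE]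
    by_contra hne
    exact hj (hX (Finsupp.mem_support_iff.mpr hne))
  have hst' : ∀ X : Lat ι, X.2.support ⊆ J → (g.e.symm X).2.support ⊆ J := by
    intro X hX
    apply supp_sub
    intro j hj
    rw [hfs, hJ j hj, form_EE]
    by_contra hne
    exact hj (hX (Finsupp.mem_support_iff.mpr hne))
  have hLL : (LL : Lat ι).2.support ⊆ J := by simp
  have hEE : ∀ j, j ∈ J → (EE j : Lat ι).2.support ⊆ J := by
    intro j hj
    rw [EE_snd]
    exact Finsupp.support_single_subset.trans (by simpa using hj)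
  set ψ : Lat ι →+ ℝ := φ.comp g.e.symm.toAddMonoidHom with hψ
  have hψa : ∀ X, ψ X = φ (g.e.symm X) := fun X => rfl
  have hφψ : ∀ X, φ X = ψ (g.e X) := by
    intro X; rw [hψa, g.e.symm_apply_apply]
  -- expansions
  have e1 : φ LL = ψ LL * (g.e.symm LL).1 - ∑ j ∈ J, ψ (EE j) * (g.e.symm (EE j)).1 := by
    rw [hφψ LL, hom_eq_sum ψ (g.e LL) J (hst _ hLL)]
    congr 1
    · congr 2
      rw [← form_LL (g.e LL), hfs', form_comm, form_LL]
    · apply Finset.sum_congr rfl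
      intro j _
      congr 2
      rw [← form_EE (g.e LL) j, hfs', form_comm, form_LL]
  have e2 : ∀ i ∈ J, φ (EE i) =
      ψ LL * (g.e.symm LL).2 i - ∑ j ∈ J, ψ (EE j) * (g.e.symm (EE j)).2 i := by
    intro i hi
    rw [hφψ (EE i), hom_eq_sum ψ (g.e (EE i)) J (hst _ (hEE i hi))]
    congr 1
    · congr 2
      rw [← form_LL (g.e (EE i)), hfs', form_comm, form_EE]
    · apply Finset.sum_congr rfl
      intro j _
      congr 2
      rw [← form_EE (g.e (EE i)) j, hfs', form_comm, form_EE]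
  have e3 : ψ LL = φ LL * (g.e.symm LL).1 - ∑ i ∈ J, φ (EE i) * (g.e.symm LL).2 i := by
    rw [hψa]; exact hom_eq_sum φ _ J (hst' _ hLL)
  have e4 : ∀ j ∈ J, ψ (EE j) =
      φ LL * (g.e.symm (EE j)).1 - ∑ i ∈ J, φ (EE i) * (g.e.symm (EE j)).2 i := by
    intro j hj
    rw [hψa]; exact hom_eq_sum φ _ J (hst' _ (hEE j hj))
  have l1 : φ LL ^ 2 - ∑ j ∈ J, φ (EE j) ^ 2 =
      φ LL * (ψ LL * (g.e.symm LL).1 - ∑ j ∈ J, ψ (EE j) * (g.e.symm (EE j)).1) -
        ∑ i ∈ J, φ (EE i) *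
          (ψ LL * (g.e.symm LL).2 i - ∑ j ∈ J, ψ (EE j) * (g.e.symm (EE j)).2 i) := by
    rw [← e1]
    have : ∑ i ∈ J, φ (EE i) *
          (ψ LL * (g.e.symm LL).2 i - ∑ j ∈ J, ψ (EE j) * (g.e.symm (EE j)).2 i) =
          ∑ i ∈ J, φ (EE i) ^ 2 := by
      apply Finset.sum_congr rfl
      intro i hi
      rw [← e2 i hi]; ring
    rw [this]; ring
  have l2 : ψ LL ^ 2 - ∑ j ∈ J, ψ (EE j) ^ 2 =
      ψ LL * (φ LL * (g.e.symm LL).1 - ∑ i ∈ J, φ (EE i) * (g.e.symm LL).2 i) -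
        ∑ j ∈ J, ψ (EE j) *
          (φ LL * (g.e.symm (EE j)).1 - ∑ i ∈ J, φ (EE i) * (g.e.symm (EE j)).2 i) := by
    rw [← e3]
    have : ∑ j ∈ J, ψ (EE j) *
          (φ LL * (g.e.symm (EE j)).1 - ∑ i ∈ J, φ (EE i) * (g.e.symm (EE j)).2 i) =
          ∑ i ∈ J, ψ (EE i) ^ 2 := by
      apply Finset.sum_congr rfl
      intro i hi
      rw [← e4 i hi]; ring
    rw [this]; ring
  have l3 : φ (g.e.symm LL) ^ 2 - ∑ j ∈ J, φ (g.e.symm (EE j)) ^ 2 =
      ψ LL ^ 2 - ∑ j ∈ J, ψ (EE j) ^ 2 := rfl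
  rw [l3, l1, l2]
  simp only [mul_sub, Finset.mul_sum, Finset.sum_sub_distrib]
  rw [Finset.sum_comm (s := J) (t := J) (f := fun i j => φ (EE i) * (ψ (EE j) * ((g.e.symm (EE j)).2 i : ℝ)))]
  have a1 : ∑ j ∈ J, φ LL * (ψ (EE j) * ((g.e.symm (EE j)).1 : ℝ)) =
      ∑ j ∈ J, ψ (EE j) * (φ LL * ((g.e.symm (EE j)).1 : ℝ)) := by
    apply Finset.sum_congr rfl; intro j _; ring
  have a2 : ∑ j ∈ J, φ (EE j) * (ψ LL * ((g.e.symm LL).2 j : ℝ)) =
      ∑ j ∈ J, ψ LL * (φ (EE j) * ((g.e.symm LL).2 j : ℝ)) := by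
    apply Finset.sum_congr rfl; intro j _; ring
  have a3 : ∑ j ∈ J, ∑ i ∈ J, φ (EE i) * (ψ (EE j) * ((g.e.symm (EE j)).2 i : ℝ)) =
      ∑ j ∈ J, ∑ i ∈ J, ψ (EE j) * (φ (EE i) * ((g.e.symm (EE j)).2 i : ℝ)) := by
    apply Finset.sum_congr rfl; intro j _
    apply Finset.sum_congr rfl; intro i _; ring
  rw [a1, a2, a3]
  ring
end General

section Phi
theorem phi_LL (F : Lat II) (c z : ℝ) : phi F c z LL = c * F.1 := by
  rw [phi, vec_LL]

theorem phi_inl (F : Lat II) (c z : ℝ) (i : ℕ) :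
    phi F c z (EE (Sum.inl i)) = c * F.2 (Sum.inl i) := by
  rw [phi, vec_EE]; rfl

theorem phi_inr (F : Lat II) (c z : ℝ) (n : ℕ) : phi F c z (EE (Sum.inr n)) = wt 1 z n := by
  rw [phi, vec_EE]; rfl

theorem supp_disj (A : Lat II) (M : ℕ) (hM : ∀ n, M ≤ n → A.2 (Sum.inr n) = 0) :
    A.2.support ⊆ A.2.support.toLeft.disjSum (range M) := by
  intro j hj
  rw [Finset.mem_disjSum]
  rcases j with i | n
  · left
    exact ⟨i, by simpa using hj, rfl⟩
  · right
    refine ⟨n, ?_, rfl⟩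
    rw [Finset.mem_range]
    by_contra hn
    exact (Finsupp.mem_support_iff.mp hj) (hM n (not_lt.mp hn))

theorem form_split (F A : Lat II) (M : ℕ) (hM : ∀ n, M ≤ n → A.2 (Sum.inr n) = 0) :
    form F A = A.1 * F.1 - (∑ i ∈ A.2.support.toLeft, A.2 (Sum.inl i) * F.2 (Sum.inl i) +
      ∑ n ∈ range M, A.2 (Sum.inr n) * F.2 (Sum.inr n)) := by
  rw [form_comm, form_eq_sum A F _ (supp_disj A M hM), Finset.sum_disjSum]

theorem res_inl (A : Lat II) (i : ℕ) : (res A).2 (Sum.inl i) = A.2 (Sum.inl i) :=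
  Finsupp.filter_apply_pos _ _ rfl

theorem res_inr (A : Lat II) (n : ℕ) : (res A).2 (Sum.inr n) = 0 :=
  Finsupp.filter_apply_neg _ _ (by simp)

theorem form_res_eq (F A : Lat II) :
    form F (res A) = A.1 * F.1 - ∑ i ∈ A.2.support.toLeft, A.2 (Sum.inl i) * F.2 (Sum.inl i) := by
  have hs : (res A).2.support ⊆ A.2.support.toLeft.disjSum (∅ : Finset ℕ) := by
    intro j hj
    rw [Finset.mem_disjSum]
    rcases j with i | n
    · left
      refine ⟨i, ?_, rfl⟩
      have := Finsupp.mem_support_iff.mp hj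
      rw [res_inl] at this
      simpa using this
    · exact absurd (res_inr A n) (Finsupp.mem_support_iff.mp hj)
  rw [form_comm, form_eq_sum (res A) F _ hs, Finset.sum_disjSum]
  simp only [Finset.sum_empty, add_zero, res_inl]
  rfl

/-- if the entries of `A` at `inr n`, `n ≥ M`, vanish -/
theorem form_res (F A : Lat II) (M : ℕ) (hM : ∀ n, M ≤ n → A.2 (Sum.inr n) = 0) :
    form F (res A) = form F A + ∑ n ∈ range M, F.2 (Sum.inr n) * A.2 (Sum.inr n) := by
  rw [form_res_eq, form_split F A M hM]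
  have : ∑ n ∈ range M, F.2 (Sum.inr n) * A.2 (Sum.inr n) =
      ∑ n ∈ range M, A.2 (Sum.inr n) * F.2 (Sum.inr n) := by
    apply Finset.sum_congr rfl; intro n _; ring
  rw [this]; ring

theorem phi_res (F A : Lat II) (c z : ℝ) (M : ℕ) (hM : ∀ n, M ≤ n → A.2 (Sum.inr n) = 0) :
    phi F c z A = c * form F (res A) - ∑ n ∈ range M, wt 1 z n * A.2 (Sum.inr n) := by
  rw [phi, vec_eq_sum _ _ A _ (supp_disj A M hM), Finset.sum_disjSum, form_res_eq]
  simp only [Sum.elim_inl, Sum.elim_inr]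
  push_cast
  rw [mul_sub, Finset.mul_sum]
  have : ∑ i ∈ A.2.support.toLeft, c * (F.2 (Sum.inl i) : ℝ) * (A.2 (Sum.inl i) : ℝ) =
      ∑ i ∈ A.2.support.toLeft, c * ((A.2 (Sum.inl i) : ℝ) * (F.2 (Sum.inl i) : ℝ)) := by
    apply Finset.sum_congr rfl; intro n _; ring
  rw [this]; ring

/-- every class has finitely many entries -/
theorem exists_M (A : Lat II) : ∃ M : ℕ, ∀ n, M ≤ n → A.2 (Sum.inr n) = 0 := by
  refine ⟨A.2.support.toRight.sup id + 1, ?_⟩
  intro n hn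
  by_contra hne
  have h1 : n ∈ A.2.support.toRight := by
    rw [Finset.mem_toRight]; exact Finsupp.mem_support_iff.mpr hne
  have h2 : n ≤ A.2.support.toRight.sup id := Finset.le_sup (f := id) h1
  omega

/-- difference in `c` -/
theorem phi_c (F A : Lat II) (c c' z : ℝ) :
    phi F c' z A = phi F c z A + (c' - c) * form F (res A) := by
  obtain ⟨M, hM⟩ := exists_M A
  rw [phi_res F A c' z M hM, phi_res F A c z M hM]
  ring
end Phi

section F
variable {F : Lat II} {g : Adm II} {s : II} {p q k : ℕ}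

theorem form_symm (H : Fdat F g s p q k) (B : Lat II) :
    form F (g.e.symm B) = form (LL - EE s) B := by
  rw [← g.form_e, H.hF, g.e.apply_symm_apply]

theorem form_eq (H : Fdat F g s p q k) (B : Lat II) :
    form F B = form (LL - EE s) (g.e B) := by
  rw [← H.hF, g.form_e]

theorem formFF (H : Fdat F g s p q k) : form F F = 0 := by
  rw [form_eq H, H.hF, form_sub_left, form_sub_right, form_sub_right, form_LL_LL, form_LL_EE,
    form_EE_LL, form_EE_self]
  norm_num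

theorem kapF (H : Fdat F g s p q k) : kap F = 2 := by
  rw [← g.kap_e, H.hF, kap_sub, kap_LL, kap_EE]; norm_num

theorem effF (H : Fdat F g s p q k) : Eff F := by
  rw [← g.eff_e, H.hF]; exact eff_LLE s

theorem F1_pos (H : Fdat F g s p q k) : 0 < F.1 := by
  rcases (effF H).1.lt_or_eq with h | h
  · exact h
  · exfalso
    have h1 := formFF H
    rw [form_eq_sum F F _ (le_refl _), ← h] at h1
    have h2 : ∀ i ∈ F.2.support, F.2 i * F.2 i = 0 := by
      apply (Finset.sum_eq_zero_iff_of_nonneg (fun i _ => mul_self_nonneg _)).mp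
      linarith
    have h3 := kapF H
    rw [kap_eq_sum F _ (le_refl _), ← h, Finset.sum_eq_zero] at h3
    · norm_num at h3
    · intro i hi
      exact mul_self_eq_zero.mp (h2 i hi)

theorem Fs_ne (H : Fdat F g s p q k) : F.2 s ≠ 0 := by
  intro h
  have h1 := form_eq H (EE s)
  rw [form_EE, h, H.hfix s h, form_sub_left, form_LL_EE, form_EE_self] at h1
  norm_num at h1

theorem symm_EE (H : Fdat F g s p q k) {j : II} (hj : F.2 j = 0) : g.e.symm (EE j) = EE j := by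
  rw [AddEquiv.symm_apply_eq]; exact (H.hfix j hj).symm

/-- the two kinds of component classes are effective -/
theorem eff1 (g : Adm II) (j : II) : Eff (g.e.symm (EE j)) :=
  (g.symm.eff_e (EE j)).mpr (eff_EE j)

theorem eff2 (g : Adm II) {s j : II} (h : j ≠ s) : Eff (g.e.symm (LL - EE s - EE j)) :=
  (g.symm.eff_e _).mpr (eff_LLEE h.symm)

theorem symm_LLs (H : Fdat F g s p q k) : g.e.symm (LL - EE s) = F := by
  rw [← H.hF, g.e.symm_apply_apply]

/-- the second kind of component class is the complement of the first -/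
theorem symm_LLE (H : Fdat F g s p q k) (j : II) :
    g.e.symm (LL - EE s - EE j) = F - g.e.symm (EE j) := by
  rw [map_sub, symm_LLs H]

theorem mono_c (H : Fdat F g s p q k) {A : Lat II} (hA : Eff A) {c c' z : ℝ} (h : c ≤ c') :
    phi F c z A ≤ phi F c' z A := by
  rw [phi_c F A c c' z]
  have h1 : (0 : ℝ) ≤ (form F (res A) : ℝ) := by exact_mod_cast H.hres A hA
  nlinarith [mul_nonneg (sub_nonneg.mpr h) h1]

theorem good_mono_c (H : Fdat F g s p q k) {c c' z : ℝ} (h : c ≤ c') (hG : Good (phi F c z)) :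
    Good (phi F c' z) :=
  fun A hA => (hG A hA).trans (mono_c H hA h)

variable {σ : ℝ} {N : ℕ} {x y : ℕ → ℤ} {ε : ℝ}

theorem q_pos (H : Fdat F g s p q k) : (0 : ℝ) < q := by exact_mod_cast H.hq
theorem p_pos (H : Fdat F g s p q k) : (0 : ℝ) < p := by
  exact_mod_cast lt_of_lt_of_le H.hq H.hpq
theorem k_pos (H : Fdat F g s p q k) : (0 : ℝ) < k := by exact_mod_cast H.hk

theorem inr_zero (H : Fdat F g s p q k) (S : Side p q σ N x y ε) {n : ℕ} (hn : N ≤ n) :
    F.2 (Sum.inr n) = 0 := by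
  rw [H.hw, S.hWN n hn]; simp

theorem inr_pos (H : Fdat F g s p q k) (S : Side p q σ N x y ε) {n : ℕ} (hn : n < N) :
    0 < F.2 (Sum.inr n) := by
  rw [H.hw]
  have h1 := S.hW0 n hn
  have h2 := H.hk
  positivity

theorem le_of_inr (H : Fdat F g s p q k) (S : Side p q σ N x y ε) {n : ℕ}
    (h : F.2 (Sum.inr n) = 0) : N ≤ n := by
  by_contra hn
  exact absurd h (inr_pos H S (not_le.mp hn)).ne'

theorem form_resF (H : Fdat F g s p q k) (S : Side p q σ N x y ε) :
    form F (res F) = (k : ℤ) ^ 2 * p * q := by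
  rw [form_res F F N (fun n hn => inr_zero H S hn), formFF H, zero_add]
  have h1 : ∑ n ∈ range N, F.2 (Sum.inr n) * F.2 (Sum.inr n) =
      (k : ℤ) ^ 2 * ((∑ n ∈ range N, wN q p n ^ 2 : ℕ) : ℤ) := by
    push_cast
    rw [Finset.mul_sum]
    apply Finset.sum_congr rfl
    intro n _
    rw [H.hw]; ring
  rw [h1, S.sumW2]
  push_cast; ring

/-- the value on the fibre class -/
theorem phi_F (H : Fdat F g s p q k) (S : Side p q σ N x y ε) (c z : ℝ)
    (h0 : 0 ≤ σ * (z - p / q)) (h1 : σ * (z - p / q) ≤ ε) :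
    phi F c z F = c * (k ^ 2 * p * q) - k * (p + q * z - σ * (q * z - p)) / 2 := by
  rw [phi_res F F c z N (fun n hn => inr_zero H S hn), form_resF H S]
  have h2 : ∑ n ∈ range N, wt 1 z n * (F.2 (Sum.inr n) : ℝ) =
      k * ∑ n ∈ range N, (wN q p n : ℝ) * (x n + y n * z) := by
    rw [Finset.mul_sum]
    apply Finset.sum_congr rfl
    intro n hn
    rw [S.lin z h0 h1 n (Finset.mem_range.mp hn), H.hw]
    push_cast; ring
  rw [h2, S.pol]
  push_cast; ring

/-- points of the side are positive -/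
theorem z_pos (H : Fdat F g s p q k) (hσ : σ = 1 ∨ (σ = -1 ∧ q < p)) (S : Side p q σ N x y ε)
    {z : ℝ} (h0 : 0 ≤ σ * (z - p / q)) (h1 : σ * (z - p / q) ≤ ε) : 0 < z := by
  have hq := q_pos H
  have hp := p_pos H
  have hpq : 0 < (p : ℝ) / q := div_pos hp hq
  rcases hσ with rfl | ⟨rfl, hlt⟩
  · rw [one_mul] at h0; linarith
  · by_contra hz
    have h2 : (p : ℝ) / q ≤ ε := by linarith
    have h3 : ∀ n < N, (x n : ℝ) = 0 := by
      intro n hn
      have e1 := S.lin 0 (by simpa using hpq.le) (by simpa using h2) n hn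
      have e2 : wt 1 (0 : ℝ) n = 0 := by
        apply le_antisymm
        · have := wt_anti (a := (1 : ℝ)) (b := 0) zero_le_one le_rfl (Nat.zero_le n)
          rw [wt_zero] at this
          exact this.trans (min_le_right _ _)
        · exact wt_nonneg zero_le_one le_rfl n
      rw [e2] at e1
      linarith
    have h4 := S.sum1 0
    rw [Finset.sum_eq_zero] at h4
    · have h5 := h3 (N - 1) (by have := S.hN; omega)
      have h6 : (p : ℝ) = 1 := by rw [h5] at h4; linarith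
      have h7 : p = 1 := by exact_mod_cast h6
      have h8 := H.hq
      omega
    · intro n hn
      rw [h3 n (Finset.mem_range.mp hn)]; simp

/-- the weights at `p/q` -/
theorem wt0 (H : Fdat F g s p q k) (n : ℕ) :
    wt 1 ((p : ℝ) / q) n = wN q p n / q :=
  (tsum_wt_rat H.hq (lt_of_lt_of_le H.hq H.hpq) H.cop).2 n

/-- at the centre the functional is `form F` up to a factor -/
theorem phi0 (H : Fdat F g s p q k) (A : Lat II) :
    phi F (1 / (q * k)) (p / q) A = 1 / (q * k) * form F A := by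
  have hq := q_pos H
  have hk := k_pos H
  obtain ⟨M, hM⟩ := exists_M A
  rw [phi_res F A _ _ M hM, form_res F A M hM]
  push_cast
  rw [mul_add, Finset.mul_sum]
  have : ∑ n ∈ range M, 1 / ((q : ℝ) * k) * ((F.2 (Sum.inr n) : ℝ) * (A.2 (Sum.inr n) : ℝ)) =
      ∑ n ∈ range M, wt 1 ((p : ℝ) / q) n * (A.2 (Sum.inr n) : ℝ) := by
    apply Finset.sum_congr rfl
    intro n _
    rw [wt0 H, H.hw]
    push_cast
    field_simp
  rw [this]; ring

theorem good0 (H : Fdat F g s p q k) : Good (phi F (1 / (q * k)) (p / q)) := by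
  intro A hA
  rw [phi0 H]
  have hq := q_pos H
  have hk := k_pos H
  have h1 : 0 ≤ form F A := by
    rw [form_eq H]
    exact fib_nonneg ((g.eff_e A).mpr hA) s
  have h2 : (0 : ℝ) ≤ (form F A : ℝ) := by exact_mod_cast h1
  positivity

/-- the last nonzero weight -/
theorem om_eq (S : Side p q σ N x y ε) {z : ℝ} (h0 : 0 ≤ σ * (z - p / q))
    (h1 : σ * (z - p / q) ≤ ε) : wt 1 z (N - 1) = x (N - 1) + y (N - 1) * z :=
  S.lin z h0 h1 (N - 1) (by have := S.hN; omega)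

theorem abs_z (hσ : σ = 1 ∨ (σ = -1 ∧ q < p)) {z : ℝ} (h0 : 0 ≤ σ * (z - p / q)) :
    |z - p / q| = σ * (z - p / q) := by
  rcases hσ with rfl | ⟨rfl, _⟩
  · rw [one_mul] at h0 ⊢; exact abs_of_nonneg h0
  · rw [abs_of_nonpos (by linarith)]; ring

theorem tau_eq (H : Fdat F g s p q k) (z : ℝ) : σ * (q * z - p) = q * (σ * (z - p / q)) := by
  have hq := q_pos H
  field_simp

theorem tau_nonneg (H : Fdat F g s p q k) {z : ℝ} (h0 : 0 ≤ σ * (z - p / q)) :
    0 ≤ σ * (q * z - p) := by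
  rw [tau_eq H]; exact mul_nonneg (q_pos H).le h0

theorem tail_wt (H : Fdat F g s p q k) (hσ : σ = 1 ∨ (σ = -1 ∧ q < p)) (S : Side p q σ N x y ε)
    {z : ℝ} (h0 : 0 ≤ σ * (z - p / q)) (h1 : σ * (z - p / q) ≤ ε) {n : ℕ} (hn : N ≤ n) :
    0 ≤ wt 1 z n ∧ wt 1 z n ≤ σ * (q * z - p) := by
  have hz := z_pos H hσ S h0 h1
  refine ⟨wt_nonneg zero_le_one hz.le n, ?_⟩
  obtain ⟨m, rfl⟩ := Nat.exists_eq_add_of_le hn
  rw [S.tail z h0 h1]
  have h2 := wt_anti (tau_nonneg H h0) (wt_nonneg zero_le_one hz.le (N - 1)) (Nat.zero_le m)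
  rw [wt_zero] at h2
  exact h2.trans (min_le_left _ _)

theorem wt_lip (H : Fdat F g s p q k) (hσ : σ = 1 ∨ (σ = -1 ∧ q < p)) (S : Side p q σ N x y ε)
    (n : ℕ) {z : ℝ} (h0 : 0 ≤ σ * (z - p / q)) (h1 : σ * (z - p / q) ≤ ε) :
    |wt 1 z n - wt 1 ((p : ℝ) / q) n| ≤ (|(y n : ℝ)| + q) * (σ * (z - p / q)) := by
  have hq := q_pos H
  have hε := S.hε
  have hy : 0 ≤ |(y n : ℝ)| * (σ * (z - p / q)) := mul_nonneg (abs_nonneg _) h0
  have hq' : 0 ≤ (q : ℝ) * (σ * (z - p / q)) := mul_nonneg hq.le h0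
  by_cases hn : n < N
  · rw [S.lin z h0 h1 n hn, S.lin (p / q) (by simp) (by simpa using hε.le) n hn]
    have : (x n : ℝ) + y n * z - (x n + y n * (p / q)) = y n * (z - p / q) := by ring
    rw [this, abs_mul, abs_z hσ h0]
    linarith
  · have h2 := tail_wt H hσ S h0 h1 (not_lt.mp hn)
    have h3 : wt 1 ((p : ℝ) / q) n = 0 := by rw [wt0 H, S.hWN n (not_lt.mp hn)]; simp
    rw [h3, sub_zero, abs_of_nonneg h2.1]
    rw [tau_eq H] at h2
    linarith [h2.2]

/-- Lipschitz estimate for the value on a fixed class (`t = σ (z - p/q)`) -/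
theorem phi_lip (H : Fdat F g s p q k) (hσ : σ = 1 ∨ (σ = -1 ∧ q < p)) (S : Side p q σ N x y ε)
    (A : Lat II) : ∃ C : ℝ, 0 ≤ C ∧ ∀ c z : ℝ, 0 ≤ σ * (z - p / q) → σ * (z - p / q) ≤ ε →
      |phi F c z A - 1 / (q * k) * form F A| ≤ C * (|c - 1 / (q * k)| + σ * (z - p / q)) := by
  obtain ⟨M, hM⟩ := exists_M A
  have hq := q_pos H
  set C1 : ℝ := |(form F (res A) : ℝ)| with hC1
  set C2 : ℝ := ∑ n ∈ range M, (|(y n : ℝ)| + q) * |(A.2 (Sum.inr n) : ℝ)| with hC2
  have hC1' : 0 ≤ C1 := abs_nonneg _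
  have hC2' : 0 ≤ C2 := Finset.sum_nonneg (fun n _ => by positivity)
  refine ⟨C1 + C2, by positivity, ?_⟩
  intro c z h0 h1
  rw [← phi0 H A, phi_res F A c z M hM, phi_res F A _ _ M hM]
  set t := σ * (z - p / q) with ht
  have e1 : c * (form F (res A) : ℝ) - ∑ n ∈ range M, wt 1 z n * (A.2 (Sum.inr n) : ℝ) -
      (1 / (q * k) * (form F (res A) : ℝ) -
        ∑ n ∈ range M, wt 1 ((p : ℝ) / q) n * (A.2 (Sum.inr n) : ℝ)) =
      (c - 1 / (q * k)) * (form F (res A) : ℝ) -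
        ∑ n ∈ range M, (wt 1 z n - wt 1 ((p : ℝ) / q) n) * (A.2 (Sum.inr n) : ℝ) := by
    simp only [sub_mul, Finset.sum_sub_distrib]; ring
  rw [e1]
  have e2 : |∑ n ∈ range M, (wt 1 z n - wt 1 ((p : ℝ) / q) n) * (A.2 (Sum.inr n) : ℝ)| ≤
      C2 * t := by
    rw [hC2, Finset.sum_mul]
    refine (Finset.abs_sum_le_sum_abs _ _).trans (Finset.sum_le_sum ?_)
    intro n _
    rw [abs_mul]
    have := wt_lip H hσ S n h0 h1
    calc |wt 1 z n - wt 1 ((p : ℝ) / q) n| * |(A.2 (Sum.inr n) : ℝ)|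
        ≤ ((|(y n : ℝ)| + q) * t) * |(A.2 (Sum.inr n) : ℝ)| :=
          mul_le_mul_of_nonneg_right this (abs_nonneg _)
      _ = (|(y n : ℝ)| + q) * |(A.2 (Sum.inr n) : ℝ)| * t := by ring
  refine (abs_sub _ _).trans ?_
  rw [abs_mul]
  have h3 : 0 ≤ |c - 1 / (q * k)| := abs_nonneg _
  nlinarith [mul_nonneg hC1' h0, mul_nonneg hC2' h3]

theorem om_lip (H : Fdat F g s p q k) (hσ : σ = 1 ∨ (σ = -1 ∧ q < p)) (S : Side p q σ N x y ε) :
    ∃ C : ℝ, 0 ≤ C ∧ ∀ z : ℝ, 0 ≤ σ * (z - p / q) → σ * (z - p / q) ≤ ε →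
      |wt 1 z (N - 1) - 1 / q| ≤ C * (σ * (z - p / q)) := by
  have hq := q_pos H
  refine ⟨|(y (N - 1) : ℝ)| + q, by positivity, ?_⟩
  intro z h0 h1
  have h2 := wt_lip H hσ S (N - 1) h0 h1
  have h3 : wt 1 ((p : ℝ) / q) (N - 1) = 1 / q := by rw [wt0 H, S.hW1]; simp
  rwa [h3] at h2

theorem om_nonneg (H : Fdat F g s p q k) (hσ : σ = 1 ∨ (σ = -1 ∧ q < p))
    (S : Side p q σ N x y ε) {z : ℝ} (h0 : 0 ≤ σ * (z - p / q)) (h1 : σ * (z - p / q) ≤ ε) :
    0 ≤ wt 1 z (N - 1) :=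
  wt_nonneg zero_le_one (z_pos H hσ S h0 h1).le _

/-- values at the tail classes (`τ = σ (q z - p)`) -/
theorem tail_val (H : Fdat F g s p q k) (hσ : σ = 1 ∨ (σ = -1 ∧ q < p)) (S : Side p q σ N x y ε)
    {c z : ℝ} (h0 : 0 ≤ σ * (z - p / q)) (h1 : σ * (z - p / q) ≤ ε) {j : II} (hj : F.2 j = 0) :
    0 ≤ phi F c z (g.e.symm (EE j)) ∧ phi F c z (g.e.symm (EE j)) ≤ σ * (q * z - p) := by
  rw [symm_EE H hj]
  rcases j with i | n
  · rw [phi_inl, hj]
    simpa using tau_nonneg H h0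
  · rw [phi_inr]
    exact tail_wt H hσ S h0 h1 (le_of_inr H S hj)

theorem tail_sq (H : Fdat F g s p q k) (hσ : σ = 1 ∨ (σ = -1 ∧ q < p)) (S : Side p q σ N x y ε)
    {c z : ℝ} (h0 : 0 ≤ σ * (z - p / q)) (h1 : σ * (z - p / q) ≤ ε) (T : Finset II)
    (hT : ∀ j ∈ T, F.2 j = 0) :
    ∑ j ∈ T, phi F c z (g.e.symm (EE j)) ^ 2 ≤ σ * (q * z - p) * wt 1 z (N - 1) := by
  have hτ := tau_nonneg H h0
  have hω := om_nonneg H hσ S h0 h1
  have e1 : ∑ j ∈ T, phi F c z (g.e.symm (EE j)) ^ 2 = ∑ j ∈ T, phi F c z (EE j) ^ 2 := by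
    apply Finset.sum_congr rfl
    intro j hj
    rw [symm_EE H (hT j hj)]
  have e2 : ∑ j ∈ T, phi F c z (EE j) ^ 2 = ∑ n ∈ T.toRight, wt 1 z n ^ 2 := by
    rw [← Finset.toLeft_disjSum_toRight (u := T), Finset.sum_disjSum]
    simp only [Finset.toLeft_disjSum_toRight, phi_inr]
    rw [Finset.sum_eq_zero, zero_add]
    intro i hi
    rw [phi_inl, hT _ (Finset.mem_toLeft.mp hi)]
    simp
  rw [e1, e2]
  obtain ⟨M, hM⟩ : ∃ M, T.toRight ⊆ Finset.Ico N (N + M) := by
    refine ⟨T.toRight.sup id + 1, ?_⟩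
    intro n hn
    rw [Finset.mem_Ico]
    have h2 : N ≤ n := le_of_inr H S (hT _ (Finset.mem_toRight.mp hn))
    have h3 : n ≤ T.toRight.sup id := Finset.le_sup (f := id) hn
    omega
  refine (Finset.sum_le_sum_of_subset_of_nonneg hM (fun i _ _ => sq_nonneg _)).trans ?_
  rw [Finset.sum_Ico_eq_sum_range, Nat.add_sub_cancel_left]
  have e3 : ∑ m ∈ range M, wt 1 z (N + m) ^ 2 =
      ∑ m ∈ range M, wt (σ * (q * z - p)) (wt 1 z (N - 1)) m ^ 2 := by
    apply Finset.sum_congr rfl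
    intro m _
    rw [S.tail z h0 h1]
  rw [e3]
  have h4 := sum_wt_sq (σ * (q * z - p)) (wt 1 z (N - 1)) M
  have h5 := eu_nonneg hτ hω M
  nlinarith [mul_nonneg h5.1 h5.2]

theorem sq_le (H : Fdat F g s p q k) (hσ : σ = 1 ∨ (σ = -1 ∧ q < p)) (S : Side p q σ N x y ε)
    {c z : ℝ} (h0 : 0 ≤ σ * (z - p / q)) (h1 : σ * (z - p / q) ≤ ε) (T : Finset II)
    (hs : s ∉ T) :
    ∑ j ∈ T, phi F c z (g.e.symm (EE j)) ^ 2 ≤
      ∑ j ∈ F.2.support.erase s, phi F c z (g.e.symm (EE j)) ^ 2 +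
        σ * (q * z - p) * wt 1 z (N - 1) := by
  rw [← Finset.sum_filter_add_sum_filter_not T (fun j => F.2 j ≠ 0)]
  apply add_le_add
  · apply Finset.sum_le_sum_of_subset_of_nonneg
    · intro j hj
      rw [Finset.mem_filter] at hj
      rw [Finset.mem_erase, Finsupp.mem_support_iff]
      refine ⟨?_, hj.2⟩
      rintro rfl; exact hs hj.1
    · intro i _ _; exact sq_nonneg _
  · apply tail_sq H hσ S h0 h1
    intro j hj
    rw [Finset.mem_filter] at hj
    exact not_not.mp hj.2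

/-- the volume identity: `f (f + 2 v_s) = Q + τ ω + sum of v_j^2` over `j ≠ s` with `F.2 j ≠ 0` -/
theorem vol_id (H : Fdat F g s p q k) (S : Side p q σ N x y ε) {c z : ℝ}
    (h0 : 0 ≤ σ * (z - p / q)) (h1 : σ * (z - p / q) ≤ ε) :
    phi F c z F * (phi F c z F + 2 * phi F c z (g.e.symm (EE s))) =
      (c ^ 2 * (k ^ 2 * p * q) - z) + σ * (q * z - p) * wt 1 z (N - 1) +
        ∑ j ∈ F.2.support.erase s, phi F c z (g.e.symm (EE j)) ^ 2 := by
  have h2 := iso_id g (phi F c z) F.2.support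
    (fun j hj => H.hfix j (Finsupp.notMem_support_iff.mp hj))
  have h3 : g.e.symm LL = F + g.e.symm (EE s) := by
    rw [← symm_LLs H, ← map_add]; congr 1; abel
  have hs : s ∈ F.2.support := Finsupp.mem_support_iff.mpr (Fs_ne H)
  have h5 := Finset.add_sum_erase F.2.support (fun j => phi F c z (g.e.symm (EE j)) ^ 2) hs
  rw [h3, map_add, ← h5] at h2
  have h4 : phi F c z LL ^ 2 - ∑ j ∈ F.2.support, phi F c z (EE j) ^ 2 =
      c ^ 2 * (k ^ 2 * p * q) - (z - σ * (q * z - p) * wt 1 z (N - 1)) := by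
    have e1 : ∑ j ∈ F.2.support, phi F c z (EE j) ^ 2 =
        ∑ i ∈ F.2.support.toLeft, (c * F.2 (Sum.inl i)) ^ 2 + ∑ n ∈ range N, wt 1 z n ^ 2 := by
      have hR : F.2.support.toRight = range N := by
        ext n
        rw [Finset.mem_toRight, Finsupp.mem_support_iff, Finset.mem_range]
        constructor
        · intro h
          by_contra hn
          exact h (inr_zero H S (not_lt.mp hn))
        · intro h
          exact (inr_pos H S h).ne'
      conv_lhs => rw [← Finset.toLeft_disjSum_toRight (u := F.2.support), Finset.sum_disjSum]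
      rw [hR]
      simp only [phi_inl, phi_inr]
    have e2 : ∑ n ∈ range N, wt 1 z n ^ 2 = z - σ * (q * z - p) * wt 1 z (N - 1) := by
      rw [om_eq S h0 h1, ← S.sum2 z]
      apply Finset.sum_congr rfl
      intro n hn
      rw [S.lin z h0 h1 n (Finset.mem_range.mp hn)]
    have e3 : (c * F.1) ^ 2 - ∑ i ∈ F.2.support.toLeft, (c * F.2 (Sum.inl i) : ℝ) ^ 2 =
        c ^ 2 * (k ^ 2 * p * q) := by
      have h5 := form_resF H S
      rw [form_res_eq] at h5
      have h6 : ((F.1 : ℝ) * F.1 - ∑ i ∈ F.2.support.toLeft,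
          (F.2 (Sum.inl i) : ℝ) * F.2 (Sum.inl i)) = k ^ 2 * p * q := by
        exact_mod_cast h5
      rw [← h6, mul_sub, Finset.mul_sum]
      congr 1
      · ring
      · apply Finset.sum_congr rfl; intro i _; ring
    rw [e1, e2, phi_LL, ← e3]; ring
  rw [h4] at h2
  linarith

/-- the functional in the coordinates adapted to the fibration -/
theorem good_iff (g : Adm II) (φ : Lat II →+ ℝ) :
    Good (φ.comp g.e.symm.toAddMonoidHom) ↔ Good φ :=
  g.symm.good φ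

end F

end Pool.Agent.Stair.Fcom
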