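import Pool.Agent.Lib.MP_f690a7_gt.Pack
import Pool.Agent.Lib.MP_f690a7_gt.Germ
import Pool.Agent.Stair97.Germ

/-!
NICE: if finitely many classes and the volume decide near a point, on one side, then the embedding
function agrees there with the volume curve or with an affine function.
-/

namespace Pool.Agent.Stair

open Finset Filter Topology

namespace NiceE

variable {b : ℝ} {β : ℕ → ℝ}

/-- an analytic function has a constant sign on a closed right neighbourhood of `0` -/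
theorem side {h : ℝ → ℝ} (hh : AnalyticAt ℝ h 0) :
    (∃ δ : ℝ, 0 < δ ∧ ∀ t, 0 ≤ t → t ≤ δ → 0 ≤ h t) ∨
    (∃ δ : ℝ, 0 < δ ∧ ∀ t, 0 ≤ t → t ≤ δ → h t ≤ 0) := by
  have hc : Tendsto h (𝓝[>] (0:ℝ)) (𝓝 (h 0)) :=
    hh.continuousAt.tendsto.mono_left nhdsWithin_le_nhds
  rcases Stair97.sign_right hh with h1 | h1
  · left
    have h0 : 0 ≤ h 0 := ge_of_tendsto hc h1
    obtain ⟨u, hu, hsub⟩ := (mem_nhdsGT_iff_exists_Ioo_subset).1 h1
    have hu0 : (0:ℝ) < u := hu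
    refine ⟨u / 2, by linarith, fun t ht hte => ?_⟩
    rcases eq_or_lt_of_le ht with h2 | h2
    · rw [← h2]; exact h0
    · exact hsub ⟨h2, by linarith⟩
  · right
    have h0 : h 0 ≤ 0 := le_of_tendsto hc h1
    obtain ⟨u, hu, hsub⟩ := (mem_nhdsGT_iff_exists_Ioo_subset).1 h1
    have hu0 : (0:ℝ) < u := hu
    refine ⟨u / 2, by linarith, fun t ht hte => ?_⟩
    rcases eq_or_lt_of_le ht with h2 | h2
    · rw [← h2]; exact h0
    · exact hsub ⟨h2, by linarith⟩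

/-- The two kinds of functions. -/
def Kind (b : ℝ) (β : ℕ → ℝ) (F : ℝ → ℝ) : Prop :=
  F = VV b β ∨ ∃ x y : ℝ, F = fun z => x + y * z

/-- The function agrees on the side `σ` of `z0` with one of the two kinds. -/
def SG (b : ℝ) (β : ℕ → ℝ) (z0 σ : ℝ) (f : ℝ → ℝ) : Prop :=
  ∃ F : ℝ → ℝ, Kind b β F ∧ ∃ δ : ℝ, 0 < δ ∧ ∀ t : ℝ, 0 ≤ t → t ≤ δ →
    f (z0 + σ * t) = F (z0 + σ * t)

theorem Kind.cont {F : ℝ → ℝ} (h : Kind b β F) : Continuous F := by
  rcases h with h | ⟨x, y, h⟩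
  · rw [h]
    unfold VV
    fun_prop
  · rw [h]
    fun_prop

theorem cmpVA (z0 σ x y : ℝ) :
    (∃ δ : ℝ, 0 < δ ∧ ∀ t, 0 ≤ t → t ≤ δ → VV b β (z0 + σ * t) ≤ x + y * (z0 + σ * t)) ∨
    (∃ δ : ℝ, 0 < δ ∧ ∀ t, 0 ≤ t → t ≤ δ → x + y * (z0 + σ * t) ≤ VV b β (z0 + σ * t)) := by
  have ha : AnalyticAt ℝ (fun t : ℝ => x + y * (z0 + σ * t)) 0 := by fun_prop
  rcases side ha with ⟨δ, hδ, h1⟩ | ⟨δ, hδ, h1⟩
  · have hb : AnalyticAt ℝ (fun t : ℝ => (x + y * (z0 + σ * t)) ^ 2 -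
        (z0 + σ * t) * (Vol b β)⁻¹) 0 := by fun_prop
    rcases side hb with ⟨δ', hδ', h2⟩ | ⟨δ', hδ', h2⟩
    · left
      refine ⟨min δ δ', lt_min hδ hδ', fun t ht hte => ?_⟩
      have h3 := h1 t ht (le_trans hte (min_le_left _ _))
      have h4 := h2 t ht (le_trans hte (min_le_right _ _))
      unfold VV
      rw [Real.sqrt_le_iff]
      refine ⟨h3, ?_⟩
      rw [div_eq_mul_inv]
      linarith
    · right
      refine ⟨δ', hδ', fun t ht hte => ?_⟩
      have h4 := h2 t ht hte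
      unfold VV
      apply Real.le_sqrt_of_sq_le
      rw [div_eq_mul_inv]
      linarith
  · right
    refine ⟨δ, hδ, fun t ht hte => ?_⟩
    exact le_trans (h1 t ht hte) (Real.sqrt_nonneg _)

theorem cmp (z0 σ : ℝ) {F G : ℝ → ℝ} (hF : Kind b β F) (hG : Kind b β G) :
    (∃ δ : ℝ, 0 < δ ∧ ∀ t, 0 ≤ t → t ≤ δ → F (z0 + σ * t) ≤ G (z0 + σ * t)) ∨
    (∃ δ : ℝ, 0 < δ ∧ ∀ t, 0 ≤ t → t ≤ δ → G (z0 + σ * t) ≤ F (z0 + σ * t)) := by
  rcases hF with rfl | ⟨x, y, rfl⟩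
  · rcases hG with rfl | ⟨x', y', rfl⟩
    · exact Or.inl ⟨1, one_pos, fun t _ _ => le_rfl⟩
    · exact cmpVA z0 σ x' y'
  · rcases hG with rfl | ⟨x', y', rfl⟩
    · exact (cmpVA z0 σ x y).symm
    · have ha : AnalyticAt ℝ (fun t : ℝ => (x' + y' * (z0 + σ * t)) - (x + y * (z0 + σ * t))) 0 := by
        fun_prop
      rcases side ha with ⟨δ, hδ, h1⟩ | ⟨δ, hδ, h1⟩
      · refine Or.inl ⟨δ, hδ, fun t ht hte => ?_⟩
        have := h1 t ht hte
        simp only at this ⊢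
        linarith
      · refine Or.inr ⟨δ, hδ, fun t ht hte => ?_⟩
        have := h1 t ht hte
        simp only at this ⊢
        linarith

theorem SG.max {z0 σ : ℝ} {f g : ℝ → ℝ} (hf : SG b β z0 σ f) (hg : SG b β z0 σ g) :
    SG b β z0 σ (fun z => max (f z) (g z)) := by
  obtain ⟨F, hF, δ1, hδ1, h1⟩ := hf
  obtain ⟨G, hG, δ2, hδ2, h2⟩ := hg
  rcases cmp z0 σ hF hG with ⟨δ3, hδ3, h3⟩ | ⟨δ3, hδ3, h3⟩
  · refine ⟨G, hG, min (min δ1 δ2) δ3, lt_min (lt_min hδ1 hδ2) hδ3, fun t ht hte => ?_⟩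
    have e1 := h1 t ht (le_trans hte (le_trans (min_le_left _ _) (min_le_left _ _)))
    have e2 := h2 t ht (le_trans hte (le_trans (min_le_left _ _) (min_le_right _ _)))
    have e3 := h3 t ht (le_trans hte (min_le_right _ _))
    simp only
    rw [e1, e2]
    exact max_eq_right e3
  · refine ⟨F, hF, min (min δ1 δ2) δ3, lt_min (lt_min hδ1 hδ2) hδ3, fun t ht hte => ?_⟩
    have e1 := h1 t ht (le_trans hte (le_trans (min_le_left _ _) (min_le_left _ _)))
    have e2 := h2 t ht (le_trans hte (le_trans (min_le_left _ _) (min_le_right _ _)))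
    have e3 := h3 t ht (le_trans hte (min_le_right _ _))
    simp only
    rw [e1, e2]
    exact max_eq_left e3

/-- finite combinations of weights are affine on the side -/
theorem sum_germ {z0 σ : ℝ} (hz0 : 0 < z0) (hσ : σ = 1 ∨ σ = -1) (T : Finset ℕ) (k : ℕ → ℝ) :
    ∃ δ : ℝ, 0 < δ ∧ ∃ x y : ℝ, ∀ t : ℝ, 0 ≤ t → t ≤ δ →
      ∑ n ∈ T, wt 1 (z0 + σ * t) n * k n = x + y * (z0 + σ * t) := by
  classical
  induction T using Finset.induction_on with
  | empty => exact ⟨1, one_pos, 0, 0, fun t _ _ => by simp⟩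
  | insert n T hn ih =>
    obtain ⟨δ, hδ, x, y, h⟩ := ih
    obtain ⟨δ', hδ', x', y', h'⟩ := wt_germ z0 σ hz0 hσ n
    refine ⟨min δ δ', lt_min hδ hδ', x' * k n + x, y' * k n + y, fun t ht hte => ?_⟩
    rw [Finset.sum_insert hn, h t ht (le_trans hte (min_le_left _ _)),
      h' t ht (le_trans hte (min_le_right _ _))]
    ring

/-- the bound given by one class -/
noncomputable def rr (b : ℝ) (β : ℕ → ℝ) (A : Lat II) (z : ℝ) : ℝ :=
  if Pack.XX b β A = 0 then VV b β z else -Pack.WW z A / Pack.XX b β A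

theorem rr_SG {z0 σ : ℝ} (hz0 : 0 < z0) (hσ : σ = 1 ∨ σ = -1) (A : Lat II) :
    SG b β z0 σ (rr b β A) := by
  by_cases hX : Pack.XX b β A = 0
  · refine ⟨VV b β, Or.inl rfl, 1, one_pos, fun t _ _ => ?_⟩
    rw [rr, if_pos hX]
  · obtain ⟨δ, hδ, x, y, h⟩ := sum_germ hz0 hσ A.2.support.toRight
      (fun n => (A.2 (Sum.inr n) : ℝ))
    refine ⟨fun z => x / Pack.XX b β A + y / Pack.XX b β A * z, Or.inr ⟨_, _, rfl⟩, δ, hδ,
      fun t ht hte => ?_⟩
    rw [rr, if_neg hX, Pack.WW_eq, h t ht hte]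
    field_simp

/-- the finite maximum of the bounds -/
theorem exists_max_bound (D : Dat b β) (hne : ∀ z, 1 ≤ z → ∃ c, 0 < c ∧ Good (uu b β c z))
    {z0 σ : ℝ} (hz0 : 1 ≤ z0) (hσ : σ = 1 ∨ σ = -1) (S : Finset (Lat II)) (hS : ∀ A ∈ S, Eff A) :
    ∃ f : ℝ → ℝ, SG b β z0 σ f ∧ (∀ z, 1 ≤ z → f z ≤ cfun b β z) ∧ (∀ z, VV b β z ≤ f z) ∧
      ∀ z, 1 ≤ z → ∀ c, f z ≤ c → ∀ A ∈ S, 0 ≤ uu b β c z A := by
  classical
  have hz0' : 0 < z0 := lt_of_lt_of_le one_pos hz0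
  induction S using Finset.induction_on with
  | empty =>
    refine ⟨VV b β, ⟨VV b β, Or.inl rfl, 1, one_pos, fun t _ _ => rfl⟩, ?_, fun z => le_rfl, ?_⟩
    · intro z hz
      exact (good_cfun D hz (hne z hz)).2.1
    · intro z _ c _ A hA
      simp at hA
  | insert A S hA ih =>
    obtain ⟨f, h1, h2, h3, h4⟩ := ih (fun B hB => hS B (Finset.mem_insert_of_mem hB))
    have hEA : Eff A := hS A (Finset.mem_insert_self A S)
    refine ⟨fun z => max (f z) (rr b β A z), h1.max (rr_SG hz0' hσ A), ?_, ?_, ?_⟩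
    · intro z hz
      refine max_le (h2 z hz) ?_
      obtain ⟨g1, g2, g3⟩ := good_cfun D hz (hne z hz)
      by_cases hX : Pack.XX b β A = 0
      · rw [rr, if_pos hX]; exact g2
      · have hX0 : 0 < Pack.XX b β A :=
          lt_of_le_of_ne (Pack.XX_nonneg g1 g3 hEA) (Ne.symm hX)
        rw [rr, if_neg hX, div_le_iff₀ hX0]
        have h5 := g3 A hEA
        rw [Pack.uu_split] at h5
        linarith
    · intro z
      exact le_trans (h3 z) (le_max_left _ _)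
    · intro z hz c hc B hB
      rcases Finset.mem_insert.1 hB with rfl | hB
      · obtain ⟨g1, g2, g3⟩ := good_cfun D hz (hne z hz)
        rw [Pack.uu_split]
        have h5 := g3 B hEA
        rw [Pack.uu_split] at h5
        by_cases hX : Pack.XX b β B = 0
        · rw [hX] at h5 ⊢
          linarith
        · have hX0 : 0 < Pack.XX b β B :=
            lt_of_le_of_ne (Pack.XX_nonneg g1 g3 hEA) (Ne.symm hX)
          have h6 : rr b β B z ≤ c := le_trans (le_max_right _ _) hc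
          rw [rr, if_neg hX, div_le_iff₀ hX0] at h6
          linarith
      · exact h4 z hz c (le_trans (le_max_left _ _) hc) B hB

theorem cfun_le (D : Dat b β) {c z : ℝ} (hz : 1 ≤ z) (hc : 0 < c) (h : Good (uu b β c z)) :
    cfun b β z ≤ c := by
  rw [cfun_eq D hz]
  exact csInf_le ⟨0, fun x hx => hx.1.le⟩ ⟨hc, h⟩

theorem VV_pos (D : Dat b β) {z : ℝ} (hz : 1 ≤ z) : 0 < VV b β z := by
  unfold VV
  exact Real.sqrt_pos.2 (div_pos (by linarith) D.hV)

end NiceE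

section Cores
variable {b : ℝ} {β : ℕ → ℝ}

open NiceE

theorem nice_of_core (D : Dat b β) (hne : ∀ z, 1 ≤ z → ∃ c, 0 < c ∧ Good (uu b β c z)) {z0 σ : ℝ}
    (hz0 : 1 ≤ z0) (hσ : σ = 1 ∨ σ = -1) (h : Core b β z0 σ) : Nice b β z0 σ := by
  obtain ⟨S, ε, hε, hS, hcore⟩ := h
  obtain ⟨f, ⟨F, hF, δ, hδ, hfF⟩, h2, h3, h4⟩ := exists_max_bound D hne hz0 hσ S hS
  -- the value at the point
  have e0 : z0 + σ * 0 = z0 := by ring
  have hval : f z0 = cfun b β z0 := by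
    refine le_antisymm (h2 z0 hz0) ?_
    by_contra hcon
    push Not at hcon
    set c := max (f z0) (cfun b β z0 - ε) with hc
    have hc1 : c < cfun b β z0 := max_lt hcon (by linarith)
    have hc2 : f z0 ≤ c := le_max_left _ _
    have hc3 : cfun b β z0 - ε ≤ c := le_max_right _ _
    have hV : VV b β z0 ≤ c := le_trans (h3 z0) hc2
    have hc0 : 0 < c := lt_of_lt_of_le (VV_pos D hz0) hV
    have hG := hcore 0 c le_rfl hε.le (by rw [e0]; exact hz0)
      (by rw [abs_le]; constructor <;> linarith) (by rw [e0]; exact hV)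
      (by rw [e0]; exact fun A hA => h4 z0 hz0 c hc2 A hA)
    rw [e0] at hG
    exact absurd (cfun_le D hz0 hc0 hG) (not_le.2 hc1)
  have hF0 : F z0 = cfun b β z0 := by
    rw [← hval]
    have := hfF 0 le_rfl hδ.le
    rw [e0] at this
    exact this.symm
  have hcont : ContinuousAt (fun t : ℝ => F (z0 + σ * t)) 0 :=
    (hF.cont.comp (by fun_prop : Continuous fun t : ℝ => z0 + σ * t)).continuousAt
  obtain ⟨δ', hδ', hcl⟩ := Metric.continuousAt_iff.1 hcont ε hε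
  refine ⟨min (min δ ε) (δ' / 2), lt_min (lt_min hδ hε) (by linarith), F, hF, ?_⟩
  intro t ht hte hz
  have t1 : t ≤ δ := le_trans hte (le_trans (min_le_left _ _) (min_le_left _ _))
  have t2 : t ≤ ε := le_trans hte (le_trans (min_le_left _ _) (min_le_right _ _))
  have t3 : t ≤ δ' / 2 := le_trans hte (min_le_right _ _)
  have hfe := hfF t ht t1
  rw [← hfe]
  refine le_antisymm ?_ (h2 _ hz)
  have hdist := hcl (x := t) (by
    rw [Real.dist_eq, sub_zero, abs_of_nonneg ht]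
    linarith)
  simp only [mul_zero, add_zero] at hdist
  rw [Real.dist_eq, hF0, ← hfe] at hdist
  have hVf := h3 (z0 + σ * t)
  exact cfun_le D hz (lt_of_lt_of_le (VV_pos D hz) hVf)
    (hcore t (f (z0 + σ * t)) ht t2 hz hdist.le hVf
      (fun A hA => h4 _ hz _ le_rfl A hA))

end Cores

end Pool.Agent.Stair
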