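import Pool.Agent.Lib.MP_f690a7_gt.Cases
import Pool.Agent.Lib.MP_f690a7_gt.NiceE

/-!
Accumulation points of singular points of the embedding function are irrational.
-/

namespace Pool.Agent.Stair

open Filter Topology

variable {b : ℝ} {β : ℕ → ℝ}

namespace Final

theorem vv_smooth (D : Dat b β) {z : ℝ} (hz : 0 < z) :
    ContDiffAt ℝ ((⊤ : ℕ∞) : WithTop ℕ∞) (VV b β) z := by
  have h : VV b β = fun z => √(z / Vol b β) := rfl
  rw [h]
  apply ContDiffAt.sqrt
  · exact contDiffAt_id.div_const _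
  · exact (div_pos hz D.hV).ne'

theorem nice_smooth (D : Dat b β) {F : ℝ → ℝ}
    (hF : F = VV b β ∨ ∃ x y : ℝ, F = fun z => x + y * z) {z : ℝ} (hz : 0 < z) :
    ContDiffAt ℝ ((⊤ : ℕ∞) : WithTop ℕ∞) F z := by
  rcases hF with rfl | ⟨x, y, rfl⟩
  · exact vv_smooth D hz
  · exact contDiffAt_const.add (contDiffAt_const.mul contDiffAt_id)

theorem nonempty (D : Dat b β) (R : ℝ)
    (hinf : {z : ℝ | 1 ≤ z ∧ z ≤ R ∧
      ¬ ContDiffAt ℝ ((⊤ : ℕ∞) : WithTop ℕ∞) (cfun b β) z}.Infinite) :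
    ∀ z, 1 ≤ z → ∃ c, 0 < c ∧ Good (uu b β c z) := by
  by_contra hcon
  push Not at hcon
  obtain ⟨z1, hz1, hn⟩ := hcon
  have hall : ∀ z, 1 ≤ z → ∀ c, 0 < c → ¬ Good (uu b β c z) := by
    intro z hz c hc hG
    obtain ⟨c', hc', hG'⟩ := dich D hz hz1 ⟨c, hc, hG⟩
    exact hn c' hc' hG'
  have hzero : ∀ z, 1 ≤ z → cfun b β z = 0 := by
    intro z hz
    rw [cfun_eq D hz]
    have : {c : ℝ | 0 < c ∧ Good (uu b β c z)} = ∅ := by
      ext c
      simp only [Set.mem_ofPred_eq, Set.mem_empty_iff_false, iff_false, not_and]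
      exact hall z hz c
    rw [this, Real.sInf_empty]
  apply hinf
  apply (Set.finite_singleton (1 : ℝ)).subset
  rintro z ⟨h1, -, hz⟩
  by_contra hne
  apply hz
  have hlt : 1 < z := lt_of_le_of_ne h1 fun h => hne h.symm
  have hev : cfun b β =ᶠ[𝓝 z] fun _ => (0 : ℝ) := by
    filter_upwards [lt_mem_nhds hlt] with y hy
    exact hzero y hy.le
  exact contDiffAt_const.congr_of_eventuallyEq hev

end Final

theorem final_weights (D : Dat b β) (R : ℝ)
    (hinf : {z : ℝ | 1 ≤ z ∧ z ≤ R ∧ ¬ ContDiffAt ℝ ((⊤ : ℕ∞) : WithTop ℕ∞) (cfun b β) z}.Infinite) :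
    ∃ a0 : ℝ, 1 < a0 ∧ Irrational a0 ∧ VV b β a0 = cfun b β a0 ∧
      (1 + a0) ^ 2 * Vol b β = a0 * Per b β ^ 2 := by
  have hne := Final.nonempty D R hinf
  set S := {z : ℝ | 1 ≤ z ∧ z ≤ R ∧ ¬ ContDiffAt ℝ ((⊤ : ℕ∞) : WithTop ℕ∞) (cfun b β) z} with hS
  obtain ⟨z0, hz0mem, hacc⟩ := hinf.exists_accPt_of_subset_isCompact
    (isCompact_Icc (a := (1 : ℝ)) (b := R)) (fun z hz => ⟨hz.1, hz.2.1⟩)
  have hz0 : 1 ≤ z0 := hz0mem.1
  have hexc : Irrational z0 ∧ VV b β z0 = cfun b β z0 ∧ VV b β z0 * Per b β = 1 + z0 := by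
    by_contra hexc
    have hright : ∀ᶠ z in 𝓝[>] z0, z ∉ S := by
      obtain ⟨ε, hε, F, hF, hc⟩ := nice_of_core D hne hz0 (Or.inl rfl)
        (core_all D hne hz0 (Or.inl rfl) hexc)
      have h1 : Set.Ioo z0 (z0 + ε) ∈ 𝓝[>] z0 := Ioo_mem_nhdsGT (by linarith)
      filter_upwards [h1] with z hz
      rintro ⟨-, -, hns⟩
      apply hns
      have hev : cfun b β =ᶠ[𝓝 z] F := by
        filter_upwards [Ioo_mem_nhds hz.1 hz.2] with y hy
        have := hc (y - z0) (by linarith [hy.1]) (by linarith [hy.2]) (by linarith [hy.1])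
        have e : z0 + 1 * (y - z0) = y := by ring
        rwa [e] at this
      exact (Final.nice_smooth D hF (by linarith [hz.1])).congr_of_eventuallyEq hev
    have hleft : ∀ᶠ z in 𝓝[<] z0, z ∉ S := by
      rcases lt_or_eq_of_le hz0 with hlt | heq
      · obtain ⟨ε, hε, F, hF, hc⟩ := nice_of_core D hne hz0 (Or.inr rfl)
          (core_all D hne hz0 (Or.inr ⟨rfl, hlt⟩) hexc)
        have h1 : Set.Ioo (max 1 (z0 - ε)) z0 ∈ 𝓝[<] z0 :=
          Ioo_mem_nhdsLT (max_lt hlt (by linarith))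
        filter_upwards [h1] with z hz
        rintro ⟨-, -, hns⟩
        apply hns
        have hz1 : 1 < z := lt_of_le_of_lt (le_max_left _ _) hz.1
        have hev : cfun b β =ᶠ[𝓝 z] F := by
          filter_upwards [Ioo_mem_nhds hz.1 hz.2] with y hy
          have hy1 : 1 < y := lt_of_le_of_lt (le_max_left _ _) hy.1
          have hy2 : z0 - ε < y := lt_of_le_of_lt (le_max_right _ _) hy.1
          have := hc (z0 - y) (by linarith [hy.2]) (by linarith) (by linarith)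
          have e : z0 + -1 * (z0 - y) = y := by ring
          rwa [e] at this
        exact (Final.nice_smooth D hF (by linarith)).congr_of_eventuallyEq hev
      · filter_upwards [self_mem_nhdsWithin] with z hz
        rintro ⟨h1, -, -⟩
        have : z < z0 := hz
        linarith
    have hne' : ∀ᶠ z in 𝓝[≠] z0, z ∉ S := by
      rw [← nhdsLT_sup_nhdsGT, Filter.eventually_sup]
      exact ⟨hleft, hright⟩
    rw [accPt_iff_frequently_nhdsNE] at hacc
    exact hacc hne'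
  obtain ⟨hirr, heq, hval⟩ := hexc
  refine ⟨z0, ?_, hirr, heq, ?_⟩
  · apply lt_of_le_of_ne hz0
    intro h
    exact hirr ⟨1, by rw [← h]; simp⟩
  · have hV := D.hV
    have h2 : VV b β z0 ^ 2 = z0 / Vol b β := by
      unfold VV
      rw [Real.sq_sqrt]
      exact (div_pos (by linarith) hV).le
    rw [← hval]
    calc (VV b β z0 * Per b β) ^ 2 * Vol b β = VV b β z0 ^ 2 * Vol b β * Per b β ^ 2 := by ring
      _ = z0 * Per b β ^ 2 := by rw [h2, div_mul_cancel₀ _ hV.ne']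

end Pool.Agent.Stair
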