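import Pool.Agent.Lib.MP_f690a7_gt.DefsOm

/-!
Support function of a compact convex region and the Stern-Brocot enumeration of the primitive
vectors.
-/

namespace Pool.Agent.Stair

open MeasureTheory

/-- pairing of an integer vector with a point -/
noncomputable def pr (n : ℤ × ℤ) (x : ℝ × ℝ) : ℝ := (n.1 : ℝ) * x.1 + (n.2 : ℝ) * x.2

/-! ### Support function -/

theorem OmB.continuous_pr (n : ℤ × ℤ) : Continuous (pr n) := by
  unfold pr; fun_prop

theorem OmB.pr_add (m n : ℤ × ℤ) (x : ℝ × ℝ) : pr (m + n) x = pr m x + pr n x := by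
  simp only [pr, Prod.fst_add, Prod.snd_add, Int.cast_add]; ring

theorem OmB.pr_smul (k : ℤ) (n : ℤ × ℤ) (x : ℝ × ℝ) : pr (k • n) x = k * pr n x := by
  simp only [pr, Prod.smul_fst, Prod.smul_snd, smul_eq_mul, Int.cast_mul]; ring

theorem OmB.hs_eq (Ω : Set (ℝ × ℝ)) (n : ℤ × ℤ) : hs Ω n = sSup (pr n '' Ω) := rfl

theorem pr_le_hs {Ω : Set (ℝ × ℝ)} (hc : IsCompact Ω) (n : ℤ × ℤ) {x : ℝ × ℝ} (hx : x ∈ Ω) :
    pr n x ≤ hs Ω n :=
  le_csSup (hc.image (OmB.continuous_pr n)).bddAbove ⟨x, hx, rfl⟩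

theorem exists_hs {Ω : Set (ℝ × ℝ)} (hc : IsCompact Ω) (hne : Ω.Nonempty) (n : ℤ × ℤ) :
    ∃ x ∈ Ω, pr n x = hs Ω n := by
  obtain ⟨x, hx, h⟩ := hc.exists_sSup_image_eq hne (OmB.continuous_pr n).continuousOn
  exact ⟨x, hx, h.symm⟩

theorem hs_add_le {Ω : Set (ℝ × ℝ)} (hc : IsCompact Ω) (hne : Ω.Nonempty) (m n : ℤ × ℤ) :
    hs Ω (m + n) ≤ hs Ω m + hs Ω n := by
  obtain ⟨x, hx, h⟩ := exists_hs hc hne (m + n)
  rw [← h, OmB.pr_add]
  exact add_le_add (pr_le_hs hc m hx) (pr_le_hs hc n hx)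

theorem wOm_nonneg {Ω : Set (ℝ × ℝ)} (hc : IsCompact Ω) (hne : Ω.Nonempty) (j : Fin 3 × List Bool) :
    0 ≤ wOm Ω j :=
  sub_nonneg.mpr (hs_add_le hc hne _ _)

/-! ### Stern-Brocot pairs -/

theorem OmB.sbp_det (l : List Bool) : ∀ u v : ℤ × ℤ,
    (sbp u v l).1.1 * (sbp u v l).2.2 - (sbp u v l).1.2 * (sbp u v l).2.1 =
      u.1 * v.2 - u.2 * v.1 := by
  induction l with
  | nil => intro u v; rfl
  | cons b l ih =>
    intro u v
    cases b
    · rw [sbp, ih]
      simp only [Prod.fst_add, Prod.snd_add]; ring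
    · rw [sbp, ih]
      simp only [Prod.fst_add, Prod.snd_add]; ring

theorem OmB.nn_det (i : Fin 3) : (nn i).1 * (nn (i + 1)).2 - (nn i).2 * (nn (i + 1)).1 = 1 := by
  fin_cases i <;> simp [nn]

theorem sbp_det (i : Fin 3) (l : List Bool) :
    (sbp (nn i) (nn (i + 1)) l).1.1 * (sbp (nn i) (nn (i + 1)) l).2.2 -
      (sbp (nn i) (nn (i + 1)) l).1.2 * (sbp (nn i) (nn (i + 1)) l).2.1 = 1 := by
  rw [OmB.sbp_det, OmB.nn_det]

/-- mediants of the Stern-Brocot pairs -/
def med (j : Fin 3 × List Bool) : ℤ × ℤ :=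
  (sbp (nn j.1) (nn (j.1 + 1)) j.2).1 + (sbp (nn j.1) (nn (j.1 + 1)) j.2).2

/-- coordinates of the mediants in the basis of the corner -/
def OmB.mu : List Bool → ℤ × ℤ
  | [] => (1, 1)
  | false :: l => ((OmB.mu l).1 + (OmB.mu l).2, (OmB.mu l).2)
  | true :: l => ((OmB.mu l).1, (OmB.mu l).1 + (OmB.mu l).2)

theorem OmB.sbp_mu (l : List Bool) : ∀ u v : ℤ × ℤ,
    (sbp u v l).1 + (sbp u v l).2 = (OmB.mu l).1 • u + (OmB.mu l).2 • v := by
  induction l with
  | nil => intro u v; simp [sbp, OmB.mu]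
  | cons b l ih =>
    intro u v
    cases b
    · rw [sbp, ih, OmB.mu, smul_add, add_smul, add_assoc]
    · rw [sbp, ih, OmB.mu, smul_add, add_smul, add_assoc]

theorem OmB.mu_pos (l : List Bool) : 0 < (OmB.mu l).1 ∧ 0 < (OmB.mu l).2 := by
  induction l with
  | nil => simp [OmB.mu]
  | cons b l ih =>
    cases b
    · rw [OmB.mu]; exact ⟨add_pos ih.1 ih.2, ih.2⟩
    · rw [OmB.mu]; exact ⟨ih.1, add_pos ih.1 ih.2⟩

theorem OmB.mu_inj : Function.Injective OmB.mu := by
  intro l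
  induction l with
  | nil =>
    intro l' h
    cases l' with
    | nil => rfl
    | cons b l' =>
      have hp := OmB.mu_pos l'
      cases b <;> simp only [OmB.mu, Prod.mk.injEq] at h <;> omega
  | cons b l ih =>
    intro l' h
    have hp := OmB.mu_pos l
    cases l' with
    | nil => cases b <;> simp only [OmB.mu, Prod.mk.injEq] at h <;> omega
    | cons b' l' =>
      have hp' := OmB.mu_pos l'
      cases b <;> cases b' <;> simp only [OmB.mu, Prod.mk.injEq] at h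
      · rw [ih (Prod.ext (by omega) (by omega) : OmB.mu l = OmB.mu l')]
      · omega
      · omega
      · rw [ih (Prod.ext (by omega) (by omega) : OmB.mu l = OmB.mu l')]

theorem OmB.mu_surj (N : ℕ) : ∀ a b : ℤ, 0 < a → 0 < b → a + b ≤ N → IsCoprime a b →
    ∃ l, OmB.mu l = (a, b) := by
  induction N with
  | zero => intro a b ha hb h; push_cast at h; omega
  | succ N ih =>
    intro a b ha hb h hab
    push_cast at h
    rcases lt_trichotomy a b with hlt | heq | hgt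
    · obtain ⟨l, hl⟩ := ih a (b - a) ha (by omega) (by omega) (by
        have := hab.add_mul_left_right (-1)
        rwa [mul_neg_one, ← sub_eq_add_neg] at this)
      exact ⟨true :: l, by rw [OmB.mu, hl]; simp⟩
    · subst heq
      have h1 : IsUnit a := isCoprime_self.mp hab
      rw [Int.isUnit_iff] at h1
      have h2 : a = 1 := by omega
      subst h2
      exact ⟨[], rfl⟩
    · obtain ⟨l, hl⟩ := ih (a - b) b (by omega) hb (by omega) (by
        have := hab.add_mul_left_left (-1)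
        rwa [mul_neg_one, ← sub_eq_add_neg] at this)
      exact ⟨false :: l, by rw [OmB.mu, hl]; simp⟩

theorem OmB.med_zero (l : List Bool) :
    med (0, l) = ((OmB.mu l).1 - (OmB.mu l).2, (OmB.mu l).1) := by
  rw [med, OmB.sbp_mu]
  ext
  · simp [nn]; ring
  · simp [nn]

theorem OmB.med_one (l : List Bool) : med (1, l) = (-(OmB.mu l).1, -(OmB.mu l).2) := by
  rw [med, OmB.sbp_mu]
  ext <;> simp [nn]

theorem OmB.med_two (l : List Bool) :
    med (2, l) = ((OmB.mu l).2, (OmB.mu l).2 - (OmB.mu l).1) := by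
  rw [med, OmB.sbp_mu]
  ext
  · simp [nn]
  · simp [nn]; ring

theorem med_prop (j : Fin 3 × List Bool) :
    IsCoprime (med j).1 (med j).2 ∧ ∀ i, med j ≠ nn i := by
  obtain ⟨i, l⟩ := j
  constructor
  · refine ⟨-(sbp (nn i) (nn (i + 1)) l).1.2, (sbp (nn i) (nn (i + 1)) l).1.1, ?_⟩
    have h := sbp_det i l
    simp only [med, Prod.fst_add, Prod.snd_add]
    linarith
  · have hp := OmB.mu_pos l
    intro k hk
    fin_cases i
    · change med (0, l) = _ at hk
      rw [OmB.med_zero] at hk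
      fin_cases k <;> simp [nn] at hk <;> omega
    · change med (1, l) = _ at hk
      rw [OmB.med_one] at hk
      fin_cases k <;> simp [nn] at hk <;> omega
    · change med (2, l) = _ at hk
      rw [OmB.med_two] at hk
      fin_cases k <;> simp [nn] at hk <;> omega

theorem med_inj : Function.Injective med := by
  rintro ⟨i, l⟩ ⟨i', l'⟩ h
  have hp := OmB.mu_pos l
  have hp' := OmB.mu_pos l'
  have key : ∀ a b a' b' : ℤ, (a, b) = (a', b') → a = a' ∧ b = b' := by
    intro a b a' b' h; simpa using h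
  have e0 := OmB.med_zero
  have e1 := OmB.med_one
  have e2 := OmB.med_two
  fin_cases i <;> fin_cases i' <;> simp only [Fin.zero_eta, Fin.mk_one, Fin.reduceFinMk] at h ⊢ <;>
    simp only [e0, e1, e2] at h <;> have h := key _ _ _ _ h <;>
    first
      | (exfalso; omega)
      | (rw [OmB.mu_inj (Prod.ext (by omega) (by omega) : OmB.mu l = OmB.mu l')])

theorem med_surj (n : ℤ × ℤ) (hn : IsCoprime n.1 n.2) (h : ∀ i, n ≠ nn i) : ∃ j, med j = n := by
  obtain ⟨x, y⟩ := n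
  simp only at hn
  have h0 := h 0
  have h1 := h 1
  have h2 := h 2
  simp only [nn, Matrix.cons_val_zero, Matrix.cons_val_one, Matrix.cons_val, ne_eq,
    Prod.mk.injEq] at h0 h1 h2
  by_cases c0 : 0 < y ∧ x < y
  · obtain ⟨l, hl⟩ := OmB.mu_surj (y + (y - x)).toNat y (y - x) c0.1 (by omega) (by omega) (by
      have := hn.symm.neg_right.add_mul_left_right 1
      rwa [mul_one, neg_add_eq_sub] at this)
    exact ⟨(0, l), by rw [OmB.med_zero, hl]; simp⟩
  by_cases c1 : x < 0 ∧ y < 0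
  · obtain ⟨l, hl⟩ := OmB.mu_surj (-x + -y).toNat (-x) (-y) (by omega) (by omega) (by omega)
      hn.neg_neg
    exact ⟨(1, l), by rw [OmB.med_one, hl]; simp⟩
  by_cases c2 : 0 < x ∧ y < x
  · obtain ⟨l, hl⟩ := OmB.mu_surj (x - y + x).toNat (x - y) x (by omega) c2.1 (by omega) (by
      have := hn.symm.neg_left.add_mul_left_left 1
      rwa [mul_one, neg_add_eq_sub] at this)
    exact ⟨(2, l), by rw [OmB.med_two, hl]; simp⟩
  exfalso
  by_cases hx0 : x = 0
  · subst hx0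
    have h3 : IsUnit y := isCoprime_zero_left.mp hn
    rw [Int.isUnit_iff] at h3
    omega
  by_cases hy0 : y = 0
  · subst hy0
    have h3 : IsUnit x := isCoprime_zero_right.mp hn
    rw [Int.isUnit_iff] at h3
    omega
  have hxy : x = y := by omega
  subst hxy
  have h3 : IsUnit x := isCoprime_self.mp hn
  rw [Int.isUnit_iff] at h3
  omega

/-! ### Separation by primitive integer vectors -/

theorem OmB.exists_coprime (m : ℤ × ℤ) (hm : m ≠ 0) :
    ∃ (g : ℕ) (n : ℤ × ℤ), 0 < g ∧ IsCoprime n.1 n.2 ∧ m = (g : ℤ) • n := by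
  have hg : 0 < Int.gcd m.1 m.2 := by
    rw [Int.gcd_pos_iff]
    by_contra h
    push Not at h
    exact hm (Prod.ext h.1 h.2)
  refine ⟨Int.gcd m.1 m.2, (m.1 / (Int.gcd m.1 m.2 : ℤ), m.2 / (Int.gcd m.1 m.2 : ℤ)), hg, ?_, ?_⟩
  · rw [Int.isCoprime_iff_gcd_eq_one]
    exact Int.gcd_div_gcd_div_gcd hg
  · ext
    · simp only [Prod.smul_mk, smul_eq_mul]
      exact (Int.mul_ediv_cancel' (Int.gcd_dvd_left ..)).symm
    · simp only [Prod.smul_mk, smul_eq_mul]
      exact (Int.mul_ediv_cancel' (Int.gcd_dvd_right ..)).symm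

theorem eq_iInter_hs {Ω : Set (ℝ × ℝ)} (hc : IsCompact Ω) (hconv : Convex ℝ Ω) (hne : Ω.Nonempty) :
    Ω = {x | ∀ n : ℤ × ℤ, IsCoprime n.1 n.2 → pr n x ≤ hs Ω n} := by
  apply Set.Subset.antisymm
  · intro x hx n _
    exact pr_le_hs hc n hx
  intro x hx
  by_contra hxΩ
  obtain ⟨f, u, hf1, hf2⟩ := geometric_hahn_banach_closed_point hconv hc.isClosed hxΩ
  obtain ⟨R, hR⟩ := (hc.insert x).isBounded.exists_norm_le
  have hR0 : 0 ≤ R := (norm_nonneg x).trans (hR x (Set.mem_insert _ _))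
  have hδ : 0 < f x - u := sub_pos.mpr hf2
  obtain ⟨N, hN⟩ := exists_nat_gt (4 * R / (f x - u))
  rw [div_lt_iff₀ hδ] at hN
  have hfy : ∀ y : ℝ × ℝ, f y = f (1, 0) * y.1 + f (0, 1) * y.2 := by
    intro y
    have h1 : y = y.1 • ((1 : ℝ), (0 : ℝ)) + y.2 • ((0 : ℝ), (1 : ℝ)) := by ext <;> simp
    conv_lhs => rw [h1]
    rw [map_add, map_smul, map_smul, smul_eq_mul, smul_eq_mul]
    ring
  set m : ℤ × ℤ := (round (N * f (1, 0)), round (N * f (0, 1))) with hm
  have hr1 := abs_sub_round ((N : ℝ) * f (1, 0))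
  have hr2 := abs_sub_round ((N : ℝ) * f (0, 1))
  have hest : ∀ y ∈ insert x Ω, |pr m y - N * f y| ≤ R := by
    intro y hy
    have h1 : |y.1| ≤ R := (norm_fst_le y).trans (hR y hy)
    have h2 : |y.2| ≤ R := (norm_snd_le y).trans (hR y hy)
    have h3 : pr m y - N * f y = -((N * f (1, 0) - (m.1 : ℝ)) * y.1 +
        (N * f (0, 1) - (m.2 : ℝ)) * y.2) := by
      rw [hfy y, pr]; ring
    rw [h3, abs_neg]
    refine (abs_add_le _ _).trans ?_
    rw [abs_mul, abs_mul]
    have h4 : |N * f (1, 0) - (m.1 : ℝ)| * |y.1| ≤ 1 / 2 * R :=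
      mul_le_mul hr1 h1 (abs_nonneg _) (by norm_num)
    have h5 : |N * f (0, 1) - (m.2 : ℝ)| * |y.2| ≤ 1 / 2 * R :=
      mul_le_mul hr2 h2 (abs_nonneg _) (by norm_num)
    linarith
  have hlt : ∀ y ∈ Ω, pr m y < pr m x := by
    intro y hy
    have h1 := abs_le.mp (hest y (Set.mem_insert_of_mem _ hy))
    have h2 := abs_le.mp (hest x (Set.mem_insert _ _))
    have h3 : (N : ℝ) * f y ≤ N * u := mul_le_mul_of_nonneg_left (hf1 y hy).le (Nat.cast_nonneg _)
    nlinarith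
  have hm0 : m ≠ 0 := by
    intro h0
    obtain ⟨y, hy⟩ := hne
    have := hlt y hy
    rw [h0] at this
    simp [pr] at this
  obtain ⟨g, n, hg, hn, hmn⟩ := OmB.exists_coprime m hm0
  obtain ⟨y, hy, hyn⟩ := exists_hs hc hne n
  have h1 := hlt y hy
  have h2 := hx n hn
  rw [hmn, OmB.pr_smul, OmB.pr_smul, hyn] at h1
  have h3 : (0 : ℝ) < ((g : ℤ) : ℝ) := by exact_mod_cast hg
  exact absurd h2 (not_le.mpr (lt_of_mul_lt_mul_left h1 h3.le))

end Pool.Agent.Stair
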