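import Pool.Agent.Lib.MP_f690a7_gt.OmS

/-!
The affine perimeter of a convex region is three times the size of the big triangle minus the sum
of the weights.
-/

namespace Pool.Agent.Stair

open MeasureTheory Filter Topology

namespace OmP

open OmS

/-- adding the first vector decreases the gap -/
theorem gap_add_le {Ω : Set (ℝ × ℝ)} (hc : IsCompact Ω) (hne : Ω.Nonempty) (w x : ℤ × ℤ) (m : ℕ) :
    gap Ω w (x + (m : ℤ) • w) ≤ gap Ω w x := by
  induction m with
  | zero => simp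
  | succ m ih =>
    have h1 := gap_add hc hne w (x + (m : ℤ) • w)
    have h2 := hs_add_le hc hne w (x + (m : ℤ) • w)
    have h3 : x + ((m + 1 : ℕ) : ℤ) • w = w + (x + (m : ℤ) • w) := by
      rw [Nat.cast_succ, add_smul, one_smul]
      abel
    rw [h3]
    linarith

theorem gap_add_anti {Ω : Set (ℝ × ℝ)} (hc : IsCompact Ω) (hne : Ω.Nonempty) (w x : ℤ × ℤ) :
    Antitone fun m : ℕ => gap Ω w (x + (m : ℤ) • w) := by
  refine antitone_nat_of_succ_le fun m => ?_
  have h1 := gap_add_le hc hne w (x + (m : ℤ) • w) 1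
  have h3 : x + ((m + 1 : ℕ) : ℤ) • w = x + (m : ℤ) • w + ((1 : ℕ) : ℤ) • w := by
    rw [Nat.cast_succ, add_smul]
    simp only [Nat.cast_one, add_assoc]
  rw [h3]
  exact h1

/-- directional derivative of the support function -/
theorem tendsto_gap {Ω : Set (ℝ × ℝ)} (hc : IsCompact Ω) (hne : Ω.Nonempty) (w x : ℤ × ℤ) :
    Tendsto (fun m : ℕ => gap Ω w (x + (m : ℤ) • w)) atTop (𝓝 0) := by
  have hanti := gap_add_anti hc hne w x
  obtain ⟨z, hz, hzw, hzmax, -⟩ := gap_eq hc hne w x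
  choose y hy hyh using fun m : ℕ => exists_hs hc hne (x + (m : ℤ) • w)
  -- the gap in terms of the maximisers
  have hgap : ∀ m : ℕ, gap Ω w (x + (m : ℤ) • w) =
      pr x (y m) - pr x z - m * (hs Ω w - pr w (y m)) := by
    intro m
    obtain ⟨z', hz', hzw', hzmax', hg'⟩ := gap_eq hc hne w (x + (m : ℤ) • w)
    have e1 := hzmax z' hz' hzw'
    have e2 := hzmax' z hz hzw
    simp only [OmB.pr_add, OmB.pr_smul, hzw, hzw'] at e2
    rw [hg', ← hyh m]
    simp only [OmB.pr_add, OmB.pr_smul, hzw']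
    have e3 : pr x z' = pr x z := by linarith
    rw [e3]
    push_cast
    ring
  have hnn : ∀ m : ℕ, 0 ≤ gap Ω w (x + (m : ℤ) • w) := fun m => gap_nonneg hc hne _ _
  have hw : ∀ m : ℕ, 0 ≤ hs Ω w - pr w (y m) := fun m => sub_nonneg.2 (pr_le_hs hc w (hy m))
  refine tendsto_order.2 ⟨fun a ha => Eventually.of_forall fun m => ha.trans_le (hnn m),
    fun ε hε => ?_⟩
  by_contra hcon
  have hall : ∀ m : ℕ, ε ≤ gap Ω w (x + (m : ℤ) • w) := by
    intro m
    by_contra h
    push Not at h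
    exact hcon ((eventually_ge_atTop m).mono fun k hk => (hanti hk).trans_lt h)
  obtain ⟨a, ha, φ, hφ, hlim⟩ := hc.tendsto_subseq hy
  have h1 : Tendsto (fun k => pr x (y (φ k))) atTop (𝓝 (pr x a)) :=
    ((continuous_pr x).tendsto a).comp hlim
  have h2 : Tendsto (fun k => pr w (y (φ k))) atTop (𝓝 (pr w a)) :=
    ((continuous_pr w).tendsto a).comp hlim
  have h3 : pr x z + ε ≤ pr x a := by
    refine ge_of_tendsto h1 (Eventually.of_forall fun k => ?_)
    have e1 := hall (φ k)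
    rw [hgap] at e1
    have e2 : 0 ≤ ((φ k : ℕ) : ℝ) * (hs Ω w - pr w (y (φ k))) :=
      mul_nonneg (Nat.cast_nonneg _) (hw _)
    linarith
  -- the limit lies in the face
  have h4 : pr w a = hs Ω w := by
    refine le_antisymm (pr_le_hs hc w ha) ?_
    by_contra hlt
    push Not at hlt
    set δ := (hs Ω w - pr w a) / 2 with hδ
    have hδ0 : 0 < δ := by rw [hδ]; linarith
    obtain ⟨N, hN⟩ := exists_nat_gt ((hs Ω x - pr x z) / δ)
    rw [div_lt_iff₀ hδ0] at hN
    have e1 : ∀ᶠ k in atTop, pr w (y (φ k)) < pr w a + δ := h2.eventually_lt_const (by linarith)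
    obtain ⟨k, hk1, hk2⟩ := (e1.and (eventually_ge_atTop N)).exists
    have e2 : δ ≤ hs Ω w - pr w (y (φ k)) := by rw [hδ] at hk1 ⊢; linarith
    have e3 : (N : ℝ) ≤ (φ k : ℕ) := by
      exact_mod_cast hk2.trans (hφ.id_le k)
    have e4 : (N : ℝ) * δ ≤ (φ k : ℕ) * (hs Ω w - pr w (y (φ k))) :=
      mul_le_mul e3 e2 hδ0.le (Nat.cast_nonneg _)
    have e5 := hall (φ k)
    rw [hgap] at e5
    have e6 := pr_le_hs hc x (hy (φ k))
    linarith
  have h5 := hzmax a ha h4
  linarith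

/-- the gaps of the mediant of the pair `l`, `m` steps after its birth -/
noncomputable def G (Ω : Set (ℝ × ℝ)) (u v : ℤ × ℤ) (l : List Bool) (m : ℕ) : ℝ :=
  gap Ω ((sbp u v l).1 + (sbp u v l).2)
      ((sbp u v l).1 + (m : ℤ) • ((sbp u v l).1 + (sbp u v l).2)) +
    gap Ω ((sbp u v l).1 + (sbp u v l).2)
      ((sbp u v l).2 + (m : ℤ) • ((sbp u v l).1 + (sbp u v l).2))

theorem leaf_sum (Ω : Set (ℝ × ℝ)) (k : ℕ) (u v : ℤ × ℤ) :
    ∑ l ∈ L k, (gap Ω (sbp u v l).1 (sbp u v l).2 + gap Ω (sbp u v l).2 (sbp u v l).1) =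
      gap Ω u (v + (k : ℤ) • u) + gap Ω v (u + (k : ℤ) • v) +
        ∑ l ∈ T k, G Ω u v l (k - 1 - l.length) := by
  induction k generalizing u v with
  | zero => simp [T, L, sbp]
  | succ k ih =>
    rw [sum_T, sum_L]
    have h1 := ih u (u + v)
    have h2 := ih (u + v) v
    simp only [sbp] at h1 h2 ⊢
    rw [h1, h2]
    have e1 : ∀ l ∈ T k, G Ω u v (false :: l) (k + 1 - 1 - (false :: l).length) =
        G Ω u (u + v) l (k - 1 - l.length) := by
      intro l _
      have : k + 1 - 1 - (false :: l).length = k - 1 - l.length := by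
        rw [List.length_cons]; omega
      rw [this]
      rfl
    have e2 : ∀ l ∈ T k, G Ω u v (true :: l) (k + 1 - 1 - (true :: l).length) =
        G Ω (u + v) v l (k - 1 - l.length) := by
      intro l _
      have : k + 1 - 1 - (true :: l).length = k - 1 - l.length := by
        rw [List.length_cons]; omega
      rw [this]
      rfl
    rw [Finset.sum_congr rfl e1, Finset.sum_congr rfl e2]
    have e3 : G Ω u v [] (k + 1 - 1 - ([] : List Bool).length) =
        gap Ω (u + v) (u + (k : ℤ) • (u + v)) + gap Ω (u + v) (v + (k : ℤ) • (u + v)) := by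
      have : k + 1 - 1 - ([] : List Bool).length = k := by simp
      rw [this]
      rfl
    rw [e3]
    have e4 : u + v + (k : ℤ) • u = v + ((k + 1 : ℕ) : ℤ) • u := by
      rw [Nat.cast_succ, add_smul, one_smul]
      abel
    have e5 : u + v + (k : ℤ) • v = u + ((k + 1 : ℕ) : ℤ) • v := by
      rw [Nat.cast_succ, add_smul, one_smul]
      abel
    rw [e4, e5]
    ring

theorem det_sbp (u v : ℤ × ℤ) (hdet : u.1 * v.2 - u.2 * v.1 = 1) (l : List Bool) :
    (sbp u v l).1.1 * (sbp u v l).2.2 - (sbp u v l).1.2 * (sbp u v l).2.1 = 1 := by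
  rw [OmB.sbp_det, hdet]

theorem G_bound {Ω : Set (ℝ × ℝ)} (hc : IsCompact Ω) (hne : Ω.Nonempty) (u v : ℤ × ℤ)
    (hdet : u.1 * v.2 - u.2 * v.1 = 1) (l : List Bool) (m : ℕ) :
    0 ≤ G Ω u v l m ∧ G Ω u v l m ≤ be Ω u v l := by
  have h1 := gap_add_le hc hne ((sbp u v l).1 + (sbp u v l).2) (sbp u v l).1 m
  have h2 := gap_add_le hc hne ((sbp u v l).1 + (sbp u v l).2) (sbp u v l).2 m
  obtain ⟨h3, h4⟩ := gap_latLen hc hne (sbp u v l).1 (sbp u v l).2 (det_sbp u v hdet l)
  refine ⟨add_nonneg (gap_nonneg hc hne _ _) (gap_nonneg hc hne _ _), ?_⟩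
  unfold G be
  linarith

theorem tendsto_G {Ω : Set (ℝ × ℝ)} (hc : IsCompact Ω) (hne : Ω.Nonempty) (u v : ℤ × ℤ)
    (l : List Bool) : Tendsto (fun m : ℕ => G Ω u v l m) atTop (𝓝 0) := by
  have := (tendsto_gap hc hne ((sbp u v l).1 + (sbp u v l).2) (sbp u v l).1).add
    (tendsto_gap hc hne ((sbp u v l).1 + (sbp u v l).2) (sbp u v l).2)
  rw [add_zero] at this
  exact this

theorem T_mono : Monotone T := by
  intro a b hab l hl
  rw [mem_T] at hl ⊢
  omega

theorem T_tendsto : Tendsto T atTop atTop :=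
  tendsto_atTop_finset_of_monotone T_mono fun l => ⟨l.length + 1, (mem_T _ _).2 (by omega)⟩

theorem be_nonneg {Ω : Set (ℝ × ℝ)} (hc : IsCompact Ω) (hne : Ω.Nonempty) (u v : ℤ × ℤ)
    (l : List Bool) : 0 ≤ be Ω u v l := by
  have := hs_add_le hc hne (sbp u v l).1 (sbp u v l).2
  unfold be
  linarith

theorem summable_of_T {f : List Bool → ℝ} (h0 : ∀ l, 0 ≤ f l) (c : ℝ)
    (h : ∀ k, ∑ l ∈ T k, f l ≤ c) : Summable f := by
  refine summable_of_sum_le (c := c) h0 fun s => ?_
  obtain ⟨k, hk⟩ : ∃ k, ∀ j ∈ s, j.length < k := by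
    refine ⟨s.sup (fun j => j.length) + 1, fun j hj => ?_⟩
    have := Finset.le_sup (f := fun j : List Bool => j.length) hj
    omega
  exact (Finset.sum_le_sum_of_subset_of_nonneg (fun l hl => (mem_T k l).2 (hk l hl))
    fun l _ _ => h0 l).trans (h k)

theorem summable_be {Ω : Set (ℝ × ℝ)} (hc : IsCompact Ω) (hne : Ω.Nonempty) (u v : ℤ × ℤ)
    (hdet : u.1 * v.2 - u.2 * v.1 = 1) : Summable (be Ω u v) :=
  summable_of_T (be_nonneg hc hne u v) _ fun k => sum_be_le hc hne k u v hdet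

theorem tendsto_leaf {Ω : Set (ℝ × ℝ)} (hc : IsCompact Ω) (hne : Ω.Nonempty) (u v : ℤ × ℤ)
    (hdet : u.1 * v.2 - u.2 * v.1 = 1) :
    Tendsto (fun k => ∑ l ∈ L k, (gap Ω (sbp u v l).1 (sbp u v l).2 +
      gap Ω (sbp u v l).2 (sbp u v l).1)) atTop (𝓝 0) := by
  simp_rw [leaf_sum]
  have h1 := (tendsto_gap hc hne u v).add (tendsto_gap hc hne v u)
  rw [add_zero] at h1
  have h2 : Tendsto (fun k => ∑' l : List Bool,
      if l ∈ T k then G Ω u v l (k - 1 - l.length) else 0) atTop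
      (𝓝 (∑' _ : List Bool, (0 : ℝ))) := by
    refine tendsto_tsum_of_dominated_convergence (summable_be hc hne u v hdet) ?_ ?_
    · intro l
      have e1 : Tendsto (fun k : ℕ => k - 1 - l.length) atTop atTop := by
        refine tendsto_atTop_mono' _ ?_ (tendsto_sub_atTop_nat (l.length + 1))
        refine Eventually.of_forall fun k => ?_
        change k - (l.length + 1) ≤ k - 1 - l.length
        omega
      have e2 := (tendsto_G hc hne u v l).comp e1
      refine e2.congr' ?_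
      filter_upwards [eventually_gt_atTop l.length] with k hk
      rw [if_pos ((mem_T k l).2 hk)]
      rfl
    · refine Eventually.of_forall fun k l => ?_
      have e := G_bound hc hne u v hdet l (k - 1 - l.length)
      split_ifs
      · rw [Real.norm_of_nonneg e.1]
        exact e.2
      · rw [norm_zero]
        exact be_nonneg hc hne u v l
  have h3 : ∀ k, ∑' l : List Bool, (if l ∈ T k then G Ω u v l (k - 1 - l.length) else 0) =
      ∑ l ∈ T k, G Ω u v l (k - 1 - l.length) := by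
    intro k
    rw [tsum_eq_sum (s := T k)]
    · exact Finset.sum_congr rfl fun l hl => if_pos hl
    · intro l hl
      exact if_neg hl
  simp_rw [h3] at h2
  rw [tsum_zero] at h2
  have h4 := h1.add h2
  rw [add_zero] at h4
  exact h4

theorem latLen_sum {Ω : Set (ℝ × ℝ)} (hc : IsCompact Ω) (hne : Ω.Nonempty) (u v : ℤ × ℤ)
    (hdet : u.1 * v.2 - u.2 * v.1 = 1) :
    Summable (fun l => latLen Ω ((sbp u v l).1 + (sbp u v l).2)) ∧
      ∑' l, latLen Ω ((sbp u v l).1 + (sbp u v l).2) =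
        gap Ω u v + gap Ω v u - ∑' l, be Ω u v l := by
  have h0 : ∀ l, 0 ≤ latLen Ω ((sbp u v l).1 + (sbp u v l).2) :=
    fun l => latLen_sbp_nonneg hc hne l u v hdet
  have hsum : Summable (fun l => latLen Ω ((sbp u v l).1 + (sbp u v l).2)) := by
    refine summable_of_T h0 (gap Ω u v + gap Ω v u) fun k => ?_
    rw [gap_tree hc hne k u v hdet]
    have h1 : 0 ≤ ∑ l ∈ T k, be Ω u v l := Finset.sum_nonneg fun l _ => be_nonneg hc hne u v l
    have h2 : 0 ≤ ∑ l ∈ L k, (gap Ω (sbp u v l).1 (sbp u v l).2 +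
        gap Ω (sbp u v l).2 (sbp u v l).1) :=
      Finset.sum_nonneg fun l _ => add_nonneg (gap_nonneg hc hne _ _) (gap_nonneg hc hne _ _)
    linarith
  refine ⟨hsum, ?_⟩
  have h1 : Tendsto (fun k => ∑ l ∈ T k, latLen Ω ((sbp u v l).1 + (sbp u v l).2)) atTop
      (𝓝 (∑' l, latLen Ω ((sbp u v l).1 + (sbp u v l).2))) := hsum.hasSum.comp T_tendsto
  have h2 : Tendsto (fun k => ∑ l ∈ T k, be Ω u v l) atTop (𝓝 (∑' l, be Ω u v l)) :=
    (summable_be hc hne u v hdet).hasSum.comp T_tendsto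
  have h3 : Tendsto (fun k => ∑ l ∈ T k, latLen Ω ((sbp u v l).1 + (sbp u v l).2)) atTop
      (𝓝 (gap Ω u v + gap Ω v u - ∑' l, be Ω u v l - 0)) := by
    have e := ((tendsto_const_nhds (x := gap Ω u v + gap Ω v u)).sub h2).sub
      (tendsto_leaf hc hne u v hdet)
    refine e.congr fun k => ?_
    have := gap_tree hc hne k u v hdet
    linarith
  rw [sub_zero] at h3
  exact tendsto_nhds_unique h1 h3

theorem latLen_nn {Ω : Set (ℝ × ℝ)} (hc : IsCompact Ω) (hne : Ω.Nonempty) (w a b : ℤ × ℤ)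
    (hdet : w.1 * a.2 - w.2 * a.1 = 1) (hs0 : w + a + b = 0) :
    latLen Ω w = hs Ω w + hs Ω a + hs Ω b - gap Ω w a - gap Ω w b := by
  obtain ⟨h1, -⟩ := gap_latLen hc hne (w - a) a (by
    simp only [Prod.fst_sub, Prod.snd_sub]
    linarith)
  have e1 : w - a + a = w := sub_add_cancel w a
  rw [e1] at h1
  have e2 : w - a = w + (w + b) := by
    have : a = -(w + b) := by
      rw [eq_neg_iff_add_eq_zero, ← hs0]
      abel
    rw [this]
    abel
  have h2 := gap_add hc hne w (w + b)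
  have h3 := gap_add hc hne w b
  rw [← e2] at h2
  linarith

theorem nn_sum (i : Fin 3) : nn i + nn (i + 1) + nn (i + 2) = 0 := by
  fin_cases i <;> simp [nn]

theorem bOm_eq (Ω : Set (ℝ × ℝ)) (i : Fin 3) :
    bOm Ω = hs Ω (nn i) + hs Ω (nn (i + 1)) + hs Ω (nn (i + 2)) := by
  unfold bOm
  fin_cases i
  · simp [nn]
  · simp [nn]; ring
  · simp [nn]; ring

theorem nn_inj : Function.Injective nn := by
  intro i j h
  fin_cases i <;> fin_cases j <;> simp [nn] at h ⊢

theorem nn_coprime (i : Fin 3) : IsCoprime (nn i).1 (nn i).2 := by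
  fin_cases i
  · exact ⟨1, 0, by simp [nn]⟩
  · exact ⟨-1, 0, by simp [nn]⟩
  · exact ⟨0, -1, by simp [nn]⟩

/-- all the primitive vectors -/
noncomputable def primEquiv : Fin 3 ⊕ (Fin 3 × List Bool) ≃ {n : ℤ × ℤ // IsCoprime n.1 n.2} :=
  Equiv.ofBijective
    (Sum.elim (fun i => ⟨nn i, nn_coprime i⟩) (fun j => ⟨med j, (med_prop j).1⟩)) (by
      constructor
      · rintro (i | j) (i' | j') h
        · simp only [Sum.elim_inl, Subtype.mk.injEq] at h
          rw [nn_inj h]
        · simp only [Sum.elim_inl, Sum.elim_inr, Subtype.mk.injEq] at h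
          exact absurd h.symm ((med_prop j').2 i)
        · simp only [Sum.elim_inl, Sum.elim_inr, Subtype.mk.injEq] at h
          exact absurd h ((med_prop j).2 i')
        · simp only [Sum.elim_inr, Subtype.mk.injEq] at h
          rw [med_inj h]
      · rintro ⟨n, hn⟩
        by_cases h : ∃ i, n = nn i
        · obtain ⟨i, rfl⟩ := h
          exact ⟨Sum.inl i, rfl⟩
        · push Not at h
          obtain ⟨j, hj⟩ := med_surj n hn h
          exact ⟨Sum.inr j, Subtype.ext hj⟩)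

end OmP

open OmS OmP

theorem affPer_eq {Ω : Set (ℝ × ℝ)} (hc : IsCompact Ω) (hconv : Convex ℝ Ω)
    (hint : (interior Ω).Nonempty) : affPer Ω = 3 * bOm Ω - ∑' j, wOm Ω j := by
  have hne : Ω.Nonempty := hint.mono interior_subset
  have hL : ∀ i : Fin 3, _ := fun i => latLen_sum hc hne (nn i) (nn (i + 1)) (nn_det i)
  have hmed : ∀ i l, med (i, l) = (sbp (nn i) (nn (i + 1)) l).1 +
      (sbp (nn i) (nn (i + 1)) l).2 := fun _ _ => rfl
  -- sum over the mediants
  have hs1 : Summable (fun j : Fin 3 × List Bool => latLen Ω (med j)) := by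
    refine (summable_prod_of_nonneg ?_).2 ⟨fun i => (hL i).1, Summable.of_finite⟩
    intro j
    exact latLen_sbp_nonneg hc hne j.2 _ _ (nn_det j.1)
  have hs2 : ∑' j : Fin 3 × List Bool, latLen Ω (med j) =
      ∑ i : Fin 3, (gap Ω (nn i) (nn (i + 1)) + gap Ω (nn (i + 1)) (nn i)) -
        ∑' j, wOm Ω j := by
    rw [hs1.tsum_prod, tsum_fintype, (summable_wOm hc hne).tsum_prod, tsum_fintype,
      ← Finset.sum_sub_distrib]
    exact Finset.sum_congr rfl fun i _ => (hL i).2
  have hs3 : ∀ i : Fin 3, latLen Ω (nn i) =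
      bOm Ω - gap Ω (nn i) (nn (i + 1)) - gap Ω (nn i) (nn (i + 2)) := by
    intro i
    rw [latLen_nn hc hne (nn i) (nn (i + 1)) (nn (i + 2)) (nn_det i) (nn_sum i), bOm_eq Ω i]
  have hmain : affPer Ω = ∑ i : Fin 3, latLen Ω (nn i) + ∑' j, latLen Ω (med j) := by
    unfold affPer
    rw [← primEquiv.tsum_eq]
    rw [Summable.tsum_sum]
    · rw [tsum_fintype]
      rfl
    · exact Summable.of_finite
    · exact hs1
  rw [hmain, hs2]
  simp only [hs3, Fin.sum_univ_three]
  have f1 : (0 : Fin 3) + 1 = 1 := rfl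
  have f2 : (0 : Fin 3) + 2 = 2 := rfl
  have f3 : (1 : Fin 3) + 1 = 2 := rfl
  have f4 : (1 : Fin 3) + 2 = 0 := rfl
  have f5 : (2 : Fin 3) + 1 = 0 := rfl
  have f6 : (2 : Fin 3) + 2 = 1 := rfl
  rw [f1, f2, f3, f4, f5, f6]
  ring

end Pool.Agent.Stair
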