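import Pool.Agent.Lib.MP_f690a7_gt.OmB

/-!
Gaps of a compact region at pairs of integer vectors, and summability of the weights.
-/

namespace Pool.Agent.Stair

open MeasureTheory

/-- gap `a(u;v) = h(v) - max of <y,v> over the face of u` -/
noncomputable def gap (Ω : Set (ℝ × ℝ)) (u v : ℤ × ℤ) : ℝ :=
  hs Ω v - sSup (pr v '' {y | y ∈ Ω ∧ pr u y = hs Ω u})

namespace OmS

theorem pr_add (m n : ℤ × ℤ) (x : ℝ × ℝ) : pr (m + n) x = pr m x + pr n x := by
  simp only [pr, Prod.fst_add, Prod.snd_add, Int.cast_add]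
  ring

theorem pr_neg (m : ℤ × ℤ) (x : ℝ × ℝ) : pr (-m) x = - pr m x := by
  simp only [pr, Prod.fst_neg, Prod.snd_neg, Int.cast_neg]
  ring

theorem continuous_pr (n : ℤ × ℤ) : Continuous (pr n) := by
  unfold pr
  fun_prop

/-- the face is compact and not empty, so the maximum is attained -/
theorem exists_max {Ω : Set (ℝ × ℝ)} (hc : IsCompact Ω) (hne : Ω.Nonempty) (u v : ℤ × ℤ) :
    ∃ y ∈ Ω, pr u y = hs Ω u ∧ (∀ x ∈ Ω, pr u x = hs Ω u → pr v x ≤ pr v y) ∧
      sSup (pr v '' {y | y ∈ Ω ∧ pr u y = hs Ω u}) = pr v y := by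
  have hF : IsCompact {y | y ∈ Ω ∧ pr u y = hs Ω u} := by
    have hcl : IsClosed {y : ℝ × ℝ | pr u y = hs Ω u} :=
      isClosed_eq (continuous_pr u) continuous_const
    exact hc.inter_right hcl
  obtain ⟨x0, hx0, hx1⟩ := exists_hs hc hne u
  obtain ⟨y, hy, hmax⟩ := hF.exists_isMaxOn ⟨x0, hx0, hx1⟩ (continuous_pr v).continuousOn
  refine ⟨y, hy.1, hy.2, fun x hx hxu => hmax ⟨hx, hxu⟩, ?_⟩
  apply IsGreatest.csSup_eq
  refine ⟨⟨y, hy, rfl⟩, ?_⟩
  rintro _ ⟨x, hx, rfl⟩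
  exact hmax hx

theorem gap_eq {Ω : Set (ℝ × ℝ)} (hc : IsCompact Ω) (hne : Ω.Nonempty) (u v : ℤ × ℤ) :
    ∃ y ∈ Ω, pr u y = hs Ω u ∧ (∀ x ∈ Ω, pr u x = hs Ω u → pr v x ≤ pr v y) ∧
      gap Ω u v = hs Ω v - pr v y := by
  obtain ⟨y, h1, h2, h3, h4⟩ := exists_max hc hne u v
  exact ⟨y, h1, h2, h3, by rw [gap, h4]⟩

end OmS

open OmS

theorem gap_nonneg {Ω : Set (ℝ × ℝ)} (hc : IsCompact Ω) (hne : Ω.Nonempty) (u v : ℤ × ℤ) :
    0 ≤ gap Ω u v := by
  obtain ⟨y, h1, -, -, h4⟩ := gap_eq hc hne u v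
  rw [h4]
  have := pr_le_hs hc v h1
  linarith

theorem gap_add {Ω : Set (ℝ × ℝ)} (hc : IsCompact Ω) (hne : Ω.Nonempty) (u v : ℤ × ℤ) :
    gap Ω u (u + v) = gap Ω u v - (hs Ω u + hs Ω v - hs Ω (u + v)) := by
  obtain ⟨y, h1, h2, h3, h4⟩ := gap_eq hc hne u v
  obtain ⟨y', h1', h2', h3', h4'⟩ := gap_eq hc hne u (u + v)
  have ha := h3 y' h1' h2'
  have hb := h3' y h1 h2
  rw [pr_add, pr_add, h2, h2'] at hb
  rw [h4', h4, pr_add, h2']
  have he : pr v y = pr v y' := by linarith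
  rw [he]
  ring

theorem gap_latLen {Ω : Set (ℝ × ℝ)} (hc : IsCompact Ω) (hne : Ω.Nonempty) (u v : ℤ × ℤ)
    (hdet : u.1 * v.2 - u.2 * v.1 = 1) :
    gap Ω (u + v) u + gap Ω (u + v) v = (hs Ω u + hs Ω v - hs Ω (u + v)) - latLen Ω (u + v) ∧
      0 ≤ latLen Ω (u + v) := by
  have hdet' : (u.1 : ℝ) * v.2 - u.2 * v.1 = 1 := by exact_mod_cast hdet
  obtain ⟨y, h1, h2, h3, h4⟩ := gap_eq hc hne (u + v) u
  obtain ⟨y', h1', h2', h3', h4'⟩ := gap_eq hc hne (u + v) v
  have hlat : IsGreatest {τ : ℝ | ∃ x ∈ Ω, ((u + v).1 : ℝ) * x.1 + ((u + v).2 : ℝ) * x.2 =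
      hs Ω (u + v) ∧ (x.1 - τ * (u + v).2, x.2 + τ * (u + v).1) ∈ Ω} (pr u y - pr u y') := by
    constructor
    · refine ⟨y, h1, h2, ?_⟩
      have hy' : (y.1 - (pr u y - pr u y') * ((u + v).2 : ℤ),
          y.2 + (pr u y - pr u y') * ((u + v).1 : ℤ)) = y' := by
        have e1 := h2
        have e2 := h2'
        simp only [pr, Prod.fst_add, Prod.snd_add, Int.cast_add] at e1 e2 ⊢
        ext
        · simp only
          linear_combination (y'.1 - y.1) * hdet' + (u.2 : ℝ) * (e2 - e1)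
        · simp only
          linear_combination (y'.2 - y.2) * hdet' + (u.1 : ℝ) * (e1 - e2)
      rw [hy']
      exact h1'
    · rintro τ ⟨x, hx, hx1, hx2⟩
      have hxw : pr (u + v) x = hs Ω (u + v) := hx1
      have hz : pr (u + v) (x.1 - τ * (u + v).2, x.2 + τ * (u + v).1) = hs Ω (u + v) := by
        rw [← hxw]
        simp only [pr]
        ring
      have hb := h3' _ hx2 hz
      have ha := h3 x hx hxw
      have hzu : pr u (x.1 - τ * (u + v).2, x.2 + τ * (u + v).1) = pr u x - τ := by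
        simp only [pr, Prod.fst_add, Prod.snd_add, Int.cast_add]
        linear_combination (-τ) * hdet'
      rw [pr_add] at hz hxw
      rw [pr_add] at h2'
      linarith
  have hlen : latLen Ω (u + v) = pr u y - pr u y' := by
    unfold latLen
    exact hlat.csSup_eq
  refine ⟨?_, ?_⟩
  · rw [hlen, h4, h4']
    rw [pr_add] at h2'
    linarith
  · rw [hlen]
    have := h3 y' h1' h2'
    linarith

namespace OmS

/-- all lists of length `< k` -/
def T : ℕ → Finset (List Bool)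
  | 0 => ∅
  | k + 1 => insert [] ((T k).image (List.cons false) ∪ (T k).image (List.cons true))

/-- all lists of length `k` -/
def L : ℕ → Finset (List Bool)
  | 0 => {[]}
  | k + 1 => (L k).image (List.cons false) ∪ (L k).image (List.cons true)

theorem mem_T (k : ℕ) (l : List Bool) : l ∈ T k ↔ l.length < k := by
  induction k generalizing l with
  | zero => simp [T]
  | succ k ih =>
    rw [T]
    cases l with
    | nil => simp
    | cons b l =>
      cases b <;> simp [ih]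

theorem mem_L (k : ℕ) (l : List Bool) : l ∈ L k ↔ l.length = k := by
  induction k generalizing l with
  | zero => simp [L]
  | succ k ih =>
    rw [L]
    cases l with
    | nil => simp
    | cons b l =>
      cases b <;> simp [ih]

theorem sum_two (s : Finset (List Bool)) (f : List Bool → ℝ) :
    ∑ l ∈ s.image (List.cons false) ∪ s.image (List.cons true), f l =
      ∑ l ∈ s, f (false :: l) + ∑ l ∈ s, f (true :: l) := by
  rw [Finset.sum_union, Finset.sum_image, Finset.sum_image]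
  · intro a _ b _ h
    exact (List.cons.inj h).2
  · intro a _ b _ h
    exact (List.cons.inj h).2
  · rw [Finset.disjoint_left]
    intro l hl hl'
    simp only [Finset.mem_image] at hl hl'
    obtain ⟨a, -, rfl⟩ := hl
    obtain ⟨b, -, hb⟩ := hl'
    simp at hb

theorem sum_T (k : ℕ) (f : List Bool → ℝ) :
    ∑ l ∈ T (k + 1), f l = f [] + (∑ l ∈ T k, f (false :: l) + ∑ l ∈ T k, f (true :: l)) := by
  rw [T, Finset.sum_insert, sum_two]
  simp

theorem sum_L (k : ℕ) (f : List Bool → ℝ) :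
    ∑ l ∈ L (k + 1), f l = ∑ l ∈ L k, f (false :: l) + ∑ l ∈ L k, f (true :: l) := by
  rw [L, sum_two]

/-- the weight at a Stern-Brocot pair -/
noncomputable def be (Ω : Set (ℝ × ℝ)) (u v : ℤ × ℤ) (l : List Bool) : ℝ :=
  hs Ω (sbp u v l).1 + hs Ω (sbp u v l).2 - hs Ω ((sbp u v l).1 + (sbp u v l).2)

/-- one step of the tree identity -/
theorem gap_step {Ω : Set (ℝ × ℝ)} (hc : IsCompact Ω) (hne : Ω.Nonempty) (u v : ℤ × ℤ)
    (hdet : u.1 * v.2 - u.2 * v.1 = 1) :
    gap Ω u v + gap Ω v u = (hs Ω u + hs Ω v - hs Ω (u + v)) + latLen Ω (u + v) +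
      ((gap Ω u (u + v) + gap Ω (u + v) u) + (gap Ω (u + v) v + gap Ω v (u + v))) := by
  have h1 := gap_add hc hne u v
  have h2 := gap_add hc hne v u
  rw [add_comm v u] at h2
  have h3 := (gap_latLen hc hne u v hdet).1
  linarith

/-- **Tree identity**: weights of depth `< k`, lattice lengths of the mediants of depth `< k` and
gaps at the leaves of depth `k` sum up to the gaps at the root. -/
theorem gap_tree {Ω : Set (ℝ × ℝ)} (hc : IsCompact Ω) (hne : Ω.Nonempty) (k : ℕ) (u v : ℤ × ℤ)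
    (hdet : u.1 * v.2 - u.2 * v.1 = 1) :
    gap Ω u v + gap Ω v u = ∑ l ∈ T k, be Ω u v l +
      ∑ l ∈ T k, latLen Ω ((sbp u v l).1 + (sbp u v l).2) +
      ∑ l ∈ L k, (gap Ω (sbp u v l).1 (sbp u v l).2 + gap Ω (sbp u v l).2 (sbp u v l).1) := by
  induction k generalizing u v with
  | zero => simp [T, L, sbp]
  | succ k ih =>
    rw [sum_T, sum_T, sum_L, gap_step hc hne u v hdet]
    have h1 := ih u (u + v) (by simp only [Prod.fst_add, Prod.snd_add]; linarith)
    have h2 := ih (u + v) v (by simp only [Prod.fst_add, Prod.snd_add]; linarith)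
    rw [h1, h2]
    simp only [be, sbp]
    ring

theorem latLen_sbp_nonneg {Ω : Set (ℝ × ℝ)} (hc : IsCompact Ω) (hne : Ω.Nonempty) (l : List Bool)
    (u v : ℤ × ℤ) (hdet : u.1 * v.2 - u.2 * v.1 = 1) :
    0 ≤ latLen Ω ((sbp u v l).1 + (sbp u v l).2) := by
  induction l generalizing u v with
  | nil => exact (gap_latLen hc hne u v hdet).2
  | cons b l ih =>
    cases b
    · exact ih u (u + v) (by simp only [Prod.fst_add, Prod.snd_add]; linarith)
    · exact ih (u + v) v (by simp only [Prod.fst_add, Prod.snd_add]; linarith)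

/-- partial sums of the weights below `(u, v)` are bounded by the gaps -/
theorem sum_be_le {Ω : Set (ℝ × ℝ)} (hc : IsCompact Ω) (hne : Ω.Nonempty) (k : ℕ) (u v : ℤ × ℤ)
    (hdet : u.1 * v.2 - u.2 * v.1 = 1) :
    ∑ l ∈ T k, be Ω u v l ≤ gap Ω u v + gap Ω v u := by
  rw [gap_tree hc hne k u v hdet]
  have h1 : 0 ≤ ∑ l ∈ T k, latLen Ω ((sbp u v l).1 + (sbp u v l).2) :=
    Finset.sum_nonneg fun l _ => latLen_sbp_nonneg hc hne l u v hdet
  have h2 : 0 ≤ ∑ l ∈ L k, (gap Ω (sbp u v l).1 (sbp u v l).2 +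
      gap Ω (sbp u v l).2 (sbp u v l).1) :=
    Finset.sum_nonneg fun l _ => add_nonneg (gap_nonneg hc hne _ _) (gap_nonneg hc hne _ _)
  linarith

theorem nn_det (i : Fin 3) :
    (nn i).1 * (nn (i + 1)).2 - (nn i).2 * (nn (i + 1)).1 = 1 := by
  fin_cases i <;> simp [nn]

theorem wOm_eq_be (Ω : Set (ℝ × ℝ)) (i : Fin 3) (l : List Bool) :
    wOm Ω (i, l) = be Ω (nn i) (nn (i + 1)) l := rfl

end OmS

theorem summable_wOm {Ω : Set (ℝ × ℝ)} (hc : IsCompact Ω) (hne : Ω.Nonempty) :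
    Summable (wOm Ω) := by
  have h0 : ∀ j, 0 ≤ wOm Ω j := by
    intro j
    have := hs_add_le hc hne (sbp (nn j.1) (nn (j.1 + 1)) j.2).1
      (sbp (nn j.1) (nn (j.1 + 1)) j.2).2
    unfold wOm
    linarith
  apply summable_of_sum_le (c := ∑ i : Fin 3, (gap Ω (nn i) (nn (i + 1)) +
    gap Ω (nn (i + 1)) (nn i))) h0
  intro s
  obtain ⟨k, hk⟩ : ∃ k, ∀ j ∈ s, j.2.length < k := by
    refine ⟨s.sup (fun j => j.2.length) + 1, fun j hj => ?_⟩
    have := Finset.le_sup (f := fun j : Fin 3 × List Bool => j.2.length) hj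
    omega
  calc ∑ j ∈ s, wOm Ω j ≤ ∑ j ∈ Finset.univ ×ˢ T k, wOm Ω j := by
        apply Finset.sum_le_sum_of_subset_of_nonneg
        · intro j hj
          rw [Finset.mem_product]
          exact ⟨Finset.mem_univ _, (mem_T k j.2).2 (hk j hj)⟩
        · intro j _ _
          exact h0 j
    _ = ∑ i : Fin 3, ∑ l ∈ T k, wOm Ω (i, l) := by rw [Finset.sum_product]
    _ ≤ _ := by
        apply Finset.sum_le_sum
        intro i _
        exact sum_be_le hc hne k _ _ (nn_det i)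

end Pool.Agent.Stair
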