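import Pool.Agent.Lib.MP_f690a7_gt.OmB

/-!
Twice the area of a convex region is `b ^ 2` minus the sum of the squares of the weights: the big
triangle is the disjoint union of the region and of the corner triangles.
-/

namespace Pool.Agent.Stair

open MeasureTheory

namespace OmV

theorem pr_add (m n : ℤ × ℤ) (x : ℝ × ℝ) : pr (m + n) x = pr m x + pr n x := by
  simp only [pr, Prod.fst_add, Prod.snd_add]
  push_cast
  ring

theorem pr_smul (a : ℤ) (n : ℤ × ℤ) (x : ℝ × ℝ) : pr (a • n) x = a * pr n x := by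
  simp only [pr, Prod.smul_fst, Prod.smul_snd, smul_eq_mul]
  push_cast
  ring

/-- functionals which are equal to one at two of the normals -/
def L : Fin 3 → ℤ × ℤ → ℤ :=
  ![fun n => 2 * n.2 - n.1, fun n => -n.1 - n.2, fun n => 2 * n.1 - n.2]

theorem L_add (i : Fin 3) (m n : ℤ × ℤ) : L i (m + n) = L i m + L i n := by
  fin_cases i <;> simp [L] <;> ring

theorem L_comb (i : Fin 3) (a c : ℤ) (u v : ℤ × ℤ) :
    L i (a • u + c • v) = a * L i u + c * L i v := by
  fin_cases i <;> simp [L] <;> ring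

theorem L_nn : ∀ i i' : Fin 3, L i (nn i') ≤ 1 := by decide

theorem L_nn1 : ∀ i : Fin 3, L i (nn i) = 1 ∧ L i (nn (i + 1)) = 1 := by decide

theorem sbp_ind (p : ℤ × ℤ → Prop) (hadd : ∀ m n, p m → p n → p (m + n)) :
    ∀ (l : List Bool) (u v : ℤ × ℤ), p u → p v → p (sbp u v l).1 ∧ p (sbp u v l).2 := by
  intro l
  induction l with
  | nil => intro u v hu hv; exact ⟨hu, hv⟩
  | cons b l ih =>
    intro u v hu hv
    cases b with
    | false => exact ih u (u + v) hu (hadd u v hu hv)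
    | true => exact ih (u + v) v (hadd u v hu hv) hv

/-- the components of the pairs are normals or earlier mediants -/
theorem sbp_old : ∀ (l : List Bool) (u v : ℤ × ℤ),
    ((sbp u v l).1 = u ∨ ∃ l' : List Bool, l'.length < l.length ∧
      (sbp u v l).1 = (sbp u v l').1 + (sbp u v l').2) ∧
    ((sbp u v l).2 = v ∨ ∃ l' : List Bool, l'.length < l.length ∧
      (sbp u v l).2 = (sbp u v l').1 + (sbp u v l').2) := by
  intro l
  induction l with
  | nil => intro u v; exact ⟨Or.inl rfl, Or.inl rfl⟩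
  | cons b l ih =>
    intro u v
    cases b with
    | false =>
      obtain ⟨h1, h2⟩ := ih u (u + v)
      refine ⟨?_, ?_⟩
      · rcases h1 with h1 | ⟨l', h3, h4⟩
        · exact Or.inl h1
        · exact Or.inr ⟨false :: l', by simp only [List.length_cons]; omega, h4⟩
      · rcases h2 with h2 | ⟨l', h3, h4⟩
        · exact Or.inr ⟨[], by simp, h2⟩
        · exact Or.inr ⟨false :: l', by simp only [List.length_cons]; omega, h4⟩
    | true =>
      obtain ⟨h1, h2⟩ := ih (u + v) v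
      refine ⟨?_, ?_⟩
      · rcases h1 with h1 | ⟨l', h3, h4⟩
        · exact Or.inr ⟨[], by simp, h1⟩
        · exact Or.inr ⟨true :: l', by simp only [List.length_cons]; omega, h4⟩
      · rcases h2 with h2 | ⟨l', h3, h4⟩
        · exact Or.inl h2
        · exact Or.inr ⟨true :: l', by simp only [List.length_cons]; omega, h4⟩

/-- the pair number `j` -/
def P (j : Fin 3 × List Bool) : (ℤ × ℤ) × (ℤ × ℤ) := sbp (nn j.1) (nn (j.1 + 1)) j.2

theorem med_eq (j : Fin 3 × List Bool) : med j = (P j).1 + (P j).2 := rfl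

theorem L_pos (j : Fin 3 × List Bool) : 0 < L j.1 (P j).1 ∧ 0 < L j.1 (P j).2 := by
  refine sbp_ind (fun n => 0 < L j.1 n) (fun m n hm hn => ?_) j.2 _ _ ?_ ?_
  · rw [L_add]
    omega
  · show 0 < L j.1 (nn j.1)
    rw [(L_nn1 j.1).1]
    exact one_pos
  · show 0 < L j.1 (nn (j.1 + 1))
    rw [(L_nn1 j.1).2]
    exact one_pos

theorem L_le (j : Fin 3 × List Bool) (i : Fin 3) : L i (med j) ≤ L j.1 (med j) := by
  have h := sbp_ind (fun n => L i n ≤ L j.1 n) (fun m n hm hn => by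
    rw [L_add, L_add]
    omega) j.2 (nn j.1) (nn (j.1 + 1)) (by
      rw [(L_nn1 j.1).1]
      exact L_nn _ _) (by
      rw [(L_nn1 j.1).2]
      exact L_nn _ _)
  rw [med_eq, L_add, L_add]
  exact add_le_add h.1 h.2

theorem coords (u v m : ℤ × ℤ) (h : u.1 * v.2 - u.2 * v.1 = 1) :
    m = (m.1 * v.2 - m.2 * v.1) • u + (u.1 * m.2 - u.2 * m.1) • v := by
  refine Prod.ext ?_ ?_
  · simp only [Prod.fst_add, Prod.smul_fst, smul_eq_mul]
    linear_combination (-m.1) * h
  · simp only [Prod.snd_add, Prod.smul_snd, smul_eq_mul]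
    linear_combination (-m.2) * h

/-- a point of a corner triangle satisfies the inequalities for the normals outside the cone -/
theorem key {Ω : Set (ℝ × ℝ)} (hc : IsCompact Ω) (hconv : Convex ℝ Ω) (hne : Ω.Nonempty)
    (u v : ℤ × ℤ) {x : ℝ × ℝ} (hu : pr u x ≤ hs Ω u) (hv : pr v x ≤ hs Ω v)
    (huv : hs Ω (u + v) < pr (u + v) x) (a c : ℤ) (h : a ≤ 0 ∨ c ≤ 0) :
    pr (a • u + c • v) x ≤ hs Ω (a • u + c • v) := by
  obtain ⟨y1, hy1, e1⟩ := exists_hs hc hne u
  obtain ⟨y2, hy2, e2⟩ := exists_hs hc hne v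
  have b1 := pr_le_hs hc (u + v) hy1
  have b2 := pr_le_hs hc (u + v) hy2
  rw [pr_add] at b1 b2 huv
  have a1 : pr v y1 < pr v x := by linarith
  have a2 : pr u y2 < pr u x := by linarith
  rcases le_or_gt 0 a with ha | ha
  · rcases le_or_gt c 0 with hc0 | hc0
    · refine le_trans ?_ (pr_le_hs hc _ hy1)
      have ha' : (0 : ℝ) ≤ a := by exact_mod_cast ha
      have hc' : (c : ℝ) ≤ 0 := by exact_mod_cast hc0
      rw [pr_add, pr_add, pr_smul, pr_smul, pr_smul, pr_smul, e1]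
      nlinarith [mul_le_mul_of_nonneg_left hu ha', mul_le_mul_of_nonpos_left a1.le hc']
    · have ha0 : a = 0 := by omega
      rw [ha0, zero_smul, zero_add]
      refine le_trans ?_ (pr_le_hs hc _ hy2)
      have hc' : (0 : ℝ) ≤ c := by exact_mod_cast hc0.le
      rw [pr_smul, pr_smul, e2]
      exact mul_le_mul_of_nonneg_left hv hc'
  · have ha' : (a : ℝ) ≤ 0 := by exact_mod_cast ha.le
    rcases le_or_gt 0 c with hc0 | hc0
    · refine le_trans ?_ (pr_le_hs hc _ hy2)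
      have hc' : (0 : ℝ) ≤ c := by exact_mod_cast hc0
      rw [pr_add, pr_add, pr_smul, pr_smul, pr_smul, pr_smul, e2]
      nlinarith [mul_le_mul_of_nonneg_left hv hc', mul_le_mul_of_nonpos_left a2.le ha']
    · have hc' : (c : ℝ) ≤ 0 := by exact_mod_cast hc0.le
      have hd : 0 < hs Ω u - pr u y2 := by linarith
      obtain ⟨t, ht⟩ : ∃ t : ℝ, t = (hs Ω u - pr u x) / (hs Ω u - pr u y2) := ⟨_, rfl⟩
      have ht0 : 0 ≤ t := by rw [ht]; exact div_nonneg (by linarith) hd.le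
      have ht1 : t ≤ 1 := by rw [ht, div_le_one hd]; linarith
      have ht2 : t * (hs Ω u - pr u y2) = hs Ω u - pr u x := by
        rw [ht, div_mul_cancel₀ _ hd.ne']
      have hy : (1 - t) • y1 + t • y2 ∈ Ω := hconv hy1 hy2 (by linarith) ht0 (by ring)
      have hlin : ∀ n : ℤ × ℤ, pr n ((1 - t) • y1 + t • y2) = (1 - t) * pr n y1 + t * pr n y2 := by
        intro n
        simp only [pr, Prod.fst_add, Prod.snd_add, Prod.smul_fst, Prod.smul_snd, smul_eq_mul]
        ring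
      have h1 : pr u ((1 - t) • y1 + t • y2) = pr u x := by
        rw [hlin, e1]
        linarith
      have h2 := pr_le_hs hc (u + v) hy
      rw [pr_add, h1] at h2
      have h3 : pr v ((1 - t) • y1 + t • y2) < pr v x := by linarith
      refine le_trans ?_ (pr_le_hs hc _ hy)
      rw [pr_add, pr_add, pr_smul, pr_smul, pr_smul, pr_smul, h1]
      nlinarith [mul_le_mul_of_nonpos_left h3.le hc']

/-- the corner triangle number `j` -/
def T (Ω : Set (ℝ × ℝ)) (j : Fin 3 × List Bool) : Set (ℝ × ℝ) :=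
  {x | pr (P j).1 x ≤ hs Ω (P j).1 ∧ pr (P j).2 x ≤ hs Ω (P j).2 ∧
    hs Ω ((P j).1 + (P j).2) < pr ((P j).1 + (P j).2) x}

/-- the big triangle -/
def Tri (Ω : Set (ℝ × ℝ)) : Set (ℝ × ℝ) := {x | ∀ i, pr (nn i) x ≤ hs Ω (nn i)}

theorem P_det (j : Fin 3 × List Bool) : (P j).1.1 * (P j).2.2 - (P j).1.2 * (P j).2.1 = 1 :=
  sbp_det j.1 j.2

theorem T_subset {Ω : Set (ℝ × ℝ)} (hc : IsCompact Ω) (hconv : Convex ℝ Ω) (hne : Ω.Nonempty)
    (j : Fin 3 × List Bool) : T Ω j ⊆ Tri Ω := by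
  intro x hx i
  obtain ⟨h1, h2, h3⟩ := hx
  have h4 := coords (P j).1 (P j).2 (nn i) (P_det j)
  obtain ⟨a, ha⟩ : ∃ a : ℤ, a = (nn i).1 * (P j).2.2 - (nn i).2 * (P j).2.1 := ⟨_, rfl⟩
  obtain ⟨c, hc'⟩ : ∃ c : ℤ, c = (P j).1.1 * (nn i).2 - (P j).1.2 * (nn i).1 := ⟨_, rfl⟩
  rw [← ha, ← hc'] at h4
  rw [h4]
  refine key hc hconv hne _ _ h1 h2 h3 a c ?_
  by_contra hcon
  have h5 := L_nn j.1 i
  rw [h4, L_comb] at h5
  obtain ⟨h6, h7⟩ := L_pos j
  have h8 : 1 ≤ a := by omega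
  have h9 : 1 ≤ c := by omega
  nlinarith

theorem T_disj {Ω : Set (ℝ × ℝ)} (hc : IsCompact Ω) (hconv : Convex ℝ Ω) (hne : Ω.Nonempty)
    {j k : Fin 3 × List Bool} (hjk : j ≠ k) : Disjoint (T Ω j) (T Ω k) := by
  rw [Set.disjoint_left]
  have main : ∀ j k : Fin 3 × List Bool, ∀ x, x ∈ T Ω j → x ∈ T Ω k →
      ∃ a c : ℤ, 1 ≤ a ∧ 1 ≤ c ∧ med k = a • (P j).1 + c • (P j).2 := by
    intro j k x hxj hxk
    obtain ⟨h1, h2, h3⟩ := hxj
    have h4 := coords (P j).1 (P j).2 (med k) (P_det j)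
    refine ⟨_, _, ?_, ?_, h4⟩
    · by_contra hcon
      have h5 := key hc hconv hne _ _ h1 h2 h3 _ ((P j).1.1 * (med k).2 - (P j).1.2 * (med k).1)
        (Or.inl (not_lt.1 fun h => hcon (by omega)) :
          (med k).1 * (P j).2.2 - (med k).2 * (P j).2.1 ≤ 0 ∨ _)
      rw [← h4, med_eq] at h5
      exact absurd hxk.2.2 (not_lt.2 h5)
    · by_contra hcon
      have h5 := key hc hconv hne _ _ h1 h2 h3 ((med k).1 * (P j).2.2 - (med k).2 * (P j).2.1) _
        (Or.inr (not_lt.1 fun h => hcon (by omega)) :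
          _ ∨ (P j).1.1 * (med k).2 - (P j).1.2 * (med k).1 ≤ 0)
      rw [← h4, med_eq] at h5
      exact absurd hxk.2.2 (not_lt.2 h5)
  intro x hxj hxk
  obtain ⟨a, c, ha, hc', e1⟩ := main j k x hxj hxk
  obtain ⟨a', c', ha', hc'', e2⟩ := main k j x hxk hxj
  obtain ⟨p1, p2⟩ := L_pos j
  obtain ⟨q1, q2⟩ := L_pos k
  have f1 : L j.1 (med k) = a * L j.1 (P j).1 + c * L j.1 (P j).2 := by rw [e1, L_comb]
  have f2 : L k.1 (med j) = a' * L k.1 (P k).1 + c' * L k.1 (P k).2 := by rw [e2, L_comb]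
  have g1 := L_le k j.1
  have g2 := L_le j k.1
  have m1 : L j.1 (med j) = L j.1 (P j).1 + L j.1 (P j).2 := by rw [med_eq, L_add]
  have m2 : L k.1 (med k) = L k.1 (P k).1 + L k.1 (P k).2 := by rw [med_eq, L_add]
  have r1 : L k.1 (P k).1 + L k.1 (P k).2 ≤ a' * L k.1 (P k).1 + c' * L k.1 (P k).2 := by nlinarith
  have r2 : (a - 1) * L j.1 (P j).1 + (c - 1) * L j.1 (P j).2 ≤ 0 := by linarith
  have s1 : 0 ≤ (a - 1) * L j.1 (P j).1 := mul_nonneg (by omega) p1.le
  have s2 : 0 ≤ (c - 1) * L j.1 (P j).2 := mul_nonneg (by omega) p2.le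
  have t1 : (a - 1) * L j.1 (P j).1 = 0 := by omega
  have t2 : (c - 1) * L j.1 (P j).2 = 0 := by omega
  have u1 : a = 1 := by
    rcases mul_eq_zero.1 t1 with h | h <;> omega
  have u2 : c = 1 := by
    rcases mul_eq_zero.1 t2 with h | h <;> omega
  rw [u1, u2, one_smul, one_smul, ← med_eq] at e1
  exact hjk (med_inj e1).symm

theorem cover {Ω : Set (ℝ × ℝ)} (hc : IsCompact Ω) (hconv : Convex ℝ Ω) (hne : Ω.Nonempty) :
    Tri Ω = Ω ∪ ⋃ j, T Ω j := by
  ext x
  constructor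
  · intro hx
    by_cases hxO : x ∈ Ω
    · exact Or.inl hxO
    · right
      rw [eq_iInter_hs hc hconv hne] at hxO
      simp only [Set.mem_ofPred_eq, not_forall, not_le] at hxO
      obtain ⟨n, hn, hn2⟩ := hxO
      obtain ⟨j, hj⟩ := med_surj n hn (fun i hi => by
        rw [hi] at hn2
        exact absurd (hx i) (not_le.2 hn2))
      have hex : ∃ k : ℕ, ∃ j : Fin 3 × List Bool, j.2.length = k ∧
          hs Ω (med j) < pr (med j) x := ⟨_, j, rfl, by rw [hj]; exact hn2⟩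
      classical
      obtain ⟨j, hj1, hj2⟩ := Nat.find_spec hex
      have hmin : ∀ l : List Bool, l.length < j.2.length →
          pr (med (j.1, l)) x ≤ hs Ω (med (j.1, l)) := by
        intro l hl
        by_contra hcon
        rw [hj1] at hl
        exact Nat.find_min hex hl ⟨(j.1, l), rfl, not_le.1 hcon⟩
      refine Set.mem_iUnion.2 ⟨j, ?_, ?_, hj2⟩
      · rcases (sbp_old j.2 (nn j.1) (nn (j.1 + 1))).1 with h | ⟨l, h1, h2⟩
        · show pr (sbp (nn j.1) (nn (j.1 + 1)) j.2).1 x ≤ hs Ω (sbp (nn j.1) (nn (j.1 + 1)) j.2).1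
          rw [h]
          exact hx _
        · have h3 := hmin l h1
          have h4 : med (j.1, l) = (P j).1 := h2.symm
          rwa [h4] at h3
      · rcases (sbp_old j.2 (nn j.1) (nn (j.1 + 1))).2 with h | ⟨l, h1, h2⟩
        · show pr (sbp (nn j.1) (nn (j.1 + 1)) j.2).2 x ≤ hs Ω (sbp (nn j.1) (nn (j.1 + 1)) j.2).2
          rw [h]
          exact hx _
        · have h3 := hmin l h1
          have h4 : med (j.1, l) = (P j).2 := h2.symm
          rwa [h4] at h3
  · rintro (hx | hx)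
    · exact fun i => pr_le_hs hc _ hx
    · obtain ⟨j, hj⟩ := Set.mem_iUnion.1 hx
      exact T_subset hc hconv hne j hj

/-! ### Areas -/

theorem tri_vol {a b c : ℝ} (habc : 0 ≤ a + b - c) (S : Set (ℝ × ℝ)) (hS : MeasurableSet S)
    (h : ∀ s : ℝ, volume (Prod.mk s ⁻¹' S) =
      if s ≤ a then ENNReal.ofReal (s - (c - b)) else 0) :
    volume S = ENNReal.ofReal ((a + b - c) ^ 2 / 2) := by
  rw [Measure.volume_eq_prod, Measure.prod_apply hS]
  have e1 : ∫⁻ s, volume (Prod.mk s ⁻¹' S) =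
      ∫⁻ s in Set.Ioc (c - b) a, ENNReal.ofReal (s - (c - b)) := by
    rw [← lintegral_indicator measurableSet_Ioc]
    refine lintegral_congr fun s => ?_
    rw [h, Set.indicator_apply]
    by_cases h1 : s ≤ a
    · rw [if_pos h1]
      by_cases h2 : c - b < s
      · rw [if_pos (show s ∈ Set.Ioc (c - b) a from ⟨h2, h1⟩)]
      · rw [if_neg (fun h => h2 h.1)]
        exact ENNReal.ofReal_of_nonpos (by linarith)
    · rw [if_neg h1, if_neg (fun h => h1 h.2)]
  rw [e1, ← ofReal_integral_eq_lintegral_ofReal]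
  · congr 1
    rw [← intervalIntegral.integral_of_le (by linarith)]
    rw [intervalIntegral.integral_sub (by simp) (by simp), integral_id,
      intervalIntegral.integral_const, smul_eq_mul]
    ring
  · exact (continuous_id.sub continuous_const).integrableOn_Ioc
  · refine (ae_restrict_iff' measurableSet_Ioc).2 (Filter.Eventually.of_forall fun s hs => ?_)
    have := hs.1
    show 0 ≤ s - (c - b)
    linarith

/-- the linear map with rows `u`, `v` -/
noncomputable def M (u v : ℤ × ℤ) : (ℝ × ℝ) →ₗ[ℝ] (ℝ × ℝ) :=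
  Matrix.toLin (Module.Basis.finTwoProd ℝ) (Module.Basis.finTwoProd ℝ)
    !![(u.1 : ℝ), (u.2 : ℝ); (v.1 : ℝ), (v.2 : ℝ)]

theorem M_apply (u v : ℤ × ℤ) (x : ℝ × ℝ) : M u v x = (pr u x, pr v x) := by
  rw [M, Matrix.toLin_finTwoProd_apply]
  rfl

theorem M_vol (u v : ℤ × ℤ) (h : u.1 * v.2 - u.2 * v.1 = 1) (S : Set (ℝ × ℝ)) :
    volume (M u v ⁻¹' S) = volume S := by
  have hd : LinearMap.det (M u v) = 1 := by
    rw [M, LinearMap.det_toLin, Matrix.det_fin_two_of]
    exact_mod_cast h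
  rw [Measure.addHaar_preimage_linearMap volume (by rw [hd]; exact one_ne_zero), hd]
  simp

theorem measurable_pr (n : ℤ × ℤ) : Measurable (pr n) := by
  unfold pr
  fun_prop

theorem T_vol {Ω : Set (ℝ × ℝ)} (hc : IsCompact Ω) (hne : Ω.Nonempty) (j : Fin 3 × List Bool) :
    volume (T Ω j) = ENNReal.ofReal (wOm Ω j ^ 2 / 2) := by
  obtain ⟨a, ha⟩ : ∃ a, a = hs Ω (P j).1 := ⟨_, rfl⟩
  obtain ⟨b, hb⟩ : ∃ b, b = hs Ω (P j).2 := ⟨_, rfl⟩
  obtain ⟨c, hc'⟩ : ∃ c, c = hs Ω ((P j).1 + (P j).2) := ⟨_, rfl⟩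
  have hw : wOm Ω j = a + b - c := by rw [ha, hb, hc']; rfl
  have hw0 := wOm_nonneg hc hne j
  rw [hw] at hw0 ⊢
  have e1 : T Ω j = M (P j).1 (P j).2 ⁻¹' {p | p.1 ≤ a ∧ p.2 ≤ b ∧ c < p.1 + p.2} := by
    ext x
    rw [Set.mem_preimage, M_apply, Set.mem_ofPred_eq]
    dsimp only
    rw [← pr_add, ha, hb, hc']
    rfl
  rw [e1, M_vol _ _ (P_det j)]
  refine tri_vol hw0 _ ?_ fun s => ?_
  · exact (measurableSet_le measurable_fst measurable_const).inter
      ((measurableSet_le measurable_snd measurable_const).inter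
        (measurableSet_lt measurable_const (measurable_fst.add measurable_snd)))
  · split_ifs with h1
    · have : Prod.mk s ⁻¹' {p : ℝ × ℝ | p.1 ≤ a ∧ p.2 ≤ b ∧ c < p.1 + p.2} = Set.Ioc (c - s) b := by
        ext t
        simp only [Set.mem_preimage, Set.mem_ofPred_eq, Set.mem_Ioc]
        constructor
        · rintro ⟨_, h3, h4⟩
          exact ⟨by linarith, h3⟩
        · rintro ⟨h3, h4⟩
          exact ⟨h1, h4, by linarith⟩
      rw [this, Real.volume_Ioc]
      congr 1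
      ring
    · have : Prod.mk s ⁻¹' {p : ℝ × ℝ | p.1 ≤ a ∧ p.2 ≤ b ∧ c < p.1 + p.2} = ∅ := by
        ext t
        simp only [Set.mem_preimage, Set.mem_ofPred_eq, Set.mem_empty_iff_false, iff_false]
        exact fun h => h1 h.1
      rw [this, measure_empty]

theorem Tri_vol {Ω : Set (ℝ × ℝ)} (hb : 0 ≤ bOm Ω) :
    volume (Tri Ω) = ENNReal.ofReal (bOm Ω ^ 2 / 2) := by
  obtain ⟨a, ha⟩ : ∃ a, a = hs Ω (-1, 0) := ⟨_, rfl⟩
  obtain ⟨b, hb'⟩ : ∃ b, b = hs Ω (0, -1) := ⟨_, rfl⟩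
  obtain ⟨c, hc'⟩ : ∃ c, c = -hs Ω (1, 1) := ⟨_, rfl⟩
  have hw : bOm Ω = a + b - c := by rw [ha, hb', hc', bOm]; ring
  rw [hw] at hb ⊢
  have e1 : Tri Ω = M (-1, 0) (0, -1) ⁻¹' {p | p.1 ≤ a ∧ p.2 ≤ b ∧ c ≤ p.1 + p.2} := by
    ext x
    rw [Set.mem_preimage, M_apply, Set.mem_ofPred_eq]
    dsimp only
    rw [← pr_add, ha, hb', hc']
    show (∀ i, pr (nn i) x ≤ hs Ω (nn i)) ↔ _
    rw [Fin.forall_fin_succ, Fin.forall_fin_two]
    show pr (1, 1) x ≤ hs Ω (1, 1) ∧ pr (-1, 0) x ≤ hs Ω (-1, 0) ∧ pr (0, -1) x ≤ hs Ω (0, -1) ↔ _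
    have e2 : pr ((-1, 0) + (0, -1)) x = - pr (1, 1) x := by
      simp only [pr, Prod.mk_add_mk]
      push_cast
      ring
    rw [e2, neg_le_neg_iff]
    tauto
  rw [e1, M_vol _ _ (by norm_num)]
  refine tri_vol hb _ ?_ fun s => ?_
  · exact (measurableSet_le measurable_fst measurable_const).inter
      ((measurableSet_le measurable_snd measurable_const).inter
        (measurableSet_le measurable_const (measurable_fst.add measurable_snd)))
  · split_ifs with h1
    · have : Prod.mk s ⁻¹' {p : ℝ × ℝ | p.1 ≤ a ∧ p.2 ≤ b ∧ c ≤ p.1 + p.2} = Set.Icc (c - s) b := by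
        ext t
        simp only [Set.mem_preimage, Set.mem_ofPred_eq, Set.mem_Icc]
        constructor
        · rintro ⟨_, h3, h4⟩
          exact ⟨by linarith, h3⟩
        · rintro ⟨h3, h4⟩
          exact ⟨h1, h4, by linarith⟩
      rw [this, Real.volume_Icc]
      congr 1
      ring
    · have : Prod.mk s ⁻¹' {p : ℝ × ℝ | p.1 ≤ a ∧ p.2 ≤ b ∧ c ≤ p.1 + p.2} = ∅ := by
        ext t
        simp only [Set.mem_preimage, Set.mem_ofPred_eq, Set.mem_empty_iff_false, iff_false]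
        exact fun h => h1 h.1
      rw [this, measure_empty]

theorem T_meas (Ω : Set (ℝ × ℝ)) (j : Fin 3 × List Bool) : MeasurableSet (T Ω j) :=
  (measurableSet_le (measurable_pr _) measurable_const).inter
    ((measurableSet_le (measurable_pr _) measurable_const).inter
      (measurableSet_lt measurable_const (measurable_pr _)))

end OmV

open OmV

theorem volOm_pos {Ω : Set (ℝ × ℝ)} (hc : IsCompact Ω) (hint : (interior Ω).Nonempty) :
    0 < volOm Ω := by
  have h1 : 0 < volume Ω := Measure.measure_pos_of_nonempty_interior volume hint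
  have h2 : volume Ω < ⊤ := hc.measure_lt_top
  unfold volOm
  have := ENNReal.toReal_pos h1.ne' h2.ne
  linarith

theorem bOm_pos {Ω : Set (ℝ × ℝ)} (hc : IsCompact Ω) (hint : (interior Ω).Nonempty) :
    0 < bOm Ω := by
  obtain ⟨x, hx⟩ := hint
  obtain ⟨e, he, hb⟩ := Metric.isOpen_iff.1 isOpen_interior x hx
  have hx' : (x.1 + e / 2, x.2) ∈ Ω := by
    refine interior_subset (hb ?_)
    rw [Metric.mem_ball, Prod.dist_eq]
    dsimp only
    rw [dist_self, Real.dist_eq, add_sub_cancel_left, abs_of_pos (by linarith), max_eq_left (by linarith)]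
    linarith
  have hx0 : x ∈ Ω := interior_subset hx
  have h1 := pr_le_hs hc (1, 1) hx'
  have h2 := pr_le_hs hc (-1, 0) hx0
  have h3 := pr_le_hs hc (0, -1) hx0
  simp only [pr] at h1 h2 h3
  push_cast at h1 h2 h3
  unfold bOm
  linarith

/-- twice the area -/
theorem volOm_eq {Ω : Set (ℝ × ℝ)} (hc : IsCompact Ω) (hconv : Convex ℝ Ω)
    (hint : (interior Ω).Nonempty) : volOm Ω = bOm Ω ^ 2 - ∑' j, wOm Ω j ^ 2 := by
  have hne : Ω.Nonempty := hint.mono interior_subset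
  have hU : MeasurableSet (⋃ j, T Ω j) := MeasurableSet.iUnion fun j => T_meas Ω j
  have h1 : Disjoint Ω (⋃ j, T Ω j) := by
    rw [Set.disjoint_left]
    intro x hx hxT
    obtain ⟨j, hj⟩ := Set.mem_iUnion.1 hxT
    exact absurd hj.2.2 (not_lt.2 (pr_le_hs hc _ hx))
  have h2 : volume (Tri Ω) = volume Ω + ∑' j, volume (T Ω j) := by
    rw [cover hc hconv hne, measure_union h1 hU,
      measure_iUnion (fun j k hjk => T_disj hc hconv hne hjk) fun j => T_meas Ω j]
  rw [Tri_vol (bOm_pos hc hint).le] at h2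
  have h3 : ∑' j, volume (T Ω j) ≠ ⊤ := by
    intro h
    rw [h, add_top] at h2
    exact ENNReal.ofReal_ne_top h2
  have h4 := congrArg ENNReal.toReal h2
  rw [ENNReal.toReal_add hc.measure_lt_top.ne h3, ENNReal.toReal_ofReal (by positivity),
    ENNReal.tsum_toReal_eq (fun j => by rw [T_vol hc hne]; exact ENNReal.ofReal_ne_top)] at h4
  have h5 : ∀ j, (volume (T Ω j)).toReal = wOm Ω j ^ 2 / 2 := by
    intro j
    rw [T_vol hc hne, ENNReal.toReal_ofReal (by positivity)]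
  simp only [h5] at h4
  rw [tsum_div_const] at h4
  unfold volOm
  linarith

end Pool.Agent.Stair
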