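import Pool.Agent.Lib.MP_f690a7_gt.DefsOm
import Pool.Agent.Lib.MP_f690a7_gt.Final
import Pool.Agent.Lib.MP_f690a7_gt.OmB
import Pool.Agent.Lib.MP_f690a7_gt.OmS
import Pool.Agent.Lib.MP_f690a7_gt.OmP
import Pool.Agent.Lib.MP_f690a7_gt.OmV

/-!
Final theorem for convex regions.
-/

namespace Pool.Agent.Stair

open MeasureTheory

namespace OmF

theorem sum_equiv {κ κ' M : Type} [AddCommMonoid M] (e : κ ≃ κ') (m : κ →₀ ℕ) (f : κ' → ℕ → M) :
    (Finsupp.equivMapDomain e m).sum f = m.sum fun i k => f (e i) k := by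
  rw [Finsupp.equivMapDomain_eq_mapDomain]
  exact Finsupp.sum_mapDomain_index_inj e.injective

theorem packs_of {κ κ' : Type} (e : κ ≃ κ') (B : ℝ) (a : κ' → ℝ) (h : Packs B a) :
    Packs B (a ∘ e) := by
  intro d m hm
  have h1 := h d (Finsupp.equivMapDomain e m) (by rw [sum_equiv]; exact hm)
  rw [sum_equiv] at h1
  exact h1

theorem packs_equiv {κ κ' : Type} (e : κ ≃ κ') (B : ℝ) (a : κ' → ℝ) :
    Packs B (a ∘ e) ↔ Packs B a := by
  constructor
  · intro h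
    have := packs_of e.symm B (a ∘ e) h
    rwa [Function.comp_assoc, e.self_comp_symm, Function.comp_id] at this
  · exact packs_of e B a

end OmF

theorem cfun_equiv {κ κ' : Type} (e : κ ≃ κ') (b : ℝ) (β : κ' → ℝ) (z : ℝ) :
    cfun b (β ∘ e) z = cfun b β z := by
  unfold cfun
  congr 1
  ext c
  have he : (Sum.elim (fun i => c * (β ∘ e) i) (wt 1 z) : κ ⊕ ℕ → ℝ) =
      (Sum.elim (fun i => c * β i) (wt 1 z) : κ' ⊕ ℕ → ℝ) ∘ (Equiv.sumCongr e (Equiv.refl ℕ)) := by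
    ext x
    rcases x with i | n <;> rfl
  simp only [Set.mem_ofPred_eq]
  rw [he, OmF.packs_equiv]

theorem final_omega {Ω : Set (ℝ × ℝ)} (hc : IsCompact Ω) (hconv : Convex ℝ Ω)
    (hint : (interior Ω).Nonempty) (R : ℝ)
    (hinf : {z : ℝ | 1 ≤ z ∧ z ≤ R ∧
      ¬ ContDiffAt ℝ ((⊤ : ℕ∞) : WithTop ℕ∞) (cOm Ω) z}.Infinite) :
    4 ≤ affPer Ω ^ 2 / volOm Ω ∧
      ∀ a0 : ℝ, 1 ≤ a0 → a0 ^ 2 - a0 * (affPer Ω ^ 2 / volOm Ω - 2) + 1 = 0 → Irrational a0 := by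
  have hne : Ω.Nonempty := hint.mono interior_subset
  obtain ⟨e⟩ : Nonempty (ℕ ≃ Fin 3 × List Bool) := nonempty_equiv_of_countable
  have hvol : Vol (bOm Ω) (wOm Ω ∘ e) = volOm Ω := by
    rw [volOm_eq hc hconv hint]
    unfold Vol
    congr 1
    exact e.tsum_eq (fun j => wOm Ω j ^ 2)
  have hper : Per (bOm Ω) (wOm Ω ∘ e) = affPer Ω := by
    rw [affPer_eq hc hconv hint]
    unfold Per
    congr 1
    exact e.tsum_eq (fun j => wOm Ω j)
  have hvpos := volOm_pos hc hint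
  have D : Dat (bOm Ω) (wOm Ω ∘ e) :=
    { hb := bOm_pos hc hint
      hβ := fun i => wOm_nonneg hc hne (e i)
      hs := e.summable_iff.mpr (summable_wOm hc hne)
      hV := by rw [hvol]; exact hvpos }
  have hcf : cOm Ω = cfun (bOm Ω) (wOm Ω ∘ e) := by
    funext z
    exact (cfun_equiv e (bOm Ω) (wOm Ω) z).symm
  rw [hcf] at hinf
  obtain ⟨a, ha1, hirr, -, hval⟩ := final_weights D R hinf
  rw [hvol, hper] at hval
  have ha0 : 0 < a := by linarith
  have hK : affPer Ω ^ 2 / volOm Ω = (1 + a) ^ 2 / a := by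
    rw [div_eq_div_iff hvpos.ne' ha0.ne']
    linarith
  rw [hK]
  constructor
  · rw [le_div_iff₀ ha0]
    nlinarith [sq_nonneg (a - 1)]
  · intro a0 h1 h2
    have h3 : (a0 - a) * (a0 * a - 1) = 0 := by
      have h4 : (1 + a) ^ 2 / a * a = (1 + a) ^ 2 := div_mul_cancel₀ _ ha0.ne'
      have h5 : (a0 ^ 2 - a0 * ((1 + a) ^ 2 / a - 2) + 1) * a = 0 := by rw [h2, zero_mul]
      have h6 : (a0 ^ 2 - a0 * ((1 + a) ^ 2 / a - 2) + 1) * a =
          a0 ^ 2 * a - a0 * ((1 + a) ^ 2 / a * a - 2 * a) + a := by ring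
      rw [h6, h4] at h5
      linarith [h5]
    rcases mul_eq_zero.mp h3 with h | h
    · have : a0 = a := by linarith
      rw [this]
      exact hirr
    · exfalso
      nlinarith

end Pool.Agent.Stair
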