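import Pool.Agent.Lib.MP_f690a7_gt.Alg

/-!
The pillow fibration: reduction of goodness to elementary pillow classes, flips, and the
half fibre lemma.  Project STAIR (MP_f690a7_gt), module PIL.
-/

namespace Pool.Agent.Stair

open Finset

namespace Pil

variable {ι : Type}

theorem sum_nonneg_sq (S : Finset ι) (m : ι → ℤ) : 0 ≤ ∑ i ∈ S, (m i ^ 2 + m i) := by
  apply Finset.sum_nonneg
  intro i _
  rcases le_or_gt 0 (m i) with h | h
  · positivity
  · nlinarith

/-- the quadratic function of the half fibre lemma is nonnegative -/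
theorem hn_nonneg (n : ℤ) (hn : 0 ≤ n) (x : ℤ) (t : ℝ) (t0 : 0 ≤ t) (t1 : t ≤ 1) :
    0 ≤ (x : ℝ) ^ 2 + x - 2 * (n + 1) * t * x + n * (n + 1) * t ^ 2 := by
  rcases eq_or_lt_of_le hn with h0 | hpos
  · subst h0
    simp only [Int.cast_zero, zero_add, mul_one, zero_mul, add_zero]
    rcases le_or_gt 0 x with hx | hx
    · have hx' : (0 : ℝ) ≤ (x : ℝ) ^ 2 - x := by
        have : (0 : ℤ) ≤ x ^ 2 - x := by
          rcases eq_or_lt_of_le hx with h | h
          · rw [← h]; norm_num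
          · nlinarith
        exact_mod_cast this
      have hx0 : (0 : ℝ) ≤ x := by exact_mod_cast hx
      nlinarith
    · have hx' : (0 : ℝ) ≤ (x : ℝ) ^ 2 + x := by
        have : (0 : ℤ) ≤ x ^ 2 + x := by nlinarith
        exact_mod_cast this
      have hx0 : (x : ℝ) ≤ 0 := by exact_mod_cast hx.le
      nlinarith
  · have hn' : (0 : ℝ) < n := by exact_mod_cast hpos
    have key : (n : ℝ) * ((x : ℝ) ^ 2 + x - 2 * (n + 1) * t * x + n * (n + 1) * t ^ 2) =
        (n + 1) * (n * t - x) ^ 2 + x * (n - x) := by ring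
    suffices h : 0 ≤ ((n : ℝ) + 1) * (n * t - x) ^ 2 + x * (n - x) by
      rw [← key] at h
      exact nonneg_of_mul_nonneg_right h hn'
    rcases lt_or_ge x 0 with hx | hx
    · have hx0 : (x : ℝ) ≤ -1 := by
        have : x ≤ -1 := by omega
        exact_mod_cast this
      have h1 : (x : ℝ) ^ 2 ≤ (n * t - x) ^ 2 := by
        nlinarith [mul_nonneg hn'.le t0]
      nlinarith [mul_nonneg hn'.le (show (0 : ℝ) ≤ (x : ℝ) ^ 2 + x by nlinarith)]
    · rcases le_or_gt x n with hxn | hxn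
      · have hx0 : (0 : ℝ) ≤ x := by exact_mod_cast hx
        have hxn' : (x : ℝ) ≤ n := by exact_mod_cast hxn
        have := mul_nonneg hx0 (sub_nonneg.mpr hxn')
        positivity
      · have hk : (1 : ℝ) ≤ x - n := by
          have : (n : ℤ) + 1 ≤ x := by omega
          have : ((n : ℝ) + 1) ≤ x := by exact_mod_cast this
          linarith
        have h1 : ((x : ℝ) - n) ^ 2 ≤ (n * t - x) ^ 2 := by
          have h2 : (n : ℝ) * t ≤ n := by nlinarith
          nlinarith
        have h3 : 0 ≤ (n : ℝ) * (((x : ℝ) - n) ^ 2 - (x - n)) :=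
          mul_nonneg hn'.le (by nlinarith)
        nlinarith

/-- the improvement at `n = 2` -/
theorem h2_half (x : ℤ) (hx : x % 3 = 1) (t : ℝ) (t0 : 0 ≤ t) (t1 : t ≤ 1) :
    1 / 2 ≤ (x : ℝ) ^ 2 + x - 6 * t * x + 6 * t ^ 2 := by
  suffices h : 1 ≤ 3 * (2 * t - x) ^ 2 + (x : ℝ) * (2 - x) by nlinarith
  have h3 : x = 1 ∨ 4 ≤ x ∨ x ≤ -2 := by omega
  rcases h3 with h | h | h
  · subst h
    push_cast
    nlinarith [sq_nonneg (2 * t - 1)]
  · have h' : (4 : ℝ) ≤ x := by exact_mod_cast h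
    nlinarith [mul_nonneg (show (0 : ℝ) ≤ x - 2 by linarith) (show (0 : ℝ) ≤ x - 4 by linarith),
      mul_nonneg (show (0 : ℝ) ≤ 2 - 2 * t by linarith) (show (0 : ℝ) ≤ x - 2 by linarith)]
  · have h' : (x : ℝ) ≤ -2 := by exact_mod_cast h
    nlinarith [mul_nonneg t0 (show (0 : ℝ) ≤ -x by linarith)]

theorem odd_sq (k : ℤ) : (k ^ 2) % 2 = k % 2 := by
  rcases Int.emod_two_eq_zero_or_one k with h | h
  · obtain ⟨j, hj⟩ := Int.dvd_of_emod_eq_zero h
    subst hj
    rw [h]
    have : (2 * j) ^ 2 = 2 * (2 * j ^ 2) := by ring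
    rw [this]; omega
  · have hj : k = 2 * (k / 2) + 1 := by omega
    set j := k / 2
    rw [h, hj]
    have : (2 * j + 1) ^ 2 = 2 * (2 * j ^ 2 + 2 * j) + 1 := by ring
    rw [this]; omega

/-- parity estimate for the four half fibre components -/
theorem par (n D a b c d : ℤ) :
    (if n % 2 = 0 ∧ (2 * D - (a + b + c + d)) % 2 = 0 then 0 else 4) ≤
      (2 * a - n) ^ 2 + (2 * b - n) ^ 2 + (2 * c - n) ^ 2 + (2 * d - n) ^ 2 := by
  split_ifs with h
  · positivity
  · rcases Int.emod_two_eq_zero_or_one n with h0 | h1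
    · have h2 : (a + b + c + d) % 2 = 1 := by
        have : ¬ (2 * D - (a + b + c + d)) % 2 = 0 := fun e => h ⟨h0, e⟩
        omega
      obtain ⟨k, hk⟩ := Int.dvd_of_emod_eq_zero h0
      subst hk
      have hs : (2 * a - 2 * k) ^ 2 + (2 * b - 2 * k) ^ 2 + (2 * c - 2 * k) ^ 2 +
          (2 * d - 2 * k) ^ 2 = 4 * ((a - k) ^ 2 + (b - k) ^ 2 + (c - k) ^ 2 + (d - k) ^ 2) := by
        ring
      rw [hs]
      have ha := odd_sq (a - k)
      have hb := odd_sq (b - k)
      have hc := odd_sq (c - k)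
      have hd := odd_sq (d - k)
      have hp : 0 ≤ (a - k) ^ 2 + (b - k) ^ 2 + (c - k) ^ 2 + (d - k) ^ 2 := by positivity
      have : ((a - k) ^ 2 + (b - k) ^ 2 + (c - k) ^ 2 + (d - k) ^ 2) % 2 = 1 := by omega
      omega
    · have hq : ∀ y : ℤ, 1 ≤ (2 * y - n) ^ 2 := by
        intro y
        have h0 : 2 * y - n ≠ 0 := by omega
        have := Int.one_le_abs h0
        nlinarith [sq_abs (2 * y - n), abs_nonneg (2 * y - n)]
      linarith [hq a, hq b, hq c, hq d]

end Pil

section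
variable {ι : Type}

theorem good_of_pgood [DecidableEq ι] (φ : Lat ι →+ ℝ) (s a b c d : ι)
    (hnd : [s, a, b, c, d].Nodup) (f : ℝ) (hf : φ (LL - EE s) = f)
    (ha : φ (EE a) = f / 2) (hb : φ (EE b) = f / 2) (hc : φ (EE c) = f / 2) (hd : φ (EE d) = f / 2)
    (hP : PGood (2 * φ (EE s)) f
      (fun i => if i = s ∨ i = a ∨ i = b ∨ i = c ∨ i = d then 0 else φ (EE i))) : Good φ := by
  intro A hA
  obtain ⟨hD, hI⟩ := hA
  set T : Finset ι := {s, a, b, c, d} with hT
  set S : Finset ι := A.2.support ∪ T with hS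
  have hTS : T ⊆ S := Finset.subset_union_right
  have hsupp : A.2.support ⊆ S := Finset.subset_union_left
  have hne : (s ≠ a ∧ s ≠ b ∧ s ≠ c ∧ s ≠ d) ∧ (a ≠ b ∧ a ≠ c ∧ a ≠ d) ∧ (b ≠ c ∧ b ≠ d) ∧ c ≠ d := by
    simp only [List.nodup_cons, List.mem_cons, List.not_mem_nil, or_false, not_or] at hnd
    tauto
  obtain ⟨⟨n1, n2, n3, n4⟩, ⟨n5, n6, n7⟩, ⟨n8, n9⟩, n10⟩ := hne
  have sumT : ∀ {M : Type} [AddCommMonoid M] (g : ι → M),
      ∑ i ∈ T, g i = g s + (g a + (g b + (g c + g d))) := by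
    intro M _ g
    rw [hT, Finset.sum_insert (by simp [n1, n2, n3, n4]), Finset.sum_insert (by simp [n5, n6, n7]),
      Finset.sum_insert (by simp [n8, n9]), Finset.sum_insert (by simp [n10]),
      Finset.sum_singleton]
  have memT : ∀ i, i ∈ T ↔ (i = s ∨ i = a ∨ i = b ∨ i = c ∨ i = d) := by
    intro i; rw [hT]; simp
  set x : ι →₀ ℤ := A.2.filter (fun i => i ∉ T) with hx
  have hxs : x.support ⊆ S \ T := by
    intro i hi
    rw [hx, Finsupp.support_filter, Finset.mem_filter] at hi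
    exact Finset.mem_sdiff.mpr ⟨hsupp hi.1, hi.2⟩
  have hxv : ∀ i ∈ S \ T, x i = A.2 i := by
    intro i hi
    rw [hx]
    exact Finsupp.filter_apply_pos (fun i => i ∉ T) A.2 (Finset.mem_sdiff.mp hi).2
  -- the three sums
  have e1 : (x.sum fun _ k => k ^ 2 + k) = ∑ i ∈ S \ T, (A.2 i ^ 2 + A.2 i) := by
    rw [sum_eq_of_subset x (fun _ k => k ^ 2 + k) (by intro i; norm_num) _ hxs]
    exact Finset.sum_congr rfl (fun i hi => by rw [hxv i hi])
  have e2 : idx A = A.1 ^ 2 + 3 * A.1 - (∑ i ∈ S \ T, (A.2 i ^ 2 + A.2 i) +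
      ((A.2 s ^ 2 + A.2 s) + ((A.2 a ^ 2 + A.2 a) + ((A.2 b ^ 2 + A.2 b) +
        ((A.2 c ^ 2 + A.2 c) + (A.2 d ^ 2 + A.2 d)))))) := by
    rw [idx_eq_sum A S hsupp, ← Finset.sum_sdiff hTS, sumT]
  have e3 : φ A = φ LL * A.1 - (∑ i ∈ S \ T, φ (EE i) * A.2 i +
      (φ (EE s) * A.2 s + (φ (EE a) * A.2 a + (φ (EE b) * A.2 b + (φ (EE c) * A.2 c +
        φ (EE d) * A.2 d))))) := by
    rw [hom_eq_sum φ A S hsupp, ← Finset.sum_sdiff hTS, sumT]
  have e4 : (x.sum fun i k => (fun i => if i = s ∨ i = a ∨ i = b ∨ i = c ∨ i = d then (0 : ℝ)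
      else φ (EE i)) i * (k : ℝ)) = ∑ i ∈ S \ T, φ (EE i) * A.2 i := by
    rw [sum_eq_of_subset x (fun i k => (fun i => if i = s ∨ i = a ∨ i = b ∨ i = c ∨ i = d
      then (0 : ℝ) else φ (EE i)) i * (k : ℝ)) (by intro i; simp) _ hxs]
    apply Finset.sum_congr rfl
    intro i hi
    have hi' := (Finset.mem_sdiff.mp hi).2
    rw [memT] at hi'
    simp only [hi', if_false]
    rw [hxv i hi]
  have hLL : φ LL = f + φ (EE s) := by
    rw [map_sub] at hf; linarith
  set R := ∑ i ∈ S \ T, (A.2 i ^ 2 + A.2 i) with hR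
  have hR0 : 0 ≤ R := Pil.sum_nonneg_sq _ _
  set D := A.1
  set ms := A.2 s
  set ma := A.2 a
  set mb := A.2 b
  set mc := A.2 c
  set md := A.2 d
  have nn : ∀ k : ℤ, 0 ≤ k ^ 2 + k := by
    intro k
    rcases le_or_gt 0 k with h | h
    · positivity
    · nlinarith
  have hn : 0 ≤ D - ms := by
    by_contra hneg
    push Not at hneg
    have h1 := nn ma
    have h2 := nn mb
    have h3 := nn mc
    have h4 := nn md
    have h5 : D - ms ≤ -1 := by omega
    rw [e2] at hI
    nlinarith [mul_nonneg hD (show 0 ≤ -(D - ms + 1) by omega)]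
  have hidx : 4 * idx A = 4 * ((D - ms + 1) * (2 * D - (ma + mb + mc + md) + 1) - 1) -
      ((2 * ma - (D - ms)) ^ 2 + (2 * mb - (D - ms)) ^ 2 + (2 * mc - (D - ms)) ^ 2 +
        (2 * md - (D - ms)) ^ 2) - 4 * R := by
    rw [e2]; ring
  have hpar := Pil.par (D - ms) D ma mb mc md
  have hcond : R + (if (D - ms) % 2 = 0 ∧ (2 * D - (ma + mb + mc + md)) % 2 = 0 then 0 else 1) ≤
      (D - ms + 1) * (2 * D - (ma + mb + mc + md) + 1) - 1 := by
    split_ifs at hpar ⊢ <;> linarith
  have hm : 0 ≤ 2 * D - (ma + mb + mc + md) := by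
    by_contra hneg
    push Not at hneg
    have h1 : (D - ms + 1) * (2 * D - (ma + mb + mc + md) + 1) ≤ 0 :=
      mul_nonpos_of_nonneg_of_nonpos (by omega) (by omega)
    have h2 : (0 : ℤ) ≤ (if (D - ms) % 2 = 0 ∧ (2 * D - (ma + mb + mc + md)) % 2 = 0 then 0 else 1)
      := by split_ifs <;> norm_num
    linarith
  have hfin := hP (D - ms) (2 * D - (ma + mb + mc + md)) x hn hm (by rw [e1]; exact hcond)
  rw [e4] at hfin
  rw [e3, hLL, ha, hb, hc, hd]
  push_cast at hfin
  linarith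

theorem PGood.swap {α β : ℝ} {v : ι → ℝ} (h : PGood α β v) : PGood β α v := by
  intro n m x hn hm hx
  have hp : (if m % 2 = 0 ∧ n % 2 = 0 then (0 : ℤ) else 1) =
      (if n % 2 = 0 ∧ m % 2 = 0 then 0 else 1) := by
    split_ifs <;> tauto
  have := h m n x hm hn (by
    rw [hp, mul_comm (m + 1)]
    exact hx)
  linarith

theorem Pil.flip_aux [DecidableEq ι] {α β : ℝ} {v : ι → ℝ} (i : ι) (h : PGood α β v) :
    PGood (α + β - 2 * v i) β (Function.update v i (β - v i)) := by
  intro n m x hn hm hx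
  set S : Finset ι := insert i x.support with hS
  have hxS : x.support ⊆ S := Finset.subset_insert _ _
  have hiS : i ∈ S := Finset.mem_insert_self _ _
  set y : ι →₀ ℤ := x.update i (n - x i) with hy
  have hyS : y.support ⊆ S := by
    rw [hy]
    intro j hj
    by_cases hji : j = i
    · rw [hji]; exact hiS
    · rw [Finsupp.mem_support_iff, Finsupp.coe_update, Function.update_of_ne hji] at hj
      exact hxS (Finsupp.mem_support_iff.mpr hj)
  have hyi : y i = n - x i := by rw [hy]; simp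
  have hyj : ∀ j, j ≠ i → y j = x j := by
    intro j hj; rw [hy, Finsupp.coe_update, Function.update_of_ne hj]
  have sum_split : ∀ {M : Type} [AddCommMonoid M] (g : ι → M),
      ∑ j ∈ S, g j = ∑ j ∈ S.erase i, g j + g i := by
    intro M _ g; exact (Finset.sum_erase_add S g hiS).symm
  have ey : (y.sum fun _ k => k ^ 2 + k) =
      ∑ j ∈ S.erase i, (x j ^ 2 + x j) + ((n - x i) ^ 2 + (n - x i)) := by
    rw [sum_eq_of_subset y (fun _ k => k ^ 2 + k) (by intro i; norm_num) _ hyS, sum_split, hyi]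
    congr 1
    apply Finset.sum_congr rfl
    intro j hj
    rw [hyj j (Finset.ne_of_mem_erase hj)]
  have ex : (x.sum fun _ k => k ^ 2 + k) =
      ∑ j ∈ S.erase i, (x j ^ 2 + x j) + (x i ^ 2 + x i) := by
    rw [sum_eq_of_subset x (fun _ k => k ^ 2 + k) (by intro i; norm_num) _ hxS, sum_split]
  have fy : (y.sum fun j k => v j * (k : ℝ)) =
      ∑ j ∈ S.erase i, v j * x j + v i * ((n : ℝ) - x i) := by
    rw [sum_eq_of_subset y (fun j k => v j * (k : ℝ)) (by intro i; simp) _ hyS, sum_split, hyi]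
    push_cast
    congr 1
    apply Finset.sum_congr rfl
    intro j hj
    rw [hyj j (Finset.ne_of_mem_erase hj)]
  have fx : (x.sum fun j k => Function.update v i (β - v i) j * (k : ℝ)) =
      ∑ j ∈ S.erase i, v j * x j + (β - v i) * (x i : ℝ) := by
    rw [sum_eq_of_subset x (fun j k => Function.update v i (β - v i) j * (k : ℝ))
      (by intro i; simp) _ hxS, sum_split, Function.update_self]
    congr 1
    apply Finset.sum_congr rfl
    intro j hj
    rw [Function.update_of_ne (Finset.ne_of_mem_erase hj)]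
  rw [ex] at hx
  have hnn : (0 : ℤ) ≤ ∑ j ∈ S.erase i, (x j ^ 2 + x j) := Pil.sum_nonneg_sq _ _
  have hcond : (y.sum fun _ k => k ^ 2 + k) +
      (if n % 2 = 0 ∧ (m + n - 2 * x i) % 2 = 0 then 0 else 1) ≤
        (n + 1) * (m + n - 2 * x i + 1) - 1 := by
    rw [ey]
    have hp : (if n % 2 = 0 ∧ (m + n - 2 * x i) % 2 = 0 then (0 : ℤ) else 1) =
        (if n % 2 = 0 ∧ m % 2 = 0 then 0 else 1) := by
      split_ifs with h1 h2 h2
      · rfl
      · exfalso; apply h2; exact ⟨h1.1, by omega⟩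
      · exfalso; apply h1; exact ⟨h2.1, by omega⟩
      · rfl
    rw [hp]
    generalize (if n % 2 = 0 ∧ m % 2 = 0 then (0 : ℤ) else 1) = e at hx ⊢
    nlinarith
  have hm' : 0 ≤ m + n - 2 * x i := by
    by_contra hneg
    push Not at hneg
    have h1 : (n + 1) * (m + n - 2 * x i + 1) ≤ 0 :=
      mul_nonpos_of_nonneg_of_nonpos (by omega) (by omega)
    have h2 : (0 : ℤ) ≤ (if n % 2 = 0 ∧ (m + n - 2 * x i) % 2 = 0 then 0 else 1)
      := by split_ifs <;> norm_num
    have h3 : (0 : ℤ) ≤ (y.sum fun _ k => k ^ 2 + k) := Pil.sum_nonneg_sq _ _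
    linarith
  have := h n (m + n - 2 * x i) y hn hm' hcond
  rw [fy] at this
  rw [fx]
  push_cast at this
  nlinarith

theorem PGood.flip [DecidableEq ι] {α β : ℝ} {v : ι → ℝ} (i : ι) :
    PGood α β v ↔ PGood (α + β - 2 * v i) β (Function.update v i (β - v i)) := by
  constructor
  · exact Pil.flip_aux i
  · intro h
    have h2 := Pil.flip_aux i h
    have e1 : α + β - 2 * v i + β - 2 * Function.update v i (β - v i) i = α := by
      rw [Function.update_self]; ring
    have e2 : Function.update (Function.update v i (β - v i)) i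
        (β - Function.update v i (β - v i) i) = v := by
      rw [Function.update_self, Function.update_idem]
      rw [show β - (β - v i) = v i by ring, Function.update_eq_self]
    rw [e1, e2] at h2
    exact h2

theorem halfFibre (α β : ℝ) (v : ι → ℝ) (hβ : 0 < β) (h0 : ∀ i, 0 ≤ v i) (h1 : ∀ i, v i ≤ β)
    (h2 : ∀ T : Finset ι, ∑ i ∈ T, v i ^ 2 ≤ α * β - β ^ 2 / 4) : PGood α β v := by
  intro n m x hn hm hx
  set T := x.support with hT
  set t : ι → ℝ := fun i => v i / β with ht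
  have ht0 : ∀ i, 0 ≤ t i := fun i => div_nonneg (h0 i) hβ.le
  have ht1 : ∀ i, t i ≤ 1 := fun i => (div_le_one hβ).mpr (h1 i)
  have hv : ∀ i, v i = β * t i := fun i => by rw [ht]; field_simp
  set Q := ∑ i ∈ T, t i ^ 2 with hQ
  have hQ' : Q + 1 / 4 ≤ α / β := by
    rw [le_div_iff₀ hβ]
    have h3 := h2 T
    have h4 : ∑ i ∈ T, v i ^ 2 = β ^ 2 * Q := by
      rw [hQ, Finset.mul_sum]
      apply Finset.sum_congr rfl
      intro i _
      rw [hv i]; ring
    rw [h4] at h3
    have h5 : β * (Q * β + β / 4) ≤ β * α := by nlinarith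
    have h6 := le_of_mul_le_mul_left h5 hβ
    linarith
  have e1 : (x.sum fun i k => v i * (k : ℝ)) = β * ∑ i ∈ T, t i * x i := by
    rw [Finsupp.sum, Finset.mul_sum]
    apply Finset.sum_congr rfl
    intro i _
    rw [hv i]; ring
  set P := ∑ i ∈ T, t i * (x i : ℝ) with hP
  set X : ℤ := x.sum fun _ k => k ^ 2 + k with hX
  have hXs : X = ∑ i ∈ T, (x i ^ 2 + x i) := by rw [hX, Finsupp.sum]
  have hXr : (X : ℝ) = ∑ i ∈ T, ((x i : ℝ) ^ 2 + x i) := by
    rw [hXs]; push_cast; rfl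
  set e : ℤ := if n % 2 = 0 ∧ m % 2 = 0 then 0 else 1 with he
  have hnr : (0 : ℝ) ≤ n := by exact_mod_cast hn
  have hxr : (X : ℝ) + e ≤ (n + 1) * (m + 1) - 1 := by exact_mod_cast hx
  have he0 : (0 : ℝ) ≤ e := by
    have : (0 : ℤ) ≤ e := by rw [he]; split_ifs <;> norm_num
    exact_mod_cast this
  -- the sum of the functions h_n
  have hH : ∑ i ∈ T, ((x i : ℝ) ^ 2 + x i - 2 * (n + 1) * t i * x i + n * (n + 1) * t i ^ 2) =
      X - 2 * (n + 1) * P + n * (n + 1) * Q := by
    rw [Finset.sum_add_distrib, Finset.sum_sub_distrib, ← hXr, hP, hQ, Finset.mul_sum,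
      Finset.mul_sum]
    congr 1
    congr 1
    apply Finset.sum_congr rfl
    intro i _
    ring
  have hH0 : 0 ≤ X - 2 * (n + 1) * P + n * (n + 1) * Q := by
    rw [← hH]
    apply Finset.sum_nonneg
    intro i _
    exact Pil.hn_nonneg n hn (x i) (t i) (ht0 i) (ht1 i)
  -- reduction
  suffices hmain : 2 * (n + 1) * P ≤ n * (n + 1) * Q + n * (n + 1) / 4 + (n + 1) * m by
    have hn1 : (0 : ℝ) < n + 1 := by linarith
    have h3 : (n + 1) * (2 * P) ≤ (n + 1) * (n * (Q + 1 / 4) + m) := by nlinarith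
    have h4 := le_of_mul_le_mul_left h3 hn1
    have h5 : n * (Q + 1 / 4) ≤ n * (α / β) := mul_le_mul_of_nonneg_left hQ' hnr
    have h6 : 2 * P ≤ n * (α / β) + m := by linarith
    rw [e1]
    have h7 : β * (2 * P) ≤ β * (n * (α / β) + m) := mul_le_mul_of_nonneg_left h6 hβ.le
    have h8 : β * (n * (α / β) + m) = α * n + β * m := by field_simp
    rw [h8] at h7
    linarith
  have hn4 : n = 0 ∨ n = 1 ∨ n = 2 ∨ 3 ≤ n := by omega
  rcases hn4 with h | h | h | h
  · subst h
    push_cast at hH0 hxr ⊢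
    nlinarith
  · subst h
    have he1 : e = 1 := by rw [he]; simp
    rw [he1] at hxr
    push_cast at hH0 hxr ⊢
    nlinarith
  · subst h
    by_cases he1 : e = 1
    · rw [he1] at hxr
      push_cast at hH0 hxr ⊢
      nlinarith
    · have he2 : e = 0 := by
        by_contra h9
        apply he1
        rw [he] at h9 ⊢
        split_ifs at h9 ⊢ with h10
        · exact absurd rfl h9
        · rfl
      by_cases hex : ∃ j ∈ T, x j % 3 = 1
      · obtain ⟨j, hj, hj3⟩ := hex
        have h5 : 1 / 2 ≤ (X : ℝ) - 2 * (2 + 1) * P + 2 * (2 + 1) * Q := by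
          have h6 := Pil.h2_half (x j) hj3 (t j) (ht0 j) (ht1 j)
          have h7 : (x j : ℝ) ^ 2 + x j - 2 * (((2 : ℤ) : ℝ) + 1) * t j * x j +
              ((2 : ℤ) : ℝ) * (((2 : ℤ) : ℝ) + 1) * t j ^ 2 ≤
              ∑ i ∈ T, ((x i : ℝ) ^ 2 + x i - 2 * (((2 : ℤ) : ℝ) + 1) * t i * x i +
                ((2 : ℤ) : ℝ) * (((2 : ℤ) : ℝ) + 1) * t i ^ 2) := by
            apply Finset.single_le_sum (f := fun i => (x i : ℝ) ^ 2 + x i -
              2 * (((2 : ℤ) : ℝ) + 1) * t i * x i +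
              ((2 : ℤ) : ℝ) * (((2 : ℤ) : ℝ) + 1) * t i ^ 2) _ hj
            intro i _
            exact Pil.hn_nonneg 2 (by norm_num) (x i) (t i) (ht0 i) (ht1 i)
          rw [hH] at h7
          push_cast at h7
          nlinarith
        rw [he2] at hxr
        push_cast at hH0 hxr ⊢
        nlinarith
      · push Not at hex
        have h6 : (6 : ℤ) ∣ X := by
          rw [hXs]
          apply Finset.dvd_sum
          intro i hi
          have h7 := hex i hi
          have h8 : (x i ^ 2 + x i) = x i * (x i + 1) := by ring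
          rw [h8]
          have h9 : (2 : ℤ) ∣ x i * (x i + 1) := by
            rcases Int.emod_two_eq_zero_or_one (x i) with h10 | h10
            · exact Dvd.dvd.mul_right (Int.dvd_of_emod_eq_zero h10) _
            · exact Dvd.dvd.mul_left (Int.dvd_of_emod_eq_zero (by omega)) _
          have h11 : (3 : ℤ) ∣ x i * (x i + 1) := by
            have h12 : x i % 3 = 0 ∨ x i % 3 = 2 := by omega
            rcases h12 with h10 | h10
            · exact Dvd.dvd.mul_right (Int.dvd_of_emod_eq_zero h10) _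
            · exact Dvd.dvd.mul_left (Int.dvd_of_emod_eq_zero (by omega)) _
          omega
        obtain ⟨k, hk⟩ := h6
        have h7 : 2 * k ≤ m := by
          rw [hk, he2] at hx
          omega
        have h8 : (X : ℝ) ≤ 3 * m := by
          have : X ≤ 3 * m := by omega
          exact_mod_cast this
        push_cast at hH0 ⊢
        nlinarith
  · have h3 : (3 : ℝ) ≤ n := by exact_mod_cast h
    nlinarith [mul_nonneg hnr (show (0 : ℝ) ≤ n - 3 by linarith)]

end

end Pool.Agent.Stair
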