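import Pool.Agent.Lib.MP_f690a7_gt.Pil
import Pool.Agent.Lib.MP_f690a7_gt.Eu

/-!
List calculus for `PL`.
-/

namespace Pool.Agent.Stair

open Finset

namespace Plb

variable {ι κ : Type}

theorem sq_add_nonneg (k : ℤ) : 0 ≤ k ^ 2 + k := by
  rcases le_or_gt 0 k with h | h
  · positivity
  · nlinarith

/-- coordinates with value zero may be dropped -/
theorem pgood_embed (f : ι → κ) (hf : Function.Injective f) {α β : ℝ} (v : κ → ℝ)
    (h0 : ∀ j, j ∉ Set.range f → v j = 0) : PGood α β v ↔ PGood α β (v ∘ f) := by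
  classical
  constructor
  · intro h n m x hn hm hx
    have key := h n m (x.embDomain ⟨f, hf⟩) hn hm
    have e1 : ((x.embDomain ⟨f, hf⟩).sum fun _ k => k ^ 2 + k) = x.sum fun _ k => k ^ 2 + k := by
      rw [Finsupp.sum, Finsupp.support_embDomain, Finset.sum_map]
      apply Finset.sum_congr rfl
      intro i _
      rw [Finsupp.embDomain_apply_self]
    have e2 : ((x.embDomain ⟨f, hf⟩).sum fun i k => v i * (k : ℝ)) =
        x.sum fun i k => (v ∘ f) i * (k : ℝ) := by
      rw [Finsupp.sum, Finsupp.support_embDomain, Finset.sum_map]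
      apply Finset.sum_congr rfl
      intro i _
      rw [Finsupp.embDomain_apply_self]
      rfl
    rw [e1, e2] at key
    exact key hx
  · intro h n m x hn hm hx
    set y : ι →₀ ℤ := x.comapDomain f hf.injOn with hy
    have hyx : ∀ i, y i = x (f i) := fun i => rfl
    have hsub : y.support.map ⟨f, hf⟩ ⊆ x.support := by
      intro j hj
      rw [Finset.mem_map] at hj
      obtain ⟨i, hi, rfl⟩ := hj
      rw [Finsupp.mem_support_iff] at hi ⊢
      exact hi
    have e1 : (y.sum fun _ k => k ^ 2 + k) ≤ x.sum fun _ k => k ^ 2 + k := by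
      have : (y.sum fun _ k => k ^ 2 + k) = ∑ j ∈ y.support.map ⟨f, hf⟩, (x j ^ 2 + x j) := by
        rw [Finset.sum_map]
        rfl
      rw [this]
      apply Finset.sum_le_sum_of_subset_of_nonneg hsub
      intro j _ _
      exact sq_add_nonneg _
    have e2 : (x.sum fun i k => v i * (k : ℝ)) = y.sum fun i k => (v ∘ f) i * (k : ℝ) := by
      have : (y.sum fun i k => (v ∘ f) i * (k : ℝ)) =
          ∑ j ∈ y.support.map ⟨f, hf⟩, v j * (x j : ℝ) := by
        rw [Finset.sum_map]
        rfl
      rw [this]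
      symm
      apply Finset.sum_subset hsub
      intro j hj hj'
      by_cases hr : j ∈ Set.range f
      · obtain ⟨i, rfl⟩ := hr
        exfalso
        apply hj'
        rw [Finset.mem_map]
        refine ⟨i, ?_, rfl⟩
        rw [Finsupp.mem_support_iff] at hj ⊢
        exact hj
      · rw [h0 j hr, zero_mul]
    have key := h n m y hn hm (by linarith)
    rw [e2]
    exact key

theorem pgood_congr {α β α' β' : ℝ} {v w : ι → ℝ} (h1 : α = α') (h2 : β = β') (h : ∀ i, v i = w i) :
    PGood α β v ↔ PGood α' β' w := by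
  rw [h1, h2, funext h]

theorem perm_map {L L' : List ℝ} (h : L.Perm L') :
    ∃ f : Fin L.length → Fin L'.length, Function.Bijective f ∧ ∀ i, L'.get (f i) = L.get i := by
  suffices H : ∃ f : Fin L.length → Fin L'.length, Function.Injective f ∧
      ∀ i, L'.get (f i) = L.get i by
    obtain ⟨f, hf, hf'⟩ := H
    refine ⟨f, (Fintype.bijective_iff_injective_and_card f).mpr ⟨hf, ?_⟩, hf'⟩
    simpa using h.length_eq
  induction h with
  | nil => exact ⟨id, Function.injective_id, fun i => rfl⟩
  | cons x _ ih =>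
    obtain ⟨f, hf, hf'⟩ := ih
    refine ⟨Fin.cases 0 (fun i => (f i).succ), ?_, ?_⟩
    · intro i j
      refine Fin.cases ?_ (fun i => ?_) i <;> refine Fin.cases ?_ (fun j => ?_) j
      · simp
      · intro h
        exact absurd h (Fin.succ_ne_zero _).symm
      · intro h
        exact absurd h (Fin.succ_ne_zero _)
      · intro h
        simp only [Fin.cases_succ] at h
        rw [hf (Fin.succ_injective _ h)]
    · intro i
      refine Fin.cases ?_ (fun i => ?_) i
      · rfl
      · exact hf' i
  | swap x y l =>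
    refine ⟨Fin.cases 1 (Fin.cases 0 (fun i => i.succ.succ)), ?_, ?_⟩
    · intro i j
      refine Fin.cases ?_ (fun i => Fin.cases ?_ (fun i => ?_) i) i <;>
        refine Fin.cases ?_ (fun j => Fin.cases ?_ (fun j => ?_) j) j <;> intro h
      · rfl
      · exact absurd (show (1 : Fin (l.length + 2)) = 0 from h) (by simp)
      · exact absurd (Fin.ext_iff.mp (show (1 : Fin (l.length + 2)) = j.succ.succ from h)) (by simp)
      · exact absurd (show (0 : Fin (l.length + 2)) = 1 from h) (by simp)
      · rfl
      · exact absurd (Fin.ext_iff.mp (show (0 : Fin (l.length + 2)) = j.succ.succ from h)) (by simp)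
      · exact absurd (Fin.ext_iff.mp (show i.succ.succ = (1 : Fin (l.length + 2)) from h)) (by simp)
      · exact absurd (Fin.ext_iff.mp (show i.succ.succ = (0 : Fin (l.length + 2)) from h)) (by simp)
      · simp only [Fin.cases_succ] at h
        exact congrArg Fin.succ (congrArg Fin.succ (Fin.succ_injective _ (Fin.succ_injective _ h)))
    · intro i
      refine Fin.cases ?_ (fun i => Fin.cases ?_ (fun i => ?_) i) i <;> rfl
  | trans _ _ ih1 ih2 =>
    obtain ⟨f, hf, hf'⟩ := ih1
    obtain ⟨g, hg, hg'⟩ := ih2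
    exact ⟨g ∘ f, hg.comp hf, fun i => by rw [Function.comp_apply, hg', hf']⟩

end Plb

open Plb

theorem PL.perm {α β a b : ℝ} {L L' : List ℝ} (h : L.Perm L') : PL α β L a b ↔ PL α β L' a b := by
  obtain ⟨f, hf, hf'⟩ := perm_map h
  unfold PL
  rw [pgood_embed (Sum.map f id) (Function.Injective.sumMap hf.1 Function.injective_id)
    (Sum.elim (fun i : Fin L'.length => L'.get i) (wt a b))]
  · apply pgood_congr rfl rfl
    rintro (i | n)
    · exact (hf' i).symm
    · rfl
  · rintro (j | n) hj
    · obtain ⟨i, rfl⟩ := hf.2 j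
      exact absurd ⟨Sum.inl i, rfl⟩ hj
    · exact absurd ⟨Sum.inr n, rfl⟩ hj

theorem PL.swap {α β a b : ℝ} {L : List ℝ} : PL α β L a b ↔ PL β α L a b :=
  ⟨PGood.swap, PGood.swap⟩

theorem PL.flip {α β x a b : ℝ} {L : List ℝ} :
    PL α β (x :: L) a b ↔ PL (α + β - 2 * x) β ((β - x) :: L) a b := by
  classical
  unfold PL
  rw [PGood.flip (Sum.inl (0 : Fin (L.length + 1)))]
  apply pgood_congr rfl rfl
  rintro (i | n)
  · refine Fin.cases ?_ (fun i => ?_) i
    · rw [Function.update_self]; rfl
    · rw [Function.update_of_ne]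
      · rfl
      · intro h
        exact Fin.succ_ne_zero _ (Sum.inl_injective h)
  · rw [Function.update_of_ne (by simp)]
    rfl

theorem PL.zero {α β a b : ℝ} {L : List ℝ} : PL α β (0 :: L) a b ↔ PL α β L a b := by
  unfold PL
  rw [pgood_embed (Sum.map (Fin.succ : Fin L.length → Fin (L.length + 1)) id)
    (Function.Injective.sumMap (Fin.succ_injective _) Function.injective_id)
    (Sum.elim (fun i : Fin (0 :: L).length => (0 :: L).get i) (wt a b))]
  · apply pgood_congr rfl rfl
    rintro (i | n) <;> rfl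
  · rintro (j | n) hj
    · revert hj
      refine Fin.cases ?_ (fun i => ?_) j
      · intro _; rfl
      · intro hj
        exact absurd ⟨Sum.inl i, rfl⟩ hj
    · exact absurd ⟨Sum.inr n, rfl⟩ hj

theorem PL.comm {α β a b : ℝ} {L : List ℝ} : PL α β L a b ↔ PL α β L b a := by
  unfold PL
  apply pgood_congr rfl rfl
  rintro (i | n)
  · rfl
  · exact wt_comm a b n

theorem PL.pull {α β a b : ℝ} {L : List ℝ} (h : a ≤ b) :
    PL α β L a b ↔ PL α β (a :: L) a (b - a) := by
  unfold PL
  let f : Fin L.length ⊕ ℕ → Fin (L.length + 1) ⊕ ℕ := fun i => match i with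
    | Sum.inl i => Sum.inl i.succ
    | Sum.inr 0 => Sum.inl 0
    | Sum.inr (n + 1) => Sum.inr n
  rw [pgood_embed f _ (Sum.elim (fun i : Fin (a :: L).length => (a :: L).get i) (wt a (b - a)))]
  · apply pgood_congr rfl rfl
    rintro (i | (_ | n))
    · rfl
    · show wt a b 0 = a
      rw [wt_zero, min_eq_left h]
    · exact wt_succ_le h n
  · rintro (j | n) hj
    · revert hj
      refine Fin.cases ?_ (fun i => ?_) j
      · intro hj
        exact absurd ⟨Sum.inr 0, rfl⟩ hj
      · intro hj
        exact absurd ⟨Sum.inl i, rfl⟩ hj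
    · exact absurd ⟨Sum.inr (n + 1), rfl⟩ hj
  · rintro (i | (_ | n)) (j | (_ | m)) hij
    · exact congrArg Sum.inl (Fin.succ_injective _ (Sum.inl_injective hij))
    · exact absurd (Sum.inl_injective hij) (Fin.succ_ne_zero _)
    · exact absurd hij (by simp [f])
    · exact absurd (Sum.inl_injective hij).symm (Fin.succ_ne_zero _)
    · rfl
    · exact absurd hij (by simp [f])
    · exact absurd hij (by simp [f])
    · exact absurd hij (by simp [f])
    · have : n = m := Sum.inr_injective hij
      rw [this]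

theorem PL.half {α β a b : ℝ} {L : List ℝ} (hβ : 0 < β) (ha : 0 ≤ a) (hb : 0 ≤ b)
    (hL : ∀ w ∈ L, 0 ≤ w ∧ w ≤ β) (hab : min a b ≤ β)
    (hsq : (L.map (fun w => w ^ 2)).sum + a * b ≤ α * β - β ^ 2 / 4) : PL α β L a b := by
  classical
  unfold PL
  apply halfFibre α β _ hβ
  · rintro (i | n)
    · exact (hL _ (L.get_mem i)).1
    · exact wt_nonneg ha hb n
  · rintro (i | n)
    · exact (hL _ (L.get_mem i)).2
    · refine le_trans (wt_anti ha hb (Nat.zero_le n)) ?_
      rw [wt_zero]
      exact hab
  · intro T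
    refine le_trans ?_ hsq
    obtain ⟨k, hk⟩ : ∃ k : ℕ, ∀ n : ℕ, (Sum.inr n : Fin L.length ⊕ ℕ) ∈ T → n < k := by
      refine ⟨(T.sup fun i => match i with
        | Sum.inl _ => 0
        | Sum.inr n => n) + 1, fun n hn => ?_⟩
      have := Finset.le_sup (f := fun i : Fin L.length ⊕ ℕ => match i with
        | Sum.inl _ => 0
        | Sum.inr n => n) hn
      exact Nat.lt_succ_of_le this
    have hT : T ⊆ (Finset.univ : Finset (Fin L.length)).disjSum (range k) := by
      rintro (i | n) hi
      · rw [Finset.inl_mem_disjSum]; exact Finset.mem_univ _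
      · rw [Finset.inr_mem_disjSum, Finset.mem_range]; exact hk n hi
    refine le_trans (Finset.sum_le_sum_of_subset_of_nonneg hT fun i _ _ => sq_nonneg _) ?_
    rw [Finset.sum_disjSum]
    have h1 : ∑ i : Fin L.length,
        Sum.elim (fun i : Fin L.length => L.get i) (wt a b) (Sum.inl i) ^ 2 =
        (L.map (fun w => w ^ 2)).sum := by
      have := Fin.sum_univ_fun_getElem L (fun w : ℝ => w ^ 2)
      rw [← this]
      rfl
    rw [h1]
    have h2 := sum_wt_sq a b k
    have h3 := eu_nonneg ha hb k
    have h4 := mul_nonneg h3.1 h3.2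
    simp only [Sum.elim_inr]
    linarith

theorem GoL_of_PL {s f a b : ℝ} {L : List ℝ} (h : PL (2 * s) f L a b) :
    GoL (s + f) (s :: f / 2 :: f / 2 :: f / 2 :: f / 2 :: L) a b := by
  classical
  unfold GoL
  apply good_of_pgood _ (Sum.inl (⟨0, by omega⟩ : Fin (L.length + 5)))
    (Sum.inl (⟨1, by omega⟩ : Fin (L.length + 5))) (Sum.inl (⟨2, by omega⟩ : Fin (L.length + 5)))
    (Sum.inl (⟨3, by omega⟩ : Fin (L.length + 5))) (Sum.inl (⟨4, by omega⟩ : Fin (L.length + 5)))
    _ f
  · rw [map_sub, vec_LL, vec_EE]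
    show s + f - s = f
    ring
  · rw [vec_EE]; rfl
  · rw [vec_EE]; rfl
  · rw [vec_EE]; rfl
  · rw [vec_EE]; rfl
  · rw [vec_EE]
    show PGood (2 * s) f _
    let g : Fin L.length ⊕ ℕ → Fin (L.length + 5) ⊕ ℕ :=
      Sum.map (fun i => i.succ.succ.succ.succ.succ) id
    rw [pgood_embed g]
    · refine (pgood_congr rfl rfl ?_).mp h
      rintro (i | n)
      · show L.get i = _
        rw [Function.comp_apply, if_neg, vec_EE]
        · rfl
        · simp only [g, Sum.map_inl, Sum.inl.injEq, Fin.ext_iff, Fin.val_succ]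
          omega
      · show wt a b n = _
        rw [Function.comp_apply, if_neg, vec_EE]
        · rfl
        · simp [g]
    · intro i j hij
      rcases i with i | n <;> rcases j with j | m
      · exact congrArg Sum.inl (Fin.succ_injective _ (Fin.succ_injective _ (Fin.succ_injective _
          (Fin.succ_injective _ (Fin.succ_injective _ (Sum.inl_injective hij))))))
      · exact absurd hij (by simp [g])
      · exact absurd hij (by simp [g])
      · exact congrArg Sum.inr (Sum.inr_injective hij)
    · rintro (j | n) hj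
      · have hj5 : (j : ℕ) < 5 := by
          by_contra hc
          have hj2 : (j : ℕ) < L.length + 5 := j.2
          apply hj
          refine ⟨Sum.inl ⟨j - 5, by omega⟩, ?_⟩
          apply congrArg Sum.inl
          apply Fin.ext
          show (j : ℕ) - 5 + 1 + 1 + 1 + 1 + 1 = j
          omega
        rw [if_pos]
        simp only [Sum.inl.injEq, Fin.ext_iff]
        omega
      · exact absurd ⟨Sum.inr n, rfl⟩ hj
  · simp [Sum.inl.injEq, Fin.ext_iff]

end Pool.Agent.Stair
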