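import Pool.Agent.Lib.MP_f690a7_gt.Crem

/-!
Real isotropic Cremona reduction with infinite tails (module RED of the blueprint).
-/

namespace Pool.Agent.Stair

open Finset

variable {ι : Type}

/-- a summable nonnegative family attains its maximum on every nonempty set -/
theorem exists_top (w : ι → ℝ) (hw : ∀ i, 0 ≤ w i) (hs : Summable w) (S : Set ι)
    (hS : S.Nonempty) : ∃ i ∈ S, ∀ j ∈ S, w j ≤ w i := by
  by_cases h : ∃ j0 ∈ S, 0 < w j0
  · obtain ⟨j0, hj0, hpos⟩ := h
    have hfin : {i | w j0 ≤ w i}.Finite := by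
      have h1 := hs.tendsto_cofinite_zero
      have h2 : ∀ᶠ i in Filter.cofinite, w i < w j0 := h1.eventually (gt_mem_nhds hpos)
      rw [Filter.eventually_cofinite] at h2
      simpa using h2
    have hfin2 : (S ∩ {i | w j0 ≤ w i}).Finite := hfin.subset Set.inter_subset_right
    obtain ⟨i, hi, hmax⟩ := Set.exists_max_image _ w hfin2 ⟨j0, hj0, le_refl (w j0)⟩
    refine ⟨i, hi.1, fun j hj => ?_⟩
    by_cases hjj : w j0 ≤ w j
    · exact hmax j ⟨hj, hjj⟩
    · push Not at hjj
      exact hjj.le.trans hi.2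
  · push Not at h
    obtain ⟨i, hi⟩ := hS
    exact ⟨i, hi, fun j hj => (h j hj).trans (hw i)⟩

/-- basic inequality: `∑ (t w - w^2)` over everything dominates the sum over a finite set outside of
which `w ≤ t` -/
theorem tail_ineq (w : ι → ℝ) (hw : ∀ i, 0 ≤ w i) (hs : Summable w)
    (hs2 : Summable (fun i => w i ^ 2)) (t : ℝ) (K : Finset ι) (hK : ∀ i, i ∉ K → w i ≤ t) :
    ∑ i ∈ K, (t * w i - w i ^ 2) ≤ t * ∑' i, w i - ∑' i, w i ^ 2 := by
  have h1 : Summable (fun i => t * w i - w i ^ 2) := (hs.mul_left t).sub hs2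
  have h2 : ∑' i, (t * w i - w i ^ 2) = t * ∑' i, w i - ∑' i, w i ^ 2 := by
    rw [(hs.mul_left t).tsum_sub hs2, tsum_mul_left]
  rw [← h2]
  apply h1.sum_le_tsum
  intro i hi
  have := hK i hi
  nlinarith [hw i]

/-- the properties preserved along the reduction -/
structure Orb (v0 : ℝ) (v : ι → ℝ) (w0 : ℝ) (w : ι → ℝ) : Prop where
  ex : ∃ g : Adm ι, (∀ A, vec v0 v A = vec w0 w (g.e A)) ∧ ∀ j, v j = 0 → g.e (EE j) = EE j
  zero : ∀ j, v j = 0 → w j = 0
  good : Good (vec w0 w)
  summ : Summable w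
  iso : w0 ^ 2 = ∑' i, w i ^ 2
  kap : 3 * w0 - ∑' i, w i = 3 * v0 - ∑' i, v i

theorem good_nonneg {w0 : ℝ} {w : ι → ℝ} (h : Good (vec w0 w)) (i : ι) : 0 ≤ w i := by
  have := h _ (eff_EE i)
  rwa [vec_EE] at this

theorem good_add_le {w0 : ℝ} {w : ι → ℝ} (h : Good (vec w0 w)) {i j : ι} (hij : i ≠ j) :
    w i + w j ≤ w0 := by
  have := h _ (eff_LLEE hij)
  rw [map_sub, map_sub, vec_LL, vec_EE, vec_EE] at this
  linarith

theorem good_le {w0 : ℝ} {w : ι → ℝ} (h : Good (vec w0 w)) (i : ι) : w i ≤ w0 := by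
  have := h _ (eff_LLE i)
  rw [map_sub, vec_LL, vec_EE] at this
  linarith

theorem good_w0 {w0 : ℝ} {w : ι → ℝ} (h : Good (vec w0 w)) : 0 ≤ w0 := by
  have := h _ eff_LL
  rwa [vec_LL] at this

theorem good_summ_sq {w0 : ℝ} {w : ι → ℝ} (h : Good (vec w0 w)) (hs : Summable w) :
    Summable (fun i => w i ^ 2) := by
  apply Summable.of_nonneg_of_le (fun i => sq_nonneg _) _ (hs.mul_left w0)
  intro i
  have h1 := good_nonneg h i
  have h2 := good_le h i
  nlinarith

theorem Orb.step [DecidableEq ι] {v0 : ℝ} {v : ι → ℝ} {w0 : ℝ} {w : ι → ℝ} (h : Orb v0 v w0 w)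
    {i j k : ι} (hij : i ≠ j) (hik : i ≠ k) (hjk : j ≠ k) (hi : v i ≠ 0) (hj : v j ≠ 0)
    (hk : v k ≠ 0) :
    Orb v0 v (2 * w0 - w i - w j - w k)
      (fun l => if l = i then w0 - w j - w k else if l = j then w0 - w i - w k
          else if l = k then w0 - w i - w j else w l) := by
  set c : ℝ := w0 - w i - w j - w k with hc
  have hform : (fun l => if l = i then w0 - w j - w k else if l = j then w0 - w i - w k
      else if l = k then w0 - w i - w j else w l) =
      fun l => w l + ((if l = i then c else 0) + (if l = j then c else 0)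
        + (if l = k then c else 0)) := by
    funext l
    by_cases h1 : l = i
    · subst h1
      rw [if_pos rfl, if_pos rfl, if_neg hij, if_neg hik]
      rw [hc]; ring
    · rw [if_neg h1, if_neg h1]
      by_cases h2 : l = j
      · subst h2
        rw [if_pos rfl, if_pos rfl, if_neg hjk]
        rw [hc]; ring
      · rw [if_neg h2, if_neg h2]
        by_cases h3 : l = k
        · subst h3
          rw [if_pos rfl, if_pos rfl, hc]; ring
        · rw [if_neg h3, if_neg h3]; ring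
  have hsum : HasSum (fun l => w l + ((if l = i then c else 0) + (if l = j then c else 0)
        + (if l = k then c else 0))) (∑' l, w l + (c + c + c)) :=
    h.summ.hasSum.add (((hasSum_ite_eq i c).add (hasSum_ite_eq j c)).add (hasSum_ite_eq k c))
  have hsq := good_summ_sq h.good h.summ
  have hsum2 : HasSum (fun l => (w l + ((if l = i then c else 0) + (if l = j then c else 0)
        + (if l = k then c else 0))) ^ 2)
      (∑' l, w l ^ 2 + ((2 * c * w i + c ^ 2) + (2 * c * w j + c ^ 2) + (2 * c * w k + c ^ 2))) := by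
    have h0 := hsq.hasSum.add (((hasSum_ite_eq i (2 * c * w i + c ^ 2)).add
      (hasSum_ite_eq j (2 * c * w j + c ^ 2))).add (hasSum_ite_eq k (2 * c * w k + c ^ 2)))
    have e : (fun l => (w l + ((if l = i then c else 0) + (if l = j then c else 0)
        + (if l = k then c else 0))) ^ 2) = fun l => w l ^ 2 +
        ((if l = i then (2 * c * w i + c ^ 2) else 0) + (if l = j then (2 * c * w j + c ^ 2) else 0)
        + (if l = k then (2 * c * w k + c ^ 2) else 0)) := by
      funext l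
      by_cases h1 : l = i
      · subst h1
        simp only [if_true, if_neg hij, if_neg hik]
        ring
      · by_cases h2 : l = j
        · subst h2
          simp only [if_true, if_neg h1, if_neg hjk]
          ring
        · by_cases h3 : l = k
          · subst h3
            simp only [if_true, if_neg h1, if_neg h2]
            ring
          · simp only [if_neg h1, if_neg h2, if_neg h3]
            ring
    rw [e]
    exact h0
  have hgood : Good (vec (2 * w0 - w i - w j - w k) (fun l => w l +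
      ((if l = i then c else 0) + (if l = j then c else 0) + (if l = k then c else 0)))) := by
    rw [← hform]
    exact (good_cremona w0 w i j k hij hik hjk).mp h.good
  have hcomp := vec_comp_crem w0 w hij hik hjk
  rw [hform] at hcomp
  rw [hform]
  refine ⟨?_, ?_, hgood, hsum.summable, ?_, ?_⟩
  · obtain ⟨g, hg1, hg2⟩ := h.ex
    refine ⟨g.trans (cremAdm i j k hij hik hjk), ?_, ?_⟩
    · intro A
      rw [hg1 A, ← hcomp]
      show vec w0 w (g.e A) = vec w0 w (refl3 i j k (refl3 i j k (g.e A)))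
      rw [refl3_refl3 hij hik hjk]
    · intro l hl
      show refl3 i j k (g.e (EE l)) = EE l
      rw [hg2 l hl]
      apply refl3_EE_ne
      · rintro rfl; exact hi hl
      · rintro rfl; exact hj hl
      · rintro rfl; exact hk hl
  · intro l hl
    have h1 : l ≠ i := by rintro rfl; exact hi hl
    have h2 : l ≠ j := by rintro rfl; exact hj hl
    have h3 : l ≠ k := by rintro rfl; exact hk hl
    simp only [if_neg h1, if_neg h2, if_neg h3, h.zero l hl]
    ring
  · rw [hsum2.tsum_eq, ← h.iso, hc]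
    ring
  · rw [hsum.tsum_eq, ← h.kap, hc]
    ring

/-- the end of the reduction -/
theorem red_end {v0 : ℝ} {v : ι → ℝ} {w0 : ℝ} {w : ι → ℝ} (h : Orb v0 v w0 w) (s : ι)
    (hs : ∀ j, j ≠ s → w j = 0) :
    ∃ (g : Adm ι) (s : ι), (∀ j, v j = 0 → g.e (EE j) = EE j) ∧
      ∀ A, vec v0 v A = (3 * v0 - ∑' i, v i) / 2 * (form (LL - EE s) (g.e A) : ℝ) := by
  have h1 : ∑' i, w i = w s := tsum_eq_single s hs
  have h2 : ∑' i, w i ^ 2 = w s ^ 2 :=
    tsum_eq_single s (fun j hj => by rw [hs j hj]; norm_num)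
  have h3 := h.iso
  rw [h2] at h3
  have h4 := good_w0 h.good
  have h5 := good_nonneg h.good s
  have h6 : w0 = w s := by
    rcases sq_eq_sq_iff_eq_or_eq_neg.mp h3 with h | h
    · exact h
    · linarith
  have h7 := h.kap
  rw [h1, ← h6] at h7
  obtain ⟨g, hg1, hg2⟩ := h.ex
  refine ⟨g, s, hg2, ?_⟩
  intro A
  rw [hg1 A, form_comm, form_sub_right, form_LL, form_EE, ← h7]
  classical
  rw [vec_eq_sum w0 w (g.e A) ((g.e A).2.support ∪ {s}) Finset.subset_union_left,
    Finset.sum_eq_single_of_mem s (by simp) (fun j _ hj => by rw [hs j hj]; ring), ← h6]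
  push_cast
  ring

/-- the reduction theorem -/
theorem red (v0 : ℝ) (v : ι → ℝ) (hG : Good (vec v0 v)) (hs : Summable v)
    (hiso : v0 ^ 2 = ∑' i, v i ^ 2) (hκ : 0 < 3 * v0 - ∑' i, v i) (hinf : Infinite ι) :
    ∃ (g : Adm ι) (s : ι), (∀ j, v j = 0 → g.e (EE j) = EE j) ∧
      ∀ A, vec v0 v A = (3 * v0 - ∑' i, v i) / 2 * (form (LL - EE s) (g.e A) : ℝ) := by
  classical
  have hOrb0 : Orb v0 v v0 v :=
    ⟨⟨Adm.refl ι, fun _ => rfl, fun _ _ => rfl⟩, fun _ h => h, hG, hs, hiso, rfl⟩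
  -- the support of `v`
  by_cases hne : ∃ i, v i ≠ 0
  swap
  · push Not at hne
    obtain ⟨s⟩ : Nonempty ι := inferInstance
    exact red_end hOrb0 s (fun j _ => hne j)
  by_cases hne2 : ∃ i j, i ≠ j ∧ v i ≠ 0 ∧ v j ≠ 0
  swap
  · push Not at hne2
    obtain ⟨s, hs0⟩ := hne
    refine red_end hOrb0 s (fun j hj => ?_)
    exact hne2 s j (fun h => hj h.symm) hs0
  by_cases hne3 : ∃ i j k, i ≠ j ∧ i ≠ k ∧ j ≠ k ∧ v i ≠ 0 ∧ v j ≠ 0 ∧ v k ≠ 0
  swap
  · -- support of size two: impossible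
    exfalso
    obtain ⟨i, j, hij, hi, hj⟩ := hne2
    push Not at hne3
    have h1 : ∀ l, l ∉ ({i, j} : Finset ι) → v l ^ 2 = 0 := by
      intro l hl
      simp only [Finset.mem_insert, Finset.mem_singleton, not_or] at hl
      rw [hne3 i j l hij (fun h => hl.1 h.symm) (fun h => hl.2 h.symm) hi hj]
      norm_num
    rw [tsum_eq_sum h1, Finset.sum_insert (by simpa using hij), Finset.sum_singleton] at hiso
    have h2 := good_add_le hG hij
    have h3 : 0 < v i := lt_of_le_of_ne (good_nonneg hG i) (Ne.symm hi)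
    have h4 : 0 < v j := lt_of_le_of_ne (good_nonneg hG j) (Ne.symm hj)
    nlinarith [mul_pos h3 h4]
  -- infimum of the degrees
  set κ : ℝ := 3 * v0 - ∑' i, v i with hκdef
  set D : Set ℝ := {w0 | ∃ w, Orb v0 v w0 w} with hD
  have hDne : D.Nonempty := ⟨v0, v, hOrb0⟩
  have hDbd : BddBelow D := ⟨0, fun w0 ⟨w, hw⟩ => good_w0 hw.good⟩
  set dd : ℝ := sInf D with hdd
  have hdd0 : 0 ≤ dd := le_csInf hDne (fun w0 ⟨w, hw⟩ => good_w0 hw.good)
  set W : ℝ := dd + 1 with hW
  have hWpos : 0 < W := by linarith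
  set ε : ℝ := min 1 (κ ^ 2 / (100 * W)) with hε
  have hεpos : 0 < ε := lt_min one_pos (by positivity)
  have hWε : W * ε ≤ κ ^ 2 / 100 := by
    have : ε ≤ κ ^ 2 / (100 * W) := min_le_right _ _
    calc W * ε ≤ W * (κ ^ 2 / (100 * W)) := by gcongr
      _ = κ ^ 2 / 100 := by field_simp
  obtain ⟨w0, ⟨w, hw⟩, hlt⟩ := exists_lt_of_csInf_lt hDne (show dd < dd + ε by linarith)
  have hw0W : w0 ≤ W := by
    have : ε ≤ 1 := min_le_left _ _
    linarith
  have hnn := good_nonneg hw.good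
  have hw0 := good_w0 hw.good
  have hsq := good_summ_sq hw.good hw.summ
  -- three top indices in the support of `v`
  obtain ⟨a1, a2, a3, ha12, ha13, ha23, hv1, hv2, hv3⟩ := hne3
  obtain ⟨i1, hi1, hmax1⟩ := exists_top w hnn hw.summ {l | v l ≠ 0} ⟨a1, hv1⟩
  have hS2 : ({l | v l ≠ 0 ∧ l ≠ i1} : Set ι).Nonempty := by
    by_cases h : a1 = i1
    · exact ⟨a2, hv2, fun h' => ha12 (h.trans h'.symm)⟩
    · exact ⟨a1, hv1, h⟩
  obtain ⟨i2, ⟨hi2, hi21⟩, hmax2⟩ := exists_top w hnn hw.summ _ hS2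
  have hS3 : ({l | v l ≠ 0 ∧ l ≠ i1 ∧ l ≠ i2} : Set ι).Nonempty := by
    by_contra hcon
    rw [Set.not_nonempty_iff_eq_empty, Set.eq_empty_iff_forall_notMem] at hcon
    have c1 := hcon a1
    have c2 := hcon a2
    have c3 := hcon a3
    simp only [Set.mem_ofPred_eq, not_and, not_not] at c1 c2 c3
    have c1' := c1 hv1
    have c2' := c2 hv2
    have c3' := c3 hv3
    by_cases h1 : a1 = i1
    · have h2 := c2' (fun h => ha12 (h1.trans h.symm))
      have h3 := c3' (fun h => ha13 (h1.trans h.symm))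
      exact ha23 (h2.trans h3.symm)
    · have h1' := c1' h1
      by_cases h2 : a2 = i1
      · have h3 := c3' (fun h => ha23 (h2.trans h.symm))
        exact ha13 (h1'.trans h3.symm)
      · exact ha12 (h1'.trans (c2' h2).symm)
  obtain ⟨i3, ⟨hi3, hi31, hi32⟩, hmax3⟩ := exists_top w hnn hw.summ _ hS3
  set x := w i1 with hx
  set y := w i2 with hy
  set z := w i3 with hz
  have hxy : y ≤ x := hmax1 i2 hi2
  have hyz : z ≤ y := hmax2 i3 ⟨hi3, hi31⟩
  have hz0 : 0 ≤ z := hnn i3
  have hy0 : 0 ≤ y := hnn i2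
  have hx0 : 0 ≤ x := hnn i1
  have hle1 : ∀ l, l ∉ ({i1} : Finset ι) → w l ≤ y := by
    intro l hl
    rw [Finset.mem_singleton] at hl
    by_cases hvl : v l = 0
    · rw [hw.zero l hvl]; exact hy0
    · exact hmax2 l ⟨hvl, hl⟩
  have hle3 : ∀ l, l ∉ ({i1, i2, i3} : Finset ι) → w l ≤ z := by
    intro l hl
    simp only [Finset.mem_insert, Finset.mem_singleton, not_or] at hl
    by_cases hvl : v l = 0
    · rw [hw.zero l hvl]; exact hz0
    · exact hmax3 l ⟨hvl, hl.1, hl.2.1⟩
  -- near minimality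
  have hstep := hw.step (Ne.symm hi21) (Ne.symm hi31) (Ne.symm hi32) hi1 hi2 hi3
  have hmin : dd ≤ 2 * w0 - x - y - z := csInf_le hDbd ⟨_, hstep⟩
  have hS1 : ∑' i, w i = 3 * w0 - κ := by
    have := hw.kap
    linarith
  have hS2' : ∑' i, w i ^ 2 = w0 ^ 2 := hw.iso.symm
  -- inequality (i)
  have hA := tail_ineq w hnn hw.summ hsq z {i1, i2, i3} hle3
  rw [Finset.sum_insert (by simp [Ne.symm hi21, Ne.symm hi31]),
    Finset.sum_insert (by simpa using Ne.symm hi32), Finset.sum_singleton, hS1, hS2'] at hA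
  have hxyw := good_add_le hw.good (Ne.symm hi21)
  set e : ℝ := x + y + z - w0 with he
  have hee : e ≤ ε := by linarith
  have hwe : w0 = x + y + z - e := by linarith
  have hmain : 2 * x * y - 2 * z ^ 2 + κ * z ≤ e * (2 * x + 2 * y - z) - e ^ 2 := by
    rw [hwe] at hA
    linarith [hA]
  have hR : e * (2 * x + 2 * y - z) - e ^ 2 ≤ 2 * W * ε := by
    have h1 : 0 ≤ 2 * x + 2 * y - z := by linarith
    have h2 : 2 * x + 2 * y - z ≤ 2 * W := by linarith
    have h3 : e * (2 * x + 2 * y - z) ≤ ε * (2 * W) := by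
      calc e * (2 * x + 2 * y - z) ≤ ε * (2 * x + 2 * y - z) := by gcongr
        _ ≤ ε * (2 * W) := by gcongr
    linarith [sq_nonneg e]
  have hxyz : z ^ 2 ≤ x * y := by
    calc z ^ 2 = z * z := by ring
      _ ≤ x * y := mul_le_mul (hyz.trans hxy) hyz hz0 hx0
  have hκz : κ * z ≤ κ * (κ / 50) := by linarith
  have hz1 : z ≤ κ / 50 := le_of_mul_le_mul_left hκz hκ
  have hy2 : y ^ 2 < (κ / 6) ^ 2 := by
    have h1 : y ^ 2 ≤ x * y := by
      calc y ^ 2 = y * y := by ring
        _ ≤ x * y := mul_le_mul_of_nonneg_right hxy hy0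
    have h2 : x * y ≤ z ^ 2 + κ ^ 2 / 100 := by linarith [mul_nonneg hκ.le hz0]
    have h3 : z ^ 2 ≤ (κ / 50) ^ 2 := pow_le_pow_left₀ hz0 hz1 2
    have h4 : 0 < κ ^ 2 := by positivity
    have h5 : (κ / 50) ^ 2 = κ ^ 2 / 2500 := by ring
    have h6 : (κ / 6) ^ 2 = κ ^ 2 / 36 := by ring
    rw [h6]
    rw [h5] at h3
    linarith
  have hy3 : y < κ / 6 := lt_of_pow_lt_pow_left₀ 2 (by positivity) hy2
  -- inequality (ii)
  have hB := tail_ineq w hnn hw.summ hsq y {i1} hle1
  rw [Finset.sum_singleton, hS1, hS2'] at hB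
  have hxw : x ≤ w0 := good_le hw.good i1
  have hw0pos : 0 < w0 := by
    have h1 : 0 ≤ ∑' i, w i := tsum_nonneg hnn
    rw [hS1] at h1
    linarith
  have hδ1 : w0 - x ≤ 3 * y := by
    have h1 : w0 * (w0 - x) ≤ w0 * (3 * y) := by
      linarith [mul_nonneg hκ.le hy0, mul_nonneg hx0 hy0,
        mul_nonneg hx0 (show (0 : ℝ) ≤ w0 - x by linarith)]
    exact le_of_mul_le_mul_left h1 hw0pos
  have hle4 : ∀ l, l ∉ ({i1} : Finset ι) → w l ≤ w0 - x := by
    intro l hl
    rw [Finset.mem_singleton] at hl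
    have := good_add_le hw.good hl
    linarith
  have hC := tail_ineq w hnn hw.summ hsq (w0 - x) {i1} hle4
  rw [Finset.sum_singleton, hS1, hS2'] at hC
  have hδ0 : w0 - x = 0 := by
    by_contra hcon
    have hpos : 0 < w0 - x := lt_of_le_of_ne (by linarith) (Ne.symm hcon)
    have h1 : (w0 - x) * (w0 + x) ≤ (w0 - x) * (3 * w0 - κ - x) := by linarith
    have h2 : w0 + x ≤ 3 * w0 - κ - x := le_of_mul_le_mul_left h1 hpos
    linarith
  refine red_end hw i1 (fun j hj => ?_)
  have h1 := hle4 j (by simpa using hj)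
  have h2 := hnn j
  linarith

end Pool.Agent.Stair
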