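import Pool.Agent.Lib.MP_f690a7_gt.Glb

/-!
Type II base vectors: a small checker for chains of Cremona reflections with entries affine in `x`.
-/

namespace Pool.Agent.Stair

namespace TB

/-- affine function `l.1 + l.2 x` with integer coefficients -/
abbrev Lin := ℤ × ℤ

/-- value -/
noncomputable def ev (x : ℝ) (l : Lin) : ℝ := (l.1 : ℝ) + (l.2 : ℝ) * x

theorem ev_add (x : ℝ) (k l : Lin) : ev x (k + l) = ev x k + ev x l := by
  simp only [ev, Prod.fst_add, Prod.snd_add]; push_cast; ring
theorem ev_sub (x : ℝ) (k l : Lin) : ev x (k - l) = ev x k - ev x l := by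
  simp only [ev, Prod.fst_sub, Prod.snd_sub]; push_cast; ring

/-- states: degree, entries, the two sides of the tail ellipsoid -/
structure St where
  d : Lin
  L : List Lin
  a : Lin
  b : Lin

/-- meaning of a state -/
def St.Holds (x : ℝ) (s : St) : Prop := GoL (ev x s.d) (s.L.map (ev x)) (ev x s.a) (ev x s.b)

/-- steps -/
inductive Step
  | comm
  | pull
  | crem
  | front (i : ℕ)

/-- nonnegative at the endpoints `n1/m`, `n2/m` -/
def nonn (m n1 n2 : ℤ) (c : Lin) : Bool :=
  decide (0 ≤ c.1 * m + c.2 * n1) && decide (0 ≤ c.1 * m + c.2 * n2)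

theorem nonn_sound {m n1 n2 : ℤ} {c : Lin} (h : nonn m n1 n2 c = true) (hm : 0 < m) {x : ℝ}
    (h1 : (n1 : ℝ) ≤ m * x) (h2 : (m : ℝ) * x ≤ n2) : 0 ≤ ev x c := by
  simp only [nonn, Bool.and_eq_true, decide_eq_true_eq] at h
  obtain ⟨ha, hb⟩ := h
  have ha' : (0 : ℝ) ≤ c.1 * m + c.2 * n1 := by exact_mod_cast ha
  have hb' : (0 : ℝ) ≤ c.1 * m + c.2 * n2 := by exact_mod_cast hb
  have hm' : (0 : ℝ) < m := by exact_mod_cast hm
  have key : 0 ≤ (m : ℝ) * ev x c := by
    have e : (m : ℝ) * ev x c = c.1 * m + c.2 * (m * x) := by simp only [ev]; ring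
    rw [e]
    rcases le_total 0 (c.2 : ℝ) with h0 | h0
    · have := mul_le_mul_of_nonneg_left h1 h0
      linarith
    · have := mul_le_mul_of_nonpos_left h2 h0
      linarith
  by_contra hneg
  push Not at hneg
  have := mul_neg_of_pos_of_neg hm' hneg
  linarith

/-- effect of one step -/
def step (m n1 n2 : ℤ) : Step → St → Option St
  | .comm, s => some ⟨s.d, s.L, s.b, s.a⟩
  | .pull, s => if nonn m n1 n2 (s.b - s.a) then some ⟨s.d, s.a :: s.L, s.a, s.b - s.a⟩ else none
  | .front i, s =>
    match s.L[i]? with
    | some e => some ⟨s.d, e :: s.L.eraseIdx i, s.a, s.b⟩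
    | none => none
  | .crem, s =>
    match s.L with
    | x :: y :: w :: L =>
      some ⟨s.d + s.d - x - y - w, (s.d - y - w) :: (s.d - x - w) :: (s.d - x - y) :: L, s.a, s.b⟩
    | _ => none

theorem step_sound {m n1 n2 : ℤ} (hm : 0 < m) {x : ℝ} (h1 : (n1 : ℝ) ≤ m * x)
    (h2 : (m : ℝ) * x ≤ n2) (t : Step) (s s' : St) (h : step m n1 n2 t s = some s')
    (hs : s'.Holds x) : s.Holds x := by
  obtain ⟨d, L, a, b⟩ := s
  cases t with
  | comm =>
    simp only [step, Option.some.injEq] at h
    subst h
    exact GoL.comm.mp hs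
  | pull =>
    simp only [step] at h
    split at h
    · rename_i hc
      simp only [Option.some.injEq] at h
      subst h
      have := nonn_sound hc hm h1 h2
      rw [ev_sub] at this
      simp only [St.Holds, List.map_cons, ev_sub] at hs ⊢
      exact (GoL.pull (by linarith)).mpr hs
    · exact absurd h (by simp)
  | front i =>
    simp only [step] at h
    split at h
    · rename_i e he
      simp only [Option.some.injEq] at h
      subst h
      simp only [St.Holds] at hs ⊢
      refine (GoL.perm ?_).mp hs
      apply List.Perm.map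
      obtain ⟨hi, rfl⟩ := List.getElem?_eq_some_iff.mp he
      exact List.getElem_cons_eraseIdx_perm hi
    · exact absurd h (by simp)
  | crem =>
    simp only [step] at h
    split at h
    · simp only [Option.some.injEq] at h
      subst h
      simp only [St.Holds, List.map_cons, ev_sub, ev_add] at hs ⊢
      refine GoL.crem.mpr ?_
      have e : 2 * ev x d = ev x d + ev x d := by ring
      rw [e]
      exact hs
    · exact absurd h (by simp)

/-- a chain of steps -/
def run (m n1 n2 : ℤ) : List Step → St → Option St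
  | [], s => some s
  | t :: l, s =>
    match step m n1 n2 t s with
    | some s' => run m n1 n2 l s'
    | none => none

theorem run_sound {m n1 n2 : ℤ} (hm : 0 < m) {x : ℝ} (h1 : (n1 : ℝ) ≤ m * x)
    (h2 : (m : ℝ) * x ≤ n2) (l : List Step) : ∀ (s s' : St), run m n1 n2 l s = some s' →
    s'.Holds x → s.Holds x := by
  induction l with
  | nil =>
    intro s s' h hs
    simp only [run, Option.some.injEq] at h
    subst h; exact hs
  | cons t l ih =>
    intro s s' h hs
    simp only [run] at h
    split at h
    · rename_i s1 hs1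
      exact step_sound hm h1 h2 t s s1 hs1 (ih s1 s' h hs)
    · exact absurd h (by simp)

/-- coefficients of the product of two affine functions -/
def mulc (k l : Lin) : ℤ × ℤ × ℤ := (k.1 * l.1, k.1 * l.2 + k.2 * l.1, k.2 * l.2)

/-- value of a quadratic polynomial -/
noncomputable def evq (x : ℝ) (q : ℤ × ℤ × ℤ) : ℝ := (q.1 : ℝ) + (q.2.1 : ℝ) * x + (q.2.2 : ℝ) * x ^ 2

theorem evq_mulc (x : ℝ) (k l : Lin) : evq x (mulc k l) = ev x k * ev x l := by
  simp only [evq, mulc, ev]; push_cast; ring
theorem evq_add (x : ℝ) (k l : ℤ × ℤ × ℤ) : evq x (k + l) = evq x k + evq x l := by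
  simp only [evq, Prod.fst_add, Prod.snd_add]; push_cast; ring
theorem evq_sub (x : ℝ) (k l : ℤ × ℤ × ℤ) : evq x (k - l) = evq x k - evq x l := by
  simp only [evq, Prod.fst_sub, Prod.snd_sub]; push_cast; ring

/-- sum of the squares -/
def sqs : List Lin → ℤ × ℤ × ℤ
  | [] => (0, 0, 0)
  | w :: L => mulc w w + sqs L

theorem evq_sqs (x : ℝ) (L : List Lin) :
    evq x (sqs L) = ((L.map (ev x)).map (fun w => w ^ 2)).sum := by
  induction L with
  | nil => simp [sqs, evq]
  | cons w L ih =>
    rw [sqs, evq_add, ih, evq_mulc]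
    simp only [List.map_cons, List.sum_cons]
    ring

/-- final check: the state is reduced -/
def fin (m n1 n2 : ℤ) (r : Lin) (s : St) : Bool :=
  match s.L with
  | X :: Y :: L =>
    nonn m n1 n2 s.a && (nonn m n1 n2 s.b && (nonn m n1 n2 r && (nonn m n1 n2 (Y - r) &&
      (nonn m n1 n2 (X - Y) && (nonn m n1 n2 (s.d - X - Y - r) &&
      ((nonn m n1 n2 (r - s.a) || nonn m n1 n2 (r - s.b)) &&
      (L.all (fun w => nonn m n1 n2 w && nonn m n1 n2 (r - w)) &&
      decide (0 ≤ (mulc s.d s.d - mulc X X - mulc Y Y - sqs L - mulc s.a s.b).1 ∧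
        (mulc s.d s.d - mulc X X - mulc Y Y - sqs L - mulc s.a s.b).2 = (0, 0)))))))))
  | _ => false

theorem fin_sound {m n1 n2 : ℤ} (hm : 0 < m) {x : ℝ} (h1 : (n1 : ℝ) ≤ m * x)
    (h2 : (m : ℝ) * x ≤ n2) (r : Lin) (s : St) (h : fin m n1 n2 r s = true) : s.Holds x := by
  obtain ⟨d, L, a, b⟩ := s
  match L with
  | [] => simp [fin] at h
  | [_] => simp [fin] at h
  | X :: Y :: L =>
    simp only [fin, Bool.and_eq_true, decide_eq_true_eq, Bool.or_eq_true, List.all_eq_true] at h
    obtain ⟨ha, hb, hr, hY, hX, hd, hab, hL, hq, hq2⟩ := h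
    have ha' := nonn_sound ha hm h1 h2
    have hb' := nonn_sound hb hm h1 h2
    have hr' := nonn_sound hr hm h1 h2
    have hY' := nonn_sound hY hm h1 h2
    have hX' := nonn_sound hX hm h1 h2
    have hd' := nonn_sound hd hm h1 h2
    simp only [ev_sub] at hY' hX' hd'
    simp only [St.Holds, List.map_cons]
    refine GoL.fin (r := ev x r) ha' hb' ?_ ?_ hr' (by linarith) (by linarith) (by linarith) ?_
    · intro w hw
      obtain ⟨c, hc, rfl⟩ := List.mem_map.mp hw
      obtain ⟨hc1, hc2⟩ := hL c hc
      have h3 := nonn_sound hc1 hm h1 h2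
      have h4 := nonn_sound hc2 hm h1 h2
      rw [ev_sub] at h4
      exact ⟨h3, by linarith⟩
    · rcases hab with h | h
      · have := nonn_sound h hm h1 h2
        rw [ev_sub] at this
        exact (min_le_left _ _).trans (by linarith)
      · have := nonn_sound h hm h1 h2
        rw [ev_sub] at this
        exact (min_le_right _ _).trans (by linarith)
    · have e : evq x (mulc d d - mulc X X - mulc Y Y - sqs L - mulc a b) =
          ev x d ^ 2 - ev x X ^ 2 - ev x Y ^ 2 -
            ((L.map (ev x)).map (fun w => w ^ 2)).sum - ev x a * ev x b := by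
        simp only [evq_sub, evq_mulc, evq_sqs]
        ring
      have e2 : 0 ≤ evq x (mulc d d - mulc X X - mulc Y Y - sqs L - mulc a b) := by
        have h3 : (0 : ℝ) ≤ ((mulc d d - mulc X X - mulc Y Y - sqs L - mulc a b).1 : ℤ) := by
          exact_mod_cast hq
        rw [evq, hq2]
        simpa using h3
      rw [e] at e2
      linarith

/-- a list of intervals (with common denominators) covering `[lo, 1]`, each with a certificate -/
def cover (s : St) : ℤ → ℤ → List (ℤ × ℤ × ℤ × List Step × Lin) → Bool
  | n, m, [] => decide (m ≤ n)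
  | n, m, (m', n1, n2, l, r) :: C =>
    decide (0 < m') && (decide (n1 * m ≤ n * m') &&
      ((match run m' n1 n2 l s with
        | some s' => fin m' n1 n2 r s'
        | none => false) && cover s n2 m' C))

theorem cover_sound (s : St) (C : List (ℤ × ℤ × ℤ × List Step × Lin)) : ∀ (n m : ℤ), 0 < m →
    C ≠ [] → cover s n m C = true → ∀ x : ℝ, (n : ℝ) ≤ m * x → x ≤ 1 → s.Holds x := by
  induction C with
  | nil =>
    intro n m hm hne
    exact absurd rfl hne
  | cons c C ih =>
    obtain ⟨m', n1, n2, l, r⟩ := c
    intro n m hm _ h x h1 h2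
    simp only [cover, Bool.and_eq_true, decide_eq_true_eq] at h
    obtain ⟨hm1, hn, hrun, hC⟩ := h
    have hm' : (0 : ℝ) < m := by exact_mod_cast hm
    have hm1' : (0 : ℝ) < m' := by exact_mod_cast hm1
    rcases le_or_gt ((m' : ℝ) * x) n2 with h3 | h3
    · have h4 : (n1 : ℝ) ≤ m' * x := by
        have hn' : (n1 : ℝ) * m ≤ n * m' := by exact_mod_cast hn
        have : (n1 : ℝ) * m ≤ m' * x * m := by
          have := mul_le_mul_of_nonneg_right h1 hm1'.le
          nlinarith
        exact le_of_mul_le_mul_right this hm'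
      split at hrun
      · rename_i s' hs'
        exact run_sound hm1 h4 h3 l s s' hs' (fin_sound hm1 h4 h3 r s' hrun)
      · exact absurd hrun (by simp)
    · by_cases hCne : C = []
      · subst hCne
        simp only [cover, decide_eq_true_eq] at hC
        have hC' : (m' : ℝ) ≤ n2 := by exact_mod_cast hC
        exfalso
        have : (m' : ℝ) * x ≤ m' * 1 := mul_le_mul_of_nonneg_left h2 hm1'.le
        linarith
      · exact ih n2 m' hm1 hCne hC x h3.le h2

/-- scaled use: integer entries with common scale `M` -/
theorem base_of_cover {M : ℤ} (hM : 0 < M) (d : Lin) (L : List Lin)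
    (C : List (ℤ × ℤ × ℤ × List Step × Lin)) (hne : C ≠ [])
    (h : cover ⟨d, L, (M, 0), (0, M)⟩ 0 1 C = true) {x : ℝ} (h0 : 0 ≤ x) (h1 : x ≤ 1) :
    GoL (ev x d / M) (L.map (fun l => ev x l / M)) 1 x := by
  have hs := cover_sound _ C 0 1 one_pos hne h x (by simpa using h0) h1
  have hM' : (0 : ℝ) < M := by exact_mod_cast hM
  simp only [St.Holds] at hs
  rw [← GoL.scale hM']
  have e1 : (M : ℝ) * (ev x d / M) = ev x d := by field_simp
  have e2 : (L.map (fun l => ev x l / M)).map (fun y => (M : ℝ) * y) = L.map (ev x) := by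
    rw [List.map_map]
    apply List.map_congr_left
    intro l _
    simp only [Function.comp]
    field_simp
  have e3 : ev x ((M, 0) : Lin) = M * 1 := by simp [ev]
  have e4 : ev x ((0, M) : Lin) = M * x := by simp [ev]
  rw [e1, e2, ← e3, ← e4]
  exact hs

/-- certificate -/
def cert_base3 : List (ℤ × ℤ × ℤ × List Step × Lin) := [
    (6, 0, 1, [.front 3, .front 3, .front 3, .crem, .front 6, .front 6, .front 6, .crem, .front 4, .front 4], (1, 6)),
    (6, 1, 2, [.front 3, .front 3, .front 3, .crem, .front 6, .front 6, .front 6, .crem, .front 1, .front 1], (0, 12)),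
    (6, 2, 3, [.front 3, .front 3, .front 3, .crem, .comm, .pull, .pull, .front 6, .front 2, .front 2, .crem, .front 1, .front 1], (4, 0)),
    (6, 3, 4, [.comm, .pull, .front 3, .front 3, .front 2, .crem, .comm, .pull, .front 1, .front 1, .front 5, .crem, .front 6, .front 6, .front 2, .crem, .front 1, .front 1], (4, 0)),
    (6, 4, 5, [.comm, .pull, .front 3, .front 3, .front 2, .crem, .front 3, .front 1, .front 4, .crem, .front 7, .front 7, .front 7, .crem, .front 1, .front 1], (12, -12)),
    (6, 5, 6, [.comm, .pull, .front 2, .front 2, .front 2, .crem, .front 4, .front 4, .front 2, .crem, .front 7, .front 7, .front 7, .crem, .front 4, .front 4], (7, -6))]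

/-- entries -/
def L_base3 : List Lin := [(1, 6), (6, 0), (6, 0), (6, 0), (4, 0), (4, 0), (4, 0)]

theorem cover_base3 : cover ⟨(13, 6), L_base3, (12, 0), (0, 12)⟩ 0 1 cert_base3 = true := by
  decide +kernel

/-- certificate -/
def cert_base4 : List (ℤ × ℤ × ℤ × List Step × Lin) := [
    (8, 0, 1, [.front 3, .front 3, .front 3, .crem, .front 6, .front 6, .front 6, .crem, .front 5, .front 5, .front 5, .crem, .front 1, .front 1], (1, 8)),
    (8, 1, 3, [.front 3, .front 3, .front 3, .crem, .front 6, .front 6, .front 6, .crem, .front 4, .front 4], (0, 16)),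
    (24, 9, 11, [.comm, .pull, .front 3, .front 3, .crem, .pull, .front 6, .front 6, .front 2, .crem, .front 8, .front 8, .front 2, .crem, .front 6, .front 6], (12, -16)),
    (120, 55, 57, [.comm, .pull, .front 3, .front 3, .crem, .pull, .front 6, .front 6, .front 2, .crem, .front 8, .front 8, .front 2, .crem, .front 7, .front 7, .front 7, .crem, .front 1, .front 1], (1, 8)),
    (40, 19, 20, [.comm, .pull, .front 3, .front 3, .crem, .pull, .front 6, .front 6, .front 2, .crem, .front 8, .front 8, .front 2, .crem, .front 7, .front 7, .front 7, .crem, .front 8], (20, -32)),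
    (40, 20, 21, [.comm, .pull, .front 3, .front 3, .front 2, .crem, .comm, .pull, .front 6, .front 6, .front 2, .crem, .front 8, .front 8, .front 2, .crem, .front 6, .front 8, .front 7, .crem, .front 8], (-12, 32)),
    (120, 63, 65, [.comm, .pull, .front 3, .front 3, .front 2, .crem, .comm, .pull, .front 6, .front 6, .front 2, .crem, .front 8, .front 8, .front 2, .crem, .front 6, .front 8, .front 7, .crem, .front 1, .front 1], (9, -8)),
    (24, 13, 15, [.comm, .pull, .front 3, .front 3, .front 2, .crem, .comm, .pull, .front 6, .front 6, .front 2, .crem, .front 8, .front 8, .front 2, .crem, .front 8, .front 6], (-4, 16)),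
    (8, 5, 7, [.comm, .pull, .front 3, .front 3, .front 2, .crem, .front 4, .front 4, .front 2, .crem, .front 7, .front 7, .front 7, .crem, .front 4, .front 4], (16, -16)),
    (8, 7, 8, [.comm, .pull, .front 2, .front 2, .front 2, .crem, .front 4, .front 4, .front 2, .crem, .front 7, .front 7, .front 7, .crem, .front 5, .front 5, .front 5, .crem, .front 1, .front 1], (9, -8))]

/-- entries -/
def L_base4 : List Lin := [(1, 8), (8, 0), (8, 0), (6, 0), (6, 0), (6, 0), (6, 0)]

theorem cover_base4 : cover ⟨(17, 8), L_base4, (16, 0), (0, 16)⟩ 0 1 cert_base4 = true := by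
  decide +kernel

/-- certificate -/
def cert_base5 : List (ℤ × ℤ × ℤ × List Step × Lin) := [
    (10, 0, 1, [.front 3, .front 3, .front 3, .crem, .front 6, .front 6, .front 6, .crem, .front 5, .front 5, .front 5, .crem, .front 6, .front 1], (0, 20)),
    (10, 1, 3, [.front 3, .front 3, .front 3, .crem, .front 6, .front 6, .front 6, .crem, .front 5, .front 5, .front 5, .crem, .front 1, .front 1], (0, 20)),
    (30, 9, 10, [.front 3, .front 3, .front 3, .crem, .front 5, .front 5, .front 2, .crem, .comm, .pull, .front 1, .front 1, .front 7, .crem, .pull, .pull, .front 1, .front 1, .front 2, .crem, .front 1, .front 1], (3, 10)),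
    (150, 50, 51, [.front 3, .front 3, .front 3, .crem, .front 5, .front 5, .front 2, .crem, .comm, .pull, .front 1, .front 1, .front 7, .crem, .pull, .comm, .pull, .front 1, .front 2, .crem, .front 1, .front 1], (3, 10)),
    (150, 51, 55, [.front 3, .front 3, .front 3, .crem, .front 5, .front 5, .front 2, .crem, .comm, .pull, .front 1, .front 1, .front 7, .crem, .pull, .front 1], (3, 10)),
    (30, 11, 12, [.front 3, .front 3, .front 3, .crem, .front 5, .front 5, .front 2, .crem, .comm, .pull, .front 1, .front 1, .front 7, .crem, .pull, .front 1, .front 1], (3, 10)),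
    (30, 12, 13, [.comm, .pull, .pull, .front 1, .front 1, .front 3, .crem, .front 5, .front 5, .front 2, .crem, .front 8, .front 8, .front 8, .crem, .front 5, .front 5, .front 5, .crem, .front 1, .front 1], (11, -10)),
    (30, 13, 15, [.comm, .pull, .pull, .front 1, .front 1, .front 3, .crem, .front 6, .front 6, .front 6, .crem, .front 3, .front 8, .front 8, .crem, .front 5, .front 5, .front 5, .crem, .front 1, .front 1], (11, -10)),
    (30, 15, 17, [.comm, .pull, .comm, .pull, .front 3, .front 2, .crem, .front 6, .front 6, .front 6, .crem, .front 3, .front 8, .front 8, .crem, .front 5, .front 5, .front 5, .crem, .front 1, .front 1], (1, 10)),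
    (30, 17, 18, [.comm, .pull, .comm, .pull, .front 3, .front 2, .crem, .front 5, .front 5, .front 2, .crem, .front 8, .front 8, .front 8, .crem, .front 5, .front 5, .front 5, .crem, .front 1, .front 1], (1, 10)),
    (30, 18, 19, [.comm, .pull, .front 3, .front 3, .front 2, .crem, .front 5, .front 5, .front 2, .crem, .front 7, .front 7, .front 2, .crem, .comm, .pull, .front 8, .front 1], (13, -10)),
    (150, 95, 99, [.comm, .pull, .front 3, .front 3, .front 2, .crem, .front 5, .front 5, .front 2, .crem, .front 7, .front 7, .front 2, .crem, .comm, .pull, .front 8], (13, -10)),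
    (150, 99, 100, [.comm, .pull, .front 3, .front 3, .front 2, .crem, .front 5, .front 5, .front 2, .crem, .front 7, .front 7, .front 2, .crem, .comm, .pull, .comm, .pull, .front 1, .front 9, .crem, .front 1, .front 1], (13, -10)),
    (30, 20, 21, [.comm, .pull, .front 3, .front 3, .front 2, .crem, .front 5, .front 5, .front 2, .crem, .front 7, .front 7, .front 2, .crem, .comm, .pull, .pull, .front 1, .front 1, .front 9, .crem, .front 1, .front 1], (13, -10)),
    (10, 7, 9, [.comm, .pull, .front 1, .front 2, .front 2, .crem, .front 4, .front 4, .front 2, .crem, .front 7, .front 7, .front 7, .crem, .front 5, .front 5, .front 5, .crem, .front 1, .front 1], (20, -20)),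
    (10, 9, 10, [.comm, .pull, .front 2, .front 2, .front 2, .crem, .front 4, .front 4, .front 2, .crem, .front 7, .front 7, .front 7, .crem, .front 5, .front 5, .front 5, .crem, .front 6, .front 1], (20, -20))]

/-- entries -/
def L_base5 : List Lin := [(1, 10), (10, 0), (8, 0), (8, 0), (8, 0), (8, 0), (8, 0)]

theorem cover_base5 : cover ⟨(21, 10), L_base5, (20, 0), (0, 20)⟩ 0 1 cert_base5 = true := by
  decide +kernel

/-- certificate -/
def cert_base6 : List (ℤ × ℤ × ℤ × List Step × Lin) := [
    (12, 0, 1, [.front 3, .front 3, .front 3, .crem, .front 6, .front 6, .front 6, .crem, .front 5, .front 5, .front 5, .crem, .front 6], (0, 24)),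
    (12, 1, 5, [.front 3, .front 3, .front 3, .crem, .front 6, .front 6, .front 6, .crem, .front 5, .front 5, .front 5, .crem, .front 1, .front 1], (0, 24)),
    (60, 25, 29, [.comm, .pull, .pull, .front 3, .front 2, .front 2, .crem, .front 6, .front 6, .front 6, .crem, .front 3, .front 8, .front 8, .crem, .front 4, .front 4, .front 6, .crem, .front 3, .front 1, .front 6, .crem, .front 7, .front 6, .front 2, .crem, .front 1, .front 1], (30, -48)),
    (60, 29, 30, [.comm, .pull, .pull, .front 3, .front 2, .front 2, .crem, .front 6, .front 6, .front 6, .crem, .front 3, .front 8, .front 8, .crem, .front 4, .front 4, .front 6, .crem, .front 3, .front 1, .front 6, .crem, .front 7, .front 6, .front 2, .crem, .front 8], (30, -48)),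
    (84, 42, 43, [.comm, .pull, .comm, .pull, .front 3, .front 1, .front 2, .crem, .front 6, .front 6, .front 6, .crem, .front 3, .front 8, .front 8, .crem, .front 4, .front 4, .front 6, .crem, .front 3, .front 1, .front 6, .crem, .front 7, .front 6, .front 2, .crem, .front 8], (-18, 48)),
    (252, 129, 133, [.comm, .pull, .comm, .pull, .front 3, .front 1, .front 2, .crem, .front 6, .front 6, .front 6, .crem, .front 3, .front 8, .front 8, .crem, .front 4, .front 4, .front 6, .crem, .front 3, .front 1, .front 6, .crem, .front 7, .front 6, .front 2, .crem, .front 8, .front 1], (-18, 48)),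
    (180, 95, 99, [.comm, .pull, .comm, .pull, .front 3, .front 1, .front 2, .crem, .front 5, .front 5, .front 2, .crem, .front 8, .front 8, .front 8, .crem, .front 5, .front 5, .front 5, .crem, .front 6], (1, 12)),
    (60, 33, 35, [.comm, .pull, .comm, .pull, .front 3, .front 1, .front 2, .crem, .front 5, .front 5, .front 2, .crem, .front 8, .front 8, .front 8, .crem, .front 5, .front 5, .front 5, .crem, .front 6, .front 1], (1, 12)),
    (36, 21, 23, [.comm, .pull, .front 3, .front 3, .front 2, .crem, .front 5, .front 5, .front 2, .crem, .front 7, .front 7, .front 2, .crem, .comm, .pull, .front 8, .front 1], (15, -12)),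
    (180, 115, 117, [.comm, .pull, .front 3, .front 3, .front 2, .crem, .front 5, .front 5, .front 2, .crem, .front 7, .front 7, .front 2, .crem, .comm, .pull, .front 8], (15, -12)),
    (60, 39, 40, [.comm, .pull, .front 3, .front 3, .front 2, .crem, .front 5, .front 5, .front 2, .crem, .front 7, .front 7, .front 2, .crem, .comm, .pull, .comm, .pull, .front 1, .front 9, .crem, .front 1, .front 1], (15, -12)),
    (12, 8, 9, [.comm, .pull, .front 3, .front 3, .front 2, .crem, .front 5, .front 5, .front 2, .crem, .front 7, .front 7, .front 2, .crem, .comm, .pull, .pull, .front 1, .front 1, .front 9, .crem, .front 1, .front 1], (15, -12)),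
    (4, 3, 4, [.comm, .pull, .front 2, .front 2, .front 2, .crem, .front 4, .front 4, .front 2, .crem, .front 7, .front 7, .front 7, .crem, .front 5, .front 5, .front 5, .crem, .front 6, .front 1], (24, -24))]

/-- entries -/
def L_base6 : List Lin := [(1, 12), (10, 0), (10, 0), (10, 0), (10, 0), (10, 0), (10, 0)]

theorem cover_base6 : cover ⟨(25, 12), L_base6, (24, 0), (0, 24)⟩ 0 1 cert_base6 = true := by
  decide +kernel

/-- certificate -/
def cert_base6v : List (ℤ × ℤ × ℤ × List Step × Lin) := [
    (4, 0, 1, [.front 3, .front 3, .front 3, .crem, .front 6, .front 6, .front 6, .crem, .front 5, .front 5, .front 5, .crem, .front 6, .front 1], (0, 24)),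
    (12, 3, 4, [.front 3, .front 3, .front 3, .crem, .front 5, .front 5, .front 2, .crem, .comm, .pull, .front 1, .front 1, .front 7, .crem, .pull, .pull, .front 1, .front 1, .front 2, .crem, .front 1, .front 1], (3, 12)),
    (60, 20, 21, [.front 3, .front 3, .front 3, .crem, .front 5, .front 5, .front 2, .crem, .comm, .pull, .front 1, .front 1, .front 7, .crem, .pull, .comm, .pull, .front 1, .front 2, .crem, .front 1, .front 1], (3, 12)),
    (180, 63, 65, [.front 3, .front 3, .front 3, .crem, .front 5, .front 5, .front 2, .crem, .comm, .pull, .front 1, .front 1, .front 7, .crem, .pull, .front 1], (3, 12)),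
    (36, 13, 15, [.front 3, .front 3, .front 3, .crem, .front 5, .front 5, .front 2, .crem, .comm, .pull, .front 1, .front 1, .front 7, .crem, .pull, .front 1, .front 1], (3, 12)),
    (60, 25, 27, [.comm, .pull, .pull, .front 1, .front 1, .front 3, .crem, .front 5, .front 5, .front 2, .crem, .front 8, .front 8, .front 8, .crem, .front 5, .front 5, .front 5, .crem, .front 8, .front 1], (13, -12)),
    (180, 81, 85, [.comm, .pull, .pull, .front 1, .front 1, .front 3, .crem, .front 5, .front 5, .front 2, .crem, .front 8, .front 8, .front 8, .crem, .front 5, .front 5, .front 5, .crem, .front 8], (13, -12)),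
    (252, 119, 123, [.comm, .pull, .pull, .front 1, .front 1, .front 3, .crem, .front 6, .front 6, .front 6, .crem, .front 3, .front 8, .front 8, .crem, .front 4, .front 4, .front 8, .crem, .front 3, .front 1, .front 6, .crem, .front 7, .front 6, .front 2, .crem, .front 8, .front 1], (30, -48)),
    (84, 41, 42, [.comm, .pull, .pull, .front 1, .front 1, .front 3, .crem, .front 6, .front 6, .front 6, .crem, .front 3, .front 8, .front 8, .crem, .front 4, .front 4, .front 8, .crem, .front 3, .front 1, .front 6, .crem, .front 7, .front 6, .front 2, .crem, .front 8], (30, -48)),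
    (60, 30, 31, [.comm, .pull, .comm, .pull, .front 1, .front 3, .crem, .front 6, .front 6, .front 6, .crem, .front 3, .front 8, .front 8, .crem, .front 4, .front 4, .front 8, .crem, .front 3, .front 1, .front 6, .crem, .front 7, .front 6, .front 2, .crem, .front 8], (-18, 48)),
    (60, 31, 35, [.comm, .pull, .comm, .pull, .front 1, .front 3, .crem, .front 6, .front 6, .front 6, .crem, .front 3, .front 8, .front 8, .crem, .front 4, .front 4, .front 8, .crem, .front 3, .front 1, .front 6, .crem, .front 7, .front 6, .front 2, .crem, .front 1, .front 1], (-18, 48)),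
    (12, 7, 11, [.comm, .pull, .front 1, .front 2, .front 2, .crem, .front 4, .front 4, .front 2, .crem, .front 7, .front 7, .front 7, .crem, .front 5, .front 5, .front 5, .crem, .front 1, .front 1], (24, -24)),
    (12, 11, 12, [.comm, .pull, .front 2, .front 2, .front 2, .crem, .front 4, .front 4, .front 2, .crem, .front 7, .front 7, .front 7, .crem, .front 5, .front 5, .front 5, .crem, .front 6], (24, -24))]

/-- entries -/
def L_base6v : List Lin := [(3, 12), (14, 0), (10, 0), (10, 0), (10, 0), (10, 0), (10, 0)]

theorem cover_base6v : cover ⟨(27, 12), L_base6v, (24, 0), (0, 24)⟩ 0 1 cert_base6v = true := by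
  decide +kernel

end TB

open TB in
theorem base3 (x : ℝ) (h0 : 0 ≤ x) (h1 : x ≤ 1) :
    GoL (1 + (x / 2 + 1 / 12)) ((x / 2 + 1 / 12) :: [1/2, 1/2, 1/2, 1/3, 1/3, 1/3]) 1 x := by
  have h := base_of_cover (M := 12) (by norm_num) (13, 6) L_base3 cert_base3
    (by simp [cert_base3]) cover_base3 h0 h1
  simp only [L_base3, List.map_cons, List.map_nil, ev] at h
  convert h using 1
  · push_cast; ring
  · simp only [List.cons.injEq, and_true]
    refine ⟨?_, ?_, ?_, ?_, ?_, ?_, ?_⟩ <;> (push_cast; ring)

open TB in
theorem base4 (x : ℝ) (h0 : 0 ≤ x) (h1 : x ≤ 1) :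
    GoL (1 + (x / 2 + 1 / 16)) ((x / 2 + 1 / 16) :: [1/2, 1/2, 3/8, 3/8, 3/8, 3/8]) 1 x := by
  have h := base_of_cover (M := 16) (by norm_num) (17, 8) L_base4 cert_base4
    (by simp [cert_base4]) cover_base4 h0 h1
  simp only [L_base4, List.map_cons, List.map_nil, ev] at h
  convert h using 1
  · push_cast; ring
  · simp only [List.cons.injEq, and_true]
    refine ⟨?_, ?_, ?_, ?_, ?_, ?_, ?_⟩ <;> (push_cast; ring)

open TB in
theorem base5 (x : ℝ) (h0 : 0 ≤ x) (h1 : x ≤ 1) :
    GoL (1 + (x / 2 + 1 / 20)) ((x / 2 + 1 / 20) :: [1/2, 2/5, 2/5, 2/5, 2/5, 2/5]) 1 x := by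
  have h := base_of_cover (M := 20) (by norm_num) (21, 10) L_base5 cert_base5
    (by simp [cert_base5]) cover_base5 h0 h1
  simp only [L_base5, List.map_cons, List.map_nil, ev] at h
  convert h using 1
  · push_cast; ring
  · simp only [List.cons.injEq, and_true]
    refine ⟨?_, ?_, ?_, ?_, ?_, ?_, ?_⟩ <;> (push_cast; ring)

open TB in
theorem base6 (x : ℝ) (h0 : 0 ≤ x) (h1 : x ≤ 1) :
    GoL (1 + (x / 2 + 1 / 24)) ((x / 2 + 1 / 24) :: [5/12, 5/12, 5/12, 5/12, 5/12, 5/12]) 1 x := by
  have h := base_of_cover (M := 24) (by norm_num) (25, 12) L_base6 cert_base6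
    (by simp [cert_base6]) cover_base6 h0 h1
  simp only [L_base6, List.map_cons, List.map_nil, ev] at h
  convert h using 1
  · push_cast; ring
  · simp only [List.cons.injEq, and_true]
    refine ⟨?_, ?_, ?_, ?_, ?_, ?_, ?_⟩ <;> (push_cast; ring)

open TB in
theorem base6v (x : ℝ) (h0 : 0 ≤ x) (h1 : x ≤ 1) :
    GoL (1 + (x / 2 + 1 / 8)) ((x / 2 + 1 / 8) :: [7/12, 5/12, 5/12, 5/12, 5/12, 5/12]) 1 x := by
  have h := base_of_cover (M := 24) (by norm_num) (27, 12) L_base6v cert_base6v
    (by simp [cert_base6v]) cover_base6v h0 h1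
  simp only [L_base6v, List.map_cons, List.map_nil, ev] at h
  convert h using 1
  · push_cast; ring
  · simp only [List.cons.injEq, and_true]
    refine ⟨?_, ?_, ?_, ?_, ?_, ?_, ?_⟩ <;> (push_cast; ring)

end Pool.Agent.Stair
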