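import Pool.Agent.Lib.MP_f690a7_gt.Tt

/-!
Values of the functional on the line `c = 1/2 + δ/(4p)` (good side).
-/

namespace Pool.Agent.Stair

open Finset

namespace Val

/-! ### Weights -/

theorem euN_lt (p : ℕ) : ∀ n, n ≤ p → euN 1 p n = (1, p - n) := by
  intro n
  induction n with
  | zero => intro _; rfl
  | succ n ih =>
    intro h
    have h1 := ih (by omega)
    rw [euN, h1, if_pos (by show 1 ≤ p - n; omega)]
    show (1, p - n - 1) = (1, p - (n + 1))
    rw [Nat.sub_sub]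

theorem euN_ge (p : ℕ) : ∀ n, euN 1 p (p + n) = (1, 0) := by
  intro n
  induction n with
  | zero => rw [Nat.add_zero, euN_lt p p le_rfl, Nat.sub_self]
  | succ n ih =>
    rw [← Nat.add_assoc, euN, ih, if_neg (by norm_num)]
    rfl

theorem wN_lt {p n : ℕ} (h : n < p) : wN 1 p n = 1 := by
  rw [wN, euN_lt p n h.le]
  show min 1 (p - n) = 1
  omega

theorem wN_ge (p n : ℕ) : wN 1 p (p + n) = 0 := by
  rw [wN, euN_ge]
  rfl

theorem eu_lt (p : ℕ) (δ : ℝ) (h0 : 0 ≤ δ) : ∀ n, n ≤ p → eu 1 (p + δ) n = (1, p + δ - n) := by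
  intro n
  induction n with
  | zero => intro _; simp [eu]
  | succ n ih =>
    intro h
    have h1 := ih (by omega)
    have h2 : ((n : ℝ) + 1) ≤ p := by exact_mod_cast h
    rw [eu, h1, if_pos (by show (1 : ℝ) ≤ p + δ - n; linarith)]
    apply Prod.ext
    · rfl
    · show (p : ℝ) + δ - n - 1 = p + δ - ((n + 1 : ℕ) : ℝ)
      push_cast
      ring

theorem eu_ge (p : ℕ) (δ : ℝ) (h0 : 0 ≤ δ) : ∀ n, eu 1 (p + δ) (p + n) = eu 1 δ n := by
  intro n
  induction n with
  | zero =>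
    rw [Nat.add_zero, eu_lt p δ h0 p le_rfl]
    simp [eu]
  | succ n ih =>
    rw [← Nat.add_assoc, eu, ih]
    rfl

theorem wt_lt {p n : ℕ} {δ : ℝ} (h0 : 0 ≤ δ) (h : n < p) : wt 1 (p + δ) n = 1 := by
  rw [wt, eu_lt p δ h0 n h.le]
  have h2 : ((n : ℝ) + 1) ≤ p := by exact_mod_cast h
  exact min_eq_left (by show (1 : ℝ) ≤ p + δ - n; linarith)

theorem wt_ge (p n : ℕ) {δ : ℝ} (h0 : 0 ≤ δ) : wt 1 (p + δ) (p + n) = wt 1 δ n := by
  rw [wt, eu_ge p δ h0 n]
  rfl

/-! ### The difference of the functional and a multiple of the form -/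

/-- the functional splits -/
theorem phi_split {F : Lat II} {p : ℕ} (hw : ∀ n, F.2 (Sum.inr n) = 2 * (wN 1 p n : ℤ)) (c : ℝ)
    {δ : ℝ} (h0 : 0 ≤ δ) (A : Lat II) (hA : ∀ n, A.2 (Sum.inr (p + n)) = 0) :
    phi F c (p + δ) A = c * form F A + (2 * c - 1) * ∑ i ∈ range p, (A.2 (Sum.inr i) : ℝ) := by
  classical
  have hsub : A.2.support ⊆ A.2.support ∪ (range p).image Sum.inr := Finset.subset_union_left
  rw [phi, form_eq_vec, vec_eq_sum _ _ A _ hsub, vec_eq_sum _ _ A _ hsub]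
  have h1 : ∑ i ∈ range p, (A.2 (Sum.inr i) : ℝ) =
      ∑ j ∈ A.2.support ∪ (range p).image Sum.inr,
        (if j ∈ (range p).image (Sum.inr : ℕ → II) then (A.2 j : ℝ) else 0) := by
    rw [← Finset.sum_filter, Finset.filter_mem_eq_inter,
      Finset.inter_eq_right.2 Finset.subset_union_right,
      Finset.sum_image (fun _ _ _ _ h => Sum.inr_injective h)]
  rw [h1, Finset.mul_sum]
  have h2 : ∀ j ∈ A.2.support ∪ (range p).image Sum.inr,
      Sum.elim (fun i => c * (F.2 (Sum.inl i) : ℝ)) (fun n => wt 1 (p + δ) n) j * (A.2 j : ℝ) =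
        c * ((F.2 j : ℝ) * (A.2 j : ℝ)) -
          (2 * c - 1) * (if j ∈ (range p).image (Sum.inr : ℕ → II) then (A.2 j : ℝ) else 0) := by
    intro j _
    rcases j with i | n
    · rw [if_neg (by simp)]
      simp only [Sum.elim_inl]
      ring
    · simp only [Sum.elim_inr]
      by_cases hn : n < p
      · rw [if_pos (by simp [hn]), wt_lt h0 hn, hw, wN_lt hn]
        push_cast
        ring
      · obtain ⟨k, rfl⟩ := Nat.exists_eq_add_of_le (not_lt.1 hn)
        rw [if_neg (by simp), hA]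
        simp
  rw [Finset.sum_congr rfl h2, Finset.sum_sub_distrib, ← Finset.mul_sum, ← Finset.mul_sum]
  ring

end Val

open Val

variable {F : Lat II} {g : Adm II} {s : II} {p q k : ℕ}

theorem val (H : Fdat F g s p 1 2) (δ : ℝ) (h0 : 0 ≤ δ) (h1 : δ < 1) :
    phi F (1 / 2 + δ / (4 * p)) (p + δ) (g.e.symm (LL - EE s)) = δ ∧
    (∀ j, j ≠ s → F.2 j ≠ 0 →
      phi F (1 / 2 + δ / (4 * p)) (p + δ) (g.e.symm (EE j)) = δ * tt g p j / (2 * p)) ∧
    (∀ i, F.2 (Sum.inl i) = 0 →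
      phi F (1 / 2 + δ / (4 * p)) (p + δ) (g.e.symm (EE (Sum.inl i))) = 0) ∧
    (∀ n, phi F (1 / 2 + δ / (4 * p)) (p + δ) (g.e.symm (EE (Sum.inr (p + n)))) = wt 1 δ n) ∧
    (∀ j, F.2 j = 0 → tt g p j = 0) ∧ F.2 s ≠ 0 ∧ (∀ n, F.2 (Sum.inr (p + n)) = 0) ∧
    ∀ S : Finset II, s ∉ S → (∀ j, j ≠ s → F.2 j ≠ 0 → j ∈ S) →
      phi F (1 / 2 + δ / (4 * p)) (p + δ) (g.e.symm (EE s)) =
        1 / 2 + δ * (1 - 5 * p) / (4 * p) + (∑ j ∈ S, δ * tt g p j / (2 * p)) / 2 := by
  classical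
  have hp : 0 < p := lt_of_lt_of_le Nat.zero_lt_one H.hpq
  have hpR : (0 : ℝ) < p := by exact_mod_cast hp
  have hw : ∀ n, F.2 (Sum.inr n) = 2 * (wN 1 p n : ℤ) := by
    intro n
    have := H.hw n
    exact_mod_cast this
  have hwp : ∀ n, F.2 (Sum.inr (p + n)) = 0 := by
    intro n; rw [hw, wN_ge]; rfl
  have hwl : ∀ n, n < p → F.2 (Sum.inr n) = 2 := by
    intro n hn; rw [hw, wN_lt hn]; rfl
  have hs0 : F.2 s ≠ 0 := by
    intro h
    have h2 := g.form_e F (EE s)
    rw [H.hF, H.hfix s h, form_sub_left, form_LL_EE, form_EE_self, form_EE, h] at h2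
    omega
  have hfs : ∀ j, F.2 j = 0 → g.e.symm (EE j) = EE j := by
    intro j hj
    rw [AddEquiv.symm_apply_eq, H.hfix j hj]
  -- coordinates of the preimages
  have hco : ∀ B j, (g.e.symm B).2 j = form B (g.e (EE j)) := by
    intro B j
    rw [← form_EE, ← g.form_e, g.e.apply_symm_apply]
  have hcF : ∀ B, form F (g.e.symm B) = form (LL - EE s) B := by
    intro B
    rw [← g.form_e, g.e.apply_symm_apply, H.hF]
  have hm : ∀ i j, form (EE j) (g.e (EE (Sum.inr i : II))) = (g.e (EE (Sum.inr i))).2 j := by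
    intro i j
    rw [form_comm, form_EE]
  have htail : ∀ j, F.2 j ≠ 0 → ∀ n, (g.e.symm (EE j)).2 (Sum.inr (p + n)) = 0 := by
    intro j hj n
    rw [hco, H.hfix _ (hwp n), form_EE_ne]
    rintro rfl
    exact hj (hwp n)
  have hc : 2 * (1 / 2 + δ / (4 * p)) - 1 = δ / (2 * p) := by
    field_simp
    ring
  have hFs : g.e.symm (LL - EE s) = F := by
    rw [AddEquiv.symm_apply_eq, H.hF]
  have ht0 : ∀ i, i < p → ∀ j, F.2 j = 0 → (g.e (EE (Sum.inr i))).2 j = 0 := by
    intro i hi j hj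
    rw [← form_EE, ← H.hfix j hj, g.form_e, form_EE_ne]
    rintro rfl
    rw [hwl i hi] at hj
    omega
  refine ⟨?_, ?_, ?_, ?_, ?_, hs0, hwp, ?_⟩
  · rw [phi_split hw _ h0 _ (by intro n; rw [hFs]; exact hwp n), hFs, hc]
    have h2 : form F F = 0 := by
      rw [← g.form_e, H.hF, form_sub_left, form_sub_right, form_sub_right, form_LL_LL, form_LL_EE,
        form_EE_LL, form_EE_self]
      norm_num
    rw [h2, Finset.sum_congr rfl (fun i hi => by rw [hwl i (Finset.mem_range.1 hi)])]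
    simp only [Finset.sum_const, Finset.card_range, nsmul_eq_mul]
    push_cast
    field_simp
    ring
  · intro j hj hFj
    rw [phi_split hw _ h0 _ (htail j hFj), hcF, hc, form_sub_left, form_LL_EE,
      form_EE_ne (Ne.symm hj)]
    rw [Finset.sum_congr rfl (fun i _ => by rw [hco, hm])]
    rw [tt]
    push_cast
    ring
  · intro i hi
    rw [hfs _ hi, phi, vec_EE]
    simp [hi]
  · intro n
    rw [hfs _ (hwp n), phi, vec_EE]
    exact wt_ge p n h0
  · intro j hj
    rw [tt]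
    exact Finset.sum_eq_zero (fun i hi => ht0 i (Finset.mem_range.1 hi) j hj)
  · intro S hsS hS
    rw [phi_split hw _ h0 _ (htail s hs0), hcF, hc, form_sub_left, form_LL_EE, form_EE_self]
    rw [Finset.sum_congr rfl (fun i _ => by rw [hco, hm])]
    have h3 : ∀ i ∈ range p, ((g.e (EE (Sum.inr i))).2 s : ℝ) =
        (∑ j ∈ S, ((g.e (EE (Sum.inr i))).2 j : ℝ)) / 2 - 5 / 2 := by
      intro i hi
      have hi' := Finset.mem_range.1 hi
      have h4 : form F (EE (Sum.inr i)) = form (LL - EE s) (g.e (EE (Sum.inr i))) := by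
        rw [← g.form_e, H.hF]
      rw [form_EE, hwl i hi', form_sub_left, hm, form_comm, form_LL] at h4
      have h5 : kap (g.e (EE (Sum.inr i))) = 1 := by rw [g.kap_e, kap_EE]
      have h6 : (g.e (EE (Sum.inr i))).2.support ⊆ insert s S := by
        intro j hj
        by_contra h7
        rw [Finset.mem_insert, not_or] at h7
        have h8 : F.2 j = 0 := by
          by_contra h9
          exact h7.2 (hS j h7.1 h9)
        exact (Finsupp.mem_support_iff.1 hj) (ht0 i hi' j h8)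
      rw [kap_eq_sum _ _ h6, Finset.sum_insert hsS] at h5
      have h7 : ∑ j ∈ S, (g.e (EE (Sum.inr i))).2 j = 2 * (g.e (EE (Sum.inr i))).2 s + 5 := by
        linarith
      have h8 : ∑ j ∈ S, ((g.e (EE (Sum.inr i))).2 j : ℝ) =
          2 * ((g.e (EE (Sum.inr i))).2 s : ℝ) + 5 := by
        exact_mod_cast h7
      rw [h8]
      ring
    rw [Finset.sum_congr rfl h3, Finset.sum_sub_distrib, ← Finset.sum_div, Finset.sum_comm]
    have h9 : ∑ j ∈ S, δ * (tt g p j : ℝ) / (2 * p) =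
        δ / (2 * p) * ∑ j ∈ S, ∑ i ∈ range p, ((g.e (EE (Sum.inr i))).2 j : ℝ) := by
      rw [Finset.mul_sum]
      apply Finset.sum_congr rfl
      intro j _
      rw [tt]
      push_cast
      ring
    rw [h9]
    simp only [Finset.sum_const, Finset.card_range, nsmul_eq_mul]
    push_cast
    field_simp
    ring

end Pool.Agent.Stair
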